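import Mathlib
import Pool.Agent.N740.HK.Shk

/-!
# The number of large gaps of a set of integers: the deterministic part
-/

set_option autoImplicit false
set_option linter.unusedSectionVars false

open Filter Set
open scoped Topology

namespace Pool.Agent.N957.SQ

open Pool.Agent.R528.RM Pool.Agent.N740.HK

/-- the number of `n` with `p_n ≤ x` and `p_(n+1) - p_n > lam log² p_n` -/
noncomputable def NG (S : Set ℕ) (lam : ℝ) (x : ℕ) : ℕ :=
  {n : ℕ | pn S n ≤ x ∧ lam * Real.log (pn S n) ^ 2 < (pn S (n + 1) : ℝ) - pn S n}.ncard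

/-- the maximal gap -/
noncomputable def MG (S : Set ℕ) (x : ℕ) : ℕ := sSup {g | ∃ n, pn S n ≤ x ∧ g = pn S (n + 1) - pn S n}

/-- the members followed by a large gap -/
def BG (S : Set ℕ) (lam : ℝ) : Set ℕ := {t | t ∈ S ∧ ∀ r, t < r → r ≤ t + wl lam t → r ∉ S}

lemma fin_le {S : Set ℕ} (hS : S.Infinite) (x : ℕ) : {n : ℕ | pn S n ≤ x}.Finite := by
  refine (Set.finite_Iic x).subset fun n hn => ?_
  exact ((nth_mono hS).id_le n).trans hn

lemma mem_BG {S : Set ℕ} (hS : S.Infinite) {lam : ℝ} (hlam : 0 ≤ lam) (n : ℕ) :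
    pn S n ∈ BG S lam ↔ lam * Real.log (pn S n) ^ 2 < (pn S (n + 1) : ℝ) - pn S n := by
  have h0 : 0 ≤ lam * Real.log (pn S n) ^ 2 := by positivity
  constructor
  · rintro ⟨_, h2⟩
    by_contra hcon
    push Not at hcon
    have h3 : pn S n < pn S (n + 1) := nth_mono hS (Nat.lt_succ_self n)
    refine h2 (pn S (n + 1)) h3 ?_ (nth_mem hS (n + 1))
    have h4 : pn S (n + 1) - pn S n ≤ wl lam (pn S n) := by
      apply Nat.le_floor
      rw [Nat.cast_sub h3.le]
      exact hcon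
    omega
  · intro h
    refine ⟨nth_mem hS n, fun r hr1 hr2 hr => ?_⟩
    obtain ⟨m, hm⟩ := exists_nth hr
    have h1 : n < m := by
      rw [← (nth_mono hS).lt_iff_lt, hm]
      exact hr1
    have h2 : pn S (n + 1) ≤ r := by
      rw [← hm]
      exact (nth_mono hS).monotone h1
    have h3 : (r : ℝ) ≤ pn S n + wl lam (pn S n) := by exact_mod_cast hr2
    have h4 : (wl lam (pn S n) : ℝ) ≤ lam * Real.log (pn S n) ^ 2 := Nat.floor_le h0
    have h5 : (pn S (n + 1) : ℝ) ≤ r := by exact_mod_cast h2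
    linarith

lemma NG_eq {S : Set ℕ} (hS : S.Infinite) {lam : ℝ} (hlam : 0 ≤ lam) (x : ℕ) :
    NG S lam x = {t | t ≤ x ∧ t ∈ BG S lam}.ncard := by
  unfold NG
  rw [← Set.ncard_image_of_injective _ (nth_mono hS).injective]
  congr 1
  ext t
  simp only [Set.mem_image, mem_ofPred_eq]
  constructor
  · rintro ⟨n, ⟨h1, h2⟩, rfl⟩
    exact ⟨h1, (mem_BG hS hlam n).2 h2⟩
  · rintro ⟨h1, h2⟩
    obtain ⟨n, rfl⟩ := exists_nth h2.1
    exact ⟨n, ⟨h1, (mem_BG hS hlam n).1 h2⟩, rfl⟩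

lemma NG_mono {S : Set ℕ} (hS : S.Infinite) (lam : ℝ) {x y : ℕ} (h : x ≤ y) : NG S lam x ≤ NG S lam y :=
  Set.ncard_le_ncard (fun _ hn => ⟨hn.1.trans h, hn.2⟩) ((fin_le hS y).subset fun _ hn => hn.1)

lemma NG_anti {S : Set ℕ} (hS : S.Infinite) {lam lam' : ℝ} (h : lam ≤ lam') (x : ℕ) : NG S lam' x ≤ NG S lam x := by
  refine Set.ncard_le_ncard (fun n hn => ⟨hn.1, lt_of_le_of_lt ?_ hn.2⟩) ((fin_le hS x).subset fun _ hn => hn.1)
  exact mul_le_mul_of_nonneg_right h (sq_nonneg _)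

lemma NG_le {S : Set ℕ} (hS : S.Infinite) (lam : ℝ) (x : ℕ) : NG S lam x ≤ x + 1 := by
  have h1 : NG S lam x ≤ (Set.Iic x).ncard :=
    Set.ncard_le_ncard (fun n hn => ((nth_mono hS).id_le n).trans hn.1) (Set.finite_Iic x)
  have h2 : (Set.Iic x).ncard = x + 1 := by
    rw [← Finset.coe_Iic, Set.ncard_coe_finset, Nat.card_Iic]
  omega

/-- the hypotheses on the numbers of large gaps -/
structure Hyp (S : Set ℕ) : Prop where
  inf : S.Infinite
  upper : ∀ (q : ℚ) (k : ℕ), 0 < q → q ≤ 1 → ∃ K : ℝ, ∀ x : ℕ, 1 ≤ x → ∀ P : Finset ℕ,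
    (∀ t ∈ P, t ≤ x ∧ t ∈ BG S q) → (P.card : ℝ) ≤ K * (x : ℝ) ^ ((1 : ℝ) - q + 1 / ((k : ℝ) + 1))
  lower : ∀ (q b : ℚ), 0 < q → 0 < b → q + b < 1 → ∀ᶠ i : ℕ in atTop, ∃ P : Finset ℕ,
    P.card = ⌊Real.exp ((b : ℝ) * Real.log ((2 : ℝ) ^ i))⌋₊ ∧ ∀ t ∈ P, 2 ^ i < t ∧ t ≤ 2 ^ (i + 1) ∧ t ∈ BG S q
  up : Up S

lemma upper_all {S : Set ℕ} (h : Hyp S) {lam a : ℝ} (h0 : 0 ≤ lam) (h1 : lam ≤ 1) (ha : 1 - lam < a) :
    ∃ K c : ℝ, 1 ≤ K ∧ 0 ≤ c ∧ c < a ∧ ∀ x : ℕ, 1 ≤ x → (NG S lam x : ℝ) ≤ K * (x : ℝ) ^ c := by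
  rcases h0.eq_or_lt with h0 | h0
  · rw [← h0, sub_zero] at ha
    refine ⟨2, 1, by norm_num, zero_le_one, ha, fun x hx => ?_⟩
    have h2 : (NG S lam x : ℝ) ≤ x + 1 := by exact_mod_cast NG_le h.inf lam x
    have h3 : (1 : ℝ) ≤ x := by exact_mod_cast hx
    rw [Real.rpow_one]
    linarith
  · set η : ℝ := (a - (1 - lam)) / 3 with hη
    have hη0 : 0 < η := by rw [hη]; linarith
    obtain ⟨q, hq1, hq2⟩ := exists_rat_btwn (show max 0 (lam - η) < lam from max_lt h0 (by linarith))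
    have hq0 : (0 : ℝ) < q := lt_of_le_of_lt (le_max_left _ _) hq1
    have hq3 : lam - η < q := lt_of_le_of_lt (le_max_right _ _) hq1
    obtain ⟨k, hk⟩ := exists_nat_one_div_lt hη0
    have hq4 : (q : ℝ) ≤ 1 := hq2.le.trans h1
    obtain ⟨K, hK⟩ := h.upper q k (by exact_mod_cast hq0) (by exact_mod_cast hq4)
    refine ⟨max K 1, 1 - lam + 2 * η, le_max_right _ _, by linarith, by rw [hη]; linarith, fun x hx => ?_⟩
    have hx1 : (1 : ℝ) ≤ x := by exact_mod_cast hx
    have hfin : {t | t ≤ x ∧ t ∈ BG S q}.Finite := (Set.finite_Iic x).subset fun t ht => ht.1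
    have h2 := hK x hx hfin.toFinset fun t ht => by
      rw [Set.Finite.mem_toFinset] at ht
      exact ht
    rw [← Set.ncard_eq_toFinset_card _ hfin, ← NG_eq h.inf hq0.le] at h2
    have h3 : (NG S lam x : ℝ) ≤ NG S q x := by exact_mod_cast NG_anti h.inf hq2.le x
    have h4 : 0 ≤ (x : ℝ) ^ ((1 : ℝ) - q + 1 / ((k : ℝ) + 1)) := Real.rpow_nonneg (by linarith) _
    calc (NG S lam x : ℝ) ≤ K * (x : ℝ) ^ ((1 : ℝ) - q + 1 / ((k : ℝ) + 1)) := h3.trans h2
      _ ≤ max K 1 * (x : ℝ) ^ ((1 : ℝ) - q + 1 / ((k : ℝ) + 1)) :=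
        mul_le_mul_of_nonneg_right (le_max_left _ _) h4
      _ ≤ max K 1 * (x : ℝ) ^ (1 - lam + 2 * η) := by
        apply mul_le_mul_of_nonneg_left _ (le_trans zero_le_one (le_max_right _ _))
        exact Real.rpow_le_rpow_of_exponent_le hx1 (by linarith)

/-- the scale of `x` -/
lemma scale (i₀ : ℕ) : ∀ᶠ x : ℕ in atTop, ∃ i, i₀ ≤ i ∧ 2 ^ (i + 1) ≤ x ∧
    Real.log x - 2 * Real.log 2 ≤ Real.log ((2 : ℝ) ^ i) := by
  filter_upwards [eventually_ge_atTop (2 ^ (i₀ + 1))] with x hx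
  have hx0 : x ≠ 0 := by
    have : 0 < 2 ^ (i₀ + 1) := by positivity
    omega
  have h1 : i₀ + 1 ≤ Nat.log 2 x := Nat.le_log_of_pow_le (by norm_num) hx
  obtain ⟨i, hi⟩ : ∃ i, Nat.log 2 x = i + 1 := ⟨Nat.log 2 x - 1, by omega⟩
  refine ⟨i, by omega, ?_, ?_⟩
  · rw [← hi]
    exact Nat.pow_log_le_self 2 hx0
  · have h2 : x < 2 ^ (i + 2) := by
      have := Nat.lt_pow_succ_log_self (b := 2) (by norm_num) x
      rwa [hi] at this
    have h3 : (x : ℝ) ≤ 2 ^ (i + 2) := by exact_mod_cast h2.le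
    have h4 : Real.log x ≤ Real.log (2 ^ (i + 2)) := Real.log_le_log (by exact_mod_cast Nat.pos_of_ne_zero hx0) h3
    rw [Real.log_pow] at h4 ⊢
    push_cast at h4
    linarith

theorem law {S : Set ℕ} (h : Hyp S) {lam : ℝ} (h0 : 0 ≤ lam) (h1 : lam ≤ 1) :
    Tendsto (fun x : ℕ => Real.log (NG S lam x) / Real.log x) atTop (𝓝 (1 - lam)) := by
  have hlogx : Tendsto (fun x : ℕ => Real.log (x : ℝ)) atTop atTop :=
    Real.tendsto_log_atTop.comp tendsto_natCast_atTop_atTop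
  rw [tendsto_order]
  constructor
  · intro a ha
    rcases lt_or_ge a 0 with ha0 | ha0
    · refine Eventually.of_forall fun x => lt_of_lt_of_le ha0 ?_
      exact div_nonneg (Real.log_natCast_nonneg _) (Real.log_natCast_nonneg _)
    · obtain ⟨q, hq1, hq2⟩ := exists_rat_btwn (show lam < (lam + 1 - a) / 2 by linarith)
      obtain ⟨b, hb1, hb2⟩ := exists_rat_btwn (show a < 1 - (q : ℝ) by linarith)
      have hq0 : (0 : ℝ) < q := by linarith
      have hb0 : (0 : ℝ) < b := by linarith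
      have hqb : (q : ℝ) + b < 1 := by linarith
      obtain ⟨i₁, hi₁⟩ := eventually_atTop.1 (h.lower q b (by exact_mod_cast hq0) (by exact_mod_cast hb0)
        (by exact_mod_cast hqb))
      have hbig := (hlogx.const_mul_atTop (show 0 < (b : ℝ) - a by linarith)).eventually_gt_atTop
        ((2 * b + 1) * Real.log 2)
      have hbig2 := (hlogx.const_mul_atTop hb0).eventually_ge_atTop ((2 * b + 1) * Real.log 2)
      filter_upwards [scale i₁, hbig, hbig2, hlogx.eventually_gt_atTop 0] with x hx h2 h2' h3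
      obtain ⟨i, hi, hx1, hx2⟩ := hx
      obtain ⟨P, hP1, hP2⟩ := hi₁ i hi
      rw [lt_div_iff₀ h3]
      have h4 : P.card ≤ NG S lam x := by
        refine le_trans ?_ (NG_anti h.inf (show lam ≤ (q : ℝ) by linarith) x)
        rw [NG_eq h.inf hq0.le, ← Set.ncard_coe_finset]
        refine Set.ncard_le_ncard (fun t ht => ?_) ((Set.finite_Iic x).subset fun t ht => ht.1)
        obtain ⟨_, t2, t3⟩ := hP2 t ht
        exact ⟨t2.trans hx1, t3⟩
      have h5 : Real.exp (b * Real.log ((2 : ℝ) ^ i)) ≤ 2 * (NG S lam x : ℝ) := by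
        have h6 : Real.exp (b * Real.log ((2 : ℝ) ^ i)) < P.card + 1 := by
          rw [hP1]
          exact Nat.lt_floor_add_one _
        have h7 : (P.card : ℝ) ≤ NG S lam x := by exact_mod_cast h4
        have h8 : 1 ≤ P.card := by
          rw [hP1]
          apply Nat.le_floor
          rw [Nat.cast_one]
          apply Real.one_le_exp
          rw [Real.log_pow]
          have := Real.log_two_gt_d9
          positivity
        have h9 : (1 : ℝ) ≤ P.card := by exact_mod_cast h8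
        linarith
      have h10 : (0 : ℝ) < NG S lam x := by
        have := Real.exp_pos (b * Real.log ((2 : ℝ) ^ i))
        linarith
      have h11 : b * Real.log ((2 : ℝ) ^ i) ≤ Real.log 2 + Real.log (NG S lam x) := by
        rw [← Real.log_mul (by norm_num) h10.ne']
        rw [← Real.log_exp (b * Real.log ((2 : ℝ) ^ i))]
        exact Real.log_le_log (Real.exp_pos _) h5
      have h12 : (b : ℝ) * (Real.log x - 2 * Real.log 2) ≤ b * Real.log ((2 : ℝ) ^ i) :=
        mul_le_mul_of_nonneg_left hx2 hb0.le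
      nlinarith
  · intro a ha
    obtain ⟨K, c, hK, hc0, hc, hN⟩ := upper_all h h0 h1 ha
    have hbig := (hlogx.const_mul_atTop (show 0 < a - c by linarith)).eventually_gt_atTop (Real.log K)
    filter_upwards [hbig, hlogx.eventually_gt_atTop 0, eventually_ge_atTop 1] with x h2 h3 hx
    rw [div_lt_iff₀ h3]
    have hx0 : (0 : ℝ) < x := by exact_mod_cast hx
    rcases Nat.eq_zero_or_pos (NG S lam x) with h4 | h4
    · rw [h4, Nat.cast_zero, Real.log_zero]
      have : 0 < a := by linarith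
      positivity
    · have h5 : Real.log (NG S lam x) ≤ Real.log (K * (x : ℝ) ^ c) :=
        Real.log_le_log (by exact_mod_cast h4) (hN x hx)
      rw [Real.log_mul (by linarith) (Real.rpow_pos_of_pos hx0 _).ne', Real.log_rpow hx0] at h5
      nlinarith

theorem fin_large {S : Set ℕ} (h : Hyp S) {lam : ℝ} (h1 : 1 < lam) :
    ∃ n₀ : ℕ, ∀ n, n₀ ≤ n → (pn S (n + 1) : ℝ) - pn S n ≤ lam * Real.log (pn S n) ^ 2 := by
  have h2 := (tendsto_nth h.inf).eventually (h.up lam h1)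
  obtain ⟨n₀, hn₀⟩ := eventually_atTop.1 h2
  refine ⟨n₀, fun n hn => ?_⟩
  obtain ⟨r, r1, r2, r3⟩ := hn₀ n hn
  obtain ⟨m, hm⟩ := exists_nth r3
  have h3 : n < m := by
    rw [← (nth_mono h.inf).lt_iff_lt, hm]
    omega
  have h4 : pn S (n + 1) ≤ pn S n + r := by
    rw [← hm]
    exact (nth_mono h.inf).monotone h3
  have h5 : (pn S (n + 1) : ℝ) ≤ pn S n + r := by exact_mod_cast h4
  linarith

lemma bdd {S : Set ℕ} (hS : S.Infinite) (x : ℕ) : BddAbove {g | ∃ n, pn S n ≤ x ∧ g = pn S (n + 1) - pn S n} := by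
  refine ⟨pn S (x + 1), ?_⟩
  rintro g ⟨n, hn, rfl⟩
  have h1 : n ≤ x := ((nth_mono hS).id_le n).trans hn
  have h2 : pn S (n + 1) ≤ pn S (x + 1) := (nth_mono hS).monotone (by omega)
  omega

theorem max_law {S : Set ℕ} (h : Hyp S) :
    Tendsto (fun x : ℕ => (MG S x : ℝ) / Real.log x ^ 2) atTop (𝓝 1) := by
  have hlogx : Tendsto (fun x : ℕ => Real.log (x : ℝ)) atTop atTop :=
    Real.tendsto_log_atTop.comp tendsto_natCast_atTop_atTop
  have hlogx2 : Tendsto (fun x : ℕ => Real.log (x : ℝ) ^ 2) atTop atTop :=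
    (tendsto_pow_atTop (by norm_num)).comp hlogx
  rw [tendsto_order]
  constructor
  · intro a ha
    rcases lt_or_ge a 0 with ha0 | ha0
    · exact Eventually.of_forall fun x => lt_of_lt_of_le ha0 (by positivity)
    · obtain ⟨q, hq1, hq2⟩ := exists_rat_btwn ha
      obtain ⟨b, hb1, hb2⟩ := exists_rat_btwn (show (0 : ℝ) < 1 - (q : ℝ) by linarith)
      have hq0 : (0 : ℝ) < q := by linarith
      have hqb : (q : ℝ) + b < 1 := by linarith
      obtain ⟨i₁, hi₁⟩ := eventually_atTop.1 (h.lower q b (by exact_mod_cast hq0) (by exact_mod_cast hb1)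
        (by exact_mod_cast hqb))
      -- `a log² x < q (log x - 2 log 2)²` for large `x`
      have hq : ∀ᶠ y : ℝ in atTop, a * y ^ 2 < q * (y - 2 * Real.log 2) ^ 2 := by
        have hl : 0 < Real.log 2 := Real.log_pos one_lt_two
        filter_upwards [eventually_gt_atTop (4 * q * Real.log 2 / (q - a)), eventually_gt_atTop 0] with y hy hy0
        rw [div_lt_iff₀ (by linarith)] at hy
        have : 0 < q * (2 * Real.log 2) ^ 2 := by positivity
        nlinarith
      filter_upwards [scale i₁, hlogx.eventually hq, hlogx.eventually_gt_atTop (2 * Real.log 2)] with x hx h2 h3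
      obtain ⟨i, hi, hx1, hx2⟩ := hx
      obtain ⟨P, hP1, hP2⟩ := hi₁ i hi
      have hl : 0 < Real.log 2 := Real.log_pos one_lt_two
      have h8 : P.Nonempty := by
        rw [← Finset.card_pos, hP1]
        apply Nat.floor_pos.2
        apply Real.one_le_exp
        rw [Real.log_pow]
        positivity
      obtain ⟨t, ht⟩ := h8
      obtain ⟨t1, t2, t3⟩ := hP2 t ht
      obtain ⟨n, rfl⟩ := exists_nth t3.1
      have h4 := (mem_BG h.inf hq0.le n).1 t3
      have h5 : pn S (n + 1) - pn S n ≤ MG S x := le_csSup (bdd h.inf x) ⟨n, t2.trans hx1, rfl⟩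
      have h6 : (pn S (n + 1) : ℝ) - pn S n ≤ MG S x := by
        rw [← Nat.cast_sub (nth_mono h.inf (Nat.lt_succ_self n)).le]
        exact_mod_cast h5
      have h7 : Real.log ((2 : ℝ) ^ i) ≤ Real.log (pn S n) :=
        Real.log_le_log (by positivity) (by exact_mod_cast t1.le)
      have h9 : (Real.log x - 2 * Real.log 2) ^ 2 ≤ Real.log (pn S n) ^ 2 :=
        pow_le_pow_left₀ (by linarith) (hx2.trans h7) 2
      have h10 : (q : ℝ) * (Real.log x - 2 * Real.log 2) ^ 2 ≤ q * Real.log (pn S n) ^ 2 :=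
        mul_le_mul_of_nonneg_left h9 hq0.le
      have h11 : 0 < Real.log (x : ℝ) ^ 2 := by
        have : 0 < Real.log (x : ℝ) := by linarith
        positivity
      rw [lt_div_iff₀ h11]
      linarith
  · intro a ha
    obtain ⟨b, hb1, hb2⟩ := exists_between ha
    obtain ⟨n₀, hn₀⟩ := fin_large h hb1
    have hbig := (hlogx2.const_mul_atTop (show 0 < b by linarith)).eventually_ge_atTop (pn S (n₀ + 1) : ℝ)
    filter_upwards [hbig, hlogx.eventually_gt_atTop 0, eventually_ge_atTop (pn S 0)] with x h2 h3 hx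
    have h11 : 0 < Real.log (x : ℝ) ^ 2 := by positivity
    rw [div_lt_iff₀ h11]
    have h4 : MG S x ∈ {g | ∃ n, pn S n ≤ x ∧ g = pn S (n + 1) - pn S n} :=
      Nat.sSup_mem ⟨_, 0, hx, rfl⟩ (bdd h.inf x)
    obtain ⟨n, hn1, hn2⟩ := h4
    have h5 : (MG S x : ℝ) ≤ b * Real.log x ^ 2 := by
      rcases Nat.lt_or_ge n n₀ with hn | hn
      · refine le_trans ?_ h2
        have h6 : MG S x ≤ pn S (n₀ + 1) := by
          have : pn S (n + 1) ≤ pn S (n₀ + 1) := (nth_mono h.inf).monotone (by omega)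
          omega
        exact_mod_cast h6
      · have h7 := hn₀ n hn
        rw [hn2, Nat.cast_sub (nth_mono h.inf (Nat.lt_succ_self n)).le]
        refine h7.trans ?_
        apply mul_le_mul_of_nonneg_left _ (by linarith)
        refine pow_le_pow_left₀ (Real.log_natCast_nonneg _) ?_ 2
        rcases Nat.eq_zero_or_pos (pn S n) with h8 | h8
        · rw [h8, Nat.cast_zero, Real.log_zero]
          exact Real.log_natCast_nonneg x
        · exact Real.log_le_log (by exact_mod_cast h8) (by exact_mod_cast hn1)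
    nlinarith

end Pool.Agent.N957.SQ
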