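import Mathlib
import Pool.Agent.N740.HK.Tgt
import Pool.Agent.N740.HK.Trials

/-!
# Chosen terms of exponentially growing sequences in sequential models
-/

set_option autoImplicit false
set_option linter.unusedSectionVars false

open MeasureTheory Filter Set
open scoped ENNReal Topology NNReal

namespace Pool.Agent.N957.SQ

open Pool.Agent.R528.RM Pool.Agent.N740.HK

variable {Ω : Type} {m0 : MeasurableSpace Ω} {μ : Measure Ω} [IsProbabilityMeasure μ]
  {ℱ : Filtration ℕ m0} {A : ℕ → Set Ω}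

/-- remove the choices without violation at the places `T (a + 1), ..., T (a + j)` -/
def ZZ (A V : ℕ → Set Ω) (T : ℕ → ℕ) (a : ℕ) (B : Set Ω) : ℕ → Set Ω
  | 0 => B
  | j + 1 => ZZ A V T a B j \ (A (T (a + j + 1)) \ V (a + j + 1))

/-- no choice and no violation at the places `T (a + 1), ..., T (a + j)` -/
def XX (A V : ℕ → Set Ω) (T : ℕ → ℕ) (a : ℕ) : ℕ → Set Ω
  | 0 => univ
  | j + 1 => (XX A V T a j \ V (a + j + 1)) \ A (T (a + j + 1))

lemma le_pred {T : ℕ → ℕ} (hT : StrictMono T) (n : ℕ) : T n ≤ T (n + 1) - 1 ∧ T (n + 1) - 1 + 1 = T (n + 1) := by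
  have := hT (Nat.lt_succ_self n)
  simp only [Nat.succ_eq_add_one] at this
  omega

lemma ZZ_meas (hA : ∀ n, MeasurableSet[ℱ n] (A n)) {T : ℕ → ℕ} (hT : StrictMono T) {V : ℕ → Set Ω}
    (hV : ∀ n, 1 ≤ n → MeasurableSet[ℱ (T n - 1)] (V n)) (a : ℕ) {B : Set Ω} (hB : MeasurableSet[ℱ (T a)] B) (j : ℕ) :
    MeasurableSet[ℱ (T (a + j))] (ZZ A V T a B j) := by
  induction j with
  | zero => exact hB
  | succ j ih =>
    obtain ⟨h1, h2⟩ := le_pred hT (a + j)
    have e : a + (j + 1) = a + j + 1 := by ring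
    rw [e]
    have k1 : MeasurableSet[ℱ (T (a + j + 1))] (ZZ A V T a B j) := ℱ.mono (by omega) _ ih
    have k2 : MeasurableSet[ℱ (T (a + j + 1))] (A (T (a + j + 1))) := hA _
    have k3 : MeasurableSet[ℱ (T (a + j + 1))] (V (a + j + 1)) := ℱ.mono (by omega) _ (hV (a + j + 1) (by omega))
    exact @MeasurableSet.diff _ (ℱ _) _ _ k1 (@MeasurableSet.diff _ (ℱ _) _ _ k2 k3)

lemma XX_meas (hA : ∀ n, MeasurableSet[ℱ n] (A n)) {T : ℕ → ℕ} (hT : StrictMono T) {V : ℕ → Set Ω}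
    (hV : ∀ n, 1 ≤ n → MeasurableSet[ℱ (T n - 1)] (V n)) (a j : ℕ) :
    MeasurableSet[ℱ (T (a + j))] (XX A V T a j) := by
  induction j with
  | zero => exact @MeasurableSet.univ _ (ℱ _)
  | succ j ih =>
    obtain ⟨h1, h2⟩ := le_pred hT (a + j)
    have e : a + (j + 1) = a + j + 1 := by ring
    rw [e]
    have k1 : MeasurableSet[ℱ (T (a + j + 1))] (XX A V T a j) := ℱ.mono (by omega) _ ih
    have k2 : MeasurableSet[ℱ (T (a + j + 1))] (A (T (a + j + 1))) := hA _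
    have k3 : MeasurableSet[ℱ (T (a + j + 1))] (V (a + j + 1)) := ℱ.mono (by omega) _ (hV (a + j + 1) (by omega))
    exact @MeasurableSet.diff _ (ℱ _) _ _ (@MeasurableSet.diff _ (ℱ _) _ _ k1 k3) k2

/-- telescoping lower bound -/
lemma ZZ_ge (hA : ∀ n, MeasurableSet[ℱ n] (A n)) {T : ℕ → ℕ} (hT : StrictMono T) {V : ℕ → Set Ω}
    (hV : ∀ n, 1 ≤ n → MeasurableSet[ℱ (T n - 1)] (V n)) {c c' : ℝ} (hc : 0 < c) (hcc : c < c') {a : ℕ}
    (ha : c * c' ≤ a * (c' - c)) (ha0 : 1 ≤ a)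
    (hu : ∀ n, a < n → ∀ ω, ω ∉ V n → dens μ ℱ A (T n - 1) ω ≤ c / n)
    {B : Set Ω} (hB : MeasurableSet[ℱ (T a)] B) (j : ℕ) :
    ((a : ℝ) / (a + j : ℕ)) ^ c' * μ.real B ≤ μ.real (ZZ A V T a B j) := by
  have ha1 : (1 : ℝ) ≤ a := by exact_mod_cast ha0
  induction j with
  | zero =>
    rw [Nat.add_zero, div_self (by linarith), Real.one_rpow, one_mul]
    exact le_of_eq rfl
  | succ j ih =>
    have hZ := ZZ_meas hA hT hV a hB j
    obtain ⟨h1, h2⟩ := le_pred hT (a + j)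
    set n : ℕ := a + j + 1 with hn
    have hn1 : (a : ℝ) + 1 ≤ n := by
      have : a + 1 ≤ n := by omega
      exact_mod_cast this
    have hVn : MeasurableSet[ℱ (T n - 1)] (V n) := hV n (by omega)
    have hY : MeasurableSet[ℱ (T n - 1)] (ZZ A V T a B j \ V n) :=
      @MeasurableSet.diff _ (ℱ _) _ _ (ℱ.mono h1 _ hZ) hVn
    have hup := upper_meas (μ := μ) hA (T n - 1) hY (u := c / n) (fun ω hω => hu n (by omega) ω hω.2)
    rw [h2] at hup
    have hA0 : MeasurableSet (A (T n)) := ℱ.le _ _ (hA _)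
    have hV0 : MeasurableSet (V n) := ℱ.le _ _ hVn
    have e1 : ZZ A V T a B (j + 1) = ZZ A V T a B j \ (A (T n) \ V n) := rfl
    have h3 := measureReal_inter_add_sdiff (μ := μ) (s := ZZ A V T a B j) (hA0.diff hV0)
    have e2 : ZZ A V T a B j ∩ (A (T n) \ V n) = (ZZ A V T a B j \ V n) ∩ A (T n) := by
      ext ω
      simp only [mem_inter_iff, Set.mem_sdiff]
      tauto
    rw [e2] at h3
    have h4 : μ.real (ZZ A V T a B j \ V n) ≤ μ.real (ZZ A V T a B j) := measureReal_mono sdiff_subset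
    have hcn : 0 ≤ c / (n : ℝ) := by positivity
    have h5 : (1 - c / n) * μ.real (ZZ A V T a B j) ≤ μ.real (ZZ A V T a B (j + 1)) := by
      rw [e1]
      nlinarith
    -- the factor
    have hnc : c < n := by
      have : c * c' ≤ n * (c' - c) := ha.trans (mul_le_mul_of_nonneg_right (by linarith) (by linarith))
      by_contra hcon
      push Not at hcon
      nlinarith
    have hn0 : (0 : ℝ) < n := by linarith
    have hpred : (0 : ℝ) < (a + j : ℕ) := by
      have : 0 < a + j := by omega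
      exact_mod_cast this
    have hfac : (((a + j : ℕ) : ℝ) / n) ^ c' ≤ 1 - c / n := by
      have hp1 : 0 < 1 - c / (n : ℝ) := by
        rw [sub_pos, div_lt_one hn0]
        exact hnc
      have hq1 : 0 < ((a + j : ℕ) : ℝ) / n := by positivity
      rw [Real.rpow_def_of_pos hq1, ← Real.le_log_iff_exp_le hp1]
      have l1 : 1 - (1 - c / (n : ℝ))⁻¹ ≤ Real.log (1 - c / n) := Real.one_sub_inv_le_log_of_pos hp1
      have l2 : 1 - (1 - c / (n : ℝ))⁻¹ = -(c / (n - c)) := by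
        have q1 : (n : ℝ) - c ≠ 0 := (sub_pos.2 hnc).ne'
        have q2 : (1 - c / (n : ℝ))⁻¹ = n / (n - c) := by rw [one_sub_div hn0.ne', inv_div]
        have q3 : (n : ℝ) / (n - c) = 1 + c / (n - c) := by
          rw [← div_self q1, ← add_div]
          congr 1
          ring
        rw [q2, q3]
        ring
      have l3 : Real.log (((a + j : ℕ) : ℝ) / n) ≤ ((a + j : ℕ) : ℝ) / n - 1 := Real.log_le_sub_one_of_pos hq1
      have l4 : ((a + j : ℕ) : ℝ) / n - 1 = -(1 / n) := by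
        have : (n : ℝ) = ((a + j : ℕ) : ℝ) + 1 := by rw [hn]; push_cast; ring
        rw [this]
        field_simp
        ring
      rw [l4] at l3
      have l5 : c / ((n : ℝ) - c) ≤ c' * (1 / n) := by
        rw [mul_one_div, div_le_div_iff₀ (sub_pos.2 hnc) hn0]
        have : c * c' ≤ n * (c' - c) := ha.trans (mul_le_mul_of_nonneg_right (by linarith) (by linarith))
        nlinarith
      have l6 : Real.log (((a + j : ℕ) : ℝ) / n) * c' ≤ -(1 / n) * c' :=
        mul_le_mul_of_nonneg_right l3 (by linarith)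
      linarith
    have hsplit : ((a : ℝ) / (a + (j + 1) : ℕ)) ^ c' = (((a + j : ℕ) : ℝ) / n) ^ c' * ((a : ℝ) / (a + j : ℕ)) ^ c' := by
      rw [← Real.mul_rpow (by positivity) (by positivity)]
      congr 1
      have e3 : ((a + (j + 1) : ℕ) : ℝ) = n := by rw [hn]; push_cast; ring
      rw [e3]
      field_simp
    rw [hsplit, mul_assoc]
    calc _ ≤ (1 - c / n) * μ.real (ZZ A V T a B j) :=
          mul_le_mul hfac ih (by positivity) (by
            rw [sub_nonneg, div_le_one hn0]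
            exact hnc.le)
      _ ≤ _ := h5

/-- telescoping upper bound -/
lemma XX_le (hA : ∀ n, MeasurableSet[ℱ n] (A n)) {T : ℕ → ℕ} (hT : StrictMono T) {V : ℕ → Set Ω}
    (hV : ∀ n, 1 ≤ n → MeasurableSet[ℱ (T n - 1)] (V n)) {c : ℝ} (hc : 0 < c) {a : ℕ} (hac : c ≤ a)
    (hl : ∀ n, a < n → ∀ ω, ω ∉ V n → c / n ≤ dens μ ℱ A (T n - 1) ω) (j : ℕ) :
    μ.real (XX A V T a j) ≤ (((a + 1 : ℕ) : ℝ) / (a + j + 1 : ℕ)) ^ c := by
  induction j with
  | zero =>
    rw [Nat.add_zero, div_self (by positivity), Real.one_rpow]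
    exact measureReal_le_one
  | succ j ih =>
    have hX := XX_meas hA hT hV a j
    obtain ⟨h1, h2⟩ := le_pred hT (a + j)
    set n : ℕ := a + j + 1 with hn
    have hn1 : (a : ℝ) + 1 ≤ n := by
      have : a + 1 ≤ n := by omega
      exact_mod_cast this
    have ha0 : (0 : ℝ) ≤ a := Nat.cast_nonneg a
    have hn0 : (0 : ℝ) < n := by linarith
    have hVn : MeasurableSet[ℱ (T n - 1)] (V n) := hV n (by omega)
    have hY : MeasurableSet[ℱ (T n - 1)] (XX A V T a j \ V n) :=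
      @MeasurableSet.diff _ (ℱ _) _ _ (ℱ.mono h1 _ hX) hVn
    have hlow := lower_meas (μ := μ) hA (T n - 1) hY (l := c / n) (fun ω hω => hl n (by omega) ω hω.2)
    rw [h2] at hlow
    have hA0 : MeasurableSet (A (T n)) := ℱ.le _ _ (hA _)
    have e1 : XX A V T a (j + 1) = (XX A V T a j \ V n) \ A (T n) := rfl
    have h3 := measureReal_inter_add_sdiff (μ := μ) (s := XX A V T a j \ V n) hA0
    have h4 : μ.real (XX A V T a j \ V n) ≤ μ.real (XX A V T a j) := measureReal_mono sdiff_subset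
    have hcn : c / (n : ℝ) ≤ 1 := by
      rw [div_le_one hn0]
      linarith
    have h5 : μ.real (XX A V T a (j + 1)) ≤ (1 - c / n) * μ.real (XX A V T a j) := by
      rw [e1]
      nlinarith
    have hq1 : 0 < (n : ℝ) / (n + 1 : ℕ) := by positivity
    have hfac : 1 - c / n ≤ ((n : ℝ) / (n + 1 : ℕ)) ^ c := by
      have l1 : 1 - c / (n : ℝ) ≤ Real.exp (-(c / n)) := by
        have := Real.add_one_le_exp (-(c / (n : ℝ)))
        linarith
      refine l1.trans ?_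
      rw [Real.rpow_def_of_pos hq1]
      apply Real.exp_le_exp.2
      have l2 : 1 - ((n : ℝ) / (n + 1 : ℕ))⁻¹ ≤ Real.log ((n : ℝ) / (n + 1 : ℕ)) := Real.one_sub_inv_le_log_of_pos hq1
      have l3 : 1 - ((n : ℝ) / (n + 1 : ℕ))⁻¹ = -(1 / n) := by
        rw [inv_div]
        push_cast
        field_simp
        ring
      rw [l3] at l2
      have l4 : -(1 / (n : ℝ)) * c ≤ Real.log ((n : ℝ) / (n + 1 : ℕ)) * c := mul_le_mul_of_nonneg_right l2 hc.le
      have l5 : -(c / (n : ℝ)) = -(1 / (n : ℝ)) * c := by ring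
      linarith
    have hsplit : (((a + 1 : ℕ) : ℝ) / (a + (j + 1) + 1 : ℕ)) ^ c =
        ((n : ℝ) / (n + 1 : ℕ)) ^ c * (((a + 1 : ℕ) : ℝ) / (a + j + 1 : ℕ)) ^ c := by
      rw [← Real.mul_rpow (by positivity) (by positivity)]
      congr 1
      have e3 : ((a + (j + 1) + 1 : ℕ) : ℝ) = (n + 1 : ℕ) := by rw [hn]; push_cast; ring
      have e4 : ((a + j + 1 : ℕ) : ℝ) = n := by rw [hn]
      rw [e3, e4]
      field_simp
    rw [hsplit]
    exact h5.trans (mul_le_mul hfac ih measureReal_nonneg (Real.rpow_nonneg hq1.le _))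

/-- violation: the density at the place `T n` is not within `δ / n` of `κ / n` -/
def VT (μ : Measure Ω) (ℱ : Filtration ℕ m0) (A : ℕ → Set Ω) (T : ℕ → ℕ) (κ δ : ℝ) (n : ℕ) : Set Ω :=
  {ω | ¬ |dens μ ℱ A (T n - 1) ω * n - κ| ≤ δ}

lemma VT_meas (T : ℕ → ℕ) (κ δ : ℝ) (n : ℕ) : MeasurableSet[ℱ (T n - 1)] (VT μ ℱ A T κ δ n) := by
  have h2 : MeasurableSet {x : ℝ | ¬ |x * n - κ| ≤ δ} := by
    have : Measurable (fun x : ℝ => |x * n - κ|) := by fun_prop
    exact (this measurableSet_Iic).compl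
  exact (dens_meas (T n - 1)).measurable h2

lemma VT_bd {T : ℕ → ℕ} {κ δ : ℝ} {n : ℕ} (hn : 1 ≤ n) {ω : Ω} (hω : ω ∉ VT μ ℱ A T κ δ n) :
    (κ - δ) / n ≤ dens μ ℱ A (T n - 1) ω ∧ dens μ ℱ A (T n - 1) ω ≤ (κ + δ) / n := by
  simp only [VT, mem_ofPred_eq, not_not] at hω
  have h1 := abs_le.1 hω
  have hn0 : (0 : ℝ) < n := by exact_mod_cast hn
  constructor
  · rw [div_le_iff₀ hn0]; linarith
  · rw [le_div_iff₀ hn0]; linarith

lemma no_VT {T : ℕ → ℕ} {κ δ : ℝ} (hδ : 0 < δ) {ω : Ω}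
    (h : Tendsto (fun n : ℕ => dens μ ℱ A (T n - 1) ω * n) atTop (𝓝 κ)) :
    ∃ n₀ : ℕ, ∀ n, n₀ ≤ n → ω ∉ VT μ ℱ A T κ δ n := by
  rw [← eventually_atTop]
  have h1 := h.eventually (Metric.ball_mem_nhds κ hδ)
  filter_upwards [h1] with n hn
  have hn : dist (dens μ ℱ A (T n - 1) ω * n) κ < δ := hn
  rw [Real.dist_eq] at hn
  simp only [VT, mem_ofPred_eq, not_not]
  exact hn.le

lemma ZZ_sub {V : ℕ → Set Ω} {T : ℕ → ℕ} {a : ℕ} {B : Set Ω} {ω : Ω} (j : ℕ) (h : ω ∈ ZZ A V T a B j) :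
    ω ∈ B ∧ ∀ n, a < n → n ≤ a + j → ω ∉ A (T n) ∨ ω ∈ V n := by
  induction j with
  | zero => exact ⟨h, fun n h1 h2 => absurd h1 (by omega)⟩
  | succ j ih =>
    obtain ⟨h1, h2⟩ := h
    obtain ⟨h3, h4⟩ := ih h1
    refine ⟨h3, fun n hn1 hn2 => ?_⟩
    rcases Nat.lt_or_ge (a + j) n with h5 | h5
    · have : n = a + j + 1 := by omega
      subst this
      by_contra hcon
      push Not at hcon
      exact h2 ⟨hcon.1, hcon.2⟩
    · exact h4 n hn1 h5

lemma sub_XX {V : ℕ → Set Ω} {T : ℕ → ℕ} {a : ℕ} {ω : Ω} (j : ℕ)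
    (h : ∀ n, a < n → n ≤ a + j → ω ∉ A (T n) ∧ ω ∉ V n) : ω ∈ XX A V T a j := by
  induction j with
  | zero => exact mem_univ _
  | succ j ih =>
    refine ⟨⟨ih fun n h1 h2 => h n h1 (by omega), (h (a + j + 1) (by omega) (by omega)).2⟩,
      (h (a + j + 1) (by omega) (by omega)).1⟩

/-- **long gaps infinitely often** -/
theorem gap_io (hA : ∀ n, MeasurableSet[ℱ n] (A n)) {T : ℕ → ℕ} (hT : StrictMono T) {κ : ℝ} (hκ : 0 < κ)
    (hd : ∀ᵐ ω ∂μ, Tendsto (fun n : ℕ => dens μ ℱ A (T n - 1) ω * n) atTop (𝓝 κ)) {s : ℝ} (hs0 : 0 < s)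
    (hs : s * κ < 1) :
    ∀ᵐ ω ∂μ, ∃ᶠ N : ℕ in atTop, ∀ n : ℕ, N < n → (n : ℝ) ≤ N * Real.log N ^ s → ω ∉ A (T n) := by
  -- parameters
  obtain ⟨δ, hδ0, hθ1⟩ : ∃ δ : ℝ, 0 < δ ∧ s * (κ + 2 * δ) < 1 := by
    refine ⟨(1 - s * κ) / (4 * s), div_pos (by linarith) (by positivity), ?_⟩
    have : s * (2 * ((1 - s * κ) / (4 * s))) = (1 - s * κ) / 2 := by field_simp; ring
    nlinarith
  obtain ⟨q, hq⟩ := exists_nat_gt (2 * s + 1)
  set NN : ℕ → ℕ := fun j => (j + 2) ^ (q * (j + 2)) with hNN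
  set b : ℕ → ℕ := fun j => ⌊(NN j : ℝ) * Real.log (NN j) ^ s⌋₊ with hb
  have hq0 : 0 < q := by
    have : (0 : ℝ) < q := by linarith
    exact_mod_cast this
  have hNNmono : StrictMono NN := by
    apply strictMono_nat_of_lt_succ
    intro j
    simp only [hNN]
    calc (j + 2) ^ (q * (j + 2)) < (j + 3) ^ (q * (j + 2)) :=
          Nat.pow_lt_pow_left (by omega) (by positivity)
      _ ≤ (j + 1 + 2) ^ (q * (j + 1 + 2)) := by
          have e : j + 3 = j + 1 + 2 := by ring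
          rw [e]
          exact Nat.pow_le_pow_right (by omega) (Nat.mul_le_mul_left _ (by omega))
  have hlogN : ∀ j, Real.log (NN j) = q * (j + 2) * Real.log (j + 2) := by
    intro j
    simp only [hNN]
    push_cast
    rw [Real.log_pow]
    push_cast
    ring
  -- asymptotic facts
  have hx : Tendsto (fun j : ℕ => (j : ℝ) + 2) atTop atTop :=
    tendsto_atTop_add_const_right _ _ tendsto_natCast_atTop_atTop
  obtain ⟨θ, hθ, hθ0, hθ2⟩ : ∃ θ, θ = s * (κ + 2 * δ) ∧ 0 < θ ∧ θ < 1 := ⟨_, rfl, by positivity, hθ1⟩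
  have f1 : ∀ᶠ x : ℝ in atTop, (q * x * Real.log x) ^ θ ≤ x := by
    -- `q x log x ≤ x ^ (1 / θ)`
    have h1 : (fun x : ℝ => Real.log x) =o[atTop] fun x : ℝ => x ^ (1 / θ - 1) :=
      isLittleO_log_rpow_atTop (by
        rw [sub_pos, lt_div_iff₀ hθ0]
        linarith)
    filter_upwards [h1.def (show (0 : ℝ) < 1 / q by positivity), eventually_gt_atTop 1] with x hx hx1
    have hlx : 0 ≤ Real.log x := Real.log_nonneg hx1.le
    rw [Real.norm_of_nonneg hlx, Real.norm_of_nonneg (Real.rpow_nonneg (by linarith) _)] at hx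
    have h2 : q * x * Real.log x ≤ x ^ (1 / θ) := by
      calc (q : ℝ) * x * Real.log x ≤ q * x * (1 / q * x ^ (1 / θ - 1)) :=
            mul_le_mul_of_nonneg_left hx (by positivity)
        _ = x ^ (1 : ℝ) * x ^ (1 / θ - 1) := by
            rw [Real.rpow_one]
            have : (q : ℝ) ≠ 0 := by positivity
            field_simp
        _ = x ^ (1 / θ) := by
            rw [← Real.rpow_add (by linarith)]
            congr 1
            ring
    calc (q * x * Real.log x) ^ θ ≤ (x ^ (1 / θ)) ^ θ := Real.rpow_le_rpow (by positivity) h2 hθ0.le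
      _ = x := by rw [← Real.rpow_mul (by linarith), one_div, inv_mul_cancel₀ hθ0.ne', Real.rpow_one]
  have f2 : ∀ᶠ x : ℝ in atTop, (q * x * Real.log x) ^ s ≤ x ^ q := by
    have h1 : (fun x : ℝ => Real.log x) =o[atTop] fun x : ℝ => x ^ (1 : ℝ) :=
      isLittleO_log_rpow_atTop one_pos
    filter_upwards [h1.def (show (0 : ℝ) < 1 / q by positivity), eventually_gt_atTop 1] with x hx hx1
    have hlx : 0 ≤ Real.log x := Real.log_nonneg hx1.le
    rw [Real.norm_of_nonneg hlx, Real.norm_of_nonneg (Real.rpow_nonneg (by linarith) _), Real.rpow_one] at hx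
    have h2 : q * x * Real.log x ≤ x ^ (2 : ℝ) := by
      calc (q : ℝ) * x * Real.log x ≤ q * x * (1 / q * x) := mul_le_mul_of_nonneg_left hx (by positivity)
        _ = x ^ (2 : ℝ) := by
            rw [Real.rpow_two]
            have : (q : ℝ) ≠ 0 := by positivity
            field_simp
    calc (q * x * Real.log x) ^ s ≤ (x ^ (2 : ℝ)) ^ s := Real.rpow_le_rpow (by positivity) h2 hs0.le
      _ = x ^ (2 * s) := by rw [← Real.rpow_mul (by linarith)]
      _ ≤ x ^ (q : ℝ) := Real.rpow_le_rpow_of_exponent_le hx1.le (by linarith)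
      _ = x ^ q := Real.rpow_natCast x q
  obtain ⟨j₁, hj₁⟩ := eventually_atTop.1 (hx.eventually (f1.and f2))
  obtain ⟨j₂, hj₂⟩ := exists_nat_gt ((κ + δ) * (κ + 2 * δ) / δ)
  set j₀ : ℕ := max j₁ j₂ with hj₀
  have hNge : ∀ j, j ≤ NN j := hNNmono.id_le
  -- the windows are disjoint
  have hbN : ∀ j, j₀ ≤ j → NN j ≤ b j ∧ b j ≤ NN (j + 1) := by
    intro j hj
    have hjx := (hj₁ j ((le_max_left _ _).trans hj)).2
    have hN1 : (1 : ℝ) ≤ NN j := by
      have : 1 ≤ NN j := Nat.one_le_pow _ _ (by omega)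
      exact_mod_cast this
    have hlog1 : 1 ≤ Real.log (NN j) := by
      rw [hlogN]
      have h1 : Real.log 2 ≤ Real.log ((j : ℝ) + 2) := by
        apply Real.log_le_log (by norm_num)
        have : (0 : ℝ) ≤ j := Nat.cast_nonneg j
        linarith
      have h2 := Real.log_two_gt_d9
      have h3 : (1 : ℝ) ≤ q := by exact_mod_cast hq0
      have h4 : (2 : ℝ) ≤ (j : ℝ) + 2 := by
        have : (0 : ℝ) ≤ j := Nat.cast_nonneg j
        linarith
      have h5 : (1 : ℝ) ≤ ((j : ℝ) + 2) * Real.log ((j : ℝ) + 2) := by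
        have h6 : (2 : ℝ) * Real.log 2 ≤ ((j : ℝ) + 2) * Real.log ((j : ℝ) + 2) :=
          mul_le_mul h4 h1 (by linarith) (by linarith)
        linarith
      have h7 : (1 : ℝ) * 1 ≤ q * (((j : ℝ) + 2) * Real.log ((j : ℝ) + 2)) :=
        mul_le_mul h3 h5 (by norm_num) (by linarith)
      linarith
    constructor
    · apply Nat.le_floor
      have : 1 ≤ Real.log (NN j) ^ s := Real.one_le_rpow hlog1 hs0.le
      nlinarith
    · have h1 : (b j : ℝ) ≤ NN j * Real.log (NN j) ^ s := Nat.floor_le (by positivity)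
      have h2 : Real.log (NN j) ^ s ≤ ((j : ℝ) + 2) ^ q := by
        rw [hlogN]
        exact hjx
      have h3 : (b j : ℝ) ≤ NN j * ((j : ℝ) + 2) ^ q := h1.trans (mul_le_mul_of_nonneg_left h2 (by linarith))
      have h4 : (NN j : ℝ) * ((j : ℝ) + 2) ^ q ≤ NN (j + 1) := by
        have h5 : NN j * (j + 2) ^ q ≤ NN (j + 1) := by
          simp only [hNN]
          rw [← pow_add]
          have e : q * (j + 2) + q = q * (j + 1 + 2) := by ring
          rw [e]
          exact Nat.pow_le_pow_left (by omega) _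
        exact_mod_cast h5
      exact_mod_cast h3.trans h4
  set D : ℕ → Set Ω := fun j => if j₀ ≤ j then ZZ A (VT μ ℱ A T κ δ) T (NN j) univ (b j - NN j) else ∅ with hD
  have hDm : ∀ j, MeasurableSet[ℱ (T (NN (j + 1)))] (D j) := by
    intro j
    by_cases hj : j₀ ≤ j
    · simp only [hD, if_pos hj]
      have h1 := ZZ_meas hA hT (fun n _ => VT_meas (μ := μ) (ℱ := ℱ) (A := A) T κ δ n) (NN j)
        (@MeasurableSet.univ _ (ℱ (T (NN j)))) (b j - NN j)
      obtain ⟨h2, h3⟩ := hbN j hj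
      exact ℱ.mono (hT.monotone (by omega)) _ h1
    · simp only [hD, if_neg hj]
      exact @MeasurableSet.empty _ (ℱ _)
  -- the probabilities
  have hpr : ∀ j, j₀ ≤ j → ∀ C, MeasurableSet[ℱ (T (NN j))] C →
      (1 / ((j : ℝ) + 2)) * μ.real C ≤ μ.real (C ∩ D j) := by
    intro j hj C hC
    obtain ⟨h2, h3⟩ := hbN j hj
    have hjx := (hj₁ j ((le_max_left _ _).trans hj)).1
    have hN1 : 1 ≤ NN j := Nat.one_le_pow _ _ (by omega)
    have hN1' : (1 : ℝ) ≤ NN j := by exact_mod_cast hN1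
    have hac : (κ + δ) * (κ + 2 * δ) ≤ (NN j : ℝ) * ((κ + 2 * δ) - (κ + δ)) := by
      have h4 : (j₂ : ℝ) ≤ NN j := by exact_mod_cast ((le_max_right _ _).trans hj).trans (hNge j)
      have h5 : (κ + δ) * (κ + 2 * δ) / δ ≤ NN j := hj₂.le.trans h4
      rw [div_le_iff₀ hδ0] at h5
      linarith
    have h6 := ZZ_ge (μ := μ) hA hT (fun n _ => VT_meas (μ := μ) (ℱ := ℱ) (A := A) T κ δ n)
      (c := κ + δ) (c' := κ + 2 * δ) (by linarith) (by linarith) hac hN1
      (fun n hn ω hω => (VT_bd (by omega) hω).2) hC (b j - NN j)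
    have e1 : NN j + (b j - NN j) = b j := by omega
    rw [e1] at h6
    have h7 : ZZ A (VT μ ℱ A T κ δ) T (NN j) C (b j - NN j) ⊆ C ∩ D j := by
      simp only [hD, if_pos hj]
      have : ∀ i, ZZ A (VT μ ℱ A T κ δ) T (NN j) C i ⊆ C ∩ ZZ A (VT μ ℱ A T κ δ) T (NN j) univ i := by
        intro i
        induction i with
        | zero => exact fun ω hω => ⟨hω, mem_univ _⟩
        | succ i ih => exact fun ω hω => ⟨(ih hω.1).1, (ih hω.1).2, hω.2⟩
      exact this _
    have h8 : μ.real (ZZ A (VT μ ℱ A T κ δ) T (NN j) C (b j - NN j)) ≤ μ.real (C ∩ D j) := measureReal_mono h7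
    refine le_trans ?_ (h6.trans h8)
    apply mul_le_mul_of_nonneg_right _ measureReal_nonneg
    have hj0 : (0 : ℝ) ≤ j := Nat.cast_nonneg j
    have hlogpos : 0 < Real.log (NN j) := by
      rw [hlogN]
      have : 0 < Real.log ((j : ℝ) + 2) := Real.log_pos (by linarith)
      have : (0 : ℝ) < q := by exact_mod_cast hq0
      positivity
    have hb1 : (b j : ℝ) ≤ NN j * Real.log (NN j) ^ s := Nat.floor_le (by positivity)
    have hb0 : (0 : ℝ) < b j := by
      have : 0 < b j := by omega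
      exact_mod_cast this
    have h9 : Real.log (NN j) ^ (-s) ≤ (NN j : ℝ) / b j := by
      rw [Real.rpow_neg hlogpos.le, inv_eq_one_div, div_le_div_iff₀ (by positivity) hb0]
      linarith
    have h10 : (Real.log (NN j) ^ (-s)) ^ (κ + 2 * δ) ≤ ((NN j : ℝ) / b j) ^ (κ + 2 * δ) :=
      Real.rpow_le_rpow (by positivity) h9 (by linarith)
    refine le_trans ?_ h10
    rw [← Real.rpow_mul hlogpos.le]
    have e2 : -s * (κ + 2 * δ) = -θ := by rw [hθ]; ring
    rw [e2, Real.rpow_neg hlogpos.le, one_div]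
    apply inv_anti₀ (by positivity)
    rw [hlogN]
    exact hjx
  have hsum : Tendsto (fun n => ∑ k ∈ Finset.range n, 1 / ((k : ℝ) + 2)) atTop atTop := by
    have h1 := Real.tendsto_sum_range_one_div_nat_succ_atTop
    have h2 := (tendsto_add_atTop_iff_nat 1).2 h1
    have h3 := tendsto_atTop_add_const_right atTop (-1 : ℝ) h2
    refine h3.congr fun n => ?_
    rw [Finset.sum_range_succ']
    push_cast
    norm_num
    refine Finset.sum_congr rfl fun k _ => ?_
    rw [add_assoc]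
    norm_num
  have hmono : Monotone fun j => T (NN j) := (hT.comp hNNmono).monotone
  have main := trials_io (μ := μ) hmono hDm hpr hsum
  filter_upwards [main, hd] with ω hω h2
  obtain ⟨n₀, hn₀⟩ := no_VT hδ0 h2
  rw [frequently_atTop]
  intro K
  obtain ⟨j, hj, hjD⟩ := hω (max K (max j₀ n₀))
  have hj0 : j₀ ≤ j := (le_max_left _ _).trans ((le_max_right _ _).trans hj)
  have hjn : n₀ ≤ j := (le_max_right _ _).trans ((le_max_right _ _).trans hj)
  simp only [hD, if_pos hj0] at hjD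
  obtain ⟨_, h3⟩ := ZZ_sub _ hjD
  refine ⟨NN j, ((le_max_left _ _).trans hj).trans (hNge j), fun n hn1 hn2 => ?_⟩
  obtain ⟨h4, h5⟩ := hbN j hj0
  have h6 : n ≤ b j := Nat.le_floor hn2
  rcases h3 n hn1 (by omega) with h7 | h7
  · exact h7
  · exact absurd h7 (hn₀ n (by have := hNge j; omega))

/-- **no longer gaps** -/
theorem gap_fin (hA : ∀ n, MeasurableSet[ℱ n] (A n)) {T : ℕ → ℕ} (hT : StrictMono T) {κ : ℝ} (hκ : 0 < κ)
    (hd : ∀ᵐ ω ∂μ, Tendsto (fun n : ℕ => dens μ ℱ A (T n - 1) ω * n) atTop (𝓝 κ)) {s : ℝ} (hs0 : 0 < s)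
    (hs : 1 < s * κ) :
    ∀ᵐ ω ∂μ, ∀ᶠ i : ℕ in atTop, ∃ n : ℕ, 2 ^ i < n ∧ (n : ℝ) ≤ 2 ^ i * (i : ℝ) ^ s ∧ ω ∈ A (T n) := by
  obtain ⟨δ, hδ0, hδκ, hθ1⟩ : ∃ δ : ℝ, 0 < δ ∧ δ < κ ∧ 1 < s * (κ - δ) := by
    refine ⟨min (κ / 2) ((s * κ - 1) / (2 * s)), lt_min (by linarith) (div_pos (by linarith) (by positivity)),
      (min_le_left _ _).trans_lt (by linarith), ?_⟩
    have h1 : min (κ / 2) ((s * κ - 1) / (2 * s)) ≤ (s * κ - 1) / (2 * s) := min_le_right _ _
    have h2 : s * min (κ / 2) ((s * κ - 1) / (2 * s)) ≤ s * ((s * κ - 1) / (2 * s)) :=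
      mul_le_mul_of_nonneg_left h1 hs0.le
    have h3 : s * ((s * κ - 1) / (2 * s)) = (s * κ - 1) / 2 := by field_simp
    nlinarith
  obtain ⟨i₀, hi₀⟩ := exists_nat_gt (κ - δ)
  set b : ℕ → ℕ := fun i => ⌊(2 : ℝ) ^ i * (i : ℝ) ^ s⌋₊ with hb
  set E : ℕ → Set Ω := fun i => if i₀ ≤ i ∧ 1 ≤ i then XX A (VT μ ℱ A T κ δ) T (2 ^ i) (b i - 2 ^ i) else ∅ with hE
  have hbge : ∀ i, 1 ≤ i → 2 ^ i ≤ b i := by
    intro i hi
    apply Nat.le_floor
    push_cast
    have h1 : (1 : ℝ) ≤ i := by exact_mod_cast hi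
    have h2 : 1 ≤ (i : ℝ) ^ s := Real.one_le_rpow h1 hs0.le
    have h3 : (0 : ℝ) < 2 ^ i := by positivity
    nlinarith
  have hEb : ∀ i, 1 ≤ i → μ.real (E i) ≤ 2 ^ (κ - δ) * (i : ℝ) ^ (-(s * (κ - δ))) := by
    intro i hi1
    have h1 : (1 : ℝ) ≤ i := by exact_mod_cast hi1
    by_cases hi : i₀ ≤ i
    · simp only [hE, if_pos (And.intro hi hi1)]
      have hac : κ - δ ≤ ((2 ^ i : ℕ) : ℝ) := by
        have h2 : (i : ℝ) ≤ ((2 ^ i : ℕ) : ℝ) := by exact_mod_cast (Nat.lt_two_pow_self (n := i)).le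
        have h3 : (i₀ : ℝ) ≤ i := by exact_mod_cast hi
        linarith
      have h2 := XX_le (μ := μ) hA hT (fun n _ => VT_meas (μ := μ) (ℱ := ℱ) (A := A) T κ δ n) (c := κ - δ)
        (by linarith) hac (fun n hn ω hω => (VT_bd (Nat.succ_le_of_lt (lt_of_le_of_lt (Nat.zero_le _) hn)) hω).1) (b i - 2 ^ i)
      refine h2.trans ?_
      have h3 := hbge i hi1
      have e1 : 2 ^ i + (b i - 2 ^ i) + 1 = b i + 1 := by omega
      rw [e1]
      have h4 : ((2 ^ i + 1 : ℕ) : ℝ) / (b i + 1 : ℕ) ≤ 2 * (i : ℝ) ^ (-s) := by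
        have h5 : (2 : ℝ) ^ i * (i : ℝ) ^ s < b i + 1 := Nat.lt_floor_add_one _
        have h6 : 0 < (i : ℝ) ^ s := by positivity
        rw [Real.rpow_neg (by linarith)]
        push_cast
        rw [div_le_iff₀ (by positivity)]
        have h7 : (1 : ℝ) ≤ 2 ^ i := one_le_pow₀ (by norm_num)
        have h8 : 2 * ((i : ℝ) ^ s)⁻¹ * ((2 : ℝ) ^ i * (i : ℝ) ^ s) = 2 * 2 ^ i := by field_simp
        have h9 : 2 * ((i : ℝ) ^ s)⁻¹ * ((2 : ℝ) ^ i * (i : ℝ) ^ s) ≤ 2 * ((i : ℝ) ^ s)⁻¹ * (b i + 1) :=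
          mul_le_mul_of_nonneg_left h5.le (by positivity)
        linarith
      calc (((2 ^ i + 1 : ℕ) : ℝ) / (b i + 1 : ℕ)) ^ (κ - δ) ≤ (2 * (i : ℝ) ^ (-s)) ^ (κ - δ) :=
            Real.rpow_le_rpow (by positivity) h4 (by linarith)
        _ = 2 ^ (κ - δ) * (i : ℝ) ^ (-(s * (κ - δ))) := by
            rw [Real.mul_rpow (by norm_num) (by positivity), ← Real.rpow_mul (by linarith)]
            congr 2
            ring
    · have : ¬ (i₀ ≤ i ∧ 1 ≤ i) := fun h => hi h.1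
      simp only [hE, if_neg this, measureReal_empty]
      positivity
  have hsum : Summable fun i => μ.real (E i) := by
    have hs1 : Summable fun i : ℕ => 2 ^ (κ - δ) * (i : ℝ) ^ (-(s * (κ - δ))) :=
      (Real.summable_nat_rpow.2 (by linarith)).mul_left _
    refine Summable.of_norm_bounded_eventually_nat hs1 ?_
    filter_upwards [eventually_ge_atTop 1] with i hi
    rw [Real.norm_of_nonneg measureReal_nonneg]
    exact hEb i hi
  have hEs : ∑' i, μ (E i) ≠ ⊤ := by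
    have h1 : ∀ i, μ (E i) = ENNReal.ofReal (μ.real (E i)) := fun i => (ofReal_measureReal (measure_ne_top _ _)).symm
    simp_rw [h1]
    rw [← ENNReal.ofReal_tsum_of_nonneg (fun i => measureReal_nonneg) hsum]
    exact ENNReal.ofReal_ne_top
  filter_upwards [ae_eventually_notMem hEs, hd] with ω hω h2
  obtain ⟨n₀, hn₀⟩ := no_VT hδ0 h2
  filter_upwards [hω, eventually_ge_atTop i₀, eventually_ge_atTop 1, eventually_ge_atTop n₀] with i h3 hi hi1 hin
  simp only [hE, if_pos (And.intro hi hi1)] at h3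
  by_contra hcon
  push Not at hcon
  apply h3
  apply sub_XX
  intro n hn1 hn2
  have h4 := hbge i hi1
  have h5 : (n : ℝ) ≤ 2 ^ i * (i : ℝ) ^ s := by
    have h6 : n ≤ b i := by omega
    have h7 : (n : ℝ) ≤ b i := by exact_mod_cast h6
    exact h7.trans (Nat.floor_le (by positivity))
  refine ⟨hcon n hn1 h5, hn₀ n ?_⟩
  have : i < 2 ^ i := Nat.lt_two_pow_self
  omega

end Pool.Agent.N957.SQ
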