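import Mathlib
import Pool.Agent.N957.SQ.Exp

/-!
# Chosen terms of exponentially growing sequences: counts and gaps
-/

set_option autoImplicit false
set_option linter.unusedSectionVars false

open MeasureTheory Filter Set
open scoped ENNReal Topology NNReal

namespace Pool.Agent.N957.SQ

open Pool.Agent.R528.RM Pool.Agent.N740.HK

/-- eventually strictly increasing, and `log (u n)` is asymptotic to `L n` -/
def ExpSeq (u : ℕ → ℕ) (L : ℝ) : Prop :=
  0 < L ∧ (∃ n₀ : ℕ, ∀ n, n₀ ≤ n → u n < u (n + 1)) ∧ Tendsto (fun n : ℕ => Real.log (u n) / n) atTop (𝓝 L)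

lemma log_div_nat : Tendsto (fun n : ℕ => Real.log n / n) atTop (𝓝 0) :=
  (Real.isLittleO_log_id_atTop.tendsto_div_nhds_zero).comp tendsto_natCast_atTop_atTop

lemma ExpSeq.exists_T {u : ℕ → ℕ} {L : ℝ} (h : ExpSeq u L) :
    ∃ (T : ℕ → ℕ) (n₁ : ℕ), StrictMono T ∧ (∀ n, 1 ≤ T n) ∧ (∀ n, n₁ ≤ n → T n = u n) ∧
      Tendsto (fun n : ℕ => Real.log (T n) / n) atTop (𝓝 L) := by
  obtain ⟨hL, ⟨n₀, hn₀⟩, hl⟩ := h
  have h1 : ∀ᶠ n : ℕ in atTop, n < u n := by
    have h2 := hl.sub log_div_nat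
    rw [sub_zero] at h2
    filter_upwards [h2.eventually (lt_mem_nhds hL), eventually_gt_atTop 0] with n hn hn0
    have hn0' : (0 : ℝ) < n := by exact_mod_cast hn0
    rw [← sub_div] at hn
    have h3 : 0 < Real.log (u n) - Real.log n := by
      by_contra hcon
      push Not at hcon
      have := div_nonpos_of_nonpos_of_nonneg hcon hn0'.le
      linarith
    by_contra hcon
    push Not at hcon
    have h4 : (u n : ℝ) ≤ n := by exact_mod_cast hcon
    rcases Nat.eq_zero_or_pos (u n) with h5 | h5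
    · rw [h5, Nat.cast_zero, Real.log_zero] at h3
      have : 0 ≤ Real.log n := Real.log_natCast_nonneg n
      linarith
    · have h6 : (0 : ℝ) < u n := by exact_mod_cast h5
      have := Real.log_le_log h6 h4
      linarith
  obtain ⟨n₁, hn₁, hn₁'⟩ := (h1.and (eventually_ge_atTop n₀)).exists
  have hT : StrictMono (fun n => if n < n₁ then n + 1 else u n) := by
    apply strictMono_nat_of_lt_succ
    intro n
    rcases lt_trichotomy (n + 1) n₁ with h3 | h3 | h3
    · simp only [if_pos h3, if_pos (show n < n₁ by omega)]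
      omega
    · simp only [if_pos (show n < n₁ by omega), if_neg (show ¬ (n + 1 < n₁) by omega)]
      rw [h3]
      exact hn₁
    · simp only [if_neg (show ¬ (n < n₁) by omega), if_neg (show ¬ (n + 1 < n₁) by omega)]
      exact hn₀ n (by omega)
  refine ⟨fun n => if n < n₁ then n + 1 else u n, n₁, hT, ?_, ?_, ?_⟩
  · intro n
    have h3 := hT.monotone (Nat.zero_le n)
    have h4 : 1 ≤ (if 0 < n₁ then 0 + 1 else u 0) := by
      by_cases h5 : 0 < n₁
      · rw [if_pos h5]
      · rw [if_neg h5]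
        have : n₁ = 0 := by omega
        rw [this] at hn₁
        exact hn₁
    exact h4.trans h3
  · intro n hn
    exact if_neg (by omega)
  · refine hl.congr' ?_
    filter_upwards [eventually_ge_atTop n₁] with n hn
    rw [if_neg (by omega)]

lemma log_pred {T : ℕ → ℕ} (hT : StrictMono T) (hT1 : ∀ n, 1 ≤ T n) {L : ℝ}
    (h : Tendsto (fun n : ℕ => Real.log (T n) / n) atTop (𝓝 L)) :
    Tendsto (fun n : ℕ => Real.log ((T n - 1 : ℕ) : ℝ) / n) atTop (𝓝 L) := by
  have h3 : Tendsto (fun n : ℕ => (Real.log (T n) - Real.log ((T n - 1 : ℕ) : ℝ)) / n) atTop (𝓝 0) := by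
    apply squeeze_zero_norm' _ ((tendsto_const_nhds (x := (1 : ℝ))).div_atTop tendsto_natCast_atTop_atTop)
    filter_upwards [hT.tendsto_atTop.eventually_ge_atTop 2, eventually_gt_atTop 0] with n hn hn2
    have h4 : (2 : ℝ) ≤ T n := by exact_mod_cast hn
    have h5 : ((T n - 1 : ℕ) : ℝ) = T n - 1 := by rw [Nat.cast_sub (hT1 n)]; simp
    have hn2' : (0 : ℝ) < n := by exact_mod_cast hn2
    rw [Real.norm_eq_abs, abs_div, abs_of_pos hn2', h5]
    apply div_le_div_of_nonneg_right _ hn2'.le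
    rw [abs_of_nonneg (sub_nonneg.2 (Real.log_le_log (by linarith) (by linarith)))]
    have h6 : Real.log (T n) ≤ Real.log (2 * ((T n : ℝ) - 1)) := Real.log_le_log (by linarith) (by linarith)
    rw [Real.log_mul (by norm_num) (by linarith)] at h6
    have := Real.log_two_lt_d9
    linarith
  have h4 := h.sub h3
  rw [sub_zero] at h4
  refine h4.congr fun n => ?_
  ring

lemma pred_top {T : ℕ → ℕ} (hT : StrictMono T) : Tendsto (fun N => T N - 1) atTop atTop := by
  apply tendsto_atTop_mono (f := fun N => N - 1)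
  · intro N
    have := hT.id_le N
    simp only [id] at this
    omega
  · exact tendsto_sub_atTop_nat 1

/-- harmonic sums -/
lemma harm_log : Tendsto (fun N : ℕ => (∑ i ∈ Finset.range N, 1 / ((i : ℝ) + 1)) / Real.log N) atTop (𝓝 1) := by
  have e : ∀ N : ℕ, ((harmonic N : ℚ) : ℝ) = ∑ i ∈ Finset.range N, 1 / ((i : ℝ) + 1) := by
    intro N
    rw [harmonic]
    push_cast
    exact Finset.sum_congr rfl fun i _ => by rw [one_div]
  have h1 : Tendsto (fun N : ℕ => 1 + 1 / Real.log N) atTop (𝓝 (1 + 0)) :=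
    tendsto_const_nhds.add ((tendsto_const_nhds (x := (1 : ℝ))).div_atTop tendsto_logN)
  rw [add_zero] at h1
  refine tendsto_of_tendsto_of_tendsto_of_le_of_le' tendsto_const_nhds h1 ?_ ?_
  · filter_upwards [tendsto_logN.eventually_gt_atTop 0, eventually_gt_atTop 0] with N hN hN0
    rw [le_div_iff₀ hN, one_mul, ← e]
    have h2 := log_add_one_le_harmonic N
    refine le_trans ?_ h2
    apply Real.log_le_log
    · exact_mod_cast hN0
    · push_cast; linarith
  · filter_upwards [tendsto_logN.eventually_gt_atTop 0] with N hN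
    rw [div_le_iff₀ hN, ← e]
    have h2 := harmonic_le_one_add_log N
    have h3 : (1 + 1 / Real.log N) * Real.log N = 1 + Real.log N := by
      field_simp
      ring
    rw [h3]
    exact h2

/-- logarithmic averages -/
lemma avg_harm {b : ℕ → ℝ} {κ : ℝ} (h : Tendsto (fun n : ℕ => b n * n) atTop (𝓝 κ)) :
    Tendsto (fun N : ℕ => (∑ n ∈ Finset.range N, b n) / Real.log N) atTop (𝓝 κ) := by
  have h0 : Tendsto (fun n : ℕ => b n * ((n : ℝ) + 1)) atTop (𝓝 κ) := by
    have h1 : Tendsto (fun n : ℕ => 1 + (1 : ℝ) / n) atTop (𝓝 (1 + 0)) :=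
      tendsto_const_nhds.add tendsto_one_div_atTop_nhds_zero_nat
    rw [add_zero] at h1
    have h2 := h.mul h1
    rw [mul_one] at h2
    refine h2.congr' ?_
    filter_upwards [eventually_gt_atTop 0] with n hn
    have hn' : (0 : ℝ) < n := by exact_mod_cast hn
    field_simp
  have h1 : (fun n : ℕ => b n - κ * (1 / ((n : ℝ) + 1))) =o[atTop] fun n : ℕ => 1 / ((n : ℝ) + 1) := by
    rw [Asymptotics.isLittleO_iff_tendsto' (Eventually.of_forall fun n hn => by
      exfalso
      have : (0 : ℝ) < 1 / ((n : ℝ) + 1) := by positivity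
      linarith)]
    have h2 := h0.sub_const κ
    rw [sub_self] at h2
    refine h2.congr fun n => ?_
    field_simp
  have h2 := h1.sum_range (fun n => by positivity) Real.tendsto_sum_range_one_div_nat_succ_atTop
  have h3 := h2.tendsto_div_nhds_zero
  have h4 := (h3.mul harm_log).add (harm_log.const_mul κ)
  rw [zero_mul, zero_add, mul_one] at h4
  refine h4.congr' ?_
  have h5 := Real.tendsto_sum_range_one_div_nat_succ_atTop
  filter_upwards [tendsto_logN.eventually_gt_atTop 0, h5.eventually_gt_atTop 0] with N hN hN1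
  rw [Finset.sum_sub_distrib, ← Finset.mul_sum]
  field_simp
  ring

variable {Ω : Type} {m0 : MeasurableSpace Ω} {μ : Measure Ω} [IsProbabilityMeasure μ]
  {ℱ : Filtration ℕ m0} {A : ℕ → Set Ω}

lemma dens_T (hd : ∀ᵐ ω ∂μ, Tendsto (fun n : ℕ => dens μ ℱ A n ω * Real.log n) atTop (𝓝 1))
    {T : ℕ → ℕ} (hT : StrictMono T) (hT1 : ∀ n, 1 ≤ T n) {L : ℝ} (hL : 0 < L)
    (h : Tendsto (fun n : ℕ => Real.log (T n) / n) atTop (𝓝 L)) :
    ∀ᵐ ω ∂μ, Tendsto (fun n : ℕ => dens μ ℱ A (T n - 1) ω * n) atTop (𝓝 (1 / L)) := by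
  filter_upwards [hd] with ω h1
  have h2 := h1.comp (pred_top hT)
  have h3 := (log_pred hT hT1 h).inv₀ hL.ne'
  have h4 := h2.mul h3
  rw [one_mul, ← one_div] at h4
  refine h4.congr' ?_
  filter_upwards [(tendsto_logN.comp (pred_top hT)).eventually_gt_atTop 0] with n hn
  simp only [Function.comp] at hn ⊢
  rw [inv_div]
  field_simp

/-- **counting** -/
theorem cnt_T (hA : ∀ n, MeasurableSet[ℱ n] (A n))
    (hd : ∀ᵐ ω ∂μ, Tendsto (fun n : ℕ => dens μ ℱ A n ω * Real.log n) atTop (𝓝 1))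
    {T : ℕ → ℕ} (hT : StrictMono T) (hT1 : ∀ n, 1 ≤ T n) {L : ℝ} (hL : 0 < L)
    (h : Tendsto (fun n : ℕ => Real.log (T n) / n) atTop (𝓝 L)) :
    ∀ᵐ ω ∂μ, Tendsto (fun N : ℕ => (∑ n ∈ Finset.range N, J1 A (T n) ω) / Real.log N) atTop (𝓝 (1 / L)) := by
  classical
  set B : Set ℕ := {m | ∃ n, T n = m + 1} with hB
  have h0 := levy_log (μ := μ) hA hd (fun m _ => B.indicator (fun _ => (1 : ℝ)) m)
    (fun n => @stronglyMeasurable_const _ _ (ℱ n) _ _)
    (fun n ω => by
      by_cases h : n ∈ B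
      · rw [indicator_of_mem h]; norm_num
      · rw [indicator_of_notMem h]; norm_num)
  filter_upwards [h0] with ω h1
  have hTt : Tendsto T atTop atTop := hT.tendsto_atTop
  have hsum : ∀ (f : ℕ → ℝ) (N : ℕ), ∑ m ∈ Finset.range (T N - 1), B.indicator (fun _ => (1 : ℝ)) m * f m =
      ∑ n ∈ Finset.range N, f (T n - 1) := by
    intro f N
    have e1 : (Finset.range (T N - 1)).filter (fun m => m ∈ B) = (Finset.range N).image (fun n => T n - 1) := by
      ext m
      simp only [Finset.mem_filter, Finset.mem_range, Finset.mem_image]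
      constructor
      · rintro ⟨hm, n, hn⟩
        refine ⟨n, ?_, by omega⟩
        rw [← hT.lt_iff_lt]
        omega
      · rintro ⟨n, hn, rfl⟩
        have h2 := hT hn
        have h3 := hT1 n
        exact ⟨by omega, n, by omega⟩
    rw [← Finset.sum_image (f := f) (g := fun n => T n - 1) (s := Finset.range N), ← e1, Finset.sum_filter]
    · refine Finset.sum_congr rfl fun m _ => ?_
      by_cases h : m ∈ B
      · rw [indicator_of_mem h, if_pos h, one_mul]
      · rw [indicator_of_notMem h, if_neg h, zero_mul]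
    · intro a _ b _ hab
      have h2 := hT1 a
      have h3 := hT1 b
      apply hT.injective
      simp only at hab
      omega
  have hb : Tendsto (fun n : ℕ => 1 / Real.log ((T n - 1 : ℕ) : ℝ) * n) atTop (𝓝 (1 / L)) := by
    have h3 := (log_pred hT hT1 h).inv₀ hL.ne'
    rw [← one_div] at h3
    refine h3.congr fun n => ?_
    rw [inv_div]
    ring
  have hg := avg_harm hb
  have hgt : Tendsto (fun N : ℕ => ∑ n ∈ Finset.range N, 1 / Real.log ((T n - 1 : ℕ) : ℝ)) atTop atTop := by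
    have h2 := hg.pos_mul_atTop (by positivity) tendsto_logN
    refine h2.congr' ?_
    filter_upwards [tendsto_logN.eventually_gt_atTop 0] with N hN
    field_simp
  have hdiv : Tendsto (fun M : ℕ => ∑ m ∈ Finset.range M, B.indicator (fun _ => (1 : ℝ)) m / Real.log m) atTop atTop := by
    apply tendsto_atTop_of_monotone_of_subseq (φ := fun N => T N - 1) (l := atTop)
    · apply monotone_nat_of_le_succ
      intro M
      rw [Finset.sum_range_succ]
      have : 0 ≤ B.indicator (fun _ => (1 : ℝ)) M / Real.log M :=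
        div_nonneg (indicator_nonneg (fun _ _ => zero_le_one) _) (Real.log_natCast_nonneg _)
      linarith
    · refine hgt.congr fun N => ?_
      have := hsum (fun m => 1 / Real.log m) N
      simp only [Function.comp]
      rw [← this]
      exact Finset.sum_congr rfl fun m _ => by ring
  have h2 := (h1 hdiv).comp (pred_top hT)
  have h3 := h2.mul hg
  rw [one_mul] at h3
  refine h3.congr' ?_
  filter_upwards [hgt.eventually_gt_atTop 0] with N hN
  have e1 := hsum (fun m => 1 / Real.log m) N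
  have e2 := hsum (fun m => J1 A (m + 1) ω) N
  have e3 : ∑ n ∈ Finset.range N, J1 A (T n - 1 + 1) ω = ∑ n ∈ Finset.range N, J1 A (T n) ω :=
    Finset.sum_congr rfl fun n _ => by rw [Nat.sub_add_cancel (hT1 n)]
  rw [e3] at e2
  simp only [Function.comp]
  rw [e2]
  have e4 : ∑ m ∈ Finset.range (T N - 1), B.indicator (fun _ => (1 : ℝ)) m / Real.log m =
      ∑ n ∈ Finset.range N, 1 / Real.log ((T n - 1 : ℕ) : ℝ) := by
    rw [← e1]
    exact Finset.sum_congr rfl fun m _ => by ring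
  rw [e4]
  field_simp

/-! ### the members in order -/

lemma next_le {S : Set ℕ} (hS : S.Infinite) {j n : ℕ} (hn : n ∈ S) (h : pn S j < n) : pn S (j + 1) ≤ n := by
  obtain ⟨i, hi⟩ := exists_nth hn
  rw [← hi] at h ⊢
  exact (nth_mono hS).monotone ((nth_mono hS).lt_iff_lt.1 h)

/-- upper bounds for the gaps -/
lemma next_upper {S : Set ℕ} (hS : S.Infinite) {s s' : ℝ} (hs : 0 < s) (hss : s < s')
    (h : ∀ᶠ i : ℕ in atTop, ∃ n : ℕ, 2 ^ i < n ∧ (n : ℝ) ≤ 2 ^ i * (i : ℝ) ^ s ∧ n ∈ S) :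
    ∀ᶠ j : ℕ in atTop, (pn S (j + 1) : ℝ) ≤ pn S j * Real.log (pn S j) ^ s' := by
  have ht := tendsto_nth hS
  have hl : Tendsto (fun j => Real.log (pn S j)) atTop atTop := tendsto_logN.comp ht
  have h1 : Tendsto (fun j => Nat.log 2 (pn S j) + 1) atTop atTop := by
    rw [tendsto_atTop]
    intro b
    filter_upwards [ht.eventually_ge_atTop (2 ^ b)] with j hj
    exact (Nat.le_log_of_pow_le (by norm_num) hj).trans (Nat.le_succ _)
  have h2 : ∀ᶠ x : ℝ in atTop, 2 * (3 * x) ^ s ≤ x ^ s' := by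
    have h3 : Tendsto (fun x : ℝ => x ^ (s' - s)) atTop atTop := tendsto_rpow_atTop (by linarith)
    filter_upwards [h3.eventually_ge_atTop (2 * 3 ^ s), eventually_gt_atTop 0] with x hx hx0
    calc 2 * (3 * x) ^ s = (2 * 3 ^ s) * x ^ s := by rw [Real.mul_rpow (by norm_num) hx0.le]; ring
      _ ≤ x ^ (s' - s) * x ^ s := mul_le_mul_of_nonneg_right hx (by positivity)
      _ = x ^ s' := by rw [← Real.rpow_add hx0]; congr 1; ring
  filter_upwards [h1.eventually h, hl.eventually h2, hl.eventually_ge_atTop 1, ht.eventually_ge_atTop 1]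
    with j ⟨n, hn1, hn2, hn3⟩ h3 h4 h5
  set p := pn S j with hp
  have hp0 : p ≠ 0 := by omega
  have h6 : p < 2 ^ (Nat.log 2 p + 1) := Nat.lt_pow_succ_log_self (by norm_num) p
  have h7 : 2 ^ Nat.log 2 p ≤ p := Nat.pow_log_le_self 2 hp0
  have h8 : pn S (j + 1) ≤ n := next_le hS hn3 (by omega)
  have h9 : (pn S (j + 1) : ℝ) ≤ n := by exact_mod_cast h8
  have hp1 : (1 : ℝ) ≤ p := by exact_mod_cast h5
  have h10 : ((2 : ℝ) ^ (Nat.log 2 p + 1)) ≤ 2 * p := by
    rw [pow_succ]
    have : ((2 : ℝ) ^ (Nat.log 2 p)) ≤ p := by exact_mod_cast h7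
    linarith
  have h11 : (((Nat.log 2 p + 1 : ℕ)) : ℝ) ≤ 3 * Real.log p := by
    have h12 : (Nat.log 2 p : ℝ) * Real.log 2 ≤ Real.log p := by
      rw [← Real.log_pow]
      apply Real.log_le_log (by positivity)
      exact_mod_cast h7
    have h13 := Real.log_two_gt_d9
    push_cast
    have h14 : (0 : ℝ) ≤ Nat.log 2 p := Nat.cast_nonneg _
    nlinarith
  calc (pn S (j + 1) : ℝ) ≤ n := h9
    _ ≤ 2 ^ (Nat.log 2 p + 1) * ((Nat.log 2 p + 1 : ℕ) : ℝ) ^ s := hn2
    _ ≤ (2 * p) * (3 * Real.log p) ^ s :=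
        mul_le_mul h10 (Real.rpow_le_rpow (by positivity) h11 hs.le) (by positivity) (by positivity)
    _ = p * (2 * (3 * Real.log p) ^ s) := by ring
    _ ≤ p * Real.log p ^ s' := mul_le_mul_of_nonneg_left h3 (by positivity)

/-- lower bounds for the gaps -/
lemma next_lower {S : Set ℕ} (hS : S.Infinite) {s : ℝ} (hs : 0 < s)
    (h : ∃ᶠ N : ℕ in atTop, ∀ n : ℕ, N < n → (n : ℝ) ≤ N * Real.log N ^ s → n ∉ S) :
    ∃ᶠ j : ℕ in atTop, (pn S j : ℝ) * Real.log (pn S j) ^ s < pn S (j + 1) := by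
  rw [frequently_atTop]
  intro J
  obtain ⟨N, hN, h1⟩ := (frequently_atTop.1 h) (max 1 (pn S (J + 1)))
  have hN1 : 1 ≤ N := (le_max_left _ _).trans hN
  have hNJ : pn S (J + 1) ≤ N := (le_max_right _ _).trans hN
  have ht := tendsto_nth hS
  -- the largest `j` with `pn S j ≤ N`
  have hex : ∃ k, N < pn S k := by
    obtain ⟨k, hk⟩ := (ht.eventually_gt_atTop N).exists
    exact ⟨k, hk⟩
  classical
  set k := Nat.find hex with hk
  have hk1 : N < pn S k := Nat.find_spec hex
  have hk2 : ∀ i, i < k → pn S i ≤ N := fun i hi => not_lt.1 (Nat.find_min hex hi)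
  have hkJ : J + 1 < k := by
    by_contra hcon
    push Not at hcon
    have := (nth_mono hS).monotone hcon
    omega
  refine ⟨k - 1, by omega, ?_⟩
  have e : k - 1 + 1 = k := by omega
  rw [e]
  have h2 := hk2 (k - 1) (by omega)
  have h3 : pn S k ∈ S := nth_mem hS k
  have h4 : ¬ ((pn S k : ℝ) ≤ N * Real.log N ^ s) := fun h5 => h1 _ hk1 h5 h3
  push Not at h4
  refine lt_of_le_of_lt ?_ h4
  have h5 : (pn S (k - 1) : ℝ) ≤ N := by exact_mod_cast h2
  rcases Nat.eq_zero_or_pos (pn S (k - 1)) with h6 | h6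
  · rw [h6, Nat.cast_zero, zero_mul]
    positivity
  · have h7 : (1 : ℝ) ≤ pn S (k - 1) := by exact_mod_cast h6
    apply mul_le_mul h5 _ (by
      have := Real.log_nonneg h7
      positivity) (by positivity)
    exact Real.rpow_le_rpow (Real.log_nonneg h7) (Real.log_le_log (by linarith) h5) hs.le

/-- the indices of the chosen terms -/
def idx (A : ℕ → Set Ω) (u : ℕ → ℕ) (ω : Ω) : Set ℕ := {n | ω ∈ A (u n)}

/-- **main theorem** for one sequence -/
theorem exp_seq (hA : ∀ n, MeasurableSet[ℱ n] (A n))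
    (hd : ∀ᵐ ω ∂μ, Tendsto (fun n : ℕ => dens μ ℱ A n ω * Real.log n) atTop (𝓝 1))
    {u : ℕ → ℕ} {L : ℝ} (h : ExpSeq u L) :
    ∀ᵐ ω ∂μ, (idx A u ω).Infinite ∧
      Tendsto (fun x : ℕ => ({n : ℕ | n ≤ x ∧ ω ∈ A (u n)}.ncard : ℝ) / Real.log x) atTop (𝓝 (1 / L)) ∧
      (∀ s : ℝ, L < s → ∀ᶠ j : ℕ in atTop, (pn (idx A u ω) (j + 1) : ℝ) ≤
        pn (idx A u ω) j * Real.log (pn (idx A u ω) j) ^ s) ∧
      (∀ s : ℝ, s < L → ∃ᶠ j : ℕ in atTop, (pn (idx A u ω) j : ℝ) * Real.log (pn (idx A u ω) j) ^ s <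
        pn (idx A u ω) (j + 1)) := by
  classical
  have hL := h.1
  obtain ⟨T, n₁, hT, hT1, hTu, hlog⟩ := h.exists_T
  have hdT := dens_T hd hT hT1 hL hlog
  have h1 := cnt_T hA hd hT hT1 hL hlog
  have h2 : ∀ᵐ ω ∂μ, ∀ q : ℚ, 0 < q → (q : ℝ) < L →
      ∃ᶠ N : ℕ in atTop, ∀ n : ℕ, N < n → (n : ℝ) ≤ N * Real.log N ^ (q : ℝ) → ω ∉ A (T n) := by
    refine ae_all_iff.2 fun q => ?_
    by_cases hq : 0 < q ∧ (q : ℝ) < L
    · have hq0 : (0 : ℝ) < q := by exact_mod_cast hq.1
      filter_upwards [gap_io (μ := μ) hA hT (κ := 1 / L) (by positivity) hdT (s := q) hq0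
        (by rw [mul_one_div, div_lt_one hL]; exact hq.2)] with ω hω _ _
      exact hω
    · exact Eventually.of_forall fun ω h1 h2 => absurd ⟨h1, h2⟩ hq
  have h3 : ∀ᵐ ω ∂μ, ∀ q : ℚ, L < (q : ℝ) →
      ∀ᶠ i : ℕ in atTop, ∃ n : ℕ, 2 ^ i < n ∧ (n : ℝ) ≤ 2 ^ i * (i : ℝ) ^ (q : ℝ) ∧ ω ∈ A (T n) := by
    refine ae_all_iff.2 fun q => ?_
    by_cases hq : L < (q : ℝ)
    · filter_upwards [gap_fin (μ := μ) hA hT (κ := 1 / L) (by positivity) hdT (s := q) (by linarith)
        (by rw [mul_one_div, one_lt_div hL]; exact hq)] with ω hω _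
      exact hω
    · exact Eventually.of_forall fun ω h1 => absurd h1 hq
  filter_upwards [h1, h2, h3] with ω g1 g2 g3
  -- infinitely many
  have hinf : (idx A u ω).Infinite := by
    rw [Set.infinite_iff_exists_gt]
    intro a
    obtain ⟨q, hq1, hq2⟩ := exists_rat_btwn (show L < L + 1 by linarith)
    obtain ⟨i, hi, n, hn1, _, hn3⟩ := ((eventually_ge_atTop (max a n₁)).and (g3 q hq1)).exists
    have h4 : i < 2 ^ i := Nat.lt_two_pow_self
    have h5 : a ≤ i := (le_max_left _ _).trans hi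
    have h6 : n₁ ≤ i := (le_max_right _ _).trans hi
    refine ⟨n, ?_, by omega⟩
    show ω ∈ A (u n)
    rw [← hTu n (by omega)]
    exact hn3
  refine ⟨hinf, ?_, ?_, ?_⟩
  · -- counting
    have e1 : ∀ N, ∑ n ∈ Finset.range N, J1 A (T n) ω = (((Finset.range N).filter (fun n => ω ∈ A (T n))).card : ℝ) := by
      intro N
      rw [Finset.card_filter]
      push_cast
      refine Finset.sum_congr rfl fun i _ => ?_
      unfold J1
      by_cases h : ω ∈ A (T i)
      · rw [indicator_of_mem h, if_pos h]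
      · rw [indicator_of_notMem h, if_neg h]
    have e2 : ∀ x, {n : ℕ | n ≤ x ∧ ω ∈ A (u n)}.ncard = ((Finset.range (x + 1)).filter (fun n => ω ∈ A (u n))).card := by
      intro x
      rw [← Set.ncard_coe_finset]
      congr 1
      ext n
      simp
    have e3 : ∀ x, |({n : ℕ | n ≤ x ∧ ω ∈ A (u n)}.ncard : ℝ) - ∑ n ∈ Finset.range x, J1 A (T n) ω| ≤ n₁ + 1 := by
      intro x
      rw [e1, e2]
      have k1 : ((Finset.range (x + 1)).filter (fun n => ω ∈ A (u n))).card ≤
          ((Finset.range x).filter (fun n => ω ∈ A (T n))).card + (n₁ + 1) := by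
        calc ((Finset.range (x + 1)).filter (fun n => ω ∈ A (u n))).card ≤
            (((Finset.range x).filter (fun n => ω ∈ A (T n))) ∪ (Finset.range n₁ ∪ {x})).card := by
              apply Finset.card_le_card
              intro n hn
              simp only [Finset.mem_filter, Finset.mem_range, Finset.mem_union, Finset.mem_singleton] at hn ⊢
              obtain ⟨hn1, hn2⟩ := hn
              rcases Nat.lt_or_ge n n₁ with h4 | h4
              · exact Or.inr (Or.inl h4)
              · rcases Nat.lt_or_ge n x with h5 | h5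
                · left
                  rw [hTu n h4]
                  exact ⟨h5, hn2⟩
                · right; right; omega
          _ ≤ _ := by
              refine (Finset.card_union_le _ _).trans ?_
              have := Finset.card_union_le (Finset.range n₁) {x}
              rw [Finset.card_range, Finset.card_singleton] at this
              omega
      have k2 : ((Finset.range x).filter (fun n => ω ∈ A (T n))).card ≤
          ((Finset.range (x + 1)).filter (fun n => ω ∈ A (u n))).card + (n₁ + 1) := by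
        calc ((Finset.range x).filter (fun n => ω ∈ A (T n))).card ≤
            (((Finset.range (x + 1)).filter (fun n => ω ∈ A (u n))) ∪ (Finset.range n₁)).card := by
              apply Finset.card_le_card
              intro n hn
              simp only [Finset.mem_filter, Finset.mem_range, Finset.mem_union] at hn ⊢
              obtain ⟨hn1, hn2⟩ := hn
              rcases Nat.lt_or_ge n n₁ with h4 | h4
              · exact Or.inr h4
              · left
                rw [hTu n h4] at hn2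
                exact ⟨by omega, hn2⟩
          _ ≤ _ := by
              refine (Finset.card_union_le _ _).trans ?_
              rw [Finset.card_range]
              omega
      have k1' : ((((Finset.range (x + 1)).filter (fun n => ω ∈ A (u n))).card : ℕ) : ℝ) ≤
          ((Finset.range x).filter (fun n => ω ∈ A (T n))).card + (n₁ + 1) := by exact_mod_cast k1
      have k2' : ((((Finset.range x).filter (fun n => ω ∈ A (T n))).card : ℕ) : ℝ) ≤
          ((Finset.range (x + 1)).filter (fun n => ω ∈ A (u n))).card + (n₁ + 1) := by exact_mod_cast k2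
      rw [abs_le]
      constructor <;> linarith
    have h4 : Tendsto (fun x : ℕ => (({n : ℕ | n ≤ x ∧ ω ∈ A (u n)}.ncard : ℝ) -
        ∑ n ∈ Finset.range x, J1 A (T n) ω) / Real.log x) atTop (𝓝 0) := by
      apply squeeze_zero_norm' _ ((tendsto_const_nhds (x := (n₁ + 1 : ℝ))).div_atTop tendsto_logN)
      filter_upwards [tendsto_logN.eventually_gt_atTop 0] with x hx
      rw [norm_div, Real.norm_eq_abs, Real.norm_of_nonneg hx.le]
      exact div_le_div_of_nonneg_right (e3 x) hx.le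
    have h5 := h4.add g1
    rw [zero_add] at h5
    refine h5.congr fun x => ?_
    ring
  · intro s hs
    obtain ⟨q, hq1, hq2⟩ := exists_rat_btwn hs
    refine next_upper hinf (s := q) (by linarith) hq2 ?_
    filter_upwards [g3 q hq1, eventually_ge_atTop n₁] with i ⟨n, hn1, hn2, hn3⟩ hi
    have h4 : i < 2 ^ i := Nat.lt_two_pow_self
    refine ⟨n, hn1, hn2, ?_⟩
    show ω ∈ A (u n)
    rw [← hTu n (by omega)]
    exact hn3
  · intro s hs
    obtain ⟨q, hq1, hq2⟩ := exists_rat_btwn (show max s 0 < L from max_lt hs hL)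
    have hq0 : (0 : ℝ) < q := lt_of_le_of_lt (le_max_right _ _) hq1
    have hqs : s < q := lt_of_le_of_lt (le_max_left _ _) hq1
    have h4 : ∃ᶠ N : ℕ in atTop, ∀ n : ℕ, N < n → (n : ℝ) ≤ N * Real.log N ^ (q : ℝ) → n ∉ idx A u ω := by
      refine ((g2 q (by exact_mod_cast hq0) hq2).and_eventually (eventually_ge_atTop n₁)).mono ?_
      rintro N ⟨hN1, hN2⟩ n hn1 hn2 hn3
      apply hN1 n hn1 hn2
      rw [hTu n (by omega)]
      exact hn3
    have h5 := next_lower hinf hq0 h4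
    have ht := tendsto_nth hinf
    have hl : Tendsto (fun j => Real.log (pn (idx A u ω) j)) atTop atTop := tendsto_logN.comp ht
    refine (h5.and_eventually (hl.eventually_ge_atTop 1)).mono ?_
    rintro j ⟨hj1, hj2⟩
    refine lt_of_le_of_lt ?_ hj1
    exact mul_le_mul_of_nonneg_left (Real.rpow_le_rpow_of_exponent_le hj2 hqs.le) (Nat.cast_nonneg _)

/-! ### recurrences -/

/-- the growth rate of `u (n + 2) = P u (n + 1) + Q u n` -/
noncomputable def root (P Q : ℕ) : ℝ := ((P : ℝ) + Real.sqrt ((P : ℝ) ^ 2 + 4 * Q)) / 2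

lemma root_sq (P Q : ℕ) : root P Q ^ 2 = P * root P Q + Q := by
  unfold root
  have h := Real.sq_sqrt (show (0 : ℝ) ≤ (P : ℝ) ^ 2 + 4 * Q by positivity)
  nlinarith

lemma root_gt {P Q : ℕ} (hP : 1 ≤ P) (hQ : 1 ≤ Q) : 1 < root P Q := by
  unfold root
  have hP' : (1 : ℝ) ≤ P := by exact_mod_cast hP
  have hQ' : (1 : ℝ) ≤ Q := by exact_mod_cast hQ
  have h : 1 < Real.sqrt ((P : ℝ) ^ 2 + 4 * Q) := by
    rw [Real.lt_sqrt (by norm_num)]
    nlinarith
  linarith

/-- sequences with the recurrence -/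
def Rec (P Q : ℕ) (u : ℕ → ℕ) : Prop := ∀ n, u (n + 2) = P * u (n + 1) + Q * u n

lemma rec_pos {P Q : ℕ} (hP : 1 ≤ P) (hQ : 1 ≤ Q) {u : ℕ → ℕ} (hu : Rec P Q u) (h0 : u 0 ≠ 0 ∨ u 1 ≠ 0) (n : ℕ) :
    0 < u (n + 2) := by
  have h2 : 0 < u 2 := by
    have := hu 0
    rw [zero_add, zero_add] at this
    rw [this]
    rcases h0 with h | h
    · have : 0 < Q * u 0 := Nat.mul_pos hQ (Nat.pos_of_ne_zero h)
      omega
    · have : 0 < P * u 1 := Nat.mul_pos hP (Nat.pos_of_ne_zero h)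
      omega
  induction n with
  | zero => exact h2
  | succ n ih =>
    have := hu (n + 1)
    have e : n + 1 + 2 = n + 3 := by ring
    have e' : n + 1 + 1 = n + 2 := by ring
    rw [e, e'] at this
    rw [e, this]
    have : 0 < P * u (n + 2) := Nat.mul_pos hP ih
    omega

lemma rec_exp {P Q : ℕ} (hP : 1 ≤ P) (hQ : 1 ≤ Q) {u : ℕ → ℕ} (hu : Rec P Q u) (h0 : u 0 ≠ 0 ∨ u 1 ≠ 0) :
    ExpSeq u (Real.log (root P Q)) := by
  have hα := root_gt hP hQ
  have hα0 : 0 < root P Q := by linarith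
  have hsq := root_sq P Q
  set α := root P Q with hαdef
  have hpos := rec_pos hP hQ hu h0
  have hP' : (1 : ℝ) ≤ P := by exact_mod_cast hP
  have hQ' : (1 : ℝ) ≤ Q := by exact_mod_cast hQ
  have hur : ∀ n, (u (n + 2) : ℝ) = P * u (n + 1) + Q * u n := fun n => by exact_mod_cast hu n
  refine ⟨Real.log_pos hα, ⟨3, fun n hn => ?_⟩, ?_⟩
  · obtain ⟨k, rfl⟩ : ∃ k, n = k + 3 := ⟨n - 3, by omega⟩
    have h1 := hu (k + 2)
    have e : k + 2 + 2 = k + 3 + 1 := by ring
    have e' : k + 2 + 1 = k + 3 := by ring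
    rw [e, e'] at h1
    rw [h1]
    have h2 := hpos k
    have h3 : u (k + 3) ≤ P * u (k + 3) := Nat.le_mul_of_pos_left _ hP
    have h4 : 0 < Q * u (k + 2) := Nat.mul_pos hQ h2
    omega
  · -- bounds
    obtain ⟨c, hc0, hc2, hc3⟩ : ∃ c : ℝ, 0 < c ∧ c * α ^ 2 ≤ u 2 ∧ c * α ^ 3 ≤ u 3 := by
      have h2 : (0 : ℝ) < u 2 := by exact_mod_cast hpos 0
      have h3 : (0 : ℝ) < u 3 := by exact_mod_cast hpos 1
      refine ⟨min (u 2 / α ^ 2) (u 3 / α ^ 3), lt_min (by positivity) (by positivity), ?_, ?_⟩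
      · calc min ((u 2 : ℝ) / α ^ 2) (u 3 / α ^ 3) * α ^ 2 ≤ (u 2 : ℝ) / α ^ 2 * α ^ 2 :=
              mul_le_mul_of_nonneg_right (min_le_left _ _) (by positivity)
          _ = u 2 := by field_simp
      · calc min ((u 2 : ℝ) / α ^ 2) (u 3 / α ^ 3) * α ^ 3 ≤ (u 3 : ℝ) / α ^ 3 * α ^ 3 :=
              mul_le_mul_of_nonneg_right (min_le_right _ _) (by positivity)
          _ = u 3 := by field_simp
    obtain ⟨C, hC0, hC2, hC3⟩ : ∃ C : ℝ, 0 < C ∧ (u 2 : ℝ) ≤ C * α ^ 2 ∧ (u 3 : ℝ) ≤ C * α ^ 3 := by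
      have h2 : (0 : ℝ) < u 2 := by exact_mod_cast hpos 0
      have h3 : (0 : ℝ) < u 3 := by exact_mod_cast hpos 1
      refine ⟨max (u 2 / α ^ 2) (u 3 / α ^ 3), lt_max_of_lt_left (by positivity), ?_, ?_⟩
      · calc (u 2 : ℝ) = (u 2 : ℝ) / α ^ 2 * α ^ 2 := by field_simp
          _ ≤ _ := mul_le_mul_of_nonneg_right (le_max_left _ _) (by positivity)
      · calc (u 3 : ℝ) = (u 3 : ℝ) / α ^ 3 * α ^ 3 := by field_simp
          _ ≤ _ := mul_le_mul_of_nonneg_right (le_max_right _ _) (by positivity)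
    have hlow : ∀ n, c * α ^ (n + 2) ≤ u (n + 2) ∧ c * α ^ (n + 3) ≤ u (n + 3) := by
      intro n
      induction n with
      | zero => exact ⟨hc2, hc3⟩
      | succ n ih =>
        refine ⟨ih.2, ?_⟩
        have e : n + 1 + 3 = n + 2 + 2 := by ring
        rw [e, hur (n + 2)]
        have e2 : α ^ (n + 2 + 2) = P * α ^ (n + 3) + Q * α ^ (n + 2) := by
          rw [pow_add α (n + 2) 2, hsq]
          ring
        have e3 : n + 2 + 1 = n + 3 := by ring
        rw [e2, e3]
        have k1 := mul_le_mul_of_nonneg_left ih.2 (show (0 : ℝ) ≤ P by linarith)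
        have k2 := mul_le_mul_of_nonneg_left ih.1 (show (0 : ℝ) ≤ Q by linarith)
        nlinarith
    have hup : ∀ n, (u (n + 2) : ℝ) ≤ C * α ^ (n + 2) ∧ (u (n + 3) : ℝ) ≤ C * α ^ (n + 3) := by
      intro n
      induction n with
      | zero => exact ⟨hC2, hC3⟩
      | succ n ih =>
        refine ⟨ih.2, ?_⟩
        have e : n + 1 + 3 = n + 2 + 2 := by ring
        rw [e, hur (n + 2)]
        have e2 : α ^ (n + 2 + 2) = P * α ^ (n + 3) + Q * α ^ (n + 2) := by
          rw [pow_add α (n + 2) 2, hsq]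
          ring
        have e3 : n + 2 + 1 = n + 3 := by ring
        rw [e2, e3]
        have k1 := mul_le_mul_of_nonneg_left ih.2 (show (0 : ℝ) ≤ P by linarith)
        have k2 := mul_le_mul_of_nonneg_left ih.1 (show (0 : ℝ) ≤ Q by linarith)
        nlinarith
    have t1 : Tendsto (fun n : ℕ => Real.log c / n + Real.log α) atTop (𝓝 (0 + Real.log α)) :=
      (tendsto_const_nhds.div_atTop tendsto_natCast_atTop_atTop).add tendsto_const_nhds
    have t2 : Tendsto (fun n : ℕ => Real.log C / n + Real.log α) atTop (𝓝 (0 + Real.log α)) :=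
      (tendsto_const_nhds.div_atTop tendsto_natCast_atTop_atTop).add tendsto_const_nhds
    rw [zero_add] at t1 t2
    refine tendsto_of_tendsto_of_tendsto_of_le_of_le' t1 t2 ?_ ?_
    · filter_upwards [eventually_ge_atTop 2] with n hn
      obtain ⟨k, rfl⟩ : ∃ k, n = k + 2 := ⟨n - 2, by omega⟩
      have hk : (0 : ℝ) < ((k + 2 : ℕ) : ℝ) := by positivity
      rw [le_div_iff₀ hk, add_mul, div_mul_cancel₀ _ hk.ne']
      have h1 := Real.log_le_log (by positivity) (hlow k).1
      rw [Real.log_mul hc0.ne' (by positivity), Real.log_pow] at h1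
      linarith
    · filter_upwards [eventually_ge_atTop 2] with n hn
      obtain ⟨k, rfl⟩ : ∃ k, n = k + 2 := ⟨n - 2, by omega⟩
      have hk : (0 : ℝ) < ((k + 2 : ℕ) : ℝ) := by positivity
      rw [div_le_iff₀ hk, add_mul, div_mul_cancel₀ _ hk.ne']
      have h0 : (0 : ℝ) < u (k + 2) := by exact_mod_cast hpos k
      have h1 := Real.log_le_log h0 (hup k).1
      rw [Real.log_mul hC0.ne' (by positivity), Real.log_pow] at h1
      linarith

/-- the sequence with given parameters -/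
def mkRec (P Q a b : ℕ) : ℕ → ℕ
  | 0 => a
  | 1 => b
  | n + 2 => P * mkRec P Q a b (n + 1) + Q * mkRec P Q a b n

lemma eq_mkRec {P Q : ℕ} {u : ℕ → ℕ} (hu : Rec P Q u) : u = mkRec P Q (u 0) (u 1) := by
  have : ∀ n, u n = mkRec P Q (u 0) (u 1) n ∧ u (n + 1) = mkRec P Q (u 0) (u 1) (n + 1) := by
    intro n
    induction n with
    | zero => exact ⟨rfl, rfl⟩
    | succ n ih =>
      refine ⟨ih.2, ?_⟩
      show u (n + 2) = P * mkRec P Q (u 0) (u 1) (n + 1) + Q * mkRec P Q (u 0) (u 1) n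
      rw [hu n, ih.1, ih.2]
  exact funext fun n => (this n).1

/-- **main theorem** for all recurrences at once -/
theorem rec_all (hA : ∀ n, MeasurableSet[ℱ n] (A n))
    (hd : ∀ᵐ ω ∂μ, Tendsto (fun n : ℕ => dens μ ℱ A n ω * Real.log n) atTop (𝓝 1)) :
    ∀ᵐ ω ∂μ, ∀ (P Q : ℕ) (u : ℕ → ℕ), 1 ≤ P → 1 ≤ Q → Rec P Q u → (u 0 ≠ 0 ∨ u 1 ≠ 0) → (idx A u ω).Infinite ∧
      Tendsto (fun x : ℕ => ({n : ℕ | n ≤ x ∧ ω ∈ A (u n)}.ncard : ℝ) / Real.log x) atTop
        (𝓝 (1 / Real.log (root P Q))) ∧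
      (∀ s : ℝ, Real.log (root P Q) < s → ∀ᶠ j : ℕ in atTop, (pn (idx A u ω) (j + 1) : ℝ) ≤
        pn (idx A u ω) j * Real.log (pn (idx A u ω) j) ^ s) ∧
      (∀ s : ℝ, s < Real.log (root P Q) → ∃ᶠ j : ℕ in atTop, (pn (idx A u ω) j : ℝ) * Real.log (pn (idx A u ω) j) ^ s <
        pn (idx A u ω) (j + 1)) := by
  have h1 : ∀ᵐ ω ∂μ, ∀ t : ℕ × ℕ × ℕ × ℕ, ExpSeq (mkRec t.1 t.2.1 t.2.2.1 t.2.2.2) (Real.log (root t.1 t.2.1)) →
      (idx A (mkRec t.1 t.2.1 t.2.2.1 t.2.2.2) ω).Infinite ∧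
      Tendsto (fun x : ℕ => ({n : ℕ | n ≤ x ∧ ω ∈ A (mkRec t.1 t.2.1 t.2.2.1 t.2.2.2 n)}.ncard : ℝ) / Real.log x) atTop
        (𝓝 (1 / Real.log (root t.1 t.2.1))) ∧
      (∀ s : ℝ, Real.log (root t.1 t.2.1) < s → ∀ᶠ j : ℕ in atTop,
        (pn (idx A (mkRec t.1 t.2.1 t.2.2.1 t.2.2.2) ω) (j + 1) : ℝ) ≤
        pn (idx A (mkRec t.1 t.2.1 t.2.2.1 t.2.2.2) ω) j * Real.log (pn (idx A (mkRec t.1 t.2.1 t.2.2.1 t.2.2.2) ω) j) ^ s) ∧
      (∀ s : ℝ, s < Real.log (root t.1 t.2.1) → ∃ᶠ j : ℕ in atTop,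
        (pn (idx A (mkRec t.1 t.2.1 t.2.2.1 t.2.2.2) ω) j : ℝ) *
          Real.log (pn (idx A (mkRec t.1 t.2.1 t.2.2.1 t.2.2.2) ω) j) ^ s <
        pn (idx A (mkRec t.1 t.2.1 t.2.2.1 t.2.2.2) ω) (j + 1)) := by
    refine ae_all_iff.2 fun t => ?_
    by_cases h : ExpSeq (mkRec t.1 t.2.1 t.2.2.1 t.2.2.2) (Real.log (root t.1 t.2.1))
    · filter_upwards [exp_seq hA hd h] with ω hω _
      exact hω
    · exact Eventually.of_forall fun ω h1 => absurd h1 h
  filter_upwards [h1] with ω hω P Q u hP hQ hu h0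
  have h2 := eq_mkRec hu
  have h3 := rec_exp hP hQ hu h0
  rw [h2] at h3 ⊢
  exact hω (P, Q, u 0, u 1) h3

end Pool.Agent.N957.SQ
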