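import Mathlib
import Pool.Agent.N957.SQ.Exp2

/-!
# Chosen terms with chosen index
-/

set_option autoImplicit false
set_option linter.unusedSectionVars false

open MeasureTheory Filter Set
open scoped ENNReal Topology NNReal

namespace Pool.Agent.N957.SQ

open Pool.Agent.R528.RM Pool.Agent.N740.HK

lemma loglog_top : Tendsto (fun N : ℕ => Real.log (Real.log N)) atTop atTop :=
  Real.tendsto_log_atTop.comp tendsto_logN

/-- the differences of `log log` -/
lemma loglog_diff : Tendsto (fun n : ℕ => (1 / ((n : ℝ) + 1) / Real.log n) /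
    (Real.log (Real.log ((n + 1 : ℕ) : ℝ)) - Real.log (Real.log n))) atTop (𝓝 1) := by
  have h1 : Tendsto (fun n : ℕ => (n : ℝ) * Real.log (1 + 1 / n)) atTop (𝓝 1) :=
    (Real.tendsto_mul_log_one_add_div_atTop 1).comp tendsto_natCast_atTop_atTop
  have h2 : Tendsto (fun n : ℕ => 1 + (1 : ℝ) / n) atTop (𝓝 (1 + 0)) :=
    tendsto_const_nhds.add tendsto_one_div_atTop_nhds_zero_nat
  rw [add_zero] at h2
  have h3 : Tendsto (fun n : ℕ => ((n : ℝ) + 1) * (Real.log ((n + 1 : ℕ) : ℝ) - Real.log n)) atTop (𝓝 1) := by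
    have h4 := h1.mul h2
    rw [mul_one] at h4
    refine h4.congr' ?_
    filter_upwards [eventually_gt_atTop 0] with n hn
    have hn' : (0 : ℝ) < n := by exact_mod_cast hn
    push_cast
    rw [← Real.log_div (by positivity) hn'.ne']
    have e : ((n : ℝ) + 1) / n = 1 + 1 / n := by field_simp
    rw [e]
    field_simp
  have h5 := h3.inv₀ one_ne_zero
  rw [inv_one] at h5
  -- the quotient of logarithms
  have h6 : Tendsto (fun n : ℕ => Real.log ((n + 1 : ℕ) : ℝ) / Real.log n) atTop (𝓝 1) := log_shift 1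
  have h7 := h5.mul h6
  rw [mul_one] at h7
  refine tendsto_of_tendsto_of_tendsto_of_le_of_le' h5 h7 ?_ ?_
  · filter_upwards [eventually_ge_atTop 3] with n hn
    have hn' : (3 : ℝ) ≤ n := by exact_mod_cast hn
    have ha : 0 < Real.log n := Real.log_pos (by linarith)
    have hab : Real.log n < Real.log ((n + 1 : ℕ) : ℝ) := Real.log_lt_log (by linarith) (by push_cast; linarith)
    set a := Real.log (n : ℝ) with hadef
    set b := Real.log ((n + 1 : ℕ) : ℝ) with hbdef
    have hb : 0 < b := ha.trans hab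
    have hg : Real.log b - Real.log a ≤ (b - a) / a := by
      rw [← Real.log_div hb.ne' ha.ne']
      have := Real.log_le_sub_one_of_pos (show 0 < b / a by positivity)
      refine this.trans (le_of_eq ?_)
      field_simp
    have hg0 : 0 < Real.log b - Real.log a := sub_pos.2 (Real.log_lt_log ha hab)
    have hba : 0 < b - a := sub_pos.2 hab
    rw [le_div_iff₀ hg0]
    calc (((n : ℝ) + 1) * (b - a))⁻¹ * (Real.log b - Real.log a) ≤ (((n : ℝ) + 1) * (b - a))⁻¹ * ((b - a) / a) :=
          mul_le_mul_of_nonneg_left hg (by positivity)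
      _ = 1 / ((n : ℝ) + 1) / a := by field_simp
  · filter_upwards [eventually_ge_atTop 3] with n hn
    have hn' : (3 : ℝ) ≤ n := by exact_mod_cast hn
    have ha : 0 < Real.log n := Real.log_pos (by linarith)
    have hab : Real.log n < Real.log ((n + 1 : ℕ) : ℝ) := Real.log_lt_log (by linarith) (by push_cast; linarith)
    set a := Real.log (n : ℝ) with hadef
    set b := Real.log ((n + 1 : ℕ) : ℝ) with hbdef
    have hb : 0 < b := ha.trans hab
    have hg : (b - a) / b ≤ Real.log b - Real.log a := by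
      rw [← Real.log_div hb.ne' ha.ne']
      have := Real.one_sub_inv_le_log_of_pos (show 0 < b / a by positivity)
      refine le_trans (le_of_eq ?_) this
      rw [inv_div]
      field_simp
    have hg0 : 0 < Real.log b - Real.log a := sub_pos.2 (Real.log_lt_log ha hab)
    have hba : 0 < b - a := sub_pos.2 hab
    rw [div_le_iff₀ hg0]
    calc 1 / ((n : ℝ) + 1) / a = (((n : ℝ) + 1) * (b - a))⁻¹ * (b / a) * ((b - a) / b) := by field_simp
      _ ≤ (((n : ℝ) + 1) * (b - a))⁻¹ * (b / a) * (Real.log b - Real.log a) :=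
          mul_le_mul_of_nonneg_left hg (by positivity)

lemma ll_shift (k : ℕ) : Tendsto (fun N : ℕ => Real.log (Real.log ((N + k : ℕ) : ℝ)) / Real.log (Real.log N)) atTop (𝓝 1) := by
  have h1 := log_shift k
  have h2 := (Real.continuousAt_log one_ne_zero).tendsto.comp h1
  rw [Real.log_one] at h2
  have h3 := (h2.div_atTop loglog_top).const_add 1
  rw [add_zero] at h3
  refine h3.congr' ?_
  filter_upwards [eventually_ge_atTop 3, loglog_top.eventually_gt_atTop 0] with N hN hN2
  have hN' : (3 : ℝ) ≤ N := by exact_mod_cast hN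
  have h4 : 0 < Real.log N := Real.log_pos (by linarith)
  have h5 : 0 < Real.log ((N + k : ℕ) : ℝ) := Real.log_pos (by
    push_cast
    have : (0 : ℝ) ≤ k := Nat.cast_nonneg _
    linarith)
  simp only [Function.comp]
  rw [Real.log_div h5.ne' h4.ne']
  field_simp
  ring

/-- the sum of `1 / (n log n)` -/
lemma loglog_sum : Tendsto (fun N : ℕ => (∑ n ∈ Finset.range N, 1 / ((n : ℝ) + 1) / Real.log n) / Real.log (Real.log N))
    atTop (𝓝 1) := by
  set h : ℕ → ℝ := fun n => 1 / ((n : ℝ) + 1) / Real.log n with hh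
  set l : ℕ → ℝ := fun n => Real.log (Real.log n) with hl
  set g : ℕ → ℝ := fun n => l (n + 3 + 1) - l (n + 3) with hg
  have hg0 : ∀ n, 0 < g n := by
    intro n
    apply sub_pos.2
    have hn : (3 : ℝ) ≤ ((n + 3 : ℕ) : ℝ) := by
      push_cast
      have : (0 : ℝ) ≤ n := Nat.cast_nonneg n
      linarith
    apply Real.log_lt_log (Real.log_pos (by linarith))
    apply Real.log_lt_log (by linarith)
    push_cast
    linarith
  have hgs : ∀ N, ∑ n ∈ Finset.range N, g n = l (N + 3) - l 3 := by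
    intro N
    induction N with
    | zero => simp
    | succ N ih =>
      rw [Finset.sum_range_succ, ih]
      have e : N + 1 + 3 = N + 3 + 1 := by ring
      rw [e]
      simp only [hg]
      ring
  have hlt : Tendsto (fun N : ℕ => l (N + 3)) atTop atTop := loglog_top.comp (tendsto_add_atTop_nat 3)
  have hgt : Tendsto (fun N => ∑ n ∈ Finset.range N, g n) atTop atTop := by
    simp_rw [hgs]
    exact tendsto_atTop_add_const_right _ _ hlt
  have h1 : (fun n : ℕ => h (n + 3) - g n) =o[atTop] g := by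
    rw [Asymptotics.isLittleO_iff_tendsto' (Eventually.of_forall fun n hn => absurd hn (hg0 n).ne')]
    have h2 := (loglog_diff.comp (tendsto_add_atTop_nat 3)).sub_const 1
    rw [sub_self] at h2
    refine h2.congr fun n => ?_
    simp only [Function.comp]
    have h3 := (hg0 n).ne'
    simp only [hg, hl] at h3 ⊢
    rw [sub_div, div_self h3]
  have h2 := (h1.sum_range (fun n => (hg0 n).le) hgt).tendsto_div_nhds_zero
  -- divide by `l (N + 3)`
  have h3 : Tendsto (fun N : ℕ => (∑ n ∈ Finset.range N, g n) / l (N + 3)) atTop (𝓝 1) := by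
    have h4 := ((tendsto_const_nhds (x := l 3)).div_atTop hlt).const_sub 1
    rw [sub_zero] at h4
    refine h4.congr' ?_
    filter_upwards [hlt.eventually_gt_atTop 0] with N hN
    rw [hgs, sub_div, div_self hN.ne']
  have h4 := (h2.mul h3).add h3
  rw [zero_mul, zero_add] at h4
  have h5 := h4.add ((tendsto_const_nhds (x := ∑ n ∈ Finset.range 3, h n)).div_atTop hlt)
  rw [add_zero] at h5
  rw [← tendsto_add_atTop_iff_nat 3]
  refine h5.congr' ?_
  filter_upwards [hgt.eventually_gt_atTop 0, hlt.eventually_gt_atTop 0] with N hN hN2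
  have e : ∑ n ∈ Finset.range (N + 3), h n = ∑ n ∈ Finset.range 3, h n + ∑ n ∈ Finset.range N, h (n + 3) := by
    rw [add_comm N 3, Finset.sum_range_add]
    congr 1
    exact Finset.sum_congr rfl fun i _ => by rw [add_comm]
  have e2 : ∑ n ∈ Finset.range (N + 3), 1 / ((n : ℝ) + 1) / Real.log n = ∑ n ∈ Finset.range (N + 3), h n := rfl
  have e3 : Real.log (Real.log ((N + 3 : ℕ) : ℝ)) = l (N + 3) := rfl
  rw [e2, e3, e, Finset.sum_sub_distrib]
  field_simp
  ring

variable {Ω : Type} {m0 : MeasurableSpace Ω} {μ : Measure Ω} [IsProbabilityMeasure μ]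
  {ℱ : Filtration ℕ m0} {A : ℕ → Set Ω}

/-- the sum of the reciprocals of the chosen integers -/
theorem recip_law (hA : ∀ n, MeasurableSet[ℱ n] (A n))
    (hd : ∀ᵐ ω ∂μ, Tendsto (fun n : ℕ => dens μ ℱ A n ω * Real.log n) atTop (𝓝 1)) :
    ∀ᵐ ω ∂μ, Tendsto (fun N : ℕ => (∑ n ∈ Finset.range N, 1 / ((n : ℝ) + 1) * J1 A (n + 1) ω) /
      Real.log (Real.log N)) atTop (𝓝 1) := by
  have h0 := levy_log (μ := μ) hA hd (fun n _ => 1 / ((n : ℝ) + 1)) (fun n => @stronglyMeasurable_const _ _ (ℱ n) _ _)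
    (fun n _ => ⟨by positivity, by
      rw [div_le_one (by positivity)]
      have : (0 : ℝ) ≤ n := Nat.cast_nonneg n
      linarith⟩)
  filter_upwards [h0] with ω h1
  have h2 := loglog_sum
  have h3 : Tendsto (fun N : ℕ => ∑ n ∈ Finset.range N, 1 / ((n : ℝ) + 1) / Real.log n) atTop atTop := by
    have h4 := h2.pos_mul_atTop one_pos loglog_top
    refine h4.congr' ?_
    filter_upwards [loglog_top.eventually_gt_atTop 0] with N hN
    field_simp
  have h4 := (h1 h3).mul h2
  rw [one_mul] at h4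
  refine h4.congr' ?_
  filter_upwards [h3.eventually_gt_atTop 0] with N hN
  exact div_mul_div_cancel₀ hN.ne'

/-- **chosen terms with chosen index** -/
theorem both_T (hA : ∀ n, MeasurableSet[ℱ n] (A n))
    (hd : ∀ᵐ ω ∂μ, Tendsto (fun n : ℕ => dens μ ℱ A n ω * Real.log n) atTop (𝓝 1))
    {T : ℕ → ℕ} (hT : StrictMono T) (hT2 : ∀ n, n + 2 ≤ T n) {L : ℝ} (hL : 0 < L)
    (h : Tendsto (fun n : ℕ => Real.log (T n) / n) atTop (𝓝 L)) :
    ∀ᵐ ω ∂μ, Tendsto (fun N : ℕ => (∑ n ∈ Finset.range N, J1 A (n + 1) ω * J1 A (T n) ω) / Real.log (Real.log N))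
      atTop (𝓝 (1 / L)) := by
  classical
  have hT1 : ∀ n, 1 ≤ T n := fun n => by have := hT2 n; omega
  set B : ℕ → Set Ω := fun m => ⋃ n ∈ {n : ℕ | n < m ∧ T n = m + 1}, A (n + 1) with hB
  have hBm : ∀ m, MeasurableSet[ℱ m] (B m) := by
    intro m
    refine @MeasurableSet.biUnion _ _ (ℱ m) _ _ (Set.to_countable _) ?_
    rintro n ⟨hn, _⟩
    exact ℱ.mono (by omega) _ (hA (n + 1))
  have hBi : ∀ m ω, ω ∈ B m ↔ ∃ n, T n = m + 1 ∧ ω ∈ A (n + 1) := by
    intro m ω
    simp only [hB, mem_iUnion, mem_ofPred_eq, exists_prop]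
    constructor
    · rintro ⟨n, ⟨_, h1⟩, h2⟩
      exact ⟨n, h1, h2⟩
    · rintro ⟨n, h1, h2⟩
      exact ⟨n, ⟨by have := hT2 n; omega, h1⟩, h2⟩
  have h0 := levy_log (μ := μ) hA hd (fun m => (B m).indicator (fun _ => (1 : ℝ)))
    (fun n => (@stronglyMeasurable_const _ _ (ℱ n) _ _).indicator (hBm n))
    (fun n ω => by
      by_cases h : ω ∈ B n
      · rw [indicator_of_mem h]; norm_num
      · rw [indicator_of_notMem h]; norm_num)
  filter_upwards [h0, recip_law hA hd] with ω h1 hrec
  have hTt : Tendsto T atTop atTop := hT.tendsto_atTop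
  have hsum : ∀ (f : ℕ → ℝ) (N : ℕ), ∑ m ∈ Finset.range (T N - 1), (B m).indicator (fun _ => (1 : ℝ)) ω * f m =
      ∑ n ∈ Finset.range N, J1 A (n + 1) ω * f (T n - 1) := by
    intro f N
    have e0 : ∑ n ∈ Finset.range N, J1 A (n + 1) ω * f (T n - 1) =
        ∑ n ∈ (Finset.range N).filter (fun n => ω ∈ A (n + 1)), f (T n - 1) := by
      rw [Finset.sum_filter]
      refine Finset.sum_congr rfl fun n _ => ?_
      unfold J1
      by_cases h : ω ∈ A (n + 1)
      · rw [indicator_of_mem h, if_pos h, one_mul]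
      · rw [indicator_of_notMem h, if_neg h, zero_mul]
    have e1 : (Finset.range (T N - 1)).filter (fun m => ω ∈ B m) =
        ((Finset.range N).filter (fun n => ω ∈ A (n + 1))).image (fun n => T n - 1) := by
      ext m
      simp only [Finset.mem_filter, Finset.mem_range, Finset.mem_image]
      constructor
      · rintro ⟨hm, hm'⟩
        obtain ⟨n, hn, hn'⟩ := (hBi m ω).1 hm'
        refine ⟨n, ⟨?_, hn'⟩, by omega⟩
        rw [← hT.lt_iff_lt]
        omega
      · rintro ⟨n, ⟨hn, hn'⟩, rfl⟩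
        have h2 := hT hn
        have h3 := hT1 n
        exact ⟨by omega, (hBi _ _).2 ⟨n, by omega, hn'⟩⟩
    rw [e0, ← Finset.sum_image (f := f) (g := fun n => T n - 1), ← e1, Finset.sum_filter]
    · refine Finset.sum_congr rfl fun m _ => ?_
      by_cases h : ω ∈ B m
      · rw [indicator_of_mem h, if_pos h, one_mul]
      · rw [indicator_of_notMem h, if_neg h, zero_mul]
    · intro a _ b _ hab
      have h2 := hT1 a
      have h3 := hT1 b
      apply hT.injective
      simp only at hab
      omega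
  -- the weights
  have hb : Tendsto (fun n : ℕ => 1 / Real.log ((T n - 1 : ℕ) : ℝ) * ((n : ℝ) + 1)) atTop (𝓝 (1 / L)) := by
    have h3 := (log_pred hT hT1 h).inv₀ hL.ne'
    have h4 : Tendsto (fun n : ℕ => 1 + (1 : ℝ) / n) atTop (𝓝 (1 + 0)) :=
      tendsto_const_nhds.add tendsto_one_div_atTop_nhds_zero_nat
    have h5 := h3.mul h4
    rw [add_zero, mul_one, ← one_div] at h5
    refine h5.congr' ?_
    filter_upwards [eventually_gt_atTop 0] with n hn
    have hn' : (0 : ℝ) < n := by exact_mod_cast hn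
    rw [inv_div]
    field_simp
  set c : ℕ → ℝ := fun n => 1 / ((n : ℝ) + 1) * J1 A (n + 1) ω with hc
  have hc0 : ∀ n, 0 ≤ c n := fun n => mul_nonneg (by positivity) (J1_01 _ _).1
  have hct : Tendsto (fun N : ℕ => ∑ n ∈ Finset.range N, c n) atTop atTop := by
    have h4 := hrec.pos_mul_atTop one_pos loglog_top
    refine h4.congr' ?_
    filter_upwards [loglog_top.eventually_gt_atTop 0] with N hN
    field_simp
  have h2 : (fun n : ℕ => J1 A (n + 1) ω * (1 / Real.log ((T n - 1 : ℕ) : ℝ)) - 1 / L * c n) =o[atTop] c := by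
    rw [Asymptotics.isLittleO_iff]
    intro ε hε
    have h3 := hb.sub_const (1 / L)
    rw [sub_self] at h3
    filter_upwards [(tendsto_order.1 h3.norm).2 ε (by rw [norm_zero]; exact hε)] with n hn
    have e : J1 A (n + 1) ω * (1 / Real.log ((T n - 1 : ℕ) : ℝ)) - 1 / L * c n =
        (1 / Real.log ((T n - 1 : ℕ) : ℝ) * ((n : ℝ) + 1) - 1 / L) * c n := by
      simp only [hc]
      field_simp
    rw [e, norm_mul]
    exact mul_le_mul_of_nonneg_right hn.le (norm_nonneg _)
  have h3 := (h2.sum_range hc0 hct).tendsto_div_nhds_zero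
  have hg : Tendsto (fun N : ℕ => (∑ n ∈ Finset.range N, J1 A (n + 1) ω * (1 / Real.log ((T n - 1 : ℕ) : ℝ))) /
      Real.log (Real.log N)) atTop (𝓝 (1 / L)) := by
    have h4 := (h3.mul hrec).add (hrec.const_mul (1 / L))
    rw [zero_mul, zero_add, mul_one] at h4
    refine h4.congr' ?_
    filter_upwards [hct.eventually_gt_atTop 0, loglog_top.eventually_gt_atTop 0] with N hN hN2
    rw [Finset.sum_sub_distrib, ← Finset.mul_sum]
    have hN' : ∑ n ∈ Finset.range N, 1 / ((n : ℝ) + 1) * J1 A (n + 1) ω = ∑ n ∈ Finset.range N, c n := rfl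
    rw [hN']
    field_simp
    ring
  have hgt : Tendsto (fun N : ℕ => ∑ n ∈ Finset.range N, J1 A (n + 1) ω * (1 / Real.log ((T n - 1 : ℕ) : ℝ))) atTop atTop := by
    have h4 := hg.pos_mul_atTop (by positivity) loglog_top
    refine h4.congr' ?_
    filter_upwards [loglog_top.eventually_gt_atTop 0] with N hN
    field_simp
  have hdiv : Tendsto (fun M : ℕ => ∑ m ∈ Finset.range M, (B m).indicator (fun _ => (1 : ℝ)) ω / Real.log m) atTop atTop := by
    apply tendsto_atTop_of_monotone_of_subseq (φ := fun N => T N - 1) (l := atTop)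
    · apply monotone_nat_of_le_succ
      intro M
      rw [Finset.sum_range_succ]
      have : 0 ≤ (B M).indicator (fun _ => (1 : ℝ)) ω / Real.log M :=
        div_nonneg (indicator_nonneg (fun _ _ => zero_le_one) _) (Real.log_natCast_nonneg _)
      linarith
    · refine hgt.congr fun N => ?_
      have := hsum (fun m => 1 / Real.log m) N
      simp only [Function.comp]
      rw [← this]
      exact Finset.sum_congr rfl fun m _ => by ring
  have h4 := (h1 hdiv).comp (pred_top hT)
  have h5 := h4.mul hg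
  rw [one_mul] at h5
  refine h5.congr' ?_
  filter_upwards [hgt.eventually_gt_atTop 0] with N hN
  have e1 := hsum (fun m => 1 / Real.log m) N
  have e2 := hsum (fun m => J1 A (m + 1) ω) N
  have e3 : ∑ n ∈ Finset.range N, J1 A (n + 1) ω * J1 A (T n - 1 + 1) ω =
      ∑ n ∈ Finset.range N, J1 A (n + 1) ω * J1 A (T n) ω :=
    Finset.sum_congr rfl fun n _ => by rw [Nat.sub_add_cancel (hT1 n)]
  rw [e3] at e2
  simp only [Function.comp]
  rw [e2]
  have e4 : ∑ m ∈ Finset.range (T N - 1), (B m).indicator (fun _ => (1 : ℝ)) ω / Real.log m =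
      ∑ n ∈ Finset.range N, J1 A (n + 1) ω * (1 / Real.log ((T n - 1 : ℕ) : ℝ)) := by
    rw [← e1]
    exact Finset.sum_congr rfl fun m _ => by ring
  rw [e4]
  exact div_mul_div_cancel₀ hN.ne'

/-- chosen terms with chosen index, for one sequence -/
theorem exp_both (hA : ∀ n, MeasurableSet[ℱ n] (A n))
    (hd : ∀ᵐ ω ∂μ, Tendsto (fun n : ℕ => dens μ ℱ A n ω * Real.log n) atTop (𝓝 1))
    {u : ℕ → ℕ} {L : ℝ} (h : ExpSeq u L) :
    ∀ᵐ ω ∂μ, Tendsto (fun x : ℕ => ({n : ℕ | n ≤ x ∧ ω ∈ A n ∧ ω ∈ A (u n)}.ncard : ℝ) / Real.log (Real.log x)) atTop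
      (𝓝 (1 / L)) := by
  classical
  have hL := h.1
  obtain ⟨T, n₁, hT, hT1, hTu, hlog⟩ := h.exists_T
  have hT' : StrictMono (fun n => T (n + 1)) := fun a b hab => hT (by omega)
  have hTn : ∀ n, n + 1 ≤ T n := by
    intro n
    induction n with
    | zero => exact hT1 0
    | succ n ih => exact Nat.succ_le_of_lt (lt_of_le_of_lt ih (hT (Nat.lt_succ_self n)))
  have hlog' : Tendsto (fun n : ℕ => Real.log (T (n + 1)) / n) atTop (𝓝 L) := by
    have h1 := (tendsto_add_atTop_iff_nat (f := fun n : ℕ => Real.log (T n) / n) 1).2 hlog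
    have h2 : Tendsto (fun n : ℕ => 1 + (1 : ℝ) / n) atTop (𝓝 (1 + 0)) :=
      tendsto_const_nhds.add tendsto_one_div_atTop_nhds_zero_nat
    have h3 := h1.mul h2
    rw [add_zero, mul_one] at h3
    refine h3.congr' ?_
    filter_upwards [eventually_gt_atTop 0] with n hn
    have hn' : (0 : ℝ) < n := by exact_mod_cast hn
    push_cast
    field_simp
  filter_upwards [both_T hA hd hT' (fun n => hTn (n + 1)) hL hlog'] with ω g1
  have e1 : ∀ N, ∑ n ∈ Finset.range N, J1 A (n + 1) ω * J1 A (T (n + 1)) ω =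
      (((Finset.range N).filter (fun n => ω ∈ A (n + 1) ∧ ω ∈ A (T (n + 1)))).card : ℝ) := by
    intro N
    rw [Finset.card_filter]
    push_cast
    refine Finset.sum_congr rfl fun i _ => ?_
    unfold J1
    by_cases h : ω ∈ A (i + 1)
    · by_cases h' : ω ∈ A (T (i + 1))
      · rw [indicator_of_mem h, indicator_of_mem h', if_pos ⟨h, h'⟩, one_mul]
      · rw [indicator_of_notMem h', if_neg (fun hh => h' hh.2), mul_zero]
    · rw [indicator_of_notMem h, if_neg (fun hh => h hh.1), zero_mul]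
  have e2 : ∀ x, {n : ℕ | n ≤ x ∧ ω ∈ A n ∧ ω ∈ A (u n)}.ncard =
      ((Finset.range (x + 1)).filter (fun n => ω ∈ A n ∧ ω ∈ A (u n))).card := by
    intro x
    rw [← Set.ncard_coe_finset]
    congr 1
    ext n
    simp
  have e3 : ∀ x, |({n : ℕ | n ≤ x ∧ ω ∈ A n ∧ ω ∈ A (u n)}.ncard : ℝ) -
      ∑ n ∈ Finset.range x, J1 A (n + 1) ω * J1 A (T (n + 1)) ω| ≤ n₁ + 1 := by
    intro x
    rw [e1, e2]
    have k1 : ((Finset.range (x + 1)).filter (fun n => ω ∈ A n ∧ ω ∈ A (u n))).card ≤
        ((Finset.range x).filter (fun n => ω ∈ A (n + 1) ∧ ω ∈ A (T (n + 1)))).card + (n₁ + 1) := by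
      calc ((Finset.range (x + 1)).filter (fun n => ω ∈ A n ∧ ω ∈ A (u n))).card ≤
          (((Finset.range x).filter (fun n => ω ∈ A (n + 1) ∧ ω ∈ A (T (n + 1)))).image (fun n => n + 1) ∪
            (Finset.range n₁ ∪ {0})).card := by
            apply Finset.card_le_card
            intro n hn
            simp only [Finset.mem_filter, Finset.mem_range, Finset.mem_union, Finset.mem_singleton,
              Finset.mem_image] at hn ⊢
            obtain ⟨hn1, hn2, hn3⟩ := hn
            rcases Nat.lt_or_ge n n₁ with h4 | h4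
            · exact Or.inr (Or.inl h4)
            · rcases Nat.eq_zero_or_pos n with h5 | h5
              · exact Or.inr (Or.inr h5)
              · left
                have e : n - 1 + 1 = n := by omega
                refine ⟨n - 1, ⟨by omega, ?_, ?_⟩, e⟩
                · rw [e]; exact hn2
                · rw [e, hTu n h4]; exact hn3
        _ ≤ _ := by
            refine (Finset.card_union_le _ _).trans ?_
            have h6 := Finset.card_union_le (Finset.range n₁) {0}
            rw [Finset.card_range, Finset.card_singleton] at h6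
            have h7 := Finset.card_image_le (s := (Finset.range x).filter (fun n => ω ∈ A (n + 1) ∧ ω ∈ A (T (n + 1))))
              (f := fun n => n + 1)
            omega
    have k2 : ((Finset.range x).filter (fun n => ω ∈ A (n + 1) ∧ ω ∈ A (T (n + 1)))).card ≤
        ((Finset.range (x + 1)).filter (fun n => ω ∈ A n ∧ ω ∈ A (u n))).card + (n₁ + 1) := by
      calc ((Finset.range x).filter (fun n => ω ∈ A (n + 1) ∧ ω ∈ A (T (n + 1)))).card =
          (((Finset.range x).filter (fun n => ω ∈ A (n + 1) ∧ ω ∈ A (T (n + 1)))).image (fun n => n + 1)).card := by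
            rw [Finset.card_image_of_injective]
            intro a b hab
            simpa using hab
        _ ≤ (((Finset.range (x + 1)).filter (fun n => ω ∈ A n ∧ ω ∈ A (u n))) ∪ (Finset.range n₁)).card := by
            apply Finset.card_le_card
            intro n hn
            simp only [Finset.mem_filter, Finset.mem_range, Finset.mem_union, Finset.mem_image] at hn ⊢
            obtain ⟨k, ⟨hk1, hk2, hk3⟩, rfl⟩ := hn
            rcases Nat.lt_or_ge (k + 1) n₁ with h4 | h4
            · exact Or.inr h4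
            · left
              rw [hTu _ h4] at hk3
              exact ⟨by omega, hk2, hk3⟩
        _ ≤ _ := by
            refine (Finset.card_union_le _ _).trans ?_
            rw [Finset.card_range]
            omega
    have k1' : ((((Finset.range (x + 1)).filter (fun n => ω ∈ A n ∧ ω ∈ A (u n))).card : ℕ) : ℝ) ≤
        ((Finset.range x).filter (fun n => ω ∈ A (n + 1) ∧ ω ∈ A (T (n + 1)))).card + (n₁ + 1) := by exact_mod_cast k1
    have k2' : ((((Finset.range x).filter (fun n => ω ∈ A (n + 1) ∧ ω ∈ A (T (n + 1)))).card : ℕ) : ℝ) ≤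
        ((Finset.range (x + 1)).filter (fun n => ω ∈ A n ∧ ω ∈ A (u n))).card + (n₁ + 1) := by exact_mod_cast k2
    rw [abs_le]
    constructor <;> linarith
  have h4 : Tendsto (fun x : ℕ => (({n : ℕ | n ≤ x ∧ ω ∈ A n ∧ ω ∈ A (u n)}.ncard : ℝ) -
      ∑ n ∈ Finset.range x, J1 A (n + 1) ω * J1 A (T (n + 1)) ω) / Real.log (Real.log x)) atTop (𝓝 0) := by
    apply squeeze_zero_norm' _ ((tendsto_const_nhds (x := (n₁ + 1 : ℝ))).div_atTop loglog_top)
    filter_upwards [loglog_top.eventually_gt_atTop 0] with x hx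
    rw [norm_div, Real.norm_eq_abs, Real.norm_of_nonneg hx.le]
    exact div_le_div_of_nonneg_right (e3 x) hx.le
  have h5 := h4.add g1
  rw [zero_add] at h5
  refine h5.congr fun x => ?_
  ring

/-- chosen terms with chosen index, for all recurrences at once -/
theorem rec_both (hA : ∀ n, MeasurableSet[ℱ n] (A n))
    (hd : ∀ᵐ ω ∂μ, Tendsto (fun n : ℕ => dens μ ℱ A n ω * Real.log n) atTop (𝓝 1)) :
    ∀ᵐ ω ∂μ, ∀ (P Q : ℕ) (u : ℕ → ℕ), 1 ≤ P → 1 ≤ Q → Rec P Q u → (u 0 ≠ 0 ∨ u 1 ≠ 0) →
      Tendsto (fun x : ℕ => ({n : ℕ | n ≤ x ∧ ω ∈ A n ∧ ω ∈ A (u n)}.ncard : ℝ) / Real.log (Real.log x)) atTop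
        (𝓝 (1 / Real.log (root P Q))) := by
  have h1 : ∀ᵐ ω ∂μ, ∀ t : ℕ × ℕ × ℕ × ℕ, ExpSeq (mkRec t.1 t.2.1 t.2.2.1 t.2.2.2) (Real.log (root t.1 t.2.1)) →
      Tendsto (fun x : ℕ => ({n : ℕ | n ≤ x ∧ ω ∈ A n ∧ ω ∈ A (mkRec t.1 t.2.1 t.2.2.1 t.2.2.2 n)}.ncard : ℝ) /
        Real.log (Real.log x)) atTop (𝓝 (1 / Real.log (root t.1 t.2.1))) := by
    refine ae_all_iff.2 fun t => ?_
    by_cases h : ExpSeq (mkRec t.1 t.2.1 t.2.2.1 t.2.2.2) (Real.log (root t.1 t.2.1))
    · filter_upwards [exp_both hA hd h] with ω hω _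
      exact hω
    · exact Eventually.of_forall fun ω h1 => absurd h1 h
  filter_upwards [h1] with ω hω P Q u hP hQ hu h0
  have h2 := eq_mkRec hu
  have h3 := rec_exp hP hQ hu h0
  rw [h2] at h3 ⊢
  exact hω (P, Q, u 0, u 1) h3

end Pool.Agent.N957.SQ
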