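import Mathlib
import Pool.Agent.N909.TF.Siev

/-!
# Systems of linear forms in several variables in sieved sequential models
-/

set_option autoImplicit false
set_option linter.unusedSectionVars false

open MeasureTheory Filter Set
open scoped ENNReal Topology

namespace Pool.Agent.N957.SQ.Ln

open Pool.Agent.R528.RM Pool.Agent.N909.TF

variable {r : ℕ}

/-- the value of the linear form with the coefficients `f.1` and the constant `f.2` -/
def ev (f : (Fin r → ℕ) × ℕ) (v : Fin r → ℕ) : ℕ := ∑ i, f.1 i * v i + f.2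

/-- the box -/
def box (r n : ℕ) : Finset (Fin r → ℕ) := Fintype.piFinset fun _ => Finset.Icc 1 n

lemma mem_box {n : ℕ} {v : Fin r → ℕ} : v ∈ box r n ↔ ∀ i, 1 ≤ v i ∧ v i ≤ n := by
  unfold box
  simp

lemma box_card (r n : ℕ) : (box r n).card = n ^ r := by
  unfold box
  simp

lemma pi_card (i : Fin r) (s t : Finset ℕ) :
    (Fintype.piFinset (fun j => if j = i then s else t)).card = s.card * t.card ^ (r - 1) := by
  classical
  rw [Fintype.card_piFinset, ← Finset.mul_prod_erase Finset.univ _ (Finset.mem_univ i), if_pos rfl]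
  congr 1
  rw [Finset.prod_congr rfl (g := fun _ => t.card) (fun j hj => by rw [if_neg (Finset.ne_of_mem_erase hj)]),
    Finset.prod_const, Finset.card_erase_of_mem (Finset.mem_univ i), Finset.card_univ, Fintype.card_fin]

/-- points of the box on a hyperplane -/
lemma plane_card (n : ℕ) (d : Fin r → ℤ) (e : ℤ) {i : Fin r} (hi : d i ≠ 0) :
    ((box r n).filter (fun v => ∑ j, d j * (v j : ℤ) + e = 0)).card ≤ n ^ (r - 1) := by
  classical
  have hB : (Fintype.piFinset (fun j => if j = i then ({1} : Finset ℕ) else Finset.Icc 1 n)).card = n ^ (r - 1) := by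
    rw [pi_card, Finset.card_singleton, one_mul, Nat.card_Icc, Nat.add_sub_cancel]
  rw [← hB]
  refine Finset.card_le_card_of_injOn (fun v => Function.update v i 1) ?_ ?_
  · intro v hv
    rw [Finset.mem_coe, Finset.mem_filter, mem_box] at hv
    rw [Finset.mem_coe, Fintype.mem_piFinset]
    intro j
    by_cases hj : j = i
    · subst hj
      simp
    · rw [if_neg hj]
      show Function.update v i 1 j ∈ Finset.Icc 1 n
      rw [Function.update_of_ne hj, Finset.mem_Icc]
      exact hv.1 j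
  · intro v hv w hw h
    rw [Finset.mem_coe, Finset.mem_filter] at hv hw
    have h1 : ∀ j, j ≠ i → v j = w j := by
      intro j hj
      have := congrFun h j
      simpa [Function.update_of_ne hj] using this
    have h2 : ∑ j, d j * ((v j : ℤ) - w j) = 0 := by
      have e1 : ∑ j, d j * ((v j : ℤ) - w j) = (∑ j, d j * (v j : ℤ) + e) - (∑ j, d j * (w j : ℤ) + e) := by
        rw [add_sub_add_right_eq_sub, ← Finset.sum_sub_distrib]
        exact Finset.sum_congr rfl fun j _ => by ring
      rw [e1, hv.2, hw.2, sub_zero]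
    rw [Finset.sum_eq_single i (fun j _ hj => by rw [h1 j hj, sub_self, mul_zero])
      (fun h => absurd (Finset.mem_univ i) h)] at h2
    have h3 : (v i : ℤ) = w i := by
      rcases mul_eq_zero.1 h2 with h | h
      · exact absurd h hi
      · linarith
    funext j
    by_cases hj : j = i
    · subst hj
      exact_mod_cast h3
    · exact h1 j hj

/-- points of the box with a given value -/
lemma value_card (n : ℕ) {f : (Fin r → ℕ) × ℕ} (hf : f.1 ≠ 0) (t : ℕ) :
    ((box r n).filter (fun v => ev f v = t)).card ≤ n ^ (r - 1) := by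
  classical
  obtain ⟨i, hi⟩ := Function.ne_iff.1 hf
  have h := plane_card n (fun j => (f.1 j : ℤ)) ((f.2 : ℤ) - t) (i := i) (by exact_mod_cast hi)
  refine le_trans (Finset.card_le_card fun v hv => ?_) h
  rw [Finset.mem_filter] at hv ⊢
  refine ⟨hv.1, ?_⟩
  have h2 : (ev f v : ℤ) = t := by exact_mod_cast hv.2
  unfold ev at h2
  push_cast at h2
  linarith

/-- points of the box where two different forms agree -/
lemma equal_card (n : ℕ) {f g : (Fin r → ℕ) × ℕ} (hfg : f ≠ g) :
    ((box r n).filter (fun v => ev f v = ev g v)).card ≤ n ^ (r - 1) := by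
  classical
  by_cases h1 : f.1 = g.1
  · have h2 : f.2 ≠ g.2 := fun h => hfg (Prod.ext h1 h)
    have h3 : (box r n).filter (fun v => ev f v = ev g v) = ∅ := by
      rw [Finset.filter_eq_empty_iff]
      intro v _ h
      unfold ev at h
      rw [h1] at h
      omega
    rw [h3, Finset.card_empty]
    exact Nat.zero_le _
  · obtain ⟨i, hi⟩ := Function.ne_iff.1 h1
    have h := plane_card n (fun j => (f.1 j : ℤ) - g.1 j) ((f.2 : ℤ) - g.2) (i := i)
      (sub_ne_zero.2 (by exact_mod_cast hi))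
    refine le_trans (Finset.card_le_card fun v hv => ?_) h
    rw [Finset.mem_filter] at hv ⊢
    refine ⟨hv.1, ?_⟩
    have h2 : (ev f v : ℤ) = ev g v := by exact_mod_cast hv.2
    unfold ev at h2
    push_cast at h2
    have h4 : ∑ j, ((f.1 j : ℤ) - g.1 j) * (v j : ℤ) = ∑ j, (f.1 j : ℤ) * v j - ∑ j, (g.1 j : ℤ) * v j := by
      rw [← Finset.sum_sub_distrib]
      exact Finset.sum_congr rfl fun j _ => by ring
    rw [h4]
    linarith

/-- points of a slab -/
lemma slab_card (n m : ℕ) (i : Fin r) : ((box r n).filter (fun v => v i ≤ m)).card ≤ m * n ^ (r - 1) := by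
  classical
  have h := pi_card i (Finset.Icc 1 m) (Finset.Icc 1 n)
  rw [Nat.card_Icc, Nat.card_Icc, Nat.add_sub_cancel, Nat.add_sub_cancel] at h
  rw [← h]
  refine Finset.card_le_card fun v hv => ?_
  rw [Finset.mem_filter, mem_box] at hv
  rw [Fintype.mem_piFinset]
  intro j
  by_cases hj : j = i
  · subst hj
    rw [if_pos rfl, Finset.mem_Icc]
    exact ⟨(hv.1 j).1, hv.2⟩
  · rw [if_neg hj, Finset.mem_Icc]
    exact hv.1 j

lemma ev_ge {f : (Fin r → ℕ) × ℕ} {i : Fin r} (hi : f.1 i ≠ 0) (v : Fin r → ℕ) : v i ≤ ev f v := by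
  unfold ev
  have h1 : f.1 i * v i ≤ ∑ j, f.1 j * v j :=
    Finset.single_le_sum (f := fun j => f.1 j * v j) (fun _ _ => Nat.zero_le _) (Finset.mem_univ i)
  have h2 : v i ≤ f.1 i * v i := Nat.le_mul_of_pos_left _ (Nat.pos_of_ne_zero hi)
  omega

lemma ev_le {f : (Fin r → ℕ) × ℕ} {n : ℕ} (hn : 1 ≤ n) {v : Fin r → ℕ} (hv : v ∈ box r n) :
    ev f v ≤ (∑ i, f.1 i + f.2) * n := by
  unfold ev
  rw [mem_box] at hv
  rw [add_mul, Finset.sum_mul]
  refine Nat.add_le_add (Finset.sum_le_sum fun i _ => Nat.mul_le_mul le_rfl (hv i).2) ?_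
  exact Nat.le_mul_of_pos_right _ hn

open Classical in
/-- the points with pairwise different values -/
noncomputable def dis (P : Finset ((Fin r → ℕ) × ℕ)) (n : ℕ) : Finset (Fin r → ℕ) :=
  (box r n).filter fun v => ∀ f ∈ P, ∀ g ∈ P, ev f v = ev g v → f = g

lemma dis_compl (P : Finset ((Fin r → ℕ) × ℕ)) (n : ℕ) :
    ((box r n) \ dis P n).card ≤ P.card * P.card * n ^ (r - 1) := by
  classical
  have h1 : (box r n) \ dis P n ⊆
      ((P ×ˢ P).filter (fun p => p.1 ≠ p.2)).biUnion fun p => (box r n).filter (fun v => ev p.1 v = ev p.2 v) := by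
    intro v hv
    rw [Finset.mem_sdiff] at hv
    have h2 : ¬ ∀ f ∈ P, ∀ g ∈ P, ev f v = ev g v → f = g := fun h => hv.2 (by
      unfold dis
      exact Finset.mem_filter.2 ⟨hv.1, h⟩)
    push Not at h2
    obtain ⟨f, hf, g, hg, h3, h4⟩ := h2
    rw [Finset.mem_biUnion]
    exact ⟨(f, g), Finset.mem_filter.2 ⟨Finset.mem_product.2 ⟨hf, hg⟩, h4⟩, Finset.mem_filter.2 ⟨hv.1, h3⟩⟩
  refine (Finset.card_le_card h1).trans (Finset.card_biUnion_le.trans ?_)
  refine (Finset.sum_le_card_nsmul _ _ (n ^ (r - 1)) fun p hp => equal_card n (Finset.mem_filter.1 hp).2).trans ?_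
  rw [smul_eq_mul]
  refine Nat.mul_le_mul ?_ le_rfl
  exact (Finset.card_filter_le _ _).trans (by rw [Finset.card_product])

/-! ### residues -/

/-- residue vectors at which all forms are coprime to `W` -/
def good (P : Finset ((Fin r → ℕ) × ℕ)) (W : ℕ) : Finset (Fin r → ℕ) :=
  (Fintype.piFinset fun _ => Finset.range W).filter fun u => ∀ f ∈ P, Nat.Coprime (ev f u) W

/-- the points of the box at which all forms are coprime to `W` -/
def gbox (P : Finset ((Fin r → ℕ) × ℕ)) (W n : ℕ) : Finset (Fin r → ℕ) :=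
  (box r n).filter fun v => ∀ f ∈ P, Nat.Coprime (ev f v) W

lemma ev_mod (f : (Fin r → ℕ) × ℕ) (W : ℕ) (v : Fin r → ℕ) : ev f v ≡ ev f (fun i => v i % W) [MOD W] := by
  unfold ev
  refine Nat.ModEq.add_right _ ?_
  refine Nat.ModEq.sum fun i _ => ?_
  exact Nat.ModEq.mul_left _ (Nat.mod_modEq _ _).symm

lemma cop_mod (f : (Fin r → ℕ) × ℕ) (W : ℕ) (v : Fin r → ℕ) :
    Nat.Coprime (ev f v) W ↔ Nat.Coprime (ev f (fun i => v i % W)) W := by
  have h := (ev_mod f W v).gcd_eq
  unfold Nat.Coprime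
  rw [h]

lemma gbox_card (P : Finset ((Fin r → ℕ) × ℕ)) {W : ℕ} (hW : 0 < W) (n : ℕ) :
    (gbox P W n).card = ∑ u ∈ good P W, ∏ i, ((Finset.Icc 1 n).filter (fun m => m % W = u i)).card := by
  classical
  have h1 : ∀ v ∈ gbox P W n, (fun i => v i % W) ∈ good P W := by
    intro v hv
    unfold gbox at hv
    rw [Finset.mem_filter] at hv
    unfold good
    rw [Finset.mem_filter, Fintype.mem_piFinset]
    exact ⟨fun i => Finset.mem_range.2 (Nat.mod_lt _ hW), fun f hf => (cop_mod f W v).1 (hv.2 f hf)⟩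
  rw [Finset.card_eq_sum_card_fiberwise h1]
  refine Finset.sum_congr rfl fun u hu => ?_
  rw [← Fintype.card_piFinset]
  congr 1
  ext v
  unfold gbox
  rw [Finset.mem_filter, Finset.mem_filter, mem_box, Fintype.mem_piFinset]
  unfold good at hu
  rw [Finset.mem_filter] at hu
  constructor
  · rintro ⟨⟨k1, -⟩, k3⟩ i
    rw [Finset.mem_filter, Finset.mem_Icc]
    exact ⟨k1 i, congrFun k3 i⟩
  · intro h
    have h2 : (fun i => v i % W) = u := funext fun i => (Finset.mem_filter.1 (h i)).2
    refine ⟨⟨fun i => Finset.mem_Icc.1 (Finset.mem_filter.1 (h i)).1, fun f hf => ?_⟩, h2⟩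
    rw [cop_mod, h2]
    exact hu.2 f hf

/-- the density of a residue class -/
lemma class_tend {W u : ℕ} (hW : 0 < W) (hu : u < W) :
    Tendsto (fun n : ℕ => (((Finset.Icc 1 n).filter (fun m => m % W = u)).card : ℝ) / n) atTop (𝓝 ((W : ℝ)⁻¹)) := by
  have hb : ∀ n : ℕ, |(((Finset.Icc 1 n).filter (fun m => m % W = u)).card : ℝ) - (W : ℝ)⁻¹ * n| ≤ 3 := by
    intro n
    have e1 : ((Finset.Icc 1 n).filter (fun m => m % W = u)).card ≤ Nat.count (fun m => m ≡ u [MOD W]) (n + 1) := by
      rw [Nat.count_eq_card_filter_range]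
      apply Finset.card_le_card
      intro m hm
      rw [Finset.mem_filter, Finset.mem_Icc] at hm
      rw [Finset.mem_filter, Finset.mem_range]
      refine ⟨by omega, ?_⟩
      unfold Nat.ModEq
      rw [hm.2, Nat.mod_eq_of_lt hu]
    have e2 : Nat.count (fun m => m ≡ u [MOD W]) (n + 1) ≤ ((Finset.Icc 1 n).filter (fun m => m % W = u)).card + 1 := by
      rw [Nat.count_eq_card_filter_range]
      have : (Finset.range (n + 1)).filter (fun m => m ≡ u [MOD W]) ⊆
          insert 0 ((Finset.Icc 1 n).filter (fun m => m % W = u)) := by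
        intro m hm
        rw [Finset.mem_filter, Finset.mem_range] at hm
        rw [Finset.mem_insert, Finset.mem_filter, Finset.mem_Icc]
        rcases Nat.eq_zero_or_pos m with h | h
        · exact Or.inl h
        · refine Or.inr ⟨⟨h, by omega⟩, ?_⟩
          have := hm.2
          unfold Nat.ModEq at this
          rw [this, Nat.mod_eq_of_lt hu]
      exact (Finset.card_le_card this).trans (Finset.card_insert_le _ _)
    rw [Nat.count_modEq_card _ hW] at e1 e2
    have hWr : (0 : ℝ) < W := by exact_mod_cast hW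
    have e3 : (((n + 1) / W : ℕ) : ℝ) ≤ ((n + 1 : ℕ) : ℝ) / W := Nat.cast_div_le
    have e4 : ((n + 1 : ℕ) : ℝ) / W < (((n + 1) / W : ℕ) : ℝ) + 1 := by
      rw [div_lt_iff₀ hWr]
      have e5 : n + 1 < ((n + 1) / W + 1) * W := by
        have := Nat.div_add_mod (n + 1) W
        have := Nat.mod_lt (n + 1) hW
        nlinarith
      exact_mod_cast e5
    set c := ((Finset.Icc 1 n).filter (fun m => m % W = u)).card
    set q := (n + 1) / W
    have e6 : c ≤ q + 1 := by
      split_ifs at e1 <;> omega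
    have e7 : q ≤ c + 1 := by
      split_ifs at e2 <;> omega
    have e6' : (c : ℝ) ≤ q + 1 := by exact_mod_cast e6
    have e7' : (q : ℝ) ≤ c + 1 := by exact_mod_cast e7
    have e8 : ((n + 1 : ℕ) : ℝ) / W = (W : ℝ)⁻¹ * n + (W : ℝ)⁻¹ := by
      push_cast
      field_simp
    rw [e8] at e3 e4
    have e9 : (W : ℝ)⁻¹ ≤ 1 := inv_le_one_of_one_le₀ (by exact_mod_cast hW)
    have e10 : 0 < (W : ℝ)⁻¹ := inv_pos.2 hWr
    rw [abs_le]
    constructor <;> linarith
  have h1 : Tendsto (fun N : ℕ => (3 : ℝ) / (N : ℝ)) atTop (𝓝 0) := tendsto_const_nhds.div_atTop tendsto_natCast_atTop_atTop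
  rw [tendsto_iff_dist_tendsto_zero]
  refine squeeze_zero' (Eventually.of_forall fun _ => dist_nonneg) ?_ h1
  filter_upwards [eventually_ge_atTop 1] with N h2
  have h3 : (0 : ℝ) < N := by exact_mod_cast h2
  rw [Real.dist_eq]
  have h4 : (((Finset.Icc 1 N).filter (fun m => m % W = u)).card : ℝ) / N - (W : ℝ)⁻¹ =
      ((((Finset.Icc 1 N).filter (fun m => m % W = u)).card : ℝ) - (W : ℝ)⁻¹ * N) / N := by field_simp
  rw [h4, abs_div, abs_of_pos h3]
  gcongr
  exact hb N

lemma gbox_tend (P : Finset ((Fin r → ℕ) × ℕ)) {W : ℕ} (hW : 0 < W) :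
    Tendsto (fun n : ℕ => ((gbox P W n).card : ℝ) / (n : ℝ) ^ r) atTop (𝓝 (((good P W).card : ℝ) / (W : ℝ) ^ r)) := by
  have h1 : Tendsto (fun n : ℕ => ∑ u ∈ good P W, ∏ i, ((((Finset.Icc 1 n).filter (fun m => m % W = u i)).card : ℝ) / n))
      atTop (𝓝 (∑ u ∈ good P W, ∏ _i : Fin r, (W : ℝ)⁻¹)) := by
    refine tendsto_finsetSum _ fun u hu => tendsto_finsetProd _ fun i _ => ?_
    unfold good at hu
    rw [Finset.mem_filter, Fintype.mem_piFinset] at hu
    exact class_tend hW (Finset.mem_range.1 (hu.1 i))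
  have e1 : ∑ u ∈ good P W, ∏ _i : Fin r, (W : ℝ)⁻¹ = ((good P W).card : ℝ) / (W : ℝ) ^ r := by
    rw [Finset.sum_const, Finset.prod_const, Finset.card_univ, Fintype.card_fin, nsmul_eq_mul, inv_pow, div_eq_mul_inv]
  rw [e1] at h1
  refine h1.congr fun n => ?_
  rw [gbox_card P hW]
  push_cast
  rw [Finset.sum_div]
  refine Finset.sum_congr rfl fun u _ => ?_
  rw [Finset.prod_div_distrib, Finset.prod_const, Finset.card_univ, Fintype.card_fin]

end Pool.Agent.N957.SQ.Ln
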