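import Mathlib
import Pool.Agent.N957.SQ.Lin

/-!
# Systems of linear forms in several variables: the law
-/

set_option autoImplicit false
set_option linter.unusedSectionVars false

open MeasureTheory Filter Set
open scoped ENNReal Topology

namespace Pool.Agent.N957.SQ.Ln

open Pool.Agent.R528.RM Pool.Agent.N909.TF

variable {r : ℕ}

lemma logn_tend : Tendsto (fun n : ℕ => Real.log (n : ℝ)) atTop atTop :=
  Real.tendsto_log_atTop.comp tendsto_natCast_atTop_atTop

/-- powers beat powers of the logarithm -/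
lemma log_small (k : ℕ) {s : ℝ} (hs : 0 < s) :
    Tendsto (fun n : ℕ => Real.log (n : ℝ) ^ k / (n : ℝ) ^ s) atTop (𝓝 0) := by
  have h1 := (isLittleO_log_rpow_rpow_atTop (k : ℝ) hs).tendsto_div_nhds_zero
  have h2 := h1.comp tendsto_natCast_atTop_atTop (α := ℕ)
  refine h2.congr fun n => ?_
  simp only [Function.comp, Real.rpow_natCast]

/-- convergence from relative closeness -/
lemma tend_of_rel {X Y : ℕ → ℝ} {κ : ℝ} (hκ : 0 ≤ κ) (hY : Tendsto Y atTop (𝓝 κ))
    (h : ∀ δ : ℝ, 0 < δ → ∀ᶠ n in atTop, |X n - Y n| ≤ δ * Y n) : Tendsto X atTop (𝓝 κ) := by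
  rw [Metric.tendsto_nhds]
  intro ε hε
  have h1 := h (ε / (2 * (κ + 1))) (by positivity)
  have h2 := (Metric.tendsto_nhds.1 hY) (min 1 (ε / 2)) (by positivity)
  filter_upwards [h1, h2] with n g1 g2
  rw [Real.dist_eq] at g2 ⊢
  have e1 := (lt_min_iff.1 g2).1
  have e2 := (lt_min_iff.1 g2).2
  have e3 : Y n ≤ κ + 1 := by linarith [(abs_lt.1 e1).2]
  have e4 : ε / (2 * (κ + 1)) * Y n ≤ ε / 2 := by
    rw [div_mul_eq_mul_div, div_le_div_iff₀ (by positivity) (by norm_num)]
    nlinarith
  calc |X n - κ| = |(X n - Y n) + (Y n - κ)| := by ring_nf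
    _ ≤ |X n - Y n| + |Y n - κ| := abs_add_le _ _
    _ < ε := by linarith

variable {Ω : Type} {m0 : MeasurableSpace Ω} {μ : Measure Ω} [IsProbabilityMeasure μ]
  {ℱ : Filtration ℕ m0} {A : ℕ → Set Ω}

open Classical in
/-- the points of the box at which all values are chosen -/
noncomputable def chs (A : ℕ → Set Ω) (P : Finset ((Fin r → ℕ) × ℕ)) (n : ℕ) (ω : Ω) : Finset (Fin r → ℕ) :=
  (box r n).filter fun v => ∀ f ∈ P, ω ∈ A (ev f v)

/-- the tuple of the values -/
def tup (P : Finset ((Fin r → ℕ) × ℕ)) (v : Fin r → ℕ) : Finset ℕ := P.image fun f => ev f v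

lemma forall_tup (P : Finset ((Fin r → ℕ) × ℕ)) (v : Fin r → ℕ) (p : ℕ → Prop) :
    (∀ t ∈ tup P v, p t) ↔ ∀ f ∈ P, p (ev f v) := by
  unfold tup
  exact Finset.forall_mem_image

/-- **the law for one system** -/
theorem law_one (hA : ∀ n, MeasurableSet[ℱ n] (A n)) (W : ℕ) (hW : 0 < W)
    (hcop : ∀ n, ¬ Nat.Coprime n W → A n = ∅)
    (hd : ∀ᵐ ω ∂μ, Tendsto (fun n : ℕ => dens μ ℱ A n ω * Real.log n)
      (atTop ⊓ 𝓟 {n : ℕ | Nat.Coprime (n + 1) W}) (𝓝 ((W : ℝ) / Nat.totient W)))
    (P : Finset ((Fin r → ℕ) × ℕ)) (hP0 : P.Nonempty) (hP : ∀ f ∈ P, f.1 ≠ 0) :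
    ∀ᵐ ω ∂μ, Tendsto (fun n : ℕ => ((chs A P n ω).card : ℝ) * Real.log n ^ P.card / (n : ℝ) ^ r) atTop
      (𝓝 (((W : ℝ) / Nat.totient W) ^ P.card * (((good P W).card : ℝ) / (W : ℝ) ^ r))) := by
  classical
  obtain ⟨f₀, hf₀⟩ := hP0
  obtain ⟨i₀, _⟩ := Function.ne_iff.1 (hP f₀ hf₀)
  have hr : 1 ≤ r := by
    have := i₀.2
    omega
  set k := P.card with hk
  have hk0 : 0 < k := Finset.card_pos.2 ⟨f₀, hf₀⟩
  set c : ℝ := (W : ℝ) / Nat.totient W with hc
  set κ : ℝ := ((good P W).card : ℝ) / (W : ℝ) ^ r with hκ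
  have hκ0 : 0 ≤ κ := by positivity
  -- the case without good residues
  rcases Nat.eq_zero_or_pos (good P W).card with hg | hg
  · refine Eventually.of_forall fun ω => ?_
    have h1 : ∀ n, (chs A P n ω).card = 0 := by
      intro n
      rw [Finset.card_eq_zero, Finset.eq_empty_iff_forall_notMem]
      intro v hv
      unfold chs at hv
      rw [Finset.mem_filter] at hv
      have h2 : (fun i => v i % W) ∈ good P W := by
        unfold good
        rw [Finset.mem_filter, Fintype.mem_piFinset]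
        refine ⟨fun i => Finset.mem_range.2 (Nat.mod_lt _ hW), fun f hf => (cop_mod f W v).1 ?_⟩
        by_contra hcon
        have := hv.2 f hf
        rw [hcop _ hcon] at this
        exact this
      rw [Finset.card_eq_zero.1 hg] at h2
      exact absurd h2 (Finset.notMem_empty _)
    have h2 : κ = 0 := by rw [hκ, hg]; simp
    rw [h2, mul_zero]
    simp only [h1, Nat.cast_zero, zero_mul, zero_div]
    exact tendsto_const_nhds
  have hκp : 0 < κ := by rw [hκ]; positivity
  -- the family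
  have hcopn : ∀ n, (cop (dis P n) (tup P) W) = gbox P W n ∩ dis P n := by
    intro n
    ext v
    unfold cop
    rw [Finset.mem_filter, forall_tup, Finset.mem_inter]
    unfold gbox dis
    rw [Finset.mem_filter, Finset.mem_filter]
    tauto
  have hcount : ∀ n : ℕ, ((gbox P W n).card : ℝ) - k * k * (n : ℝ) ^ (r - 1) ≤ (cop (dis P n) (tup P) W).card ∧
      ((cop (dis P n) (tup P) W).card : ℝ) ≤ (gbox P W n).card := by
    intro n
    rw [hcopn]
    constructor
    · have h1 : (gbox P W n).card ≤ (gbox P W n ∩ dis P n).card + ((box r n) \ dis P n).card := by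
        rw [← Finset.card_inter_add_card_sdiff (gbox P W n) (dis P n)]
        refine Nat.add_le_add_left (Finset.card_le_card ?_) _
        exact Finset.sdiff_subset_sdiff (Finset.filter_subset _ _) (Finset.Subset.refl _)
      have h2 := h1.trans (Nat.add_le_add_left (dis_compl P n) _)
      have h3 : ((gbox P W n).card : ℝ) ≤ ((gbox P W n ∩ dis P n).card : ℝ) + k * k * (n : ℝ) ^ (r - 1) := by
        exact_mod_cast h2
      linarith
    · exact_mod_cast Finset.card_le_card Finset.inter_subset_left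
  have hpow : ∀ n : ℕ, 1 ≤ n → (n : ℝ) ^ (r - 1) / (n : ℝ) ^ r = 1 / (n : ℝ) := by
    intro n hn
    have hn0 : (n : ℝ) ≠ 0 := by exact_mod_cast (by omega : n ≠ 0)
    obtain ⟨s, rfl⟩ : ∃ s, r = s + 1 := ⟨r - 1, by omega⟩
    rw [Nat.add_sub_cancel, pow_succ]
    field_simp
  have h1n : Tendsto (fun n : ℕ => 1 / (n : ℝ)) atTop (𝓝 0) := tendsto_one_div_atTop_nhds_zero_nat
  have hcopt : Tendsto (fun n : ℕ => ((cop (dis P n) (tup P) W).card : ℝ) / (n : ℝ) ^ r) atTop (𝓝 κ) := by
    have h1 := gbox_tend P hW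
    have h2 : Tendsto (fun n : ℕ => ((gbox P W n).card : ℝ) / (n : ℝ) ^ r - k * k * (1 / (n : ℝ))) atTop (𝓝 (κ - k * k * 0)) :=
      h1.sub (h1n.const_mul _)
    rw [mul_zero, sub_zero] at h2
    refine tendsto_of_tendsto_of_tendsto_of_le_of_le' h2 h1 ?_ ?_
    · filter_upwards [eventually_ge_atTop 1] with n hn
      rw [← hpow n hn, ← mul_div_assoc, ← sub_div]
      gcongr
      exact (hcount n).1
    · filter_upwards with n
      exact div_le_div_of_nonneg_right (hcount n).2 (by positivity)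
  have hcoplow : ∀ᶠ n : ℕ in atTop, κ / 2 * (n : ℝ) ^ r ≤ (cop (dis P n) (tup P) W).card := by
    filter_upwards [hcopt.eventually_const_le (show κ / 2 < κ by linarith), eventually_ge_atTop 1] with n g1 g2
    have hn0 : (0 : ℝ) < (n : ℝ) ^ r := by
      have : (0 : ℝ) < n := by exact_mod_cast g2
      positivity
    rwa [le_div_iff₀ hn0] at g1
  -- the far points
  set C₀ : ℕ := ∑ f ∈ P, (∑ i, f.1 i + f.2) with hC₀
  have hfar : ∀ δ : ℝ, 0 < δ → ∀ᶠ n : ℕ in atTop,
      ((far (cop (dis P n) (tup P) W) (tup P) (Real.log n) δ).card : ℝ) * Real.log n ^ k ≤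
        δ * (cop (dis P n) (tup P) W).card := by
    intro δ hδ
    have hs := log_small k hδ
    have hr0 : (0 : ℝ) < r := by exact_mod_cast hr
    have hk0' : (0 : ℝ) < k := by exact_mod_cast hk0
    have hs2 := hs.eventually_le_const (show (0 : ℝ) < δ * (κ / 2) / (k * r) by positivity)
    filter_upwards [hcoplow, hs2, eventually_ge_atTop 2,
      (logn_tend.const_mul_atTop hδ).eventually_ge_atTop (Real.log C₀)] with n g1 g2 g3 g4
    have hn0 : (0 : ℝ) < n := by exact_mod_cast (by omega : 0 < n)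
    have hn1 : (1 : ℝ) < n := by exact_mod_cast (by omega : 1 < n)
    have hL : 0 < Real.log n := Real.log_pos hn1
    -- cover
    have hsub : far (cop (dis P n) (tup P) W) (tup P) (Real.log n) δ ⊆
        P.biUnion fun f => (box r n).filter fun v => ∃ i, f.1 i ≠ 0 ∧ v i ≤ ⌊(n : ℝ) ^ (1 - δ)⌋₊ := by
      intro v hv
      unfold far at hv
      rw [Finset.mem_filter] at hv
      obtain ⟨hv1, t, ht, hv2⟩ := hv
      have hbox : v ∈ box r n := by
        rw [hcopn, Finset.mem_inter] at hv1
        exact (Finset.mem_filter.1 hv1.1).1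
      unfold tup at ht
      rw [Finset.mem_image] at ht
      obtain ⟨f, hf, rfl⟩ := ht
      obtain ⟨i, hi⟩ := Function.ne_iff.1 (hP f hf)
      rw [Finset.mem_biUnion]
      refine ⟨f, hf, Finset.mem_filter.2 ⟨hbox, i, hi, ?_⟩⟩
      have hvi : v i ≤ ev f v := ev_ge hi v
      have hv1' : 1 ≤ v i := (mem_box.1 hbox i).1
      have hev0 : (0 : ℝ) < ev f v := by exact_mod_cast (by omega : 0 < ev f v)
      -- the value is not too large
      have hup : Real.log (ev f v) ≤ Real.log C₀ + Real.log n := by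
        have e1 : ev f v ≤ C₀ * n := by
          refine (ev_le (by omega) hbox).trans (Nat.mul_le_mul ?_ le_rfl)
          exact Finset.single_le_sum (f := fun f : (Fin r → ℕ) × ℕ => ∑ i, f.1 i + f.2) (fun _ _ => Nat.zero_le _) hf
        have hC0 : (0 : ℝ) < C₀ := by
          have : 0 < C₀ * n := by omega
          exact_mod_cast Nat.pos_of_mul_pos_right this
        rw [← Real.log_mul hC0.ne' hn0.ne']
        exact Real.log_le_log hev0 (by exact_mod_cast e1)
      have hlow : Real.log (ev f v) < (1 - δ) * Real.log n := by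
        rcases lt_abs.1 hv2 with h | h
        · linarith
        · linarith
      have hlt : (ev f v : ℝ) < (n : ℝ) ^ (1 - δ) := by
        rw [← Real.log_lt_log_iff hev0 (Real.rpow_pos_of_pos hn0 _), Real.log_rpow hn0]
        exact hlow
      refine Nat.le_floor ?_
      have : (v i : ℝ) ≤ ev f v := by exact_mod_cast hvi
      linarith
    have hcard : (far (cop (dis P n) (tup P) W) (tup P) (Real.log n) δ).card ≤
        k * (r * (⌊(n : ℝ) ^ (1 - δ)⌋₊ * n ^ (r - 1))) := by
      refine (Finset.card_le_card hsub).trans (Finset.card_biUnion_le.trans ?_)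
      rw [hk, ← smul_eq_mul]
      refine Finset.sum_le_card_nsmul _ _ _ fun f _ => ?_
      have h1 : (box r n).filter (fun v => ∃ i, f.1 i ≠ 0 ∧ v i ≤ ⌊(n : ℝ) ^ (1 - δ)⌋₊) ⊆
          (Finset.univ : Finset (Fin r)).biUnion fun i => (box r n).filter fun v => v i ≤ ⌊(n : ℝ) ^ (1 - δ)⌋₊ := by
        intro v hv
        rw [Finset.mem_filter] at hv
        obtain ⟨h2, i, _, h3⟩ := hv
        rw [Finset.mem_biUnion]
        exact ⟨i, Finset.mem_univ i, Finset.mem_filter.2 ⟨h2, h3⟩⟩
      refine (Finset.card_le_card h1).trans (Finset.card_biUnion_le.trans ?_)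
      refine (Finset.sum_le_card_nsmul _ _ _ fun i _ => slab_card n _ i).trans ?_
      rw [Finset.card_univ, Fintype.card_fin, smul_eq_mul]
    have hcard' : ((far (cop (dis P n) (tup P) W) (tup P) (Real.log n) δ).card : ℝ) ≤
        k * (r * ((n : ℝ) ^ (1 - δ) * (n : ℝ) ^ (r - 1))) := by
      have h1 : ((far (cop (dis P n) (tup P) W) (tup P) (Real.log n) δ).card : ℝ) ≤
          k * (r * ((⌊(n : ℝ) ^ (1 - δ)⌋₊ : ℝ) * (n : ℝ) ^ (r - 1))) := by exact_mod_cast hcard
      refine h1.trans ?_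
      have h2 : (⌊(n : ℝ) ^ (1 - δ)⌋₊ : ℝ) ≤ (n : ℝ) ^ (1 - δ) := Nat.floor_le (Real.rpow_nonneg hn0.le _)
      gcongr
    have hnn : (n : ℝ) ^ (1 - δ) * (n : ℝ) ^ (r - 1) = (n : ℝ) ^ r / (n : ℝ) ^ δ := by
      have e1 : (n : ℝ) ^ r = (n : ℝ) ^ (r - 1) * n := by
        rw [← pow_succ]
        congr 1
        omega
      rw [Real.rpow_sub hn0, Real.rpow_one, e1]
      ring
    rw [hnn] at hcard'
    have hnd : (0 : ℝ) < (n : ℝ) ^ δ := Real.rpow_pos_of_pos hn0 _
    calc ((far (cop (dis P n) (tup P) W) (tup P) (Real.log n) δ).card : ℝ) * Real.log n ^ k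
        ≤ k * (r * ((n : ℝ) ^ r / (n : ℝ) ^ δ)) * Real.log n ^ k := by gcongr
      _ = (k * r) * (n : ℝ) ^ r * (Real.log n ^ k / (n : ℝ) ^ δ) := by ring
      _ ≤ (k * r) * (n : ℝ) ^ r * (δ * (κ / 2) / (k * r)) := by gcongr
      _ = δ * (κ / 2 * (n : ℝ) ^ r) := by field_simp
      _ ≤ _ := by gcongr
  -- the expectation is large
  have hE : Tendsto (fun n : ℕ => ((cop (dis P n) (tup P) W).card : ℝ) /
      (((k * n ^ (r - 1) : ℕ) : ℝ) * Real.log n * Real.log n ^ k)) atTop atTop := by
    have h1 := log_small (k + 1) one_pos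
    have h2 : Tendsto (fun n : ℕ => Real.log (n : ℝ) ^ (k + 1) / (n : ℝ) ^ (1 : ℝ)) atTop (𝓝[>] 0) := by
      rw [tendsto_nhdsWithin_iff]
      refine ⟨h1, ?_⟩
      filter_upwards [eventually_ge_atTop 2] with n hn
      have hn1 : (1 : ℝ) < n := by exact_mod_cast (by omega : 1 < n)
      have : 0 < Real.log (n : ℝ) := Real.log_pos hn1
      exact div_pos (by positivity) (Real.rpow_pos_of_pos (by linarith) _)
    have h3 := h2.inv_tendsto_nhdsGT_zero
    have hk0' : (0 : ℝ) < k := by exact_mod_cast hk0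
    refine tendsto_atTop_mono' atTop ?_ (h3.const_mul_atTop (show (0 : ℝ) < κ / 2 / k by positivity))
    filter_upwards [hcoplow, eventually_ge_atTop 2] with n g1 g2
    have hn1 : (1 : ℝ) < n := by exact_mod_cast (by omega : 1 < n)
    have hn0 : (0 : ℝ) < n := by linarith
    have hL : 0 < Real.log (n : ℝ) := Real.log_pos hn1
    have e1 : (n : ℝ) ^ r = (n : ℝ) ^ (r - 1) * n := by
      rw [← pow_succ]
      congr 1
      omega
    rw [e1] at g1
    have hp : (0 : ℝ) < (n : ℝ) ^ (r - 1) := by positivity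
    simp only [Pi.inv_apply, inv_div, Real.rpow_one]
    push_cast
    rw [le_div_iff₀ (by positivity)]
    refine le_trans (le_of_eq ?_) g1
    field_simp
    ring
  -- multiplicities
  have hmult : ∀ n t, ((dis P n).filter (fun v => t ∈ tup P v)).card ≤ k * n ^ (r - 1) := by
    intro n t
    have h1 : (dis P n).filter (fun v => t ∈ tup P v) ⊆ P.biUnion fun f => (box r n).filter fun v => ev f v = t := by
      intro v hv
      rw [Finset.mem_filter] at hv
      obtain ⟨hv1, hv2⟩ := hv
      unfold dis at hv1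
      unfold tup at hv2
      rw [Finset.mem_filter] at hv1
      rw [Finset.mem_image] at hv2
      obtain ⟨f, hf, h⟩ := hv2
      rw [Finset.mem_biUnion]
      exact ⟨f, hf, Finset.mem_filter.2 ⟨hv1.1, h⟩⟩
    refine (Finset.card_le_card h1).trans (Finset.card_biUnion_le.trans ?_)
    refine (Finset.sum_le_card_nsmul _ _ _ fun f hf => value_card n (hP f hf) t).trans ?_
    rw [smul_eq_mul]
  have hsv := sieved (μ := μ) hA W hW hcop hd k (fun n => dis P n) (fun _ => tup P) (fun n => k * n ^ (r - 1))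
    (fun n v hv => by
      unfold dis at hv
      rw [Finset.mem_filter] at hv
      unfold tup
      rw [Finset.card_image_of_injOn (fun f hf g hg h => hv.2 f hf g hg h)])
    (fun n v hv => by
      unfold dis at hv
      rw [Finset.mem_filter] at hv
      unfold tup
      rw [Finset.mem_image]
      rintro ⟨f, hf, h⟩
      obtain ⟨i, hi⟩ := Function.ne_iff.1 (hP f hf)
      have h1 := ev_ge hi v
      have h2 := (mem_box.1 hv.1 i).1
      omega)
    hmult atTop le_rfl (fun n => Real.log n) logn_tend hfar hE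
  filter_upwards [hsv] with ω hω
  -- the chosen points with different values
  have hX : Tendsto (fun n : ℕ => ((cho A (dis P n) (tup P) ω).card : ℝ) * Real.log n ^ k / (n : ℝ) ^ r) atTop
      (𝓝 (c ^ k * κ)) := by
    refine tend_of_rel (Y := fun n : ℕ => c ^ k * (((cop (dis P n) (tup P) W).card : ℝ) / (n : ℝ) ^ r))
      (by positivity) (hcopt.const_mul _) ?_
    intro δ hδ
    filter_upwards [hω δ hδ, eventually_ge_atTop 2] with n g1 g2
    have hn1 : (1 : ℝ) < n := by exact_mod_cast (by omega : 1 < n)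
    have hn0 : (0 : ℝ) < n := by linarith
    have hL : 0 < Real.log (n : ℝ) := Real.log_pos hn1
    have hq : 0 < Real.log (n : ℝ) ^ k / (n : ℝ) ^ r := by positivity
    have g3 := mul_le_mul_of_nonneg_right g1 hq.le
    rw [← abs_of_pos hq, ← abs_mul, abs_of_pos hq] at g3
    rw [← hc] at g3
    clear_value c
    have e1 : ((cho A (dis P n) (tup P) ω).card : ℝ) * Real.log n ^ k / (n : ℝ) ^ r -
        c ^ k * (((cop (dis P n) (tup P) W).card : ℝ) / (n : ℝ) ^ r) =
        (((cho A (dis P n) (tup P) ω).card : ℝ) - ((cop (dis P n) (tup P) W).card : ℝ) * (c / Real.log n) ^ k) *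
        (Real.log n ^ k / (n : ℝ) ^ r) := by
      rw [div_pow]
      field_simp
    have e2 : δ * (((cop (dis P n) (tup P) W).card : ℝ) * (c / Real.log n) ^ k) * (Real.log n ^ k / (n : ℝ) ^ r) =
        δ * (c ^ k * (((cop (dis P n) (tup P) W).card : ℝ) / (n : ℝ) ^ r)) := by
      rw [div_pow]
      field_simp
    rw [e1, ← e2]
    exact g3
  have hdiff : ∀ n : ℕ, ((cho A (dis P n) (tup P) ω).card : ℝ) ≤ (chs A P n ω).card ∧
      ((chs A P n ω).card : ℝ) ≤ (cho A (dis P n) (tup P) ω).card + k * k * (n : ℝ) ^ (r - 1) := by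
    intro n
    have h0 : cho A (dis P n) (tup P) ω = chs A P n ω ∩ dis P n := by
      ext v
      unfold cho
      rw [Finset.mem_filter, forall_tup, Finset.mem_inter]
      unfold chs dis
      rw [Finset.mem_filter, Finset.mem_filter]
      tauto
    rw [h0]
    constructor
    · exact_mod_cast Finset.card_le_card Finset.inter_subset_left
    · have h1 : (chs A P n ω).card ≤ (chs A P n ω ∩ dis P n).card + ((box r n) \ dis P n).card := by
        rw [← Finset.card_inter_add_card_sdiff (chs A P n ω) (dis P n)]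
        refine Nat.add_le_add_left (Finset.card_le_card ?_) _
        exact Finset.sdiff_subset_sdiff (Finset.filter_subset _ _) (Finset.Subset.refl _)
      have h2 := h1.trans (Nat.add_le_add_left (dis_compl P n) _)
      exact_mod_cast h2
  have h2 : Tendsto (fun n : ℕ => ((cho A (dis P n) (tup P) ω).card : ℝ) * Real.log n ^ k / (n : ℝ) ^ r +
      k * k * (Real.log (n : ℝ) ^ k / (n : ℝ) ^ (1 : ℝ))) atTop (𝓝 (c ^ k * κ + k * k * 0)) :=
    hX.add ((log_small k one_pos).const_mul _)
  rw [mul_zero, add_zero] at h2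
  refine tendsto_of_tendsto_of_tendsto_of_le_of_le' hX h2 ?_ ?_
  · filter_upwards with n
    have hL : 0 ≤ Real.log (n : ℝ) := Real.log_natCast_nonneg n
    exact div_le_div_of_nonneg_right (mul_le_mul_of_nonneg_right (hdiff n).1 (by positivity)) (by positivity)
  · filter_upwards [eventually_ge_atTop 1] with n hn
    have hn0 : (0 : ℝ) < n := by exact_mod_cast hn
    have hL : 0 ≤ Real.log (n : ℝ) := Real.log_natCast_nonneg n
    have e1 : (k : ℝ) * k * (Real.log (n : ℝ) ^ k / (n : ℝ) ^ (1 : ℝ)) =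
        (k : ℝ) * k * (n : ℝ) ^ (r - 1) * Real.log (n : ℝ) ^ k / (n : ℝ) ^ r := by
      have e2 : (n : ℝ) ^ r = (n : ℝ) ^ (r - 1) * n := by
        rw [← pow_succ]
        congr 1
        omega
      rw [Real.rpow_one, e2]
      field_simp
    rw [e1, ← add_div, ← add_mul]
    exact div_le_div_of_nonneg_right (mul_le_mul_of_nonneg_right (hdiff n).2 (by positivity)) (by positivity)

end Pool.Agent.N957.SQ.Ln
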