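import Mathlib
import Pool.Agent.N285.GP.Poly
import Pool.Agent.N909.TF.RFam

/-!
# Indices `k` with `k` and `F k` chosen: windows of cubic logarithmic length
-/

set_option autoImplicit false
set_option linter.unusedSectionVars false

open MeasureTheory Filter Set
open scoped ENNReal Topology

namespace Pool.Agent.N957.SQ.Pr

open Pool.Agent.R528.RM Pool.Agent.N285.GP Pool.Agent.N909.TF

/-- the length of the windows -/
noncomputable def hh (c : ℝ) (x : ℕ) : ℕ := ⌊c * Real.log x ^ 3⌋₊

lemma hh_le {c : ℝ} (hc : 0 < c) (x : ℕ) : (hh c x : ℝ) ≤ c * Real.log x ^ 3 := by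
  have : 0 ≤ Real.log (x : ℝ) := Real.log_natCast_nonneg x
  exact Nat.floor_le (by positivity)

lemma hh_ge (c : ℝ) (x : ℕ) : c * Real.log x ^ 3 - 1 ≤ (hh c x : ℝ) := (Nat.sub_one_lt_floor _).le

/-- short windows -/
lemma win_short3 {c : ℝ} (hc : 0 < c) : ∀ᶠ x : ℕ in atTop, (hh c x : ℝ) ≤ x := by
  have h1 : ∀ᶠ x : ℝ in atTop, c * Real.log x ^ 3 ≤ x := by
    have h2 := (Real.isLittleO_pow_log_id_atTop (n := 3)).def (show (0 : ℝ) < 1 / c by positivity)
    filter_upwards [h2, eventually_gt_atTop 1] with x hx hx0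
    have hl : 0 ≤ Real.log x := Real.log_nonneg hx0.le
    rw [Real.norm_of_nonneg (by positivity), id, Real.norm_of_nonneg (by linarith)] at hx
    calc c * Real.log x ^ 3 ≤ c * (1 / c * x) := mul_le_mul_of_nonneg_left hx hc.le
      _ = x := by field_simp
  filter_upwards [tendsto_natCast_atTop_atTop.eventually h1] with n hn
  exact (hh_le hc n).trans hn

/-- the profile in a window -/
lemma rho_win3 {ρ : ℕ → ℝ} {F : ℕ → ℕ} {g : ℕ → Prop} {β : ℝ} (hβ : 0 < β)
    (hρ : Tendsto (fun k : ℕ => ρ (F k) * Real.log k) (atTop ⊓ 𝓟 {k | g k}) (𝓝 β)) {c η : ℝ} (hc : 0 < c)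
    (hη : 0 < η) (hη1 : η < 1) : ∀ᶠ x : ℕ in atTop, ∀ k, x < k → k ≤ x + hh c x → g k →
      (1 - η) * β / (Real.log x + 1) ≤ ρ (F k) ∧ ρ (F k) ≤ (1 + η) * β / Real.log x := by
  have h1 : ∀ᶠ k : ℕ in atTop ⊓ 𝓟 {k | g k}, (1 - η) * β < ρ (F k) * Real.log k ∧ ρ (F k) * Real.log k < (1 + η) * β := by
    refine (hρ.eventually_const_lt ?_).and (hρ.eventually_lt_const ?_)
    · nlinarith
    · nlinarith
  rw [eventually_inf_principal] at h1
  obtain ⟨k₀, hk₀⟩ := eventually_atTop.1 h1
  filter_upwards [win_short3 hc, eventually_ge_atTop k₀, tlog.eventually_ge_atTop 1, eventually_gt_atTop 0] with x hx hxk hL hx0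
  intro k hk1 hk2 hk3
  obtain ⟨h2, h3⟩ := hk₀ k (by omega) hk3
  obtain ⟨h4, h5⟩ := log_win hx0 hk1 hk2 hx
  have h6 : 0 < Real.log (k : ℝ) := by linarith
  have hρ0 : 0 < ρ (F k) := by
    by_contra hcon
    push Not at hcon
    have : 0 < (1 - η) * β := mul_pos (by linarith) hβ
    nlinarith
  constructor
  · rw [div_le_iff₀ (by linarith)]
    nlinarith
  · rw [le_div_iff₀ (by linarith)]
    nlinarith

lemma cub_log : Tendsto (fun x : ℕ => Real.log x ^ 3) atTop atTop :=
  (tendsto_pow_atTop (by norm_num)).comp tlog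

open Classical in
/-- the number of good places in a window -/
lemma N_lim {g : ℕ → Prop} {W : ℕ} (hW : 0 < W) (hg : Function.Periodic g W) {c : ℝ} (hc : 0 < c) :
    Tendsto (fun x : ℕ => (((Finset.Ioc x (x + hh c x)).filter g).card : ℝ) / Real.log x ^ 3) atTop
      (𝓝 ((Nat.count g W : ℝ) / W * c)) := by
  set δ : ℝ := (Nat.count g W : ℝ) / W with hδ
  have hδ0 : 0 ≤ δ := by positivity
  have t1 : Tendsto (fun x : ℕ => δ * c - (δ + W) / Real.log x ^ 3) atTop (𝓝 (δ * c - 0)) :=
    tendsto_const_nhds.sub (tendsto_const_nhds.div_atTop cub_log)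
  have t2 : Tendsto (fun x : ℕ => δ * c + W / Real.log x ^ 3) atTop (𝓝 (δ * c + 0)) :=
    tendsto_const_nhds.add (tendsto_const_nhds.div_atTop cub_log)
  rw [sub_zero] at t1
  rw [add_zero] at t2
  refine tendsto_of_tendsto_of_tendsto_of_le_of_le' t1 t2 ?_ ?_
  · filter_upwards [cub_log.eventually_gt_atTop 0] with x hx
    have h1 := (card_win g W hW hg x (hh c x)).1
    have h2 := mul_le_mul_of_nonneg_left (hh_ge c x) hδ0
    rw [← hδ] at h1
    rw [le_div_iff₀ hx, sub_mul, div_mul_cancel₀ _ hx.ne']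
    nlinarith
  · filter_upwards [cub_log.eventually_gt_atTop 0] with x hx
    have h1 := (card_win g W hW hg x (hh c x)).2
    have h2 := mul_le_mul_of_nonneg_left (hh_le hc x) hδ0
    rw [← hδ] at h1
    rw [div_le_iff₀ hx, add_mul, div_mul_cancel₀ _ hx.ne']
    nlinarith

variable {Ω : Type} {m0 : MeasurableSpace Ω} {μ : Measure Ω} [IsProbabilityMeasure μ]
  {ℱ : Filtration ℕ m0} {A : ℕ → Set Ω}

open Classical in
/-- the chosen good places of a window -/
noncomputable def pat (A : ℕ → Set Ω) (g : ℕ → Prop) (c : ℝ) (x : ℕ) (ω : Ω) : Finset ℕ :=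
  (ch A (x + hh c x) ω).filter (fun n => x < n ∧ g n)

lemma mem_pat {g : ℕ → Prop} {c : ℝ} {x n : ℕ} {ω : Ω} :
    n ∈ pat A g c x ω ↔ x < n ∧ n ≤ x + hh c x ∧ g n ∧ ω ∈ A n := by
  classical
  unfold pat
  rw [Finset.mem_filter, mem_ch]
  tauto

lemma pat_meas (hA : ∀ n, MeasurableSet[ℱ n] (A n)) (g : ℕ → Prop) (c : ℝ) (x : ℕ) (s : Finset ℕ) :
    MeasurableSet[ℱ (x + hh c x)] {ω | pat A g c x ω = s} := by
  classical
  exact Phi_meas hA (x + hh c x) (fun t : Finset ℕ => t.filter (fun n => x < n ∧ g n)) s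

open Classical in
/-- **the number of chosen good places in the windows** -/
theorem stage1 (hA : ∀ n, MeasurableSet[ℱ n] (A n)) (ρ : ℕ → ℝ)
    (hd : ∀ᵐ ω ∂μ, ∀ ε : ℝ, 0 < ε → ∀ᶠ n : ℕ in atTop, |dens μ ℱ A n ω - ρ (n + 1)| ≤ ε * ρ (n + 1))
    (g : ℕ → Prop) (W : ℕ) (hW : 0 < W) (hg : Function.Periodic g W) {β : ℝ} (hβ : 0 < β)
    (hρ : Tendsto (fun k : ℕ => ρ k * Real.log k) (atTop ⊓ 𝓟 {k | g k}) (𝓝 β)) {c : ℝ} (hc : 0 < c) :
    ∀ᵐ ω ∂μ, Tendsto (fun x : ℕ => ((pat A g c x ω).card : ℝ) / Real.log x ^ 2) atTop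
      (𝓝 ((Nat.count g W : ℝ) / W * c * β)) := by
  set δ : ℝ := (Nat.count g W : ℝ) / W with hδ
  set w : ℕ → ℕ → Ω → ℝ := fun x k _ => if x < k + 1 ∧ k + 1 ≤ x + hh c x ∧ g (k + 1) then 1 else 0 with hw
  have hbc := bc_law (μ := μ) hA w (fun x => x + hh c x)
    (fun n k => @stronglyMeasurable_const _ _ (ℱ k) _ _)
    (fun n k ω => by
      simp only [hw]
      by_cases h : n < k + 1 ∧ k + 1 ≤ n + hh c n ∧ g (k + 1)
      · rw [if_pos h]; norm_num
      · rw [if_neg h]; norm_num)
  have h01 : ∀ᵐ ω ∂μ, ∀ n, 0 ≤ dens μ ℱ A n ω ∧ dens μ ℱ A n ω ≤ 1 := ae_all_iff.2 fun n => dens01 hA n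
  filter_upwards [hbc, hd, h01] with ω h1 h2 h3
  -- sums over the window
  have hsum : ∀ (f : ℕ → ℝ) (x : ℕ), ∑ k ∈ Finset.range (x + hh c x), w x k ω * f k =
      ∑ n ∈ (Finset.Ioc x (x + hh c x)).filter g, f (n - 1) := by
    intro f x
    have e1 : ∑ k ∈ Finset.range (x + hh c x), w x k ω * f k =
        ∑ k ∈ (Finset.range (x + hh c x)).filter (fun k => x < k + 1 ∧ k + 1 ≤ x + hh c x ∧ g (k + 1)), f k := by
      rw [Finset.sum_filter]
      refine Finset.sum_congr rfl fun k _ => ?_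
      simp only [hw]
      by_cases h : x < k + 1 ∧ k + 1 ≤ x + hh c x ∧ g (k + 1)
      · rw [if_pos h, if_pos h, one_mul]
      · rw [if_neg h, if_neg h, zero_mul]
    have e2 : (Finset.Ioc x (x + hh c x)).filter g =
        ((Finset.range (x + hh c x)).filter (fun k => x < k + 1 ∧ k + 1 ≤ x + hh c x ∧ g (k + 1))).image (fun k => k + 1) := by
      ext n
      simp only [Finset.mem_filter, Finset.mem_Ioc, Finset.mem_image, Finset.mem_range]
      constructor
      · rintro ⟨⟨n1, n2⟩, n3⟩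
        have e : n - 1 + 1 = n := by omega
        exact ⟨n - 1, ⟨by omega, by omega, by omega, by rw [e]; exact n3⟩, e⟩
      · rintro ⟨k, ⟨_, k2, k3, k4⟩, rfl⟩
        exact ⟨⟨k2, k3⟩, k4⟩
    rw [e1, e2, Finset.sum_image (fun a _ b _ hab => by simpa using hab)]
    simp
  have hSI : ∀ x, SI A (w x) (x + hh c x) ω = ((pat A g c x ω).card : ℝ) := by
    intro x
    unfold SI
    rw [hsum (fun k => (A (k + 1)).indicator (fun _ => (1 : ℝ)) ω) x]
    have e : pat A g c x ω = ((Finset.Ioc x (x + hh c x)).filter g).filter (fun n => ω ∈ A n) := by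
      ext n
      rw [mem_pat]
      simp only [Finset.mem_filter, Finset.mem_Ioc]
      tauto
    rw [e, Finset.card_filter]
    push_cast
    refine Finset.sum_congr rfl fun n hn => ?_
    have hn' := (Finset.mem_Ioc.1 (Finset.mem_filter.1 hn).1).1
    have e' : n - 1 + 1 = n := by omega
    rw [e']
    by_cases h : ω ∈ A n
    · rw [indicator_of_mem h, if_pos h]
    · rw [indicator_of_notMem h, if_neg h]
  have hN := N_lim hW hg hc
  rw [← hδ] at hN
  -- the conditional probabilities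
  have hSD : Tendsto (fun x : ℕ => SD μ ℱ A (w x) (x + hh c x) ω / Real.log x ^ 2) atTop (𝓝 (δ * c * β)) := by
    have hy : Tendsto (fun n : ℕ => dens μ ℱ A (n - 1) ω * Real.log n) (atTop ⊓ 𝓟 {k | g k}) (𝓝 β) := by
      have k1 : Tendsto (fun n : ℕ => dens μ ℱ A (n - 1) ω * Real.log n - ρ n * Real.log n) (atTop ⊓ 𝓟 {k | g k}) (𝓝 0) := by
        rw [Metric.tendsto_nhds]
        intro ε hε
        have hε' : 0 < ε / (β + 1) := by positivity
        obtain ⟨m₀, hm₀⟩ := eventually_atTop.1 (h2 (ε / (2 * (β + 1))) (by positivity))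
        have k2 := hρ.eventually_lt_const (show β < β + 1 by linarith)
        filter_upwards [k2, (eventually_ge_atTop (m₀ + 1)).filter_mono inf_le_left] with n hn hn1
        have e : n - 1 + 1 = n := by omega
        have k3 := hm₀ (n - 1) (by omega)
        rw [e] at k3
        have k4 : 0 ≤ Real.log (n : ℝ) := Real.log_natCast_nonneg n
        rw [Real.dist_eq, sub_zero, ← sub_mul, abs_mul, abs_of_nonneg k4]
        calc |dens μ ℱ A (n - 1) ω - ρ n| * Real.log n ≤ (ε / (2 * (β + 1)) * ρ n) * Real.log n :=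
              mul_le_mul_of_nonneg_right k3 k4
          _ = ε / (2 * (β + 1)) * (ρ n * Real.log n) := by ring
          _ ≤ ε / (2 * (β + 1)) * (β + 1) := mul_le_mul_of_nonneg_left hn.le (by positivity)
          _ = ε / 2 := by field_simp
          _ < ε := by linarith
      have k2 := k1.add hρ
      rw [zero_add] at k2
      refine k2.congr fun n => ?_
      ring
    have hL1 : Tendsto (fun x : ℕ => Real.log x) atTop atTop := tlog
    have key : Tendsto (fun x : ℕ => SD μ ℱ A (w x) (x + hh c x) ω / Real.log x ^ 2 -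
        (((Finset.Ioc x (x + hh c x)).filter g).card : ℝ) / Real.log x ^ 3 * β) atTop (𝓝 0) := by
      rw [Metric.tendsto_nhds]
      intro ε hε
      set κ : ℝ := δ * c + 1 with hκ
      have hκ0 : 0 < κ := by
        have : 0 ≤ δ := by positivity
        positivity
      have k1 : ∀ᶠ n : ℕ in atTop ⊓ 𝓟 {k | g k}, |dens μ ℱ A (n - 1) ω * Real.log n - β| < ε / (4 * κ) :=
        (Metric.tendsto_nhds.1 hy) _ (by positivity)
      rw [eventually_inf_principal] at k1
      obtain ⟨n₁, hn₁⟩ := eventually_atTop.1 k1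
      have k2 := hN.eventually_lt_const (show δ * c < κ by linarith)
      filter_upwards [k2, eventually_ge_atTop n₁, hL1.eventually_ge_atTop 1, hL1.eventually_ge_atTop (4 * κ * β / ε),
        win_short3 hc, eventually_gt_atTop 0] with x x1 x2 x3 x4 x5 x6
      set L : ℝ := Real.log x with hL
      set N : ℝ := (((Finset.Ioc x (x + hh c x)).filter g).card : ℝ) with hNd
      have hL0 : 0 < L := by linarith
      unfold SD
      rw [hsum (fun k => dens μ ℱ A k ω) x]
      have k3 : |∑ n ∈ (Finset.Ioc x (x + hh c x)).filter g, dens μ ℱ A (n - 1) ω - N * (β / L)| ≤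
          N * (ε / (4 * κ) / L + β / L ^ 2) := by
        have e1 : N * (β / L) = ∑ n ∈ (Finset.Ioc x (x + hh c x)).filter g, β / L := by
          rw [Finset.sum_const, nsmul_eq_mul]
        rw [e1, ← Finset.sum_sub_distrib]
        refine (Finset.abs_sum_le_sum_abs _ _).trans ?_
        have e2 : N * (ε / (4 * κ) / L + β / L ^ 2) = ∑ n ∈ (Finset.Ioc x (x + hh c x)).filter g,
            (ε / (4 * κ) / L + β / L ^ 2) := by
          rw [Finset.sum_const, nsmul_eq_mul]
        rw [e2]
        refine Finset.sum_le_sum fun n hn => ?_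
        obtain ⟨hn1, hn2⟩ := Finset.mem_filter.1 hn
        obtain ⟨hn3, hn4⟩ := Finset.mem_Ioc.1 hn1
        obtain ⟨l1, l2⟩ := log_win x6 hn3 hn4 x5
        rw [← hL] at l1 l2
        have l3 : 0 < Real.log (n : ℝ) := by linarith
        have k4 := hn₁ n (by omega) hn2
        have e3 : dens μ ℱ A (n - 1) ω - β / L = (dens μ ℱ A (n - 1) ω * Real.log n - β) / Real.log n -
            β * (1 / L - 1 / Real.log n) := by
          field_simp
          ring
        rw [e3]
        refine (abs_sub _ _).trans (add_le_add ?_ ?_)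
        · rw [abs_div, abs_of_pos l3]
          calc |dens μ ℱ A (n - 1) ω * Real.log n - β| / Real.log n ≤ (ε / (4 * κ)) / Real.log n :=
                div_le_div_of_nonneg_right k4.le l3.le
            _ ≤ ε / (4 * κ) / L := div_le_div_of_nonneg_left (by positivity) hL0 l1
        · have l4 : 0 ≤ 1 / L - 1 / Real.log n := sub_nonneg.2 (one_div_le_one_div_of_le hL0 l1)
          rw [abs_of_nonneg (mul_nonneg hβ.le l4)]
          have l5 : 1 / L - 1 / Real.log n ≤ 1 / L ^ 2 := by
            rw [div_sub_div _ _ hL0.ne' l3.ne', div_le_div_iff₀ (by positivity) (by positivity)]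
            nlinarith
          calc β * (1 / L - 1 / Real.log n) ≤ β * (1 / L ^ 2) := mul_le_mul_of_nonneg_left l5 hβ.le
            _ = β / L ^ 2 := by ring
      rw [Real.dist_eq, sub_zero]
      have e4 : (∑ n ∈ (Finset.Ioc x (x + hh c x)).filter g, dens μ ℱ A (n - 1) ω) / L ^ 2 - N / L ^ 3 * β =
          (∑ n ∈ (Finset.Ioc x (x + hh c x)).filter g, dens μ ℱ A (n - 1) ω - N * (β / L)) / L ^ 2 := by
        field_simp
      rw [e4, abs_div, abs_of_pos (show 0 < L ^ 2 by positivity), div_lt_iff₀ (by positivity)]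
      refine k3.trans_lt ?_
      have k5 : N ≤ κ * L ^ 3 := by
        have := x1.le
        rwa [div_le_iff₀ (by positivity)] at this
      have k6 : β / L ^ 2 ≤ ε / (4 * κ) / L := by
        rw [div_le_div_iff₀ (by positivity) hL0, div_mul_eq_mul_div, le_div_iff₀ (by positivity)]
        rw [div_le_iff₀ hε] at x4
        have := mul_le_mul_of_nonneg_right x4 hL0.le
        nlinarith
      calc N * (ε / (4 * κ) / L + β / L ^ 2) ≤ κ * L ^ 3 * (ε / (4 * κ) / L + ε / (4 * κ) / L) := by
            apply mul_le_mul k5 (by linarith) (by positivity) (by positivity)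
        _ = ε / 2 * L ^ 2 := by field_simp; ring
        _ < ε * L ^ 2 := by
            apply mul_lt_mul_of_pos_right _ (by positivity)
            linarith
    have h5 := key.add (hN.mul_const β)
    rw [zero_add] at h5
    refine h5.congr fun x => ?_
    ring
  -- the law
  have hfin : Tendsto (fun x : ℕ => SI A (w x) (x + hh c x) ω / Real.log x ^ 2 -
      SD μ ℱ A (w x) (x + hh c x) ω / Real.log x ^ 2) atTop (𝓝 0) := by
    rw [Metric.tendsto_nhds]
    intro ε hε
    set κ : ℝ := δ * c * β + 1 with hκ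
    have hκ0 : 0 < κ := by
      have : 0 ≤ δ := by positivity
      positivity
    obtain ⟨C, hC0, hC⟩ := h1 (ε / (4 * κ)) (by positivity)
    filter_upwards [hC, hSD.eventually_lt_const (show δ * c * β < κ by linarith), tlog.eventually_gt_atTop 0,
      tlog.eventually_gt_atTop (4 * C / ε)] with x x1 x2 x3 x4
    set L : ℝ := Real.log x with hL
    obtain ⟨x5, x6⟩ := x1
    set S := SD μ ℱ A (w x) (x + hh c x) ω with hS
    rw [Real.dist_eq, sub_zero, ← sub_div, abs_div, abs_of_pos (show 0 < L ^ 2 by positivity), div_lt_iff₀ (by positivity)]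
    have y1 : |SI A (w x) (x + hh c x) ω - S| ≤ ε / (4 * κ) * S + C * L := by
      rw [abs_le]
      constructor <;> linarith
    have y2 : S ≤ κ * L ^ 2 := by
      have := x2.le
      rwa [div_le_iff₀ (by positivity)] at this
    have y3 : C * L ≤ ε / 4 * L ^ 2 := by
      rw [div_lt_iff₀ hε] at x4
      nlinarith
    calc |SI A (w x) (x + hh c x) ω - S| ≤ ε / (4 * κ) * S + C * L := y1
      _ ≤ ε / (4 * κ) * (κ * L ^ 2) + ε / 4 * L ^ 2 := add_le_add (mul_le_mul_of_nonneg_left y2 (by positivity)) y3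
      _ = ε / 2 * L ^ 2 := by field_simp; ring
      _ < ε * L ^ 2 := by
          apply mul_lt_mul_of_pos_right _ (by positivity)
          linarith
  have h5 := hfin.add hSD
  rw [zero_add] at h5
  refine h5.congr fun x => ?_
  rw [hSI]
  ring

/-- splitting a probability according to a finite pattern -/
lemma split {p : Ω → Finset ℕ} {P : Finset (Finset ℕ)} (hp : ∀ ω, p ω ∈ P) (hm : ∀ s, MeasurableSet {ω | p ω = s})
    {B : Set Ω} (hB : MeasurableSet B) : μ.real B = ∑ s ∈ P, μ.real ({ω | p ω = s} ∩ B) := by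
  have h1 : B = ⋃ s ∈ P, ({ω | p ω = s} ∩ B) := by
    ext ω
    simp only [mem_iUnion, mem_inter_iff, mem_ofPred_eq, exists_prop]
    constructor
    · intro h
      exact ⟨p ω, hp ω, rfl, h⟩
    · rintro ⟨s, _, _, h⟩
      exact h
  conv_lhs => rw [h1]
  apply measureReal_biUnion_finset
  · intro s _ t _ hst
    rw [Function.onFun, Set.disjoint_left]
    rintro ω ⟨h2, _⟩ ⟨h3, _⟩
    exact hst ((show p ω = s from h2).symm.trans h3)
  · intro s _
    exact (hm s).inter hB
  · intro s _
    exact measure_ne_top _ _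

end Pool.Agent.N957.SQ.Pr
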