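import Mathlib
import Pool.Agent.N957.SQ.Pair

/-!
# Indices `k` with `k` and `F k` chosen: the exact constant of the maximal gaps
-/

set_option autoImplicit false
set_option linter.unusedSectionVars false

open MeasureTheory Filter Set
open scoped ENNReal Topology

namespace Pool.Agent.N957.SQ.Pr

open Pool.Agent.R528.RM Pool.Agent.N285.GP Pool.Agent.N909.TF

variable {Ω : Type} {m0 : MeasurableSpace Ω} {μ : Measure Ω} [IsProbabilityMeasure μ]
  {ℱ : Filtration ℕ m0} {A : ℕ → Set Ω}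

open Classical in
/-- the possible patterns -/
noncomputable def pats (g : ℕ → Prop) (c : ℝ) (x : ℕ) : Finset (Finset ℕ) :=
  ((Finset.Ioc x (x + hh c x)).filter g).powerset

lemma pat_mem (g : ℕ → Prop) (c : ℝ) (x : ℕ) (ω : Ω) : pat A g c x ω ∈ pats g c x := by
  classical
  unfold pats
  rw [Finset.mem_powerset]
  intro n hn
  rw [mem_pat] at hn
  rw [Finset.mem_filter, Finset.mem_Ioc]
  exact ⟨⟨hn.1, hn.2.1⟩, hn.2.2.1⟩

lemma mem_pats {g : ℕ → Prop} {c : ℝ} {x : ℕ} {s : Finset ℕ} (hs : s ∈ pats g c x) {n : ℕ} (hn : n ∈ s) :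
    x < n ∧ n ≤ x + hh c x ∧ g n := by
  classical
  unfold pats at hs
  have := (Finset.mem_powerset.1 hs) hn
  rw [Finset.mem_filter, Finset.mem_Ioc] at this
  exact ⟨this.1.1, this.1.2, this.2⟩

lemma card_image_F {F : ℕ → ℕ} {n₀ : ℕ} (hF : ∀ n, n₀ ≤ n → F n < F (n + 1)) {g : ℕ → Prop} {c : ℝ} {x : ℕ}
    (hx : n₀ ≤ x) {s : Finset ℕ} (hs : s ∈ pats g c x) : (s.image F).card = s.card := by
  apply Finset.card_image_of_injOn
  intro a ha b hb hab
  have ha' := (mem_pats hs (Finset.mem_coe.1 ha)).1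
  have hb' := (mem_pats hs (Finset.mem_coe.1 hb)).1
  rcases lt_trichotomy a b with h | h | h
  · exact absurd hab (strict_from hF (by omega) h).ne
  · exact h
  · exact absurd hab (strict_from hF (by omega) h).ne'

/-- **no long gaps** -/
theorem pair_upper (hA : ∀ n, MeasurableSet[ℱ n] (A n)) (ρ : ℕ → ℝ)
    (hd : ∀ᵐ ω ∂μ, ∀ ε : ℝ, 0 < ε → ∀ᶠ n : ℕ in atTop, |dens μ ℱ A n ω - ρ (n + 1)| ≤ ε * ρ (n + 1))
    (F : ℕ → ℕ) (hF : ∀ᶠ n in atTop, F n < F (n + 1)) (hF2 : ∀ᶠ n in atTop, 2 * n ≤ F n)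
    (g : ℕ → Prop) (W : ℕ) (hW : 0 < W)
    (hg : Function.Periodic g W) {β₁ β₂ : ℝ} (hβ₁ : 0 < β₁) (hβ₂ : 0 < β₂)
    (hρ₁ : Tendsto (fun k : ℕ => ρ k * Real.log k) (atTop ⊓ 𝓟 {k | g k}) (𝓝 β₁))
    (hρ₂ : Tendsto (fun k : ℕ => ρ (F k) * Real.log k) (atTop ⊓ 𝓟 {k | g k}) (𝓝 β₂)) {c : ℝ} (hc0 : 0 < c)
    (hc : 1 < ((@Nat.count g (Classical.decPred g) W : ℝ) / W * c * β₁) * β₂) :
    ∀ᵐ ω ∂μ, ∀ᶠ x : ℕ in atTop, ∃ k : ℕ, x < k ∧ (k : ℝ) ≤ x + c * Real.log x ^ 3 ∧ ω ∈ A k ∧ ω ∈ A (F k) := by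
  classical
  obtain ⟨n₀, hn₀⟩ := eventually_atTop.1 hF
  have hcount : (@Nat.count g (Classical.decPred g) W : ℝ) = (Nat.count g W : ℝ) := by congr
  rw [hcount] at hc
  set θ₁ : ℝ := (Nat.count g W : ℝ) / W * c * β₁ with hθ₁
  set θ : ℝ := θ₁ * β₂ with hθ
  have hθ₁0 : 0 < θ₁ := by
    by_contra hcon
    push Not at hcon
    have : θ ≤ 0 := mul_nonpos_of_nonpos_of_nonneg hcon hβ₂.le
    linarith
  set η : ℝ := min (1 / 2) ((θ - 1) / (6 * θ)) with hη
  have hη0 : 0 < η := lt_min (by norm_num) (div_pos (by linarith) (by linarith))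
  have hη1 : η < 1 := (min_le_left _ _).trans_lt (by norm_num)
  have hη2 : η * (6 * θ) ≤ θ - 1 := by
    have := min_le_right (1 / 2) ((θ - 1) / (6 * θ))
    rw [← hη, le_div_iff₀ (by linarith)] at this
    exact this
  set θ' : ℝ := (1 - η) ^ 3 * θ with hθ'
  have hη3 : 0 < 1 - η := by linarith
  have hθ'1 : 1 < θ' := by
    have h1 : 1 - 3 * η ≤ (1 - η) ^ 3 := by nlinarith [mul_pos hη0 hη0, mul_pos (mul_pos hη0 hη0) hη3]
    have : (1 - 3 * η) * θ ≤ θ' := mul_le_mul_of_nonneg_right h1 (by linarith)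
    nlinarith
  set b : ℝ := (1 - η) ^ 2 * β₂ with hb
  have hb0 : 0 < b := by positivity
  set E : ℕ → Set Ω := fun x => {ω | (1 - η) * θ₁ * Real.log x ^ 2 ≤ (pat A g c x ω).card ∧
    ω ∈ NC A ((pat A g c x ω).image F) \ ZV (VP μ ℱ A ρ η) ((pat A g c x ω).image F)} with hE
  have hprob : ∀ᶠ x : ℕ in atTop, μ.real (E x) ≤ Real.exp θ' * (1 / (x : ℝ) ^ θ') := by
    filter_upwards [rho_win3 hβ₂ hρ₂ hc0 hη0 hη1, eventually_ge_atTop (n₀ + 1), tlog.eventually_ge_atTop (max 1 b),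
      win_short3 hc0, hF2] with x h1 h2 h3 h4 h5
    set L : ℝ := Real.log x with hL
    have hL1 : 1 ≤ L := (le_max_left _ _).trans h3
    have hLb : b ≤ L := (le_max_right _ _).trans h3
    have h6 : x + hh c x ≤ F x := by
      have : hh c x ≤ x := by exact_mod_cast h4
      omega
    have hpm : ∀ s, MeasurableSet[ℱ (x + hh c x)] {ω | pat A g c x ω = s} := fun s => pat_meas hA g c x s
    have hpm' : ∀ s, MeasurableSet {ω | pat A g c x ω = s} := fun s => ℱ.le _ _ (hpm s)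
    have hl1 : b / (L + 1) ≤ 1 := by
      rw [div_le_one (by linarith)]
      linarith
    -- the bound for one pattern
    have hone : ∀ s ∈ pats g c x, μ.real ({ω | pat A g c x ω = s} ∩ E x) ≤
        Real.exp (θ' - θ' * L) * μ.real {ω | pat A g c x ω = s} := by
      intro s hs
      by_cases hcard : (1 - η) * θ₁ * L ^ 2 ≤ s.card
      · have hup := place_upper (μ := μ) hA (fun n => VP_meas (μ := μ) ρ η n) (l := b / (L + 1)) hl1
          (x + hh c x) (hpm s) (s.image F)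
          (by
            intro t ht
            obtain ⟨k, hk, rfl⟩ := Finset.mem_image.1 ht
            exact lt_of_le_of_lt h6 (strict_from hn₀ (by omega) (mem_pats hs hk).1))
          (by
            intro t ht ω hω
            obtain ⟨k, hk, rfl⟩ := Finset.mem_image.1 ht
            obtain ⟨k1, k2, k3⟩ := mem_pats hs hk
            have hpos : 0 < F k := lt_of_le_of_lt (Nat.zero_le _) (strict_from hn₀ (show n₀ ≤ x by omega) k1)
            have h7 := (VP_bounds hpos hω).1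
            have h8 := (h1 k k1 k2 k3).1
            refine le_trans ?_ h7
            calc b / (L + 1) = (1 - η) * ((1 - η) * β₂ / (L + 1)) := by rw [hb]; ring
              _ ≤ _ := mul_le_mul_of_nonneg_left h8 hη3.le)
        rw [card_image_F hn₀ (show n₀ ≤ x by omega) hs] at hup
        have hsub : {ω | pat A g c x ω = s} ∩ E x ⊆
            ({ω | pat A g c x ω = s} ∩ NC A (s.image F)) \ ZV (VP μ ℱ A ρ η) (s.image F) := by
          rintro ω ⟨hω1, hω2⟩
          have hω1' : pat A g c x ω = s := hω1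
          obtain ⟨_, hω3⟩ := hω2
          rw [hω1'] at hω3
          exact ⟨⟨hω1, hω3.1⟩, hω3.2⟩
        refine (measureReal_mono hsub).trans (hup.trans ?_)
        apply mul_le_mul_of_nonneg_right _ measureReal_nonneg
        refine (pow_le_exp (by linarith) (by linarith) _).trans ?_
        apply Real.exp_le_exp.2
        have h9 : θ' * L - θ' ≤ b * s.card / (L + 1) := by
          rw [le_div_iff₀ (by linarith)]
          have h10 : b * ((1 - η) * θ₁ * L ^ 2) ≤ b * s.card := mul_le_mul_of_nonneg_left hcard hb0.le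
          have e : b * ((1 - η) * θ₁ * L ^ 2) = θ' * L ^ 2 := by rw [hb, hθ', hθ]; ring
          rw [e] at h10
          nlinarith
        linarith
      · have : {ω | pat A g c x ω = s} ∩ E x = ∅ := by
          ext ω
          simp only [mem_inter_iff, mem_empty_iff_false, iff_false, not_and]
          intro hω1 hω2
          have hω1' : pat A g c x ω = s := hω1
          obtain ⟨hω3, _⟩ := hω2
          rw [hω1'] at hω3
          exact hcard hω3
        rw [this, measureReal_empty]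
        positivity
    have hEm : E x ⊆ ⋃ s ∈ pats g c x, ({ω | pat A g c x ω = s} ∩ E x) := by
      intro ω hω
      simp only [mem_iUnion, mem_inter_iff, mem_ofPred_eq, exists_prop]
      exact ⟨pat A g c x ω, pat_mem g c x ω, rfl, hω⟩
    have hsum1 : μ.real (E x) ≤ ∑ s ∈ pats g c x, μ.real ({ω | pat A g c x ω = s} ∩ E x) :=
      (measureReal_mono hEm (measure_ne_top _ _)).trans (measureReal_biUnion_finset_le _ _)
    have hsum2 : ∑ s ∈ pats g c x, μ.real {ω | pat A g c x ω = s} = 1 := by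
      have := split (μ := μ) (pat_mem (A := A) g c x) hpm' MeasurableSet.univ
      rw [probReal_univ] at this
      rw [this]
      refine Finset.sum_congr rfl fun s _ => ?_
      rw [inter_univ]
    have hx0 : (0 : ℝ) < x := by exact_mod_cast (show 0 < x by omega)
    have e2 : 1 / (x : ℝ) ^ θ' = Real.exp (-(θ' * L)) := by
      rw [Real.rpow_def_of_pos hx0, one_div, ← Real.exp_neg, mul_comm θ' L]
    rw [e2, ← Real.exp_add, ← sub_eq_add_neg]
    calc μ.real (E x) ≤ ∑ s ∈ pats g c x, μ.real ({ω | pat A g c x ω = s} ∩ E x) := hsum1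
      _ ≤ ∑ s ∈ pats g c x, Real.exp (θ' - θ' * L) * μ.real {ω | pat A g c x ω = s} := Finset.sum_le_sum hone
      _ = Real.exp (θ' - θ' * L) := by rw [← Finset.mul_sum, hsum2, mul_one]
  have hsum : ∑' x : ℕ, μ (E x) ≠ ∞ := by
    have h1 : Summable (fun x : ℕ => Real.exp θ' * (1 / (x : ℝ) ^ θ')) :=
      (Real.summable_one_div_nat_rpow.2 hθ'1).mul_left _
    have h2 : Summable (fun x : ℕ => μ.real (E x)) := by
      refine Summable.of_norm_bounded_eventually_nat h1 ?_
      filter_upwards [hprob] with x hx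
      rw [Real.norm_of_nonneg measureReal_nonneg]
      exact hx
    have h3 : ∑' x : ℕ, μ (E x) = ENNReal.ofReal (∑' x : ℕ, μ.real (E x)) := by
      rw [ENNReal.ofReal_tsum_of_nonneg (fun _ => measureReal_nonneg) h2]
      congr 1
      funext i
      exact (ofReal_measureReal (measure_ne_top _ _)).symm
    rw [h3]
    exact ENNReal.ofReal_ne_top
  filter_upwards [ae_eventually_notMem hsum, hd, stage1 (μ := μ) hA ρ hd g W hW hg hβ₁ hρ₁ hc0] with ω h1 h2 hst
  obtain ⟨m₀, hm₀⟩ := eventually_atTop.1 (h2 η hη0)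
  have hst' := hst.eventually_const_lt (show (1 - η) * θ₁ < (Nat.count g W : ℝ) / W * c * β₁ by
    rw [← hθ₁]
    nlinarith)
  filter_upwards [h1, (F_top hn₀).eventually_ge_atTop (m₀ + 1), eventually_ge_atTop n₀, hst',
    tlog.eventually_gt_atTop 0] with x hx hxm hxn hxs hxL
  by_contra hcon
  push Not at hcon
  apply hx
  refine ⟨?_, fun s hs => ?_, ?_⟩
  · rw [lt_div_iff₀ (by positivity)] at hxs
    exact hxs.le
  · obtain ⟨k, hk, rfl⟩ := Finset.mem_image.1 hs
    obtain ⟨k1, k2, k3, k4⟩ := mem_pat.1 hk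
    have h3 := hh_le hc0 x
    have h4 : (k : ℝ) ≤ x + (hh c x : ℝ) := by exact_mod_cast k2
    exact hcon k k1 (by linarith) k4
  · rintro ⟨s, hs, hs2⟩
    obtain ⟨k, hk, rfl⟩ := Finset.mem_image.1 hs
    obtain ⟨k1, k2, k3, k4⟩ := mem_pat.1 hk
    have h3 := strict_from hn₀ hxn k1
    have h4 := hm₀ (F k - 1) (by omega)
    simp only [VP, mem_ofPred_eq] at hs2
    linarith

lemma st_next3 {τ c : ℝ} (hτ : 0 < τ) (hc : 0 < c) :
    ∀ᶠ j : ℕ in atTop, st τ j + hh c (st τ j) ≤ st τ (j + 1) := by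
  have h1 : ∀ᶠ x : ℝ in atTop, c * (1 + τ) ^ 3 * Real.log x ^ 3 + 1 ≤ x ^ τ := by
    have h2 := (isLittleO_log_rpow_rpow_atTop (s := τ) 3 hτ).def (show (0 : ℝ) < 1 / (2 * c * (1 + τ) ^ 3) by positivity)
    have h3 : ∀ᶠ x : ℝ in atTop, 2 ≤ x ^ τ := (tendsto_rpow_atTop hτ).eventually_ge_atTop 2
    filter_upwards [h2, h3, eventually_gt_atTop 1] with x hx hx3 hx0
    have hlog : 0 ≤ Real.log x := Real.log_nonneg hx0.le
    have e : Real.log x ^ (3 : ℝ) = Real.log x ^ (3 : ℕ) := by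
      rw [← Real.rpow_natCast]
      norm_num
    rw [Real.norm_of_nonneg (by positivity), Real.norm_of_nonneg (by positivity), e] at hx
    have h4 : c * (1 + τ) ^ 3 * Real.log x ^ 3 ≤ c * (1 + τ) ^ 3 * (1 / (2 * c * (1 + τ) ^ 3) * x ^ τ) :=
      mul_le_mul_of_nonneg_left hx (by positivity)
    have h5 : c * (1 + τ) ^ 3 * (1 / (2 * c * (1 + τ) ^ 3) * x ^ τ) = x ^ τ / 2 := by
      have : (1 + τ) ≠ 0 := by linarith
      field_simp
    linarith
  filter_upwards [tendsto_natCast_atTop_atTop.eventually h1, eventually_gt_atTop 0] with j hj hj0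
  have hj0' : (0 : ℝ) < j := by exact_mod_cast hj0
  have h2 : (st τ j : ℝ) ≤ (j : ℝ) ^ (1 + τ) := Nat.floor_le (by positivity)
  have h3 : 0 ≤ Real.log (st τ j) := Real.log_natCast_nonneg _
  have h4 := st_log hτ hj0
  have h5 : c * Real.log (st τ j) ^ 3 ≤ c * (1 + τ) ^ 3 * Real.log j ^ 3 := by
    have : Real.log (st τ j) ^ 3 ≤ ((1 + τ) * Real.log j) ^ 3 := pow_le_pow_left₀ h3 h4 3
    calc c * Real.log (st τ j) ^ 3 ≤ c * ((1 + τ) * Real.log j) ^ 3 := mul_le_mul_of_nonneg_left this hc.le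
      _ = _ := by ring
  have h6 : (hh c (st τ j) : ℝ) ≤ c * Real.log (st τ j) ^ 3 := hh_le hc _
  have h7 : (j : ℝ) ^ (1 + τ) + (j : ℝ) ^ τ ≤ ((j + 1 : ℕ) : ℝ) ^ (1 + τ) := by
    push_cast
    rw [Real.rpow_add hj0', Real.rpow_add (by positivity : (0 : ℝ) < j + 1), Real.rpow_one, Real.rpow_one]
    have h8 : (j : ℝ) ^ τ ≤ ((j : ℝ) + 1) ^ τ := Real.rpow_le_rpow hj0'.le (by linarith) hτ.le
    nlinarith
  apply Nat.le_floor
  push_cast
  push_cast at h7
  linarith

/-- **long gaps infinitely often** -/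
theorem pair_lower (hA : ∀ n, MeasurableSet[ℱ n] (A n)) (ρ : ℕ → ℝ)
    (hd : ∀ᵐ ω ∂μ, ∀ ε : ℝ, 0 < ε → ∀ᶠ n : ℕ in atTop, |dens μ ℱ A n ω - ρ (n + 1)| ≤ ε * ρ (n + 1))
    (F : ℕ → ℕ) (hF : ∀ᶠ n in atTop, F n < F (n + 1)) (hF2 : ∀ᶠ n in atTop, 2 * n ≤ F n)
    (g : ℕ → Prop) (W : ℕ) (hW : 0 < W)
    (hg : Function.Periodic g W) {β₁ β₂ : ℝ} (hβ₁ : 0 < β₁) (hβ₂ : 0 < β₂)
    (hρ₁ : Tendsto (fun k : ℕ => ρ k * Real.log k) (atTop ⊓ 𝓟 {k | g k}) (𝓝 β₁))
    (hρ₂ : Tendsto (fun k : ℕ => ρ (F k) * Real.log k) (atTop ⊓ 𝓟 {k | g k}) (𝓝 β₂))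
    (hz : ∀ᶠ k in atTop, ¬ g k → A k ∩ A (F k) = ∅) {c : ℝ} (hc0 : 0 < c)
    (hg0 : 0 < @Nat.count g (Classical.decPred g) W)
    (hc : ((@Nat.count g (Classical.decPred g) W : ℝ) / W * c * β₁) * β₂ < 1) :
    ∀ᵐ ω ∂μ, ∃ᶠ x : ℕ in atTop, ∀ k : ℕ, x < k → (k : ℝ) ≤ x + c * Real.log x ^ 3 → ¬ (ω ∈ A k ∧ ω ∈ A (F k)) := by
  classical
  obtain ⟨n₀, hn₀⟩ := eventually_atTop.1 hF
  have hcount : @Nat.count g (Classical.decPred g) W = Nat.count g W := by congr
  rw [hcount] at hc hg0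
  have hg0' : (0 : ℝ) < Nat.count g W := by exact_mod_cast hg0
  have hW' : (0 : ℝ) < W := by exact_mod_cast hW
  set θ₁ : ℝ := (Nat.count g W : ℝ) / W * c * β₁ with hθ₁
  set θ : ℝ := θ₁ * β₂ with hθ
  have hθ₁0 : 0 < θ₁ := by positivity
  have hθ0 : 0 < θ := by positivity
  set η : ℝ := (1 - θ) / 8 with hη
  have hη0 : 0 < η := by simp only [hη]; linarith
  have hη1 : η < 1 := by simp only [hη]; linarith
  set θ' : ℝ := (1 + η) ^ 3 * θ with hθ'
  have hθ'1 : θ' < 1 := by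
    have e : θ = 1 - 8 * η := by rw [hη]; ring
    have hη8 : η ≤ 1 / 8 := by rw [hη]; linarith
    rw [hθ', e]
    nlinarith [mul_pos hη0 hη0, mul_pos (mul_pos hη0 hη0) hη0, mul_pos (mul_pos hη0 hη0) (mul_pos hη0 hη0)]
  have hθ'0 : 0 ≤ θ' := by positivity
  set τ : ℝ := (1 - θ') / 2 with hτ
  have hτ0 : 0 < τ := by simp only [hτ]; linarith
  set b : ℝ := (1 + η) ^ 2 * β₂ with hb
  have hb0 : 0 < b := by positivity
  set D₀ : ℕ → Set Ω := fun x => {ω | (1 + η) * θ₁ * Real.log x ^ 2 < (pat A g c x ω).card ∨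
    ω ∈ NC A ((pat A g c x ω).image F) ∪ ZV (VP μ ℱ A ρ η) ((pat A g c x ω).image F)} with hD₀
  have hDeq : ∀ x, D₀ x = ⋃ s ∈ pats g c x, ({ω | pat A g c x ω = s} ∩
      (if (1 + η) * θ₁ * Real.log x ^ 2 < s.card then univ else NC A (s.image F) ∪ ZV (VP μ ℱ A ρ η) (s.image F))) := by
    intro x
    ext ω
    simp only [mem_iUnion, mem_inter_iff, mem_ofPred_eq, exists_prop]
    constructor
    · intro h
      refine ⟨pat A g c x ω, pat_mem g c x ω, rfl, ?_⟩
      by_cases h2 : (1 + η) * θ₁ * Real.log x ^ 2 < (pat A g c x ω).card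
      · rw [if_pos h2]; exact mem_univ _
      · rw [if_neg h2]
        exact h.resolve_left h2
    · rintro ⟨s, _, h3, h4⟩
      by_cases h2 : (1 + η) * θ₁ * Real.log x ^ 2 < s.card
      · left
        rw [h3]
        exact h2
      · right
        rw [if_neg h2] at h4
        rw [h3]
        exact h4
  -- measurability
  have hDm₀ : ∀ x, n₀ ≤ x → x + hh c x ≤ F (x + hh c x) → MeasurableSet[ℱ (F (x + hh c x))] (D₀ x) := by
    intro x hx hx2
    rw [hDeq]
    refine @MeasurableSet.biUnion _ _ (ℱ (F (x + hh c x))) _ _ (Finset.countable_toSet _) fun s hs => ?_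
    have k1 : MeasurableSet[ℱ (F (x + hh c x))] {ω | pat A g c x ω = s} := ℱ.mono hx2 _ (pat_meas hA g c x s)
    refine @MeasurableSet.inter _ (ℱ (F (x + hh c x))) _ _ k1 ?_
    have hle : ∀ t ∈ s.image F, t ≤ F (x + hh c x) := by
      intro t ht
      obtain ⟨k, hk, rfl⟩ := Finset.mem_image.1 ht
      obtain ⟨k1, k2, k3⟩ := mem_pats hs hk
      rcases k2.lt_or_eq with h | h
      · exact (strict_from hn₀ (by omega) h).le
      · rw [h]
    by_cases h2 : (1 + η) * θ₁ * Real.log x ^ 2 < s.card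
    · rw [if_pos h2]
      exact @MeasurableSet.univ _ (ℱ (F (x + hh c x)))
    · rw [if_neg h2]
      exact @MeasurableSet.union _ (ℱ (F (x + hh c x))) _ _ (NC_meas hA _ _ hle)
        (ZV_meas (fun n => VP_meas (μ := μ) ρ η n) _ _ hle)
  -- the windows
  have hwin : ∀ᶠ x : ℕ in atTop, ∀ C, MeasurableSet[ℱ (F x)] C →
      Real.exp (-(2 * b * θ')) * Real.exp (-(θ' * Real.log x)) * μ.real C ≤ μ.real (C ∩ D₀ x) := by
    filter_upwards [rho_win3 hβ₂ hρ₂ hc0 hη0 hη1, eventually_ge_atTop n₀,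
      tlog.eventually_ge_atTop (max (b + 1) (2 * b)), win_short3 hc0, hF2,
      (tendsto_atTop_mono (fun x => Nat.le_add_right x (hh c x)) tendsto_id).eventually hF2] with x h1 h2 h3 h4 h5 h5'
    intro C hC
    set L : ℝ := Real.log x with hL
    have hL1 : b + 1 ≤ L := (le_max_left _ _).trans h3
    have hLb : 2 * b ≤ L := (le_max_right _ _).trans h3
    have hL0 : 0 < L := by linarith
    have h6 : x + hh c x ≤ F x := by
      have : hh c x ≤ x := by exact_mod_cast h4
      omega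
    have hpm : ∀ s, MeasurableSet[ℱ (F x)] {ω | pat A g c x ω = s} := fun s => ℱ.mono h6 _ (pat_meas hA g c x s)
    have hpm' : ∀ s, MeasurableSet {ω | pat A g c x ω = s} := fun s => ℱ.le _ _ (hpm s)
    have hu1 : b / L ≤ 1 := by
      rw [div_le_one hL0]
      linarith
    have hC' : MeasurableSet C := ℱ.le _ _ hC
    have h5'' : x + hh c x ≤ F (x + hh c x) := by omega
    have hD' : MeasurableSet (D₀ x) := ℱ.le _ _ (hDm₀ x h2 h5'')
    -- one pattern
    have hone : ∀ s ∈ pats g c x, Real.exp (-(θ' * L + 2 * b * θ')) * μ.real ({ω | pat A g c x ω = s} ∩ C) ≤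
        μ.real ({ω | pat A g c x ω = s} ∩ (C ∩ D₀ x)) := by
      intro s hs
      by_cases hcard : (1 + η) * θ₁ * L ^ 2 < s.card
      · have : {ω | pat A g c x ω = s} ∩ C = {ω | pat A g c x ω = s} ∩ (C ∩ D₀ x) := by
          ext ω
          simp only [mem_inter_iff]
          constructor
          · rintro ⟨g1, g2⟩
            refine ⟨g1, g2, Or.inl ?_⟩
            have g1' : pat A g c x ω = s := g1
            rw [g1']
            exact hcard
          · rintro ⟨g1, g2, _⟩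
            exact ⟨g1, g2⟩
        rw [← this]
        have h7 : Real.exp (-(θ' * L + 2 * b * θ')) ≤ 1 := Real.exp_le_one_iff.2 (by
          have : 0 ≤ θ' * L := by positivity
          have : 0 ≤ 2 * b * θ' := by positivity
          linarith)
        calc _ ≤ 1 * μ.real ({ω | pat A g c x ω = s} ∩ C) := mul_le_mul_of_nonneg_right h7 measureReal_nonneg
          _ = _ := one_mul _
      · push Not at hcard
        have hlo := place_lower (μ := μ) hA (fun n => VP_meas (μ := μ) ρ η n) (u := b / L)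
          (div_nonneg hb0.le hL0.le) hu1 (F x) (C := {ω | pat A g c x ω = s} ∩ C)
          (@MeasurableSet.inter _ (ℱ (F x)) _ _ (hpm s) hC) (s.image F)
          (by
            intro t ht
            obtain ⟨k, hk, rfl⟩ := Finset.mem_image.1 ht
            exact strict_from hn₀ h2 (mem_pats hs hk).1)
          (by
            intro t ht ω hω
            obtain ⟨k, hk, rfl⟩ := Finset.mem_image.1 ht
            obtain ⟨k1, k2, k3⟩ := mem_pats hs hk
            have hpos : 0 < F k := lt_of_le_of_lt (Nat.zero_le _) (strict_from hn₀ h2 k1)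
            have h7 := (VP_bounds hpos hω).2
            have h8 := (h1 k k1 k2 k3).2
            refine le_trans h7 ?_
            calc (1 + η) * ρ (F k) ≤ (1 + η) * ((1 + η) * β₂ / L) := mul_le_mul_of_nonneg_left h8 (by linarith)
              _ = b / L := by rw [hb]; ring)
        rw [card_image_F hn₀ h2 hs] at hlo
        have hsub : ({ω | pat A g c x ω = s} ∩ C) ∩ (NC A (s.image F) ∪ ZV (VP μ ℱ A ρ η) (s.image F)) ⊆
            {ω | pat A g c x ω = s} ∩ (C ∩ D₀ x) := by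
          rintro ω ⟨⟨g1, g2⟩, g3⟩
          refine ⟨g1, g2, Or.inr ?_⟩
          have g1' : pat A g c x ω = s := g1
          rw [g1']
          exact g3
        refine le_trans ?_ (hlo.trans (measureReal_mono hsub))
        apply mul_le_mul_of_nonneg_right _ measureReal_nonneg
        refine le_trans ?_ (pow_ge_exp hb0.le hL1 _)
        apply Real.exp_le_exp.2
        have h9 : b * s.card ≤ θ' * L ^ 2 + 0 := by
          have h10 : b * s.card ≤ b * ((1 + η) * θ₁ * L ^ 2) := mul_le_mul_of_nonneg_left hcard hb0.le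
          have e : b * ((1 + η) * θ₁ * L ^ 2) = θ' * L ^ 2 := by rw [hb, hθ', hθ]; ring
          rw [e] at h10
          linarith
        have h11 := est_lower hb0.le hθ'0 le_rfl hL1 hLb h9
        linarith
    rw [split (μ := μ) (pat_mem (A := A) g c x) hpm' hC', split (μ := μ) (pat_mem (A := A) g c x) hpm' (hC'.inter hD'),
      Finset.mul_sum]
    refine Finset.sum_le_sum fun s hs => ?_
    refine le_trans (le_of_eq ?_) (hone s hs)
    rw [← Real.exp_add]
    congr 2
    ring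
  obtain ⟨x₀, hx₀⟩ := eventually_atTop.1 hwin
  obtain ⟨j₁, hj₁⟩ := eventually_atTop.1 (st_next3 hτ0 hc0)
  obtain ⟨n₂, hn₂⟩ := eventually_atTop.1 hF2
  set j₀ : ℕ := max (max x₀ n₀) (max j₁ (max n₂ 1)) with hj₀
  have e1 : x₀ ≤ j₀ := (le_max_left _ _).trans (le_max_left _ _)
  have e2 : n₀ ≤ j₀ := (le_max_right _ _).trans (le_max_left _ _)
  have e3 : j₁ ≤ j₀ := (le_max_left _ _).trans (le_max_right _ _)
  have e5 : n₂ ≤ j₀ := ((le_max_left _ _).trans (le_max_right _ _)).trans (le_max_right _ _)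
  have e4 : 1 ≤ j₀ := ((le_max_right _ _).trans (le_max_right _ _)).trans (le_max_right _ _)
  set s : ℕ → ℕ := fun j => F (st τ (max j j₀)) with hs
  have hstn : ∀ j, j₀ ≤ j → n₀ ≤ st τ j := fun j hj => (e2.trans hj).trans (st_ge hτ0 j)
  have Fmono : ∀ a b, n₀ ≤ a → a ≤ b → F a ≤ F b := by
    intro a b ha hab
    rcases hab.lt_or_eq with h | h
    · exact (strict_from hn₀ ha h).le
    · rw [h]
  have hsm : Monotone s := by
    intro a b hab
    have h1 : max a j₀ ≤ max b j₀ := max_le_max_right _ hab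
    exact Fmono _ _ (hstn _ (le_max_right _ _)) (st_mono hτ0 h1)
  set D : ℕ → Set Ω := fun j => if j₀ ≤ j then D₀ (st τ j) else ∅ with hD
  have hDm : ∀ j, MeasurableSet[ℱ (s (j + 1))] (D j) := by
    intro j
    simp only [hD]
    by_cases h : j₀ ≤ j
    · rw [if_pos h]
      have h1 : n₂ ≤ st τ j := (e5.trans h).trans (st_ge hτ0 j)
      have h2 : st τ j + hh c (st τ j) ≤ F (st τ j + hh c (st τ j)) := by
        have := hn₂ (st τ j + hh c (st τ j)) (by omega)
        omega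
      refine ℱ.mono ?_ _ (hDm₀ (st τ j) (hstn j h) h2)
      simp only [hs]
      rw [max_eq_left (by omega)]
      exact Fmono _ _ ((hstn j h).trans (Nat.le_add_right _ _)) (hj₁ j (e3.trans h))
    · rw [if_neg h]
      exact @MeasurableSet.empty _ (ℱ (s (j + 1)))
  set q : ℝ := Real.exp (-(2 * b * θ')) with hq
  have hq0 : 0 < q := Real.exp_pos _
  have hpj : ∀ j, j₀ ≤ j → ∀ C, MeasurableSet[ℱ (s j)] C → q * (1 / (j : ℝ)) * μ.real C ≤ μ.real (C ∩ D j) := by
    intro j hj C hC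
    have esj : s j = F (st τ j) := by
      simp only [hs]
      rw [max_eq_left hj]
    rw [esj] at hC
    have h1 := hx₀ (st τ j) ((e1.trans hj).trans (st_ge hτ0 j)) C hC
    simp only [hD]
    rw [if_pos hj]
    refine le_trans ?_ h1
    apply mul_le_mul_of_nonneg_right _ measureReal_nonneg
    apply mul_le_mul_of_nonneg_left _ hq0.le
    have hj0 : 0 < j := by omega
    have hj0' : (0 : ℝ) < j := by exact_mod_cast hj0
    have h2 : 1 / (j : ℝ) = Real.exp (-Real.log j) := by rw [Real.exp_neg, Real.exp_log hj0', one_div]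
    rw [h2]
    apply Real.exp_le_exp.2
    have h3 := st_log hτ0 hj0
    have h4 : 0 ≤ Real.log (j : ℝ) := Real.log_natCast_nonneg j
    have h5 : θ' * Real.log (st τ j) ≤ θ' * ((1 + τ) * Real.log j) := mul_le_mul_of_nonneg_left h3 hθ'0
    have h6 : θ' * (1 + τ) ≤ 1 := by
      have : θ' = 1 - 2 * τ := by rw [hτ]; ring
      rw [this]
      nlinarith
    nlinarith
  have hsum : Tendsto (fun N => ∑ j ∈ Finset.range N, q * (1 / (j : ℝ))) atTop atTop := by
    simp_rw [← Finset.mul_sum]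
    apply Tendsto.const_mul_atTop hq0
    rw [← tendsto_add_atTop_iff_nat 1]
    refine Real.tendsto_sum_range_one_div_nat_succ_atTop.congr fun N => ?_
    rw [Finset.sum_range_succ' (fun j : ℕ => 1 / (j : ℝ)) N]
    push_cast
    rw [div_zero, add_zero]
  have hio := Pool.Agent.N740.HK.trials_io (μ := μ) (ℱ := ℱ) hsm hDm (p := fun j => q * (1 / (j : ℝ))) (k₀ := j₀) hpj hsum
  filter_upwards [hio, hd, stage1 (μ := μ) hA ρ hd g W hW hg hβ₁ hρ₁ hc0] with ω h1 h2 hst
  have hst' := hst.eventually_lt_const (show (Nat.count g W : ℝ) / W * c * β₁ < (1 + η) * θ₁ by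
    rw [← hθ₁]
    nlinarith)
  obtain ⟨m₀, hm₀⟩ := eventually_atTop.1 (h2 η hη0)
  obtain ⟨m₁, hm₁⟩ := eventually_atTop.1 ((F_top hn₀).eventually_ge_atTop (m₀ + 1))
  obtain ⟨m₂, hm₂⟩ := eventually_atTop.1 hz
  obtain ⟨m₃, hm₃⟩ := eventually_atTop.1 (hst'.and (tlog.eventually_gt_atTop 0))
  rw [Filter.frequently_atTop]
  intro M
  obtain ⟨j, hj, hjD⟩ := h1 (max (max M j₀) (max (max m₁ m₂) m₃))
  have k1 : M ≤ j := ((le_max_left _ _).trans (le_max_left _ _)).trans hj
  have k2 : j₀ ≤ j := ((le_max_right _ _).trans (le_max_left _ _)).trans hj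
  have k3 : m₁ ≤ j := (((le_max_left _ _).trans (le_max_left _ _)).trans (le_max_right _ _)).trans hj
  have k4 : m₂ ≤ j := (((le_max_right _ _).trans (le_max_left _ _)).trans (le_max_right _ _)).trans hj
  have k5 : m₃ ≤ j := ((le_max_right _ _).trans (le_max_right _ _)).trans hj
  refine ⟨st τ j, k1.trans (st_ge hτ0 j), ?_⟩
  simp only [hD] at hjD
  rw [if_pos k2] at hjD
  have hstj := st_ge hτ0 j
  obtain ⟨hm3, hm4⟩ := hm₃ (st τ j) (by omega)
  rcases hjD with h3 | h3 | ⟨t, ht, ht2⟩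
  · exfalso
    rw [div_lt_iff₀ (by positivity)] at hm3
    linarith
  · rintro k hk1 hk2 ⟨hk3, hk4⟩
    by_cases hgk : g k
    · apply h3 (F k) _ hk4
      apply Finset.mem_image_of_mem
      rw [mem_pat]
      refine ⟨hk1, ?_, hgk, hk3⟩
      have h5 : ((k - st τ j : ℕ) : ℝ) ≤ c * Real.log (st τ j) ^ 3 := by
        rw [Nat.cast_sub hk1.le]
        linarith
      have : k - st τ j ≤ hh c (st τ j) := Nat.le_floor h5
      omega
    · have := hm₂ k (by omega) hgk
      exact absurd (show ω ∈ A k ∩ A (F k) from ⟨hk3, hk4⟩) (by rw [this]; exact notMem_empty ω)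
  · exfalso
    obtain ⟨k, hk, rfl⟩ := Finset.mem_image.1 ht
    obtain ⟨g1, g2, g3, _⟩ := mem_pat.1 hk
    have h4 := hm₁ k (by omega)
    have h5 := hm₀ (F k - 1) (by omega)
    simp only [VP, mem_ofPred_eq] at ht2
    linarith

end Pool.Agent.N957.SQ.Pr
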