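import Mathlib
import Pool.Agent.N957.SQ.Pair2

/-!
# Chosen `k` with chosen polynomial value: all polynomials of degree at least two
-/

set_option autoImplicit false
set_option linter.unusedSectionVars false

open MeasureTheory Filter Set Polynomial
open scoped ENNReal Topology

namespace Pool.Agent.N957.SQ.Pr

open Pool.Agent.R528.RM Pool.Agent.N285.GP Pool.Agent.N909.TF

/-- the gaps of a set of integers from the windows -/
lemma nth_gaps3 {K : Set ℕ} {κ : ℝ} (_ : 0 < κ)
    (hu : ∀ c : ℝ, κ < c → ∀ᶠ x : ℕ in atTop, ∃ k : ℕ, x < k ∧ (k : ℝ) ≤ x + c * Real.log x ^ 3 ∧ k ∈ K)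
    (hl : ∀ c : ℝ, 0 < c → c < κ → ∃ᶠ x : ℕ in atTop, ∀ k : ℕ, x < k → (k : ℝ) ≤ x + c * Real.log x ^ 3 → k ∉ K) :
    K.Infinite ∧ ∀ ε : ℝ, 0 < ε →
      (∀ᶠ j : ℕ in atTop, (pn K (j + 1) : ℝ) - pn K j ≤ (κ + ε) * Real.log (pn K j) ^ 3) ∧
      ∃ᶠ j : ℕ in atTop, (κ - ε) * Real.log (pn K j) ^ 3 ≤ (pn K (j + 1) : ℝ) - pn K j := by
  have hinf : K.Infinite := by
    apply (Nat.frequently_atTop_iff_infinite (p := fun k => k ∈ K)).1
    rw [Filter.frequently_atTop]
    intro a
    obtain ⟨x, hx, hxa⟩ := ((hu (κ + 1) (by linarith)).and (eventually_ge_atTop a)).exists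
    obtain ⟨k, hk1, _, hk3⟩ := hx
    exact ⟨k, by omega, hk3⟩
  refine ⟨hinf, fun ε hε => ⟨?_, ?_⟩⟩
  · have h1 := (tendsto_nth hinf).eventually (hu (κ + ε) (by linarith))
    filter_upwards [h1] with j hj
    obtain ⟨k, hk1, hk2, hk3⟩ := hj
    obtain ⟨i, rfl⟩ := exists_nth hk3
    have h2 : j < i := (nth_mono hinf).lt_iff_lt.1 hk1
    have h3 : pn K (j + 1) ≤ pn K i := (nth_mono hinf).monotone h2
    have h3' : (pn K (j + 1) : ℝ) ≤ pn K i := by exact_mod_cast h3
    linarith
  · rw [Filter.frequently_atTop]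
    intro J
    rcases le_or_gt (κ - ε) 0 with h | h
    · refine ⟨J, le_rfl, ?_⟩
      have h2 : (pn K J : ℝ) ≤ pn K (J + 1) := by exact_mod_cast (nth_mono hinf (Nat.lt_succ_self J)).le
      have h3 : (κ - ε) * Real.log (pn K J) ^ 3 ≤ 0 :=
        mul_nonpos_of_nonpos_of_nonneg h (pow_nonneg (Real.log_natCast_nonneg _) 3)
      linarith
    · have hlo := hl (κ - ε) h (by linarith)
      rw [Filter.frequently_atTop] at hlo
      obtain ⟨x, hx1, hx2⟩ := hlo (pn K J + 1)
      -- the last member not exceeding `x`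
      have hex : ∃ i, x < pn K i := by
        obtain ⟨i, hi⟩ := ((tendsto_nth hinf).eventually_gt_atTop x).exists
        exact ⟨i, hi⟩
      classical
      set i := Nat.find hex with hi
      have h1 : x < pn K i := Nat.find_spec hex
      have h2 : J < i := by
        rw [← (nth_mono hinf).lt_iff_lt]
        omega
      obtain ⟨j, hj⟩ : ∃ j, i = j + 1 := ⟨i - 1, by omega⟩
      have h3 : pn K j ≤ x := by
        have := Nat.find_min hex (m := j) (by omega)
        omega
      refine ⟨j, by omega, ?_⟩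
      rw [← hj]
      have h4 : (x : ℝ) + (κ - ε) * Real.log x ^ 3 < pn K i := by
        by_contra hcon
        push Not at hcon
        exact hx2 (pn K i) h1 hcon (nth_mem hinf i)
      have h5 : (pn K j : ℝ) ≤ x := by exact_mod_cast h3
      have h7 : Real.log (pn K j) ^ 3 ≤ Real.log x ^ 3 := by
        rcases Nat.eq_zero_or_pos (pn K j) with h6 | h6
        · rw [h6, Nat.cast_zero, Real.log_zero]
          have := pow_nonneg (Real.log_natCast_nonneg x) 3
          simpa using this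
        · apply pow_le_pow_left₀ (Real.log_natCast_nonneg _)
          exact Real.log_le_log (by exact_mod_cast h6) h5
      nlinarith

variable {Ω : Type} {m0 : MeasurableSpace Ω} {μ : Measure Ω} [IsProbabilityMeasure μ]
  {ℱ : Filtration ℕ m0} {A : ℕ → Set Ω}

/-- the `k` in `S` for which `f(k)` is in `S` -/
def pairSet (S : Set ℕ) (f : ℤ[X]) : Set ℕ := {k | k ∈ S ∧ ∃ q ∈ S, (q : ℤ) = f.eval (k : ℤ)}

lemma mem_pair (f : ℤ[X]) (hl : 0 < f.leadingCoeff) (S : Set ℕ) :
    ∀ᶠ k : ℕ in atTop, (k ∈ pairSet S f ↔ k ∈ S ∧ pv f k ∈ S) := by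
  filter_upwards [ev_pos_int f hl] with k hk
  have h9 : ((pv f k : ℕ) : ℤ) = f.eval (k : ℤ) := Int.toNat_of_nonneg hk.le
  constructor
  · rintro ⟨hkS, q, hq, hq2⟩
    have : q = pv f k := by
      have : (q : ℤ) = (pv f k : ℤ) := by rw [hq2, h9]
      exact_mod_cast this
    rw [← this]
    exact ⟨hkS, hq⟩
  · rintro ⟨hkS, h⟩
    exact ⟨hkS, pv f k, h, h9⟩

lemma pv_X (k : ℕ) : pv X k = k := by
  unfold pv
  rw [Polynomial.eval_X, Int.toNat_natCast]

lemma X_ne {f : ℤ[X]} (hf : 2 ≤ f.natDegree) : (X : ℤ[X]) ≠ f := by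
  intro h
  rw [← h, Polynomial.natDegree_X] at hf
  omega

/-- polynomial values of degree at least two are large -/
lemma pv_big (f : ℤ[X]) (hd : 2 ≤ f.natDegree) (hl : 0 < f.leadingCoeff) : ∀ᶠ n : ℕ in atTop, 2 * n ≤ pv f n := by
  have h1 := pv_log f hl
  have hd' : (2 : ℝ) ≤ f.natDegree := by exact_mod_cast hd
  filter_upwards [h1.eventually_const_lt (show (3 / 2 : ℝ) < f.natDegree by linarith), eventually_ge_atTop 4,
    tlog.eventually_gt_atTop 0] with n hn hn4 hL
  have hn4' : (4 : ℝ) ≤ n := by exact_mod_cast hn4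
  rw [lt_div_iff₀ hL] at hn
  have h2 : Real.log 4 ≤ Real.log n := Real.log_le_log (by norm_num) hn4'
  have h4 : Real.log 4 = 2 * Real.log 2 := by
    rw [show (4 : ℝ) = 2 ^ 2 by norm_num, Real.log_pow]
    norm_num
  have h3 : Real.log (2 * n) ≤ Real.log (pv f n) := by
    rw [Real.log_mul (by norm_num) (by linarith)]
    linarith
  have hpos : (0 : ℝ) < pv f n := by
    rcases Nat.eq_zero_or_pos (pv f n) with h | h
    · rw [h, Nat.cast_zero, Real.log_zero] at hn
      linarith
    · exact_mod_cast h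
  have h5 := (Real.log_le_log_iff (by linarith) hpos).1 h3
  exact_mod_cast h5

lemma good_sub {f : ℤ[X]} {W k : ℕ} (h : good {X, f} W k) : good {X} W k ∧ good {f} W k := by
  unfold good at h ⊢
  constructor
  · intro g hg
    rw [Finset.mem_singleton.1 hg]
    exact h X (by simp)
  · intro g hg
    rw [Finset.mem_singleton.1 hg]
    exact h f (by simp)

lemma const_key (W : ℕ) (f : ℤ[X]) (hf : 2 ≤ f.natDegree) :
    bhConst W {X, f} = ((Nat.count (good {X, f} W) W : ℝ) / W) *
      (((W : ℝ) / Nat.totient W) * (((W : ℝ) / Nat.totient W) * (f.natDegree : ℝ)⁻¹)) := by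
  unfold bhConst
  rw [Finset.card_pair (X_ne hf), Finset.prod_pair (X_ne hf), Polynomial.natDegree_X]
  push_cast
  ring

/-- **the gaps between the chosen arguments with chosen values, for all polynomials of degree at least two** -/
theorem pair_gaps (hA : ∀ n, MeasurableSet[ℱ n] (A n)) (W : ℕ) (hW : 0 < W)
    (hcop : ∀ n, ¬ Nat.Coprime n W → A n = ∅)
    (hd : ∀ᵐ ω ∂μ, Tendsto (fun n : ℕ => dens μ ℱ A n ω * Real.log n)
      (atTop ⊓ 𝓟 {n : ℕ | Nat.Coprime (n + 1) W}) (𝓝 ((W : ℝ) / Nat.totient W))) :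
    ∀ᵐ ω ∂μ, ∀ f : ℤ[X], 2 ≤ f.natDegree → 0 < f.leadingCoeff → 0 < bhConst W {X, f} →
      (pairSet {a | ω ∈ A a} f).Infinite ∧ ∀ ε : ℝ, 0 < ε →
      (∀ᶠ j : ℕ in atTop, (pn (pairSet {a | ω ∈ A a} f) (j + 1) : ℝ) - pn (pairSet {a | ω ∈ A a} f) j ≤
        ((bhConst W {X, f})⁻¹ + ε) * Real.log (pn (pairSet {a | ω ∈ A a} f) j) ^ 3) ∧
      ∃ᶠ j : ℕ in atTop, ((bhConst W {X, f})⁻¹ - ε) * Real.log (pn (pairSet {a | ω ∈ A a} f) j) ^ 3 ≤
        (pn (pairSet {a | ω ∈ A a} f) (j + 1) : ℝ) - pn (pairSet {a | ω ∈ A a} f) j := by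
  classical
  have hprof := dens_profile (μ := μ) hA W hW hcop hd
  have hcpos : 0 < (W : ℝ) / Nat.totient W := div_pos (by exact_mod_cast hW) (by exact_mod_cast Nat.totient_pos.2 hW)
  set c₀ : ℝ := (W : ℝ) / Nat.totient W with hc₀
  have : Countable ℤ[X] := by
    rw [← Cardinal.mk_le_aleph0_iff]
    refine Polynomial.cardinalMk_le_max.trans ?_
    rw [max_le_iff]
    exact ⟨Cardinal.mk_le_aleph0, le_rfl⟩
  have hr1 : ∀ f : ℤ[X], Tendsto (fun k : ℕ => rhoW W k * Real.log k) (atTop ⊓ 𝓟 {k | good {X, f} W k}) (𝓝 c₀) := by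
    intro f
    have h1 := rho_pv W hW X (by rw [Polynomial.natDegree_X]; norm_num) (by rw [Polynomial.leadingCoeff_X]; norm_num)
    rw [Polynomial.natDegree_X, Nat.cast_one, inv_one, mul_one] at h1
    simp_rw [pv_X] at h1
    refine h1.mono_left (inf_le_inf_left _ (Filter.principal_mono.2 fun k hk => ?_))
    exact (good_sub hk).1
  have hr2 : ∀ f : ℤ[X], 2 ≤ f.natDegree → 0 < f.leadingCoeff → Tendsto (fun k : ℕ => rhoW W (pv f k) * Real.log k)
      (atTop ⊓ 𝓟 {k | good {X, f} W k}) (𝓝 (c₀ * (f.natDegree : ℝ)⁻¹)) := by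
    intro f hf1 hf2
    refine (rho_pv W hW f (by omega) hf2).mono_left (inf_le_inf_left _ (Filter.principal_mono.2 fun k hk => ?_))
    exact (good_sub hk).2
  have hcnt : ∀ f : ℤ[X], @Nat.count (good {X, f} W) (Classical.decPred _) W = Nat.count (good {X, f} W) W := by
    intro f
    congr
  have hup : ∀ᵐ ω ∂μ, ∀ f : ℤ[X], ∀ c : ℚ, 2 ≤ f.natDegree → 0 < f.leadingCoeff → 0 < bhConst W {X, f} →
      (bhConst W {X, f})⁻¹ < c →
      ∀ᶠ x : ℕ in atTop, ∃ k : ℕ, x < k ∧ (k : ℝ) ≤ x + c * Real.log x ^ 3 ∧ ω ∈ A k ∧ ω ∈ A (pv f k) := by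
    rw [ae_all_iff]
    intro f
    rw [ae_all_iff]
    intro c
    by_cases h : 2 ≤ f.natDegree ∧ 0 < f.leadingCoeff ∧ 0 < bhConst W {X, f} ∧ (bhConst W {X, f})⁻¹ < c
    · obtain ⟨h1, h2, h3, h4⟩ := h
      have hc0 : (0 : ℝ) < c := lt_trans (inv_pos.2 h3) h4
      have h5 := pair_upper (μ := μ) hA (rhoW W) hprof (pv f) (pv_mono f (by omega) h2) (pv_big f h1 h2)
        (good {X, f} W) W hW (good_periodic {X, f} W) hcpos (mul_pos hcpos (inv_pos.2 (by exact_mod_cast (show 0 < f.natDegree by omega))))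
        (hr1 f) (hr2 f h1 h2) hc0 (by
          have e : (@Nat.count (good {X, f} W) (Classical.decPred _) W : ℝ) / W * c * c₀ * (c₀ * (f.natDegree : ℝ)⁻¹) =
              c * bhConst W {X, f} := by
            rw [const_key W f h1, hcnt f]
            ring
          rw [e]
          rw [inv_lt_iff_one_lt_mul₀ h3] at h4
          linarith)
      filter_upwards [h5] with ω hω _ _ _ _
      exact hω
    · exact Eventually.of_forall fun ω h1 h2 h3 h4 => absurd ⟨h1, h2, h3, h4⟩ h
  have hlo : ∀ᵐ ω ∂μ, ∀ f : ℤ[X], ∀ c : ℚ, 2 ≤ f.natDegree → 0 < f.leadingCoeff → 0 < bhConst W {X, f} →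
      (0 : ℝ) < c → c < (bhConst W {X, f})⁻¹ →
      ∃ᶠ x : ℕ in atTop, ∀ k : ℕ, x < k → (k : ℝ) ≤ x + c * Real.log x ^ 3 → ¬ (ω ∈ A k ∧ ω ∈ A (pv f k)) := by
    rw [ae_all_iff]
    intro f
    rw [ae_all_iff]
    intro c
    by_cases h : 2 ≤ f.natDegree ∧ 0 < f.leadingCoeff ∧ 0 < bhConst W {X, f} ∧ (0 : ℝ) < c ∧ c < (bhConst W {X, f})⁻¹
    · obtain ⟨h1, h2, h3, h0, h4⟩ := h
      have hPl : ∀ g ∈ ({X, f} : Finset ℤ[X]), 0 < g.leadingCoeff := by
        intro g hg
        rw [Finset.mem_insert, Finset.mem_singleton] at hg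
        rcases hg with rfl | rfl
        · rw [Polynomial.leadingCoeff_X]; norm_num
        · exact h2
      have hz : ∀ᶠ k in atTop, ¬ good {X, f} W k → A k ∩ A (pv f k) = ∅ := by
        filter_upwards [good_pv {X, f} W hPl] with k hk hk2
        by_contra hcon
        apply hk2
        rw [hk]
        have h5 : A k ≠ ∅ := fun h => hcon (by rw [h, empty_inter])
        have h6 : A (pv f k) ≠ ∅ := fun h => hcon (by rw [h, inter_empty])
        have h7 : Nat.Coprime k W := by
          by_contra h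
          exact h5 (hcop k h)
        have h8 : Nat.Coprime (pv f k) W := by
          by_contra h
          exact h6 (hcop _ h)
        intro g hg
        rw [Finset.mem_insert, Finset.mem_singleton] at hg
        rcases hg with rfl | rfl
        · rw [pv_X]; exact h7
        · exact h8
      have hcn : 0 < @Nat.count (good {X, f} W) (Classical.decPred _) W := by
        rw [hcnt f]
        by_contra hcon
        have h5 : Nat.count (good {X, f} W) W = 0 := by omega
        rw [const_key W f h1, h5] at h3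
        simp at h3
      have h5 := pair_lower (μ := μ) hA (rhoW W) hprof (pv f) (pv_mono f (by omega) h2) (pv_big f h1 h2)
        (good {X, f} W) W hW (good_periodic {X, f} W) hcpos (mul_pos hcpos (inv_pos.2 (by exact_mod_cast (show 0 < f.natDegree by omega))))
        (hr1 f) (hr2 f h1 h2) hz h0 hcn (by
          have e : (@Nat.count (good {X, f} W) (Classical.decPred _) W : ℝ) / W * c * c₀ * (c₀ * (f.natDegree : ℝ)⁻¹) =
              c * bhConst W {X, f} := by
            rw [const_key W f h1, hcnt f]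
            ring
          rw [e]
          have := mul_lt_mul_of_pos_right h4 h3
          rwa [inv_mul_cancel₀ h3.ne'] at this)
      filter_upwards [h5] with ω hω _ _ _ _ _
      exact hω
    · exact Eventually.of_forall fun ω h1 h2 h3 h4 h5 => absurd ⟨h1, h2, h3, h4, h5⟩ h
  filter_upwards [hup, hlo] with ω g1 g2 f h1 h2 h3
  obtain ⟨M, hM⟩ := eventually_atTop.1 (mem_pair f h2 {a | ω ∈ A a})
  apply nth_gaps3 (inv_pos.2 h3)
  · intro c hc
    obtain ⟨r, hr1, hr2⟩ := exists_rat_btwn hc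
    filter_upwards [g1 f r h1 h2 h3 hr1, eventually_ge_atTop M] with x hx hxM
    obtain ⟨k, k1, k2, k3⟩ := hx
    refine ⟨k, k1, ?_, (hM k (by omega)).2 k3⟩
    have : (r : ℝ) * Real.log x ^ 3 ≤ c * Real.log x ^ 3 :=
      mul_le_mul_of_nonneg_right hr2.le (pow_nonneg (Real.log_natCast_nonneg _) 3)
    linarith
  · intro c hc0 hc
    obtain ⟨r, hr1, hr2⟩ := exists_rat_btwn hc
    refine ((g2 f r h1 h2 h3 (hc0.trans hr1) hr2).and_eventually (eventually_ge_atTop M)).mono ?_
    rintro x ⟨hx, hxM⟩ k k1 k2 k3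
    refine hx k k1 ?_ ((hM k (by omega)).1 k3)
    have : c * Real.log x ^ 3 ≤ r * Real.log x ^ 3 :=
      mul_le_mul_of_nonneg_right hr1.le (pow_nonneg (Real.log_natCast_nonneg _) 3)
    linarith

/-! ### the local factors of `x ^ 2 + x + 1` -/

lemma three_aux : ∀ x : ZMod 3, x ^ 2 + x + 1 = 0 ↔ x = 1 := by decide

/-- the number of zeros modulo `p` of `x (x ^ 2 + x + 1)` -/
lemma roots_count {p : ℕ} (hp : p.Prime) :
    {r : ℕ | r < p ∧ (p : ℤ) ∣ (r : ℤ) * ((r : ℤ) ^ 2 + r + 1)}.ncard = if p = 3 then 2 else if p % 3 = 1 then 3 else 1 := by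
  classical
  have : Fact p.Prime := ⟨hp⟩
  have : NeZero p := ⟨hp.ne_zero⟩
  -- transfer to `ZMod p`
  have h1 : {r : ℕ | r < p ∧ (p : ℤ) ∣ (r : ℤ) * ((r : ℤ) ^ 2 + r + 1)}.ncard =
      (Finset.univ.filter (fun x : ZMod p => x * (x ^ 2 + x + 1) = 0)).card := by
    rw [← Set.ncard_coe_finset]
    apply Set.ncard_congr (fun (r : ℕ) (_ : r ∈ {r : ℕ | r < p ∧ (p : ℤ) ∣ (r : ℤ) * ((r : ℤ) ^ 2 + r + 1)}) => ((r : ℕ) : ZMod p))
    · rintro r ⟨hr, hd⟩
      simp only [Finset.coe_filter, Finset.mem_univ, true_and, mem_ofPred_eq]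
      have := (ZMod.intCast_zmod_eq_zero_iff_dvd ((r : ℤ) * ((r : ℤ) ^ 2 + r + 1)) p).2 hd
      push_cast at this
      exact this
    · rintro a b ⟨ha, _⟩ ⟨hb, _⟩ hab
      have := congrArg ZMod.val hab
      rwa [ZMod.val_cast_of_lt ha, ZMod.val_cast_of_lt hb] at this
    · intro x hx
      simp only [Finset.coe_filter, Finset.mem_univ, true_and, mem_ofPred_eq] at hx
      refine ⟨x.val, ⟨ZMod.val_lt x, ?_⟩, ZMod.natCast_zmod_val x⟩
      apply (ZMod.intCast_zmod_eq_zero_iff_dvd _ p).1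
      push_cast
      rw [ZMod.natCast_zmod_val]
      exact hx
  have h2 : (Finset.univ.filter (fun x : ZMod p => x * (x ^ 2 + x + 1) = 0)).card =
      1 + (Finset.univ.filter (fun x : ZMod p => x ^ 2 + x + 1 = 0)).card := by
    have e : Finset.univ.filter (fun x : ZMod p => x * (x ^ 2 + x + 1) = 0) =
        {0} ∪ Finset.univ.filter (fun x : ZMod p => x ^ 2 + x + 1 = 0) := by
      ext x
      simp only [Finset.mem_filter, Finset.mem_univ, true_and, Finset.mem_union, Finset.mem_singleton, mul_eq_zero]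
    rw [e, Finset.card_union_of_disjoint, Finset.card_singleton]
    rw [Finset.disjoint_left]
    intro x hx hx2
    rw [Finset.mem_singleton] at hx
    rw [Finset.mem_filter, hx] at hx2
    simp at hx2
  rw [h1, h2]
  have hcube : ∀ x : ZMod p, x ^ 2 + x + 1 = 0 → x ^ 3 = 1 := by
    intro x hx
    have : x ^ 3 - 1 = (x - 1) * (x ^ 2 + x + 1) := by ring
    rw [hx, mul_zero, sub_eq_zero] at this
    exact this
  by_cases h3 : p = 3
  · subst h3
    rw [if_pos rfl]
    have e : Finset.univ.filter (fun x : ZMod 3 => x ^ 2 + x + 1 = 0) = {1} := by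
      ext x
      simp only [Finset.mem_filter, Finset.mem_univ, true_and, Finset.mem_singleton]
      exact three_aux x
    rw [e, Finset.card_singleton]
  · rw [if_neg h3]
    have h3' : (3 : ZMod p) ≠ 0 := by
      intro h
      have h4 : ((3 : ℕ) : ZMod p) = 0 := by exact_mod_cast h
      rw [ZMod.natCast_eq_zero_iff] at h4
      have := (Nat.prime_dvd_prime_iff_eq hp Nat.prime_three).1 h4
      exact h3 this
    have hne1 : ∀ x : ZMod p, x ^ 2 + x + 1 = 0 → x ≠ 1 := by
      rintro x hx rfl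
      apply h3'
      rw [← hx]
      ring
    have hne0 : ∀ x : ZMod p, x ^ 2 + x + 1 = 0 → x ≠ 0 := by
      rintro x hx rfl
      simp at hx
    by_cases h4 : p % 3 = 1
    · rw [if_pos h4]
      have h5 : 3 ∣ Fintype.card (ZMod p)ˣ := by
        rw [ZMod.card_units]
        have := hp.two_le
        omega
      have : Fact (Nat.Prime 3) := ⟨Nat.prime_three⟩
      obtain ⟨u, hu⟩ := exists_prime_orderOf_dvd_card 3 h5
      have hu3 : (u : ZMod p) ^ 3 = 1 := by
        have h := congrArg Units.val (pow_orderOf_eq_one u)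
        rwa [hu, Units.val_pow_eq_pow_val, Units.val_one] at h
      have hu1 : (u : ZMod p) ≠ 1 := by
        intro h
        have : u = 1 := Units.ext h
        rw [this, orderOf_one] at hu
        omega
      set ζ : ZMod p := (u : ZMod p) with hζ
      have hζ2 : ζ ^ 2 + ζ + 1 = 0 := by
        have h6 : (ζ - 1) * (ζ ^ 2 + ζ + 1) = 0 := by
          have : (ζ - 1) * (ζ ^ 2 + ζ + 1) = ζ ^ 3 - 1 := by ring
          rw [this, hu3, sub_self]
        rcases mul_eq_zero.1 h6 with h | h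
        · exact absurd (sub_eq_zero.1 h) hu1
        · exact h
      have hset : Finset.univ.filter (fun x : ZMod p => x ^ 2 + x + 1 = 0) = {ζ, ζ ^ 2} := by
        ext x
        simp only [Finset.mem_filter, Finset.mem_univ, true_and, Finset.mem_insert, Finset.mem_singleton]
        have key : (x - ζ) * (x - ζ ^ 2) = x ^ 2 + x + 1 - x * (ζ ^ 2 + ζ + 1) + (ζ ^ 3 - 1) := by ring
        rw [hζ2, mul_zero, sub_zero, hu3, sub_self, add_zero] at key
        rw [← key, mul_eq_zero, sub_eq_zero, sub_eq_zero]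
      have hζne : ζ ≠ ζ ^ 2 := by
        intro h
        have h7 : ζ * (ζ - 1) = 0 := by
          have : ζ * (ζ - 1) = ζ ^ 2 - ζ := by ring
          rw [this, ← h, sub_self]
        rcases mul_eq_zero.1 h7 with h8 | h8
        · exact hne0 ζ hζ2 h8
        · exact hu1 (sub_eq_zero.1 h8)
      rw [hset, Finset.card_pair hζne]
    · rw [if_neg h4]
      have : Finset.univ.filter (fun x : ZMod p => x ^ 2 + x + 1 = 0) = ∅ := by
        rw [Finset.filter_eq_empty_iff]
        intro x _ hx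
        have hx0 := hne0 x hx
        set v : (ZMod p)ˣ := Units.mk0 x hx0 with hv
        have hv3 : v ^ 3 = 1 := by
          apply Units.ext
          push_cast
          rw [hv, Units.val_mk0]
          exact hcube x hx
        have hv1 : v ≠ 1 := by
          intro h
          apply hne1 x hx
          have := congrArg Units.val h
          rwa [hv, Units.val_mk0, Units.val_one] at this
        have : Fact (Nat.Prime 3) := ⟨Nat.prime_three⟩
        have hord : orderOf v = 3 := orderOf_eq_prime hv3 hv1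
        have h5 := orderOf_dvd_card (x := v)
        rw [hord, ZMod.card_units] at h5
        have h6 := hp.two_le
        have h7 : p % 3 ≠ 0 := by
          intro h
          have := (Nat.prime_dvd_prime_iff_eq Nat.prime_three hp).1 (Nat.dvd_of_mod_eq_zero h)
          exact h3 this.symm
        omega
      rw [this, Finset.card_empty]

end Pool.Agent.N957.SQ.Pr
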