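import Mathlib
import Pool.Agent.N957.SQ.Pair3

/-!
# Windows of length `c log ^ K x`: survivors of one more condition
-/

set_option autoImplicit false
set_option linter.unusedSectionVars false

open MeasureTheory Filter Set
open scoped ENNReal Topology

namespace Pool.Agent.N957.SQ.Sy

open Pool.Agent.R528.RM Pool.Agent.N285.GP Pool.Agent.N909.TF

/-- the length of the windows -/
noncomputable def hh (c : ℝ) (K : ℕ) (x : ℕ) : ℕ := ⌊c * Real.log x ^ K⌋₊

lemma hh_le {c : ℝ} (hc : 0 < c) (K x : ℕ) : (hh c K x : ℝ) ≤ c * Real.log x ^ K := by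
  have : 0 ≤ Real.log (x : ℝ) := Real.log_natCast_nonneg x
  exact Nat.floor_le (by positivity)

lemma hh_ge (c : ℝ) (K x : ℕ) : c * Real.log x ^ K - 1 ≤ (hh c K x : ℝ) := (Nat.sub_one_lt_floor _).le

/-- short windows -/
lemma win_small {c : ℝ} (hc : 0 < c) (K : ℕ) {ε : ℝ} (hε : 0 < ε) : ∀ᶠ x : ℕ in atTop, (hh c K x : ℝ) ≤ ε * x := by
  have h1 : ∀ᶠ x : ℝ in atTop, c * Real.log x ^ K ≤ ε * x := by
    have h2 := (Real.isLittleO_pow_log_id_atTop (n := K)).def (show (0 : ℝ) < ε / c by positivity)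
    filter_upwards [h2, eventually_gt_atTop 1] with x hx hx0
    have hl : 0 ≤ Real.log x := Real.log_nonneg hx0.le
    rw [Real.norm_of_nonneg (by positivity), id, Real.norm_of_nonneg (by linarith)] at hx
    calc c * Real.log x ^ K ≤ c * (ε / c * x) := mul_le_mul_of_nonneg_left hx hc.le
      _ = ε * x := by field_simp
  filter_upwards [tendsto_natCast_atTop_atTop.eventually h1] with n hn
  exact (hh_le hc K n).trans hn

lemma win_short {c : ℝ} (hc : 0 < c) (K : ℕ) : ∀ᶠ x : ℕ in atTop, (hh c K x : ℝ) ≤ x := by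
  filter_upwards [win_small hc K one_pos] with x hx
  linarith

/-- the profile in a window -/
lemma rho_win {ρ : ℕ → ℝ} {F : ℕ → ℕ} {g : ℕ → Prop} {β : ℝ} (hβ : 0 < β)
    (hρ : Tendsto (fun k : ℕ => ρ (F k) * Real.log k) (atTop ⊓ 𝓟 {k | g k}) (𝓝 β)) {c η : ℝ} (hc : 0 < c) (K : ℕ)
    (hη : 0 < η) (hη1 : η < 1) : ∀ᶠ x : ℕ in atTop, ∀ k, x < k → k ≤ x + hh c K x → g k →
      (1 - η) * β / (Real.log x + 1) ≤ ρ (F k) ∧ ρ (F k) ≤ (1 + η) * β / Real.log x := by
  have h1 : ∀ᶠ k : ℕ in atTop ⊓ 𝓟 {k | g k}, (1 - η) * β < ρ (F k) * Real.log k ∧ ρ (F k) * Real.log k < (1 + η) * β := by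
    refine (hρ.eventually_const_lt ?_).and (hρ.eventually_lt_const ?_)
    · nlinarith
    · nlinarith
  rw [eventually_inf_principal] at h1
  obtain ⟨k₀, hk₀⟩ := eventually_atTop.1 h1
  filter_upwards [win_short hc K, eventually_ge_atTop k₀, tlog.eventually_ge_atTop 1, eventually_gt_atTop 0] with x hx hxk hL hx0
  intro k hk1 hk2 hk3
  obtain ⟨h2, h3⟩ := hk₀ k (by omega) hk3
  obtain ⟨h4, h5⟩ := log_win hx0 hk1 hk2 hx
  have h6 : 0 < Real.log (k : ℝ) := by linarith
  have hρ0 : 0 < ρ (F k) := by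
    by_contra hcon
    push Not at hcon
    have : 0 < (1 - η) * β := mul_pos (by linarith) hβ
    nlinarith
  constructor
  · rw [div_le_iff₀ (by linarith)]
    nlinarith
  · rw [le_div_iff₀ (by linarith)]
    nlinarith

lemma pow_log_top {K : ℕ} (hK : K ≠ 0) : Tendsto (fun x : ℕ => Real.log x ^ K) atTop atTop :=
  (tendsto_pow_atTop hK).comp tlog

open Classical in
/-- the number of good places in a window -/
lemma N_lim {g : ℕ → Prop} {W : ℕ} (hW : 0 < W) (hg : Function.Periodic g W) {c : ℝ} (hc : 0 < c) {K : ℕ} (hK : K ≠ 0) :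
    Tendsto (fun x : ℕ => (((Finset.Ioc x (x + hh c K x)).filter g).card : ℝ) / Real.log x ^ K) atTop
      (𝓝 ((Nat.count g W : ℝ) / W * c)) := by
  set δ : ℝ := (Nat.count g W : ℝ) / W with hδ
  have hδ0 : 0 ≤ δ := by positivity
  have cub := pow_log_top hK
  have t1 : Tendsto (fun x : ℕ => δ * c - (δ + W) / Real.log x ^ K) atTop (𝓝 (δ * c - 0)) :=
    tendsto_const_nhds.sub (tendsto_const_nhds.div_atTop cub)
  have t2 : Tendsto (fun x : ℕ => δ * c + W / Real.log x ^ K) atTop (𝓝 (δ * c + 0)) :=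
    tendsto_const_nhds.add (tendsto_const_nhds.div_atTop cub)
  rw [sub_zero] at t1
  rw [add_zero] at t2
  refine tendsto_of_tendsto_of_tendsto_of_le_of_le' t1 t2 ?_ ?_
  · filter_upwards [cub.eventually_gt_atTop 0] with x hx
    have h1 := (card_win g W hW hg x (hh c K x)).1
    have h2 := mul_le_mul_of_nonneg_left (hh_ge c K x) hδ0
    rw [← hδ] at h1
    rw [le_div_iff₀ hx, sub_mul, div_mul_cancel₀ _ hx.ne']
    nlinarith
  · filter_upwards [cub.eventually_gt_atTop 0] with x hx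
    have h1 := (card_win g W hW hg x (hh c K x)).2
    have h2 := mul_le_mul_of_nonneg_left (hh_le hc K x) hδ0
    rw [← hδ] at h1
    rw [div_le_iff₀ hx, add_mul, div_mul_cancel₀ _ hx.ne']
    nlinarith

variable {Ω : Type} {m0 : MeasurableSpace Ω} {μ : Measure Ω} [IsProbabilityMeasure μ]
  {ℱ : Filtration ℕ m0} {A : ℕ → Set Ω}

open Classical in
/-- **one more condition**: the survivors in the windows -/
theorem step (hA : ∀ n, MeasurableSet[ℱ n] (A n)) (ρ : ℕ → ℝ)
    (hd : ∀ᵐ ω ∂μ, ∀ ε : ℝ, 0 < ε → ∀ᶠ n : ℕ in atTop, |dens μ ℱ A n ω - ρ (n + 1)| ≤ ε * ρ (n + 1))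
    (F : ℕ → ℕ) (hF : ∀ᶠ n in atTop, F n < F (n + 1))
    (g : ℕ → Prop) {β : ℝ} (hβ : 0 < β)
    (hρ : Tendsto (fun k : ℕ => ρ (F k) * Real.log k) (atTop ⊓ 𝓟 {k | g k}) (𝓝 β)) {c : ℝ} (hc : 0 < c) (K : ℕ)
    (S : ℕ → Ω → Finset ℕ) (hS : ∀ x ω n, n ∈ S x ω → x < n ∧ n ≤ x + hh c K x ∧ g n)
    (hSm : ∀ᶠ n in atTop, ∀ x, MeasurableSet[ℱ (F n - 1)] {ω | n ∈ S x ω})
    {a : ℕ} (ha : 2 ≤ a) {θ : ℝ} (hθ : 0 ≤ θ)
    (hlim : ∀ᵐ ω ∂μ, Tendsto (fun x : ℕ => ((S x ω).card : ℝ) / Real.log x ^ (a + 1)) atTop (𝓝 θ)) :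
    ∀ᵐ ω ∂μ, Tendsto (fun x : ℕ => (((S x ω).filter (fun n => ω ∈ A (F n))).card : ℝ) / Real.log x ^ a) atTop
      (𝓝 (θ * β)) := by
  obtain ⟨n₀, hn₀⟩ := eventually_atTop.1 hF
  obtain ⟨n₁, hn₁⟩ := eventually_atTop.1 hSm
  set N₀ : ℕ := max n₀ n₁ + 1 with hN₀
  have hN₀1 : n₀ < N₀ := by omega
  have hN₀2 : n₁ < N₀ := by omega
  have Fpos : ∀ n, N₀ ≤ n → 0 < F n := by
    intro n hn
    exact lt_of_le_of_lt (Nat.zero_le _) (strict_from hn₀ (le_refl n₀) (show n₀ < n by omega))
  have Finj : ∀ m n, N₀ ≤ m → N₀ ≤ n → F m = F n → m = n := by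
    intro m n hm hn h
    rcases lt_trichotomy m n with h1 | h1 | h1
    · exact absurd h (strict_from hn₀ (by omega) h1).ne
    · exact h1
    · exact absurd h (strict_from hn₀ (by omega) h1).ne'
  -- the weights
  set w : ℕ → ℕ → Ω → ℝ := fun x k => (⋃ n ∈ {n : ℕ | N₀ ≤ n ∧ F n = k + 1}, {ω | n ∈ S x ω}).indicator
    (fun _ => (1 : ℝ)) with hw
  have hwi : ∀ x k ω, w x k ω = if (∃ n, N₀ ≤ n ∧ F n = k + 1 ∧ n ∈ S x ω) then 1 else 0 := by
    intro x k ω
    simp only [hw]
    by_cases h : ∃ n, N₀ ≤ n ∧ F n = k + 1 ∧ n ∈ S x ω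
    · rw [if_pos h, indicator_of_mem]
      obtain ⟨n, h1, h2, h3⟩ := h
      simp only [mem_iUnion, mem_ofPred_eq, exists_prop]
      exact ⟨n, ⟨h1, h2⟩, h3⟩
    · rw [if_neg h, indicator_of_notMem]
      intro h4
      simp only [mem_iUnion, mem_ofPred_eq, exists_prop] at h4
      obtain ⟨n, ⟨h1, h2⟩, h3⟩ := h4
      exact h ⟨n, h1, h2, h3⟩
  have hwm : ∀ x k, StronglyMeasurable[ℱ k] (w x k) := by
    intro x k
    refine (@stronglyMeasurable_const _ _ (ℱ k) _ _).indicator ?_
    refine @MeasurableSet.biUnion _ _ (ℱ k) _ _ (Set.to_countable _) ?_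
    rintro n ⟨h1, h2⟩
    have h3 := hn₁ n (by omega) x
    have e : F n - 1 = k := by omega
    rwa [e] at h3
  have hbc := bc_law (μ := μ) hA w (fun x => F (x + hh c K x)) (fun x k => hwm x k)
    (fun x k ω => by
      rw [hwi]
      split_ifs
      · norm_num
      · norm_num)
  filter_upwards [hbc, hd, hlim] with ω h1 h2 h3
  -- sums over the survivors
  have hsum : ∀ (f : ℕ → ℝ) (x : ℕ), N₀ ≤ x → ∑ k ∈ Finset.range (F (x + hh c K x)), w x k ω * f k =
      ∑ n ∈ S x ω, f (F n - 1) := by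
    intro f x hx
    have e1 : ∑ k ∈ Finset.range (F (x + hh c K x)), w x k ω * f k =
        ∑ k ∈ (Finset.range (F (x + hh c K x))).filter (fun k => ∃ n, N₀ ≤ n ∧ F n = k + 1 ∧ n ∈ S x ω), f k := by
      rw [Finset.sum_filter]
      refine Finset.sum_congr rfl fun k _ => ?_
      rw [hwi]
      by_cases h : ∃ n, N₀ ≤ n ∧ F n = k + 1 ∧ n ∈ S x ω
      · rw [if_pos h, if_pos h, one_mul]
      · rw [if_neg h, if_neg h, zero_mul]
    have e2 : (Finset.range (F (x + hh c K x))).filter (fun k => ∃ n, N₀ ≤ n ∧ F n = k + 1 ∧ n ∈ S x ω) =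
        (S x ω).image (fun n => F n - 1) := by
      ext k
      simp only [Finset.mem_filter, Finset.mem_image, Finset.mem_range]
      constructor
      · rintro ⟨_, n, n1, n2, n3⟩
        exact ⟨n, n3, by omega⟩
      · rintro ⟨n, n3, rfl⟩
        obtain ⟨s1, s2, s3⟩ := hS x ω n n3
        have hp := Fpos n (by omega)
        have hle : F n ≤ F (x + hh c K x) := by
          rcases s2.lt_or_eq with h | h
          · exact (strict_from hn₀ (by omega) h).le
          · rw [h]
        exact ⟨by omega, n, by omega, by omega, n3⟩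
    rw [e1, e2, Finset.sum_image]
    intro m hm n hn hmn
    obtain ⟨s1, _, _⟩ := hS x ω m hm
    obtain ⟨t1, _, _⟩ := hS x ω n hn
    have hp := Fpos n (by omega)
    have hq := Fpos m (by omega)
    simp only at hmn
    exact Finj m n (by omega) (by omega) (by omega)
  have hSI : ∀ x, N₀ ≤ x → SI A (w x) (F (x + hh c K x)) ω = (((S x ω).filter (fun n => ω ∈ A (F n))).card : ℝ) := by
    intro x hx
    unfold SI
    rw [hsum (fun k => (A (k + 1)).indicator (fun _ => (1 : ℝ)) ω) x hx, Finset.card_filter]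
    push_cast
    refine Finset.sum_congr rfl fun n hn => ?_
    obtain ⟨s1, _, _⟩ := hS x ω n hn
    have hp := Fpos n (by omega)
    have e' : F n - 1 + 1 = F n := by omega
    rw [e']
    by_cases h : ω ∈ A (F n)
    · rw [indicator_of_mem h, if_pos h]
    · rw [indicator_of_notMem h, if_neg h]
  -- the conditional probabilities
  have hFt : Tendsto F atTop atTop := F_top hn₀
  have hy : Tendsto (fun n : ℕ => dens μ ℱ A (F n - 1) ω * Real.log n) (atTop ⊓ 𝓟 {k | g k}) (𝓝 β) := by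
    have k1 : Tendsto (fun n : ℕ => dens μ ℱ A (F n - 1) ω * Real.log n - ρ (F n) * Real.log n) (atTop ⊓ 𝓟 {k | g k}) (𝓝 0) := by
      rw [Metric.tendsto_nhds]
      intro ε hε
      obtain ⟨m₀, hm₀⟩ := eventually_atTop.1 (h2 (ε / (2 * (β + 1))) (by positivity))
      have k2 := hρ.eventually_lt_const (show β < β + 1 by linarith)
      filter_upwards [k2, (hFt.eventually_ge_atTop (m₀ + 1)).filter_mono inf_le_left] with n hn hn1
      have e : F n - 1 + 1 = F n := by omega
      have k3 := hm₀ (F n - 1) (by omega)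
      rw [e] at k3
      have k4 : 0 ≤ Real.log (n : ℝ) := Real.log_natCast_nonneg n
      rw [Real.dist_eq, sub_zero, ← sub_mul, abs_mul, abs_of_nonneg k4]
      calc |dens μ ℱ A (F n - 1) ω - ρ (F n)| * Real.log n ≤ (ε / (2 * (β + 1)) * ρ (F n)) * Real.log n :=
            mul_le_mul_of_nonneg_right k3 k4
        _ = ε / (2 * (β + 1)) * (ρ (F n) * Real.log n) := by ring
        _ ≤ ε / (2 * (β + 1)) * (β + 1) := mul_le_mul_of_nonneg_left hn.le (by positivity)
        _ = ε / 2 := by field_simp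
        _ < ε := by linarith
    have k2 := k1.add hρ
    rw [zero_add] at k2
    refine k2.congr fun n => ?_
    ring
  have hSD : Tendsto (fun x : ℕ => SD μ ℱ A (w x) (F (x + hh c K x)) ω / Real.log x ^ a) atTop (𝓝 (θ * β)) := by
    have key : Tendsto (fun x : ℕ => SD μ ℱ A (w x) (F (x + hh c K x)) ω / Real.log x ^ a -
        ((S x ω).card : ℝ) / Real.log x ^ (a + 1) * β) atTop (𝓝 0) := by
      rw [Metric.tendsto_nhds]
      intro ε hε
      set κ : ℝ := θ + 1 with hκ
      have hκ0 : 0 < κ := by linarith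
      have k1 : ∀ᶠ n : ℕ in atTop ⊓ 𝓟 {k | g k}, |dens μ ℱ A (F n - 1) ω * Real.log n - β| < ε / (4 * κ) :=
        (Metric.tendsto_nhds.1 hy) _ (by positivity)
      rw [eventually_inf_principal] at k1
      obtain ⟨n₂, hn₂⟩ := eventually_atTop.1 k1
      have k2 := h3.eventually_lt_const (show θ < κ by linarith)
      filter_upwards [k2, eventually_ge_atTop n₂, tlog.eventually_ge_atTop 1, tlog.eventually_ge_atTop (4 * κ * β / ε),
        win_short hc K, eventually_gt_atTop 0, eventually_ge_atTop N₀] with x x1 x2 x3 x4 x5 x6 x7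
      set L : ℝ := Real.log x with hL
      set N : ℝ := ((S x ω).card : ℝ) with hNd
      have hL0 : 0 < L := by linarith
      have hN0 : 0 ≤ N := Nat.cast_nonneg _
      unfold SD
      rw [hsum (fun k => dens μ ℱ A k ω) x x7]
      have k3 : |∑ n ∈ S x ω, dens μ ℱ A (F n - 1) ω - N * (β / L)| ≤ N * (ε / (4 * κ) / L + β / L ^ 2) := by
        have e1 : N * (β / L) = ∑ n ∈ S x ω, β / L := by
          rw [Finset.sum_const, nsmul_eq_mul]
        rw [e1, ← Finset.sum_sub_distrib]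
        refine (Finset.abs_sum_le_sum_abs _ _).trans ?_
        have e2 : N * (ε / (4 * κ) / L + β / L ^ 2) = ∑ n ∈ S x ω, (ε / (4 * κ) / L + β / L ^ 2) := by
          rw [Finset.sum_const, nsmul_eq_mul]
        rw [e2]
        refine Finset.sum_le_sum fun n hn => ?_
        obtain ⟨hn3, hn4, hn2⟩ := hS x ω n hn
        obtain ⟨l1, l2⟩ := log_win x6 hn3 hn4 x5
        rw [← hL] at l1 l2
        have l3 : 0 < Real.log (n : ℝ) := by linarith
        have k4 := hn₂ n (by omega) hn2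
        have e3 : dens μ ℱ A (F n - 1) ω - β / L = (dens μ ℱ A (F n - 1) ω * Real.log n - β) / Real.log n -
            β * (1 / L - 1 / Real.log n) := by
          field_simp
          ring
        rw [e3]
        refine (abs_sub _ _).trans (add_le_add ?_ ?_)
        · rw [abs_div, abs_of_pos l3]
          calc |dens μ ℱ A (F n - 1) ω * Real.log n - β| / Real.log n ≤ (ε / (4 * κ)) / Real.log n :=
                div_le_div_of_nonneg_right k4.le l3.le
            _ ≤ ε / (4 * κ) / L := div_le_div_of_nonneg_left (by positivity) hL0 l1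
        · have l4 : 0 ≤ 1 / L - 1 / Real.log n := sub_nonneg.2 (one_div_le_one_div_of_le hL0 l1)
          rw [abs_of_nonneg (mul_nonneg hβ.le l4)]
          have l5 : 1 / L - 1 / Real.log n ≤ 1 / L ^ 2 := by
            rw [div_sub_div _ _ hL0.ne' l3.ne', div_le_div_iff₀ (by positivity) (by positivity)]
            nlinarith
          calc β * (1 / L - 1 / Real.log n) ≤ β * (1 / L ^ 2) := mul_le_mul_of_nonneg_left l5 hβ.le
            _ = β / L ^ 2 := by ring
      rw [Real.dist_eq, sub_zero]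
      have hLa : 0 < L ^ a := by positivity
      have e4 : (∑ n ∈ S x ω, dens μ ℱ A (F n - 1) ω) / L ^ a - N / L ^ (a + 1) * β =
          (∑ n ∈ S x ω, dens μ ℱ A (F n - 1) ω - N * (β / L)) / L ^ a := by
        rw [pow_succ]
        field_simp
      rw [e4, abs_div, abs_of_pos hLa, div_lt_iff₀ hLa]
      refine k3.trans_lt ?_
      have k5 : N ≤ κ * L ^ (a + 1) := by
        have := x1.le
        rwa [div_le_iff₀ (by positivity)] at this
      have k6 : β / L ^ 2 ≤ ε / (4 * κ) / L := by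
        rw [div_le_div_iff₀ (by positivity) hL0, div_mul_eq_mul_div, le_div_iff₀ (by positivity)]
        rw [div_le_iff₀ hε] at x4
        have := mul_le_mul_of_nonneg_right x4 hL0.le
        nlinarith
      calc N * (ε / (4 * κ) / L + β / L ^ 2) ≤ κ * L ^ (a + 1) * (ε / (4 * κ) / L + ε / (4 * κ) / L) := by
            apply mul_le_mul k5 (by linarith) (by positivity) (by positivity)
        _ = ε / 2 * L ^ a := by rw [pow_succ]; field_simp; ring
        _ < ε * L ^ a := by
            apply mul_lt_mul_of_pos_right _ hLa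
            linarith
    have h5 := key.add (h3.mul_const β)
    rw [zero_add] at h5
    refine h5.congr fun x => ?_
    ring
  -- the law
  have hfin : Tendsto (fun x : ℕ => SI A (w x) (F (x + hh c K x)) ω / Real.log x ^ a -
      SD μ ℱ A (w x) (F (x + hh c K x)) ω / Real.log x ^ a) atTop (𝓝 0) := by
    rw [Metric.tendsto_nhds]
    intro ε hε
    set κ : ℝ := θ * β + 1 with hκ
    have hκ0 : 0 < κ := by positivity
    obtain ⟨C, hC0, hC⟩ := h1 (ε / (4 * κ)) (by positivity)
    filter_upwards [hC, hSD.eventually_lt_const (show θ * β < κ by linarith), tlog.eventually_ge_atTop 1,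
      tlog.eventually_gt_atTop (4 * C / ε)] with x x1 x2 x3 x4
    set L : ℝ := Real.log x with hL
    have hL0 : 0 < L := by linarith
    have hLa : 0 < L ^ a := by positivity
    obtain ⟨x5, x6⟩ := x1
    set s := SD μ ℱ A (w x) (F (x + hh c K x)) ω with hs
    rw [Real.dist_eq, sub_zero, ← sub_div, abs_div, abs_of_pos hLa, div_lt_iff₀ hLa]
    have y1 : |SI A (w x) (F (x + hh c K x)) ω - s| ≤ ε / (4 * κ) * s + C * L := by
      rw [abs_le]
      constructor <;> linarith
    have y2 : s ≤ κ * L ^ a := by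
      have := x2.le
      rwa [div_le_iff₀ hLa] at this
    have y3 : C * L ≤ ε / 4 * L ^ a := by
      rw [div_lt_iff₀ hε] at x4
      have y4 : L ^ 2 ≤ L ^ a := pow_le_pow_right₀ x3 ha
      have y5 : C * L ≤ ε / 4 * L ^ 2 := by nlinarith
      have y6 : ε / 4 * L ^ 2 ≤ ε / 4 * L ^ a := mul_le_mul_of_nonneg_left y4 (by positivity)
      linarith
    calc |SI A (w x) (F (x + hh c K x)) ω - s| ≤ ε / (4 * κ) * s + C * L := y1
      _ ≤ ε / (4 * κ) * (κ * L ^ a) + ε / 4 * L ^ a := add_le_add (mul_le_mul_of_nonneg_left y2 (by positivity)) y3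
      _ = ε / 2 * L ^ a := by field_simp; ring
      _ < ε * L ^ a := by
          apply mul_lt_mul_of_pos_right _ hLa
          linarith
  have h5 := hfin.add hSD
  rw [zero_add] at h5
  refine h5.congr' ?_
  filter_upwards [eventually_ge_atTop N₀] with x hx
  rw [hSI x hx]
  ring

end Pool.Agent.N957.SQ.Sy
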