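import Mathlib
import Pool.Agent.N957.SQ.Sys2

/-!
# Systems of polynomials of separated growth: counts in windows and exact maximal gaps
-/

set_option autoImplicit false
set_option linter.unusedSectionVars false

open MeasureTheory Filter Set Polynomial
open scoped ENNReal Topology

namespace Pool.Agent.N957.SQ.Sy

open Pool.Agent.R528.RM Pool.Agent.N285.GP Pool.Agent.N909.TF

/-- the gaps of a set of integers from the windows -/
lemma nth_gapsK {T : Set ℕ} {κ : ℝ} (K : ℕ)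
    (hu : ∀ c : ℝ, κ < c → ∀ᶠ x : ℕ in atTop, ∃ k : ℕ, x < k ∧ (k : ℝ) ≤ x + c * Real.log x ^ K ∧ k ∈ T)
    (hl : ∀ c : ℝ, 0 < c → c < κ → ∃ᶠ x : ℕ in atTop, ∀ k : ℕ, x < k → (k : ℝ) ≤ x + c * Real.log x ^ K → k ∉ T) :
    T.Infinite ∧ ∀ ε : ℝ, 0 < ε →
      (∀ᶠ j : ℕ in atTop, (pn T (j + 1) : ℝ) - pn T j ≤ (κ + ε) * Real.log (pn T j) ^ K) ∧
      ∃ᶠ j : ℕ in atTop, (κ - ε) * Real.log (pn T j) ^ K ≤ (pn T (j + 1) : ℝ) - pn T j := by
  have hinf : T.Infinite := by
    apply (Nat.frequently_atTop_iff_infinite (p := fun k => k ∈ T)).1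
    rw [Filter.frequently_atTop]
    intro a
    obtain ⟨x, hx, hxa⟩ := ((hu (κ + 1) (by linarith)).and (eventually_ge_atTop a)).exists
    obtain ⟨k, hk1, _, hk3⟩ := hx
    exact ⟨k, by omega, hk3⟩
  refine ⟨hinf, fun ε hε => ⟨?_, ?_⟩⟩
  · have h1 := (tendsto_nth hinf).eventually (hu (κ + ε) (by linarith))
    filter_upwards [h1] with j hj
    obtain ⟨k, hk1, hk2, hk3⟩ := hj
    obtain ⟨i, rfl⟩ := exists_nth hk3
    have h2 : j < i := (nth_mono hinf).lt_iff_lt.1 hk1
    have h3 : pn T (j + 1) ≤ pn T i := (nth_mono hinf).monotone h2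
    have h3' : (pn T (j + 1) : ℝ) ≤ pn T i := by exact_mod_cast h3
    linarith
  · rw [Filter.frequently_atTop]
    intro J
    rcases le_or_gt (κ - ε) 0 with h | h
    · refine ⟨J, le_rfl, ?_⟩
      have h2 : (pn T J : ℝ) ≤ pn T (J + 1) := by exact_mod_cast (nth_mono hinf (Nat.lt_succ_self J)).le
      have h3 : (κ - ε) * Real.log (pn T J) ^ K ≤ 0 :=
        mul_nonpos_of_nonpos_of_nonneg h (pow_nonneg (Real.log_natCast_nonneg _) K)
      linarith
    · have hlo := hl (κ - ε) h (by linarith)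
      rw [Filter.frequently_atTop] at hlo
      obtain ⟨x, hx1, hx2⟩ := hlo (pn T (J + 1) + 1)
      have hex : ∃ i, x < pn T i := by
        obtain ⟨i, hi⟩ := ((tendsto_nth hinf).eventually_gt_atTop x).exists
        exact ⟨i, hi⟩
      classical
      set i := Nat.find hex with hi
      have h1 : x < pn T i := Nat.find_spec hex
      have h2 : J + 1 < i := by
        rw [← (nth_mono hinf).lt_iff_lt]
        omega
      obtain ⟨j, hj⟩ : ∃ j, i = j + 1 := ⟨i - 1, by omega⟩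
      have h3 : pn T j ≤ x := by
        have := Nat.find_min hex (m := j) (by omega)
        omega
      have hj1 : 1 ≤ pn T j := by
        have h4 : pn T 0 < pn T j := nth_mono hinf (by omega)
        omega
      refine ⟨j, by omega, ?_⟩
      rw [← hj]
      have h4 : (x : ℝ) + (κ - ε) * Real.log x ^ K < pn T i := by
        by_contra hcon
        push Not at hcon
        exact hx2 (pn T i) h1 hcon (nth_mem hinf i)
      have h5 : (pn T j : ℝ) ≤ x := by exact_mod_cast h3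
      have h7 : Real.log (pn T j) ^ K ≤ Real.log x ^ K := by
        apply pow_le_pow_left₀ (Real.log_natCast_nonneg _)
        exact Real.log_le_log (by exact_mod_cast hj1) h5
      nlinarith

/-! ### growth of polynomials -/

/-- `f` grows more slowly than `g` -/
def Lt (f g : ℤ[X]) : Prop := f.natDegree < g.natDegree ∨ (f.natDegree = g.natDegree ∧ f.leadingCoeff < g.leadingCoeff)

lemma pv_eqv (f : ℤ[X]) (hl : 0 < f.leadingCoeff) :
    Tendsto (fun n : ℕ => (pv f n : ℝ) / ((f.leadingCoeff : ℝ) * (n : ℝ) ^ f.natDegree)) atTop (𝓝 1) := by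
  set P := f.map (Int.castRingHom ℝ) with hP
  have hPd : P.natDegree = f.natDegree := deg_cast f
  have hPl : P.leadingCoeff = (f.leadingCoeff : ℝ) := lead_cast f
  have hl' : (0 : ℝ) < f.leadingCoeff := by exact_mod_cast hl
  have h2 : ∀ᶠ x : ℝ in atTop, P.leadingCoeff * x ^ P.natDegree ≠ 0 := by
    filter_upwards [eventually_gt_atTop 0] with x hx
    rw [hPl]
    positivity
  have h3 := (Asymptotics.isEquivalent_iff_tendsto_one h2).1 P.isEquivalent_atTop_lead
  have h4 := h3.comp tendsto_natCast_atTop_atTop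
  refine h4.congr' ?_
  filter_upwards [ev_pos_int f hl] with n hn
  have h5 : (pv f n : ℝ) = P.eval (n : ℝ) := by
    have h6 : ((pv f n : ℕ) : ℤ) = f.eval (n : ℤ) := Int.toNat_of_nonneg hn.le
    have h7 : (((pv f n : ℕ) : ℤ) : ℝ) = ((f.eval (n : ℤ) : ℤ) : ℝ) := by rw [h6]
    rw [eval_cast] at h7
    push_cast at h7
    exact h7
  rw [h5]
  show P.eval (n : ℝ) / (P.leadingCoeff * (n : ℝ) ^ P.natDegree) = _
  rw [hPl, hPd]

/-- `(x + h) / x → 1` -/
lemma win_ratio {c : ℝ} (hc : 0 < c) (K : ℕ) :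
    Tendsto (fun x : ℕ => ((x + hh c K x : ℕ) : ℝ) / x) atTop (𝓝 1) := by
  rw [Metric.tendsto_nhds]
  intro ε hε
  filter_upwards [win_small hc K (half_pos hε), eventually_gt_atTop 0] with x hx hx0
  have hx0' : (0 : ℝ) < x := by exact_mod_cast hx0
  have e : ((x + hh c K x : ℕ) : ℝ) / x - 1 = (hh c K x : ℝ) / x := by
    push_cast
    field_simp
    ring
  rw [Real.dist_eq, e, abs_of_nonneg (by positivity), div_lt_iff₀ hx0']
  nlinarith

/-- the windows are separated -/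
lemma growth {f g : ℤ[X]} (hf : 0 < f.leadingCoeff) (hg : 0 < g.leadingCoeff) (h : Lt f g) {c : ℝ} (hc : 0 < c) (K : ℕ) :
    ∀ᶠ x : ℕ in atTop, pv f (x + hh c K x) < pv g x := by
  have hf' : (0 : ℝ) < f.leadingCoeff := by exact_mod_cast hf
  have hg' : (0 : ℝ) < g.leadingCoeff := by exact_mod_cast hg
  have t1 : Tendsto (fun x : ℕ => x + hh c K x) atTop atTop :=
    tendsto_atTop_mono (fun x => Nat.le_add_right x (hh c K x)) tendsto_id
  have a1 := (pv_eqv f hf).comp t1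
  have a2 := (pv_eqv g hg).inv₀ one_ne_zero
  have a3 := (win_ratio hc K).pow f.natDegree
  obtain ⟨r, hr, a4⟩ : ∃ r : ℝ, r < 1 ∧ Tendsto (fun x : ℕ => (f.leadingCoeff : ℝ) * (x : ℝ) ^ f.natDegree /
      ((g.leadingCoeff : ℝ) * (x : ℝ) ^ g.natDegree)) atTop (𝓝 r) := by
    rcases h with h | ⟨h1, h2⟩
    · refine ⟨0, one_pos, ?_⟩
      have h3 : Tendsto (fun x : ℕ => (f.leadingCoeff : ℝ) / (g.leadingCoeff : ℝ) / (x : ℝ) ^ (g.natDegree - f.natDegree))
          atTop (𝓝 0) :=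
        tendsto_const_nhds.div_atTop ((tendsto_pow_atTop (by omega)).comp tendsto_natCast_atTop_atTop)
      refine h3.congr' ?_
      filter_upwards [eventually_gt_atTop 0] with x hx
      have hx' : (0 : ℝ) < x := by exact_mod_cast hx
      have e : (x : ℝ) ^ g.natDegree = (x : ℝ) ^ f.natDegree * (x : ℝ) ^ (g.natDegree - f.natDegree) := by
        rw [← pow_add]
        congr 1
        omega
      rw [e]
      field_simp
    · refine ⟨(f.leadingCoeff : ℝ) / g.leadingCoeff, ?_, ?_⟩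
      · rw [div_lt_one hg']
        exact_mod_cast h2
      · refine tendsto_const_nhds.congr' ?_
        filter_upwards [eventually_gt_atTop 0] with x hx
        have hx' : (0 : ℝ) < x := by exact_mod_cast hx
        rw [h1]
        field_simp
  have a5 := ((a1.mul a3).mul a4).mul a2
  rw [inv_one, one_pow, one_mul, one_mul, mul_one] at a5
  filter_upwards [a5.eventually_lt_const hr, eventually_gt_atTop 0, ev_pos_int g hg] with x hx hx0 hgx
  have hx' : (0 : ℝ) < x := by exact_mod_cast hx0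
  have hxh : (0 : ℝ) < ((x + hh c K x : ℕ) : ℝ) := by
    push_cast
    have : (0 : ℝ) ≤ hh c K x := Nat.cast_nonneg _
    linarith
  have hgp : (0 : ℝ) < pv g x := by
    have h6 : ((pv g x : ℕ) : ℤ) = g.eval (x : ℤ) := Int.toNat_of_nonneg hgx.le
    have : (0 : ℤ) < (pv g x : ℤ) := by rw [h6]; exact hgx
    exact_mod_cast this
  have e : ((fun n : ℕ => (pv f n : ℝ) / ((f.leadingCoeff : ℝ) * (n : ℝ) ^ f.natDegree)) ∘ fun x => x + hh c K x) x *
      (((x + hh c K x : ℕ) : ℝ) / x) ^ f.natDegree *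
      ((f.leadingCoeff : ℝ) * (x : ℝ) ^ f.natDegree / ((g.leadingCoeff : ℝ) * (x : ℝ) ^ g.natDegree)) *
      ((pv g x : ℝ) / ((g.leadingCoeff : ℝ) * (x : ℝ) ^ g.natDegree))⁻¹ =
      (pv f (x + hh c K x) : ℝ) / pv g x := by
    simp only [Function.comp]
    rw [div_pow]
    field_simp
  rw [e, div_lt_one hgp] at hx
  exact_mod_cast hx

variable {Ω : Type} {m0 : MeasurableSpace Ω} {μ : Measure Ω} [IsProbabilityMeasure μ]
  {ℱ : Filtration ℕ m0} {A : ℕ → Set Ω}

open Classical in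
/-- the good places of the window at which the values of all polynomials of `R` are chosen -/
noncomputable def ps (A : ℕ → Set Ω) (P R : Finset ℤ[X]) (W : ℕ) (c : ℝ) (K x : ℕ) (ω : Ω) : Finset ℕ :=
  (Finset.Ioc x (x + hh c K x)).filter (fun n => good P W n ∧ ∀ f ∈ R, ω ∈ A (pv f n))

lemma mem_ps {P R : Finset ℤ[X]} {W : ℕ} {c : ℝ} {K x n : ℕ} {ω : Ω} :
    n ∈ ps A P R W c K x ω ↔ x < n ∧ n ≤ x + hh c K x ∧ good P W n ∧ ∀ f ∈ R, ω ∈ A (pv f n) := by
  classical
  unfold ps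
  rw [Finset.mem_filter, Finset.mem_Ioc]
  tauto

lemma ps_meas (hA : ∀ n, MeasurableSet[ℱ n] (A n)) (P R : Finset ℤ[X]) (W : ℕ) (c : ℝ) (K x n e : ℕ)
    (h : n ≤ x + hh c K x → x < n → ∀ f ∈ R, pv f n ≤ e) : MeasurableSet[ℱ e] {ω | n ∈ ps A P R W c K x ω} := by
  by_cases h1 : x < n ∧ n ≤ x + hh c K x ∧ good P W n
  · have e1 : {ω | n ∈ ps A P R W c K x ω} = ⋂ f ∈ R, A (pv f n) := by
      ext ω
      rw [mem_ofPred_eq, mem_ps]
      simp only [mem_iInter]
      tauto
    rw [e1]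
    refine @MeasurableSet.biInter _ _ (ℱ e) _ _ (Finset.countable_toSet _) fun f hf => ?_
    exact ℱ.mono (h h1.2.1 h1.1 f hf) _ (hA _)
  · have e1 : {ω | n ∈ ps A P R W c K x ω} = ∅ := by
      ext ω
      rw [mem_ofPred_eq, mem_ps]
      simp only [mem_empty_iff_false, iff_false]
      tauto
    rw [e1]
    exact @MeasurableSet.empty _ (ℱ e)

lemma ps_meas_eq (hA : ∀ n, MeasurableSet[ℱ n] (A n)) (P R : Finset ℤ[X]) (W : ℕ) (c : ℝ) (K x e : ℕ)
    (h : ∀ n, n ≤ x + hh c K x → x < n → ∀ f ∈ R, pv f n ≤ e) (s : Finset ℕ) :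
    MeasurableSet[ℱ e] {ω | ps A P R W c K x ω = s} := by
  have e1 : {ω | ps A P R W c K x ω = s} = ⋂ n : ℕ, {ω | n ∈ ps A P R W c K x ω ↔ n ∈ s} := by
    ext ω
    rw [mem_ofPred_eq, mem_iInter, Finset.ext_iff]
    rfl
  rw [e1]
  refine @MeasurableSet.iInter _ _ (ℱ e) _ _ fun n => ?_
  have h1 := ps_meas (ℱ := ℱ) hA P R W c K x n e (h n)
  by_cases hn : n ∈ s
  · have e2 : {ω | n ∈ ps A P R W c K x ω ↔ n ∈ s} = {ω | n ∈ ps A P R W c K x ω} := by
      ext ω
      simp [hn]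
    rw [e2]
    exact h1
  · have e2 : {ω | n ∈ ps A P R W c K x ω ↔ n ∈ s} = {ω | n ∈ ps A P R W c K x ω}ᶜ := by
      ext ω
      simp [hn]
    rw [e2]
    exact @MeasurableSet.compl _ _ (ℱ e) h1

/-- the system has separated growth -/
def Sep (P : Finset ℤ[X]) : Prop :=
  (∀ f ∈ P, 0 < f.natDegree ∧ 0 < f.leadingCoeff) ∧
  ∀ f ∈ P, ∀ g ∈ P, f.natDegree = g.natDegree → f.leadingCoeff = g.leadingCoeff → f = g

lemma Sep.mono {P R : Finset ℤ[X]} (h : Sep P) (hR : R ⊆ P) : Sep R :=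
  ⟨fun f hf => h.1 f (hR hf), fun f hf g hg => h.2 f (hR hf) g (hR hg)⟩

/-- the polynomial of largest growth -/
lemma Sep.exists_max {P : Finset ℤ[X]} (h : Sep P) (hP : P.Nonempty) : ∃ f ∈ P, ∀ g ∈ P, g ≠ f → Lt g f := by
  obtain ⟨f, hf, hmax⟩ := Finset.exists_max_image P (fun g => toLex (g.natDegree, g.leadingCoeff)) hP
  refine ⟨f, hf, fun g hg hgf => ?_⟩
  have h1 := hmax g hg
  rcases h1.lt_or_eq with h2 | h2
  · rw [Prod.Lex.toLex_lt_toLex] at h2
    exact h2
  · exfalso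
    have h3 : (g.natDegree, g.leadingCoeff) = (f.natDegree, f.leadingCoeff) := toLex.injective h2
    rw [Prod.mk.injEq] at h3
    exact hgf (h.2 g hg f hf h3.1 h3.2)

/-- smaller at the same place -/
lemma lt_same {f g : ℤ[X]} (hf : 0 < f.natDegree ∧ 0 < f.leadingCoeff) (hg : 0 < g.leadingCoeff) (h : Lt f g) :
    ∀ᶠ n : ℕ in atTop, pv f n < pv g n := by
  obtain ⟨n₀, hn₀⟩ := eventually_atTop.1 (pv_mono f hf.1 hf.2)
  filter_upwards [growth hf.2 hg h one_pos 1, eventually_ge_atTop n₀] with n hn hn0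
  refine lt_of_le_of_lt ?_ hn
  rcases (Nat.le_add_right n (hh 1 1 n)).lt_or_eq with h | h
  · exact (strict_from hn₀ hn0 h).le
  · rw [← h]

lemma rho_lim (W : ℕ) (hW : 0 < W) {P : Finset ℤ[X]} {f : ℤ[X]} (hf : f ∈ P) (h1 : 0 < f.natDegree)
    (h2 : 0 < f.leadingCoeff) :
    Tendsto (fun k : ℕ => rhoW W (pv f k) * Real.log k) (atTop ⊓ 𝓟 {k | good P W k})
      (𝓝 (((W : ℝ) / Nat.totient W) * (f.natDegree : ℝ)⁻¹)) := by
  refine (rho_pv W hW f h1 h2).mono_left (inf_le_inf_left _ (Filter.principal_mono.2 fun k hk => ?_))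
  intro g hg
  rw [Finset.mem_singleton.1 hg]
  exact hk f hf

/-- **survivors in the windows** -/
theorem survivors (hA : ∀ n, MeasurableSet[ℱ n] (A n)) (W : ℕ) (hW : 0 < W)
    (hprof : ∀ᵐ ω ∂μ, ∀ ε : ℝ, 0 < ε → ∀ᶠ n : ℕ in atTop, |dens μ ℱ A n ω - rhoW W (n + 1)| ≤ ε * rhoW W (n + 1))
    (P : Finset ℤ[X]) (hP : Sep P) {c : ℝ} (hc : 0 < c) (K : ℕ) (m : ℕ) :
    ∀ R : Finset ℤ[X], R ⊆ P → R.card = m → m + 2 ≤ K →
      ∀ᵐ ω ∂μ, Tendsto (fun x : ℕ => ((ps A P R W c K x ω).card : ℝ) / Real.log x ^ (K - m)) atTop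
        (𝓝 ((Nat.count (good P W) W : ℝ) / W * c * ∏ f ∈ R, (((W : ℝ) / Nat.totient W) * (f.natDegree : ℝ)⁻¹))) := by
  classical
  have hcpos : 0 < (W : ℝ) / Nat.totient W := div_pos (by exact_mod_cast hW) (by exact_mod_cast Nat.totient_pos.2 hW)
  induction m with
  | zero =>
    intro R hR hcard hK
    have hR0 : R = ∅ := Finset.card_eq_zero.1 hcard
    subst hR0
    rw [Finset.prod_empty, mul_one, Nat.sub_zero]
    refine Eventually.of_forall fun ω => ?_
    have h1 := N_lim (g := good P W) hW (good_periodic P W) hc (K := K) (by omega)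
    have e0 : ∀ x, (ps A P ∅ W c K x ω).card = ((Finset.Ioc x (x + hh c K x)).filter (good P W)).card := by
      intro x
      congr 1
      ext n
      rw [mem_ps, Finset.mem_filter, Finset.mem_Ioc]
      constructor
      · rintro ⟨h1, h2, h3, _⟩
        exact ⟨⟨h1, h2⟩, h3⟩
      · rintro ⟨⟨h1, h2⟩, h3⟩
        exact ⟨h1, h2, h3, fun f hf => absurd hf (Finset.notMem_empty f)⟩
    simp_rw [e0]
    refine Tendsto.congr (fun x => ?_) (h1.trans (le_of_eq ?_))
    · congr!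
    · congr!
  | succ m ih =>
    intro R hR hcard hK
    have hRne : R.Nonempty := by
      rw [← Finset.card_pos]
      omega
    obtain ⟨f, hf, hmax⟩ := (hP.mono hR).exists_max hRne
    obtain ⟨hf1, hf2⟩ := hP.1 f (hR hf)
    have hcard' : (R.erase f).card = m := by
      rw [Finset.card_erase_of_mem hf]
      omega
    have hsub' : R.erase f ⊆ P := (Finset.erase_subset _ _).trans hR
    have h1 := ih (R.erase f) hsub' hcard' (by omega)
    have hsame : ∀ᶠ n : ℕ in atTop, ∀ g ∈ R.erase f, pv g n < pv f n := by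
      rw [eventually_all_finset]
      intro g hg
      have hg' := Finset.mem_erase.1 hg
      exact lt_same (hP.1 g (hR hg'.2)) hf2 (hmax g hg'.2 hg'.1)
    set θ : ℝ := (Nat.count (good P W) W : ℝ) / W * c *
      ∏ f ∈ R.erase f, (((W : ℝ) / Nat.totient W) * (f.natDegree : ℝ)⁻¹) with hθ
    have hθ0 : 0 ≤ θ := by
      have : 0 ≤ ∏ f ∈ R.erase f, (((W : ℝ) / Nat.totient W) * (f.natDegree : ℝ)⁻¹) :=
        Finset.prod_nonneg fun g _ => by positivity
      positivity
    have eK : K - m = (K - (m + 1)) + 1 := by omega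
    rw [eK] at h1
    have h2 := step (μ := μ) hA (rhoW W) hprof (pv f) (pv_mono f hf1 hf2) (good P W)
      (β := ((W : ℝ) / Nat.totient W) * (f.natDegree : ℝ)⁻¹)
      (mul_pos hcpos (inv_pos.2 (by exact_mod_cast hf1))) (rho_lim W hW (hR hf) hf1 hf2) hc K
      (fun x ω => ps A P (R.erase f) W c K x ω)
      (fun x ω n hn => by
        rw [mem_ps] at hn
        exact ⟨hn.1, hn.2.1, hn.2.2.1⟩)
      (by
        filter_upwards [hsame] with n hn x
        refine ps_meas hA P (R.erase f) W c K x n _ fun _ _ g hg => ?_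
        have := hn g hg
        omega)
      (a := K - (m + 1)) (by omega) hθ0 h1
    filter_upwards [h2] with ω hω
    have e1 : ∀ x, (ps A P (R.erase f) W c K x ω).filter (fun n => ω ∈ A (pv f n)) = ps A P R W c K x ω := by
      intro x
      ext n
      rw [Finset.mem_filter, mem_ps, mem_ps]
      constructor
      · rintro ⟨⟨a1, a2, a3, a4⟩, a5⟩
        refine ⟨a1, a2, a3, fun g hg => ?_⟩
        by_cases hgf : g = f
        · rw [hgf]; exact a5
        · exact a4 g (Finset.mem_erase.2 ⟨hgf, hg⟩)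
      · rintro ⟨a1, a2, a3, a4⟩
        exact ⟨⟨a1, a2, a3, fun g hg => a4 g (Finset.mem_erase.1 hg).2⟩, a4 f hf⟩
    have e2 : θ * (((W : ℝ) / Nat.totient W) * (f.natDegree : ℝ)⁻¹) = (Nat.count (good P W) W : ℝ) / W * c *
        ∏ f ∈ R, (((W : ℝ) / Nat.totient W) * (f.natDegree : ℝ)⁻¹) := by
      rw [hθ, mul_assoc, ← Finset.prod_erase_mul R _ hf]
    rw [e2] at hω
    refine hω.congr fun x => ?_
    rw [← e1 x]

/-- the set of the `n` at which all values are chosen -/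
def argsP (S : Set ℕ) (P : Finset ℤ[X]) : Set ℕ := {n | ∀ f ∈ P, ∃ a ∈ S, (a : ℤ) = f.eval (n : ℤ)}

lemma mem_argsP (P : Finset ℤ[X]) (hP : ∀ f ∈ P, 0 < f.leadingCoeff) (S : Set ℕ) :
    ∀ᶠ n : ℕ in atTop, (n ∈ argsP S P ↔ ∀ f ∈ P, pv f n ∈ S) := by
  have h1 : ∀ᶠ n : ℕ in atTop, ∀ f ∈ P, 0 < f.eval (n : ℤ) := by
    rw [eventually_all_finset]
    exact fun f hf => ev_pos_int f (hP f hf)
  filter_upwards [h1] with n hn
  unfold argsP
  rw [mem_ofPred_eq]
  refine forall₂_congr fun f hf => ?_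
  have h9 : ((pv f n : ℕ) : ℤ) = f.eval (n : ℤ) := Int.toNat_of_nonneg (hn f hf).le
  constructor
  · rintro ⟨a, ha, ha2⟩
    have : a = pv f n := by
      have : (a : ℤ) = (pv f n : ℤ) := by rw [ha2, h9]
      exact_mod_cast this
    rwa [← this]
  · intro h
    exact ⟨pv f n, h, h9⟩

/-- **exact maximal gaps for all systems of separated growth** -/
theorem sys_gaps (hA : ∀ n, MeasurableSet[ℱ n] (A n)) (W : ℕ) (hW : 0 < W)
    (hcop : ∀ n, ¬ Nat.Coprime n W → A n = ∅)
    (hd : ∀ᵐ ω ∂μ, Tendsto (fun n : ℕ => dens μ ℱ A n ω * Real.log n)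
      (atTop ⊓ 𝓟 {n : ℕ | Nat.Coprime (n + 1) W}) (𝓝 ((W : ℝ) / Nat.totient W))) :
    ∀ᵐ ω ∂μ, ∀ P : Finset ℤ[X], P.Nonempty → Sep P → 0 < bhConst W P →
      (argsP {a | ω ∈ A a} P).Infinite ∧
      (∀ ε : ℝ, 0 < ε → ∀ᶠ x : ℕ in atTop, ∃ k : ℕ, x < k ∧
        (k : ℝ) ≤ x + ((bhConst W P)⁻¹ + ε) * Real.log x ^ (P.card + 1) ∧ k ∈ argsP {a | ω ∈ A a} P) ∧
      ∀ ε : ℝ, 0 < ε →
      (∀ᶠ j : ℕ in atTop, (pn (argsP {a | ω ∈ A a} P) (j + 1) : ℝ) - pn (argsP {a | ω ∈ A a} P) j ≤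
        ((bhConst W P)⁻¹ + ε) * Real.log (pn (argsP {a | ω ∈ A a} P) j) ^ (P.card + 1)) ∧
      ∃ᶠ j : ℕ in atTop, ((bhConst W P)⁻¹ - ε) * Real.log (pn (argsP {a | ω ∈ A a} P) j) ^ (P.card + 1) ≤
        (pn (argsP {a | ω ∈ A a} P) (j + 1) : ℝ) - pn (argsP {a | ω ∈ A a} P) j := by
  classical
  have hprof := dens_profile (μ := μ) hA W hW hcop hd
  have hcpos : 0 < (W : ℝ) / Nat.totient W := div_pos (by exact_mod_cast hW) (by exact_mod_cast Nat.totient_pos.2 hW)
  have : Countable ℤ[X] := by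
    rw [← Cardinal.mk_le_aleph0_iff]
    refine Polynomial.cardinalMk_le_max.trans ?_
    rw [max_le_iff]
    exact ⟨Cardinal.mk_le_aleph0, le_rfl⟩
  have hkey : ∀ P : Finset ℤ[X], bhConst W P = (Nat.count (good P W) W : ℝ) / W *
      ∏ f ∈ P, (((W : ℝ) / Nat.totient W) * (f.natDegree : ℝ)⁻¹) := by
    intro P
    unfold bhConst
    rw [Finset.prod_mul_distrib, Finset.prod_const]
  -- both halves for one system and one constant
  have hup : ∀ᵐ ω ∂μ, ∀ P : Finset ℤ[X], ∀ c : ℚ, P.Nonempty → Sep P → 0 < bhConst W P → (bhConst W P)⁻¹ < c →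
      ∀ᶠ x : ℕ in atTop, ∃ k : ℕ, x < k ∧ (k : ℝ) ≤ x + c * Real.log x ^ (P.card + 1) ∧ ∀ f ∈ P, ω ∈ A (pv f k) := by
    rw [ae_all_iff]
    intro P
    rw [ae_all_iff]
    intro c
    by_cases h : P.Nonempty ∧ Sep P ∧ 0 < bhConst W P ∧ (bhConst W P)⁻¹ < c
    · obtain ⟨h0, h1, h3, h4⟩ := h
      have hc0 : (0 : ℝ) < c := lt_trans (inv_pos.2 h3) h4
      obtain ⟨f, hf, hmax⟩ := h1.exists_max h0
      obtain ⟨hf1, hf2⟩ := h1.1 f hf
      have hcard : (P.erase f).card + 1 = P.card := Finset.card_erase_add_one hf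
      have hs := survivors (μ := μ) hA W hW hprof P h1 hc0 (P.card + 1) (P.erase f).card (P.erase f)
        (Finset.erase_subset _ _) rfl (by omega)
      have e2 : P.card + 1 - (P.erase f).card = 2 := by omega
      rw [e2] at hs
      have hmeas : ∀ᶠ x : ℕ in atTop, ∀ s, MeasurableSet[ℱ (pv f x)] {ω | ps A P (P.erase f) W c (P.card + 1) x ω = s} := by
        have g1 : ∀ᶠ x : ℕ in atTop, ∀ g ∈ P.erase f, pv g (x + hh c (P.card + 1) x) < pv f x := by
          rw [eventually_all_finset]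
          intro g hg
          have hg' := Finset.mem_erase.1 hg
          exact growth (h1.1 g hg'.2).2 hf2 (hmax g hg'.2 hg'.1) hc0 _
        have g2 : ∀ᶠ x : ℕ in atTop, ∀ g ∈ P.erase f, ∀ n, x ≤ n → pv g n < pv g (n + 1) := by
          rw [eventually_all_finset]
          intro g hg
          have hg' := Finset.mem_erase.1 hg
          exact (eventually_atTop.1 (pv_mono g (h1.1 g hg'.2).1 (h1.1 g hg'.2).2)).elim fun n₀ hn₀ =>
            (eventually_ge_atTop n₀).mono fun x hx n hn => hn₀ n (hx.trans hn)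
        filter_upwards [g1, g2] with x k1 k2 s
        refine ps_meas_eq hA P (P.erase f) W c (P.card + 1) x _ (fun n hn1 hn2 g hg => ?_) s
        have k3 : pv g n ≤ pv g (x + hh c (P.card + 1) x) := by
          rcases hn1.lt_or_eq with h | h
          · exact (strict_from (k2 g hg) hn2.le h).le
          · rw [h]
        exact k3.trans (k1 g hg).le
      have hl := last_upper (μ := μ) hA (rhoW W) hprof (pv f) (pv_mono f hf1 hf2) (good P W)
        (mul_pos hcpos (inv_pos.2 (by exact_mod_cast hf1))) (rho_lim W hW hf hf1 hf2) hc0 (P.card + 1)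
        (fun x ω => ps A P (P.erase f) W c (P.card + 1) x ω)
        (fun x ω n hn => by
          rw [mem_ps] at hn
          exact ⟨hn.1, hn.2.1, hn.2.2.1⟩)
        hmeas hs (by
          rw [mul_assoc, mul_comm (∏ f ∈ P.erase f, _) _, Finset.mul_prod_erase P (fun f : ℤ[X] => ((W : ℝ) / Nat.totient W) *
            (f.natDegree : ℝ)⁻¹) hf, mul_right_comm, ← hkey P]
          rw [inv_lt_iff_one_lt_mul₀ h3] at h4
          linarith)
      filter_upwards [hl] with ω hω _ _ _ _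
      filter_upwards [hω] with x ⟨k, hk1, hk2⟩
      rw [mem_ps] at hk1
      obtain ⟨a1, a2, a3, a4⟩ := hk1
      refine ⟨k, a1, ?_, fun g hg => ?_⟩
      · have := hh_le hc0 (P.card + 1) x
        have a2' : (k : ℝ) ≤ x + (hh c (P.card + 1) x : ℝ) := by exact_mod_cast a2
        linarith
      · by_cases hgf : g = f
        · rw [hgf]; exact hk2
        · exact a4 g (Finset.mem_erase.2 ⟨hgf, hg⟩)
    · exact Eventually.of_forall fun ω h1 h2 h3 h4 => absurd ⟨h1, h2, h3, h4⟩ h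
  have hlo : ∀ᵐ ω ∂μ, ∀ P : Finset ℤ[X], ∀ c : ℚ, P.Nonempty → Sep P → 0 < bhConst W P → (0 : ℝ) < c →
      c < (bhConst W P)⁻¹ →
      ∃ᶠ x : ℕ in atTop, ∀ k : ℕ, x < k → (k : ℝ) ≤ x + c * Real.log x ^ (P.card + 1) → ¬ ∀ f ∈ P, ω ∈ A (pv f k) := by
    rw [ae_all_iff]
    intro P
    rw [ae_all_iff]
    intro c
    by_cases h : P.Nonempty ∧ Sep P ∧ 0 < bhConst W P ∧ (0 : ℝ) < c ∧ c < (bhConst W P)⁻¹
    · obtain ⟨h0, h1, h3, hc0, h4⟩ := h
      obtain ⟨f, hf, hmax⟩ := h1.exists_max h0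
      obtain ⟨hf1, hf2⟩ := h1.1 f hf
      have hcard : (P.erase f).card + 1 = P.card := Finset.card_erase_add_one hf
      have hs := survivors (μ := μ) hA W hW hprof P h1 hc0 (P.card + 1) (P.erase f).card (P.erase f)
        (Finset.erase_subset _ _) rfl (by omega)
      have e2 : P.card + 1 - (P.erase f).card = 2 := by omega
      rw [e2] at hs
      have hmeas : ∀ᶠ x : ℕ in atTop, ∀ s, MeasurableSet[ℱ (pv f x)] {ω | ps A P (P.erase f) W c (P.card + 1) x ω = s} := by
        have g1 : ∀ᶠ x : ℕ in atTop, ∀ g ∈ P.erase f, pv g (x + hh c (P.card + 1) x) < pv f x := by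
          rw [eventually_all_finset]
          intro g hg
          have hg' := Finset.mem_erase.1 hg
          exact growth (h1.1 g hg'.2).2 hf2 (hmax g hg'.2 hg'.1) hc0 _
        have g2 : ∀ᶠ x : ℕ in atTop, ∀ g ∈ P.erase f, ∀ n, x ≤ n → pv g n < pv g (n + 1) := by
          rw [eventually_all_finset]
          intro g hg
          have hg' := Finset.mem_erase.1 hg
          exact (eventually_atTop.1 (pv_mono g (h1.1 g hg'.2).1 (h1.1 g hg'.2).2)).elim fun n₀ hn₀ =>
            (eventually_ge_atTop n₀).mono fun x hx n hn => hn₀ n (hx.trans hn)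
        filter_upwards [g1, g2] with x k1 k2 s
        refine ps_meas_eq hA P (P.erase f) W c (P.card + 1) x _ (fun n hn1 hn2 g hg => ?_) s
        have k3 : pv g n ≤ pv g (x + hh c (P.card + 1) x) := by
          rcases hn1.lt_or_eq with h | h
          · exact (strict_from (k2 g hg) hn2.le h).le
          · rw [h]
        exact k3.trans (k1 g hg).le
      have hcount : 0 < (Nat.count (good P W) W : ℝ) / W := by
        by_contra hcon
        push Not at hcon
        have h5 : bhConst W P ≤ 0 := by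
          rw [hkey P]
          exact mul_nonpos_of_nonpos_of_nonneg hcon (Finset.prod_nonneg fun g _ => by positivity)
        linarith
      have hθ0 : 0 < (Nat.count (good P W) W : ℝ) / W * c *
          ∏ f ∈ P.erase f, (((W : ℝ) / Nat.totient W) * (f.natDegree : ℝ)⁻¹) := by
        refine mul_pos (mul_pos hcount hc0) (Finset.prod_pos fun g hg => ?_)
        exact mul_pos hcpos (inv_pos.2 (by exact_mod_cast (h1.1 g (Finset.mem_erase.1 hg).2).1))
      have hl := last_lower (μ := μ) hA (rhoW W) hprof (pv f) (pv_mono f hf1 hf2) (good P W)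
        (mul_pos hcpos (inv_pos.2 (by exact_mod_cast hf1))) (rho_lim W hW hf hf1 hf2) hc0 (P.card + 1)
        (fun x ω => ps A P (P.erase f) W c (P.card + 1) x ω)
        (fun x ω n hn => by
          rw [mem_ps] at hn
          exact ⟨hn.1, hn.2.1, hn.2.2.1⟩)
        hmeas hθ0 hs (by
          rw [mul_assoc, mul_comm (∏ f ∈ P.erase f, _) _, Finset.mul_prod_erase P (fun f : ℤ[X] => ((W : ℝ) / Nat.totient W) *
            (f.natDegree : ℝ)⁻¹) hf, mul_right_comm, ← hkey P]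
          have := mul_lt_mul_of_pos_right h4 h3
          rw [inv_mul_cancel₀ h3.ne'] at this
          linarith)
      obtain ⟨M, hM⟩ := eventually_atTop.1 (good_pv P W (fun g hg => (h1.1 g hg).2))
      filter_upwards [hl] with ω hω _ _ _ _ _
      refine (hω.and_eventually (eventually_ge_atTop M)).mono ?_
      rintro x ⟨hx, hxM⟩ k hk1 hk2 hk3
      have hgood : good P W k := by
        rw [hM k (by omega)]
        intro g hg
        by_contra hcon
        have := hk3 g hg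
        rw [hcop _ hcon] at this
        exact this
      refine hx k ?_ (hk3 f hf)
      rw [mem_ps]
      refine ⟨hk1, ?_, hgood, fun g hg => hk3 g (Finset.mem_erase.1 hg).2⟩
      have h5 : ((k - x : ℕ) : ℝ) ≤ c * Real.log x ^ (P.card + 1) := by
        rw [Nat.cast_sub hk1.le]
        linarith
      have : k - x ≤ hh c (P.card + 1) x := Nat.le_floor h5
      omega
    · exact Eventually.of_forall fun ω h1 h2 h3 h4 h5 => absurd ⟨h1, h2, h3, h4, h5⟩ h
  filter_upwards [hup, hlo] with ω g1 g2 P h0 h1 h3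
  obtain ⟨M, hM⟩ := eventually_atTop.1 (mem_argsP P (fun f hf => (h1.1 f hf).2) {a | ω ∈ A a})
  have hu : ∀ c : ℝ, (bhConst W P)⁻¹ < c → ∀ᶠ x : ℕ in atTop, ∃ k : ℕ, x < k ∧
      (k : ℝ) ≤ x + c * Real.log x ^ (P.card + 1) ∧ k ∈ argsP {a | ω ∈ A a} P := by
    intro c hc
    obtain ⟨r, hr1, hr2⟩ := exists_rat_btwn hc
    filter_upwards [g1 P r h0 h1 h3 hr1, eventually_ge_atTop M] with x hx hxM
    obtain ⟨k, k1, k2, k3⟩ := hx
    refine ⟨k, k1, ?_, (hM k (by omega)).2 k3⟩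
    have : (r : ℝ) * Real.log x ^ (P.card + 1) ≤ c * Real.log x ^ (P.card + 1) :=
      mul_le_mul_of_nonneg_right hr2.le (pow_nonneg (Real.log_natCast_nonneg _) _)
    linarith
  obtain ⟨f1, f2⟩ := nth_gapsK (T := argsP {a | ω ∈ A a} P) (κ := (bhConst W P)⁻¹) (P.card + 1) hu (by
    intro c hc0 hc
    obtain ⟨r, hr1, hr2⟩ := exists_rat_btwn hc
    refine ((g2 P r h0 h1 h3 (hc0.trans hr1) hr2).and_eventually (eventually_ge_atTop M)).mono ?_
    rintro x ⟨hx, hxM⟩ k k1 k2 k3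
    refine hx k k1 ?_ ((hM k (by omega)).1 k3)
    have : c * Real.log x ^ (P.card + 1) ≤ r * Real.log x ^ (P.card + 1) :=
      mul_le_mul_of_nonneg_right hr1.le (pow_nonneg (Real.log_natCast_nonneg _) _)
    linarith)
  exact ⟨f1, fun ε hε => hu _ (by linarith), f2⟩

end Pool.Agent.N957.SQ.Sy
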