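import Mathlib
import Pool.Agent.N957.SQ.Sys3
import Pool.Agent.N740.HK.Sch

/-!
# Sieved models: constants, counting law and gap law for systems of polynomials
-/

set_option autoImplicit false

open MeasureTheory Filter Set ProbabilityTheory Polynomial
open scoped Topology

namespace Pool.Agent.N957.SQ.Fin

open Pool.Agent.N740.HK Pool.Agent.R528.RM Pool.Agent.N285.GP Pool.Agent.N957.SQ.Sy

/-- the truncated constant of Bateman and Horn -/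
noncomputable def BC (Q : Finset ℕ) (P : Finset ℤ[X]) : ℝ :=
  (∏ p ∈ Q, (1 - (omegaF P p : ℝ) / p) / (1 - 1 / (p : ℝ)) ^ P.card) * ∏ f ∈ P, ((f.natDegree : ℝ))⁻¹

lemma bh_constP (Q : Finset ℕ) (hQ : ∀ p ∈ Q, p.Prime) (P : Finset ℤ[X]) : bhConst (∏ p ∈ Q, p) P = BC Q P := by
  unfold bhConst BC
  rw [← mul_assoc, const_prod P Q hQ]
  congr 1
  refine Finset.prod_congr rfl fun p hp => ?_
  have h4 := omega_good P (hQ p hp)
  have h5 : (Nat.count (good P p) p : ℝ) + omegaF P p = p := by exact_mod_cast h4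
  have h6 : (0 : ℝ) < p := by exact_mod_cast (hQ p hp).pos
  have h7 : (Nat.count (good P p) p : ℝ) / p = 1 - (omegaF P p : ℝ) / p := by
    field_simp
    linarith
  rw [h7, inv_pow]
  exact (div_eq_mul_inv _ _).symm

lemma BC_pos (Q : Finset ℕ) (hQ : ∀ p ∈ Q, p.Prime) (P : Finset ℤ[X]) (hP : ∀ f ∈ P, 0 < f.natDegree)
    (h : ∀ p ∈ Q, ∃ r : ℤ, ¬ (p : ℤ) ∣ ∏ f ∈ P, f.eval r) : 0 < BC Q P := by
  unfold BC
  refine mul_pos (Finset.prod_pos fun p hp => ?_) (Finset.prod_pos fun f hf => inv_pos.2 (by exact_mod_cast hP f hf))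
  have h1 := CQ_pos {p} (fun q hq => by rw [Finset.mem_singleton.1 hq]; exact hQ p hp) (∏ f ∈ P, f) (fun q hq => by
    rw [Finset.mem_singleton.1 hq]
    obtain ⟨r, hr⟩ := h p hp
    exact ⟨r, by rw [Polynomial.eval_prod]; exact hr⟩)
  have h0 : Pool.Agent.N285.GP.omega (∏ f ∈ P, f) p = omegaF P p := by
    unfold Pool.Agent.N285.GP.omega omegaF
    simp_rw [Polynomial.eval_prod]
  unfold CQ at h1
  rw [Finset.prod_singleton, h0] at h1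
  have h2 : (1 : ℝ) < p := by exact_mod_cast (hQ p hp).one_lt
  have h3 : 0 < 1 - 1 / (p : ℝ) := by
    rw [sub_pos, div_lt_one (by linarith)]
    exact h2
  have h4 : 0 < 1 - (omegaF P p : ℝ) / p := by
    rcases (div_pos_iff.1 h1) with h | h
    · exact h.1
    · linarith [h.2]
  exact div_pos h4 (by positivity)

variable {Ω : Type} {m0 : MeasurableSpace Ω} {μ : Measure Ω} [IsProbabilityMeasure μ]
  {ℱ : Filtration ℕ m0} {A : ℕ → Set Ω}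

/-- the laws for all systems -/
theorem laws (hA : ∀ n, MeasurableSet[ℱ n] (A n)) (Q : Finset ℕ) (hQ : ∀ p ∈ Q, p.Prime)
    (hcop : ∀ n, (∃ p ∈ Q, p ∣ n) → A n = ∅)
    (hd : ∀ᵐ ω ∂μ, Tendsto (fun n : ℕ => dens μ ℱ A n ω * Real.log n)
      (atTop ⊓ 𝓟 {n : ℕ | ∀ p ∈ Q, ¬ p ∣ n + 1}) (𝓝 (∏ p ∈ Q, (1 - 1 / (p : ℝ))⁻¹))) :
    ∀ᵐ ω ∂μ, ∀ P : Finset ℤ[X], P.Nonempty → Sep P → (∀ p ∈ Q, ∃ r : ℤ, ¬ (p : ℤ) ∣ ∏ f ∈ P, f.eval r) →
      Tendsto (fun x : ℕ => (polyCount {a | ω ∈ A a} P x : ℝ) * Real.log x ^ P.card / x) atTop (𝓝 (BC Q P)) ∧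
      (argsP {a | ω ∈ A a} P).Infinite ∧
      (∀ ε : ℝ, 0 < ε → ∀ᶠ x : ℕ in atTop, ∃ k : ℕ, x < k ∧
        (k : ℝ) ≤ x + ((BC Q P)⁻¹ + ε) * Real.log x ^ (P.card + 1) ∧ k ∈ argsP {a | ω ∈ A a} P) ∧
      ∀ ε : ℝ, 0 < ε →
      (∀ᶠ j : ℕ in atTop, (pn (argsP {a | ω ∈ A a} P) (j + 1) : ℝ) - pn (argsP {a | ω ∈ A a} P) j ≤
        ((BC Q P)⁻¹ + ε) * Real.log (pn (argsP {a | ω ∈ A a} P) j) ^ (P.card + 1)) ∧
      ∃ᶠ j : ℕ in atTop, ((BC Q P)⁻¹ - ε) * Real.log (pn (argsP {a | ω ∈ A a} P) j) ^ (P.card + 1) ≤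
        (pn (argsP {a | ω ∈ A a} P) (j + 1) : ℝ) - pn (argsP {a | ω ∈ A a} P) j := by
  set W := ∏ p ∈ Q, p with hWdef
  have hW : 0 < W := Finset.prod_pos fun q hq => (hQ q hq).pos
  have hc : ∀ n, Nat.Coprime n W ↔ ∀ p ∈ Q, ¬ p ∣ n := by
    intro n
    rw [hWdef, Nat.coprime_prod_right_iff]
    refine forall₂_congr fun p hp => ?_
    rw [Nat.coprime_comm]
    exact Nat.Prime.coprime_iff_not_dvd (hQ p hp)
  have hgaps := sys_gaps (μ := μ) (ℱ := ℱ) hA W hW (fun n hn => hcop n (by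
    rw [hc] at hn
    push Not at hn
    exact hn)) (by
    rw [totient_prod Q hQ]
    simp_rw [hc]
    exact hd)
  filter_upwards [hgaps, bh_final (μ := μ) hA Q hQ hcop hd] with ω g1 g2 P h0 h1 h2
  have h3 := BC_pos Q hQ P (fun f hf => (h1.1 f hf).1) h2
  have h4 := g1 P h0 h1 (by rw [hWdef, bh_constP Q hQ]; exact h3)
  rw [hWdef, bh_constP Q hQ] at h4
  exact ⟨g2 P h1.1, h4⟩

lemma prod_pos' (Q : Finset ℕ) (hQ : ∀ p ∈ Q, p.Prime) : 0 < ∏ p ∈ Q, (1 - 1 / (p : ℝ))⁻¹ := by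
  refine Finset.prod_pos fun p hp => ?_
  have h1 : (1 : ℝ) < p := by exact_mod_cast (hQ p hp).one_lt
  rw [inv_pos, sub_pos, div_lt_one (by linarith)]
  exact h1

/-- independent events -/
lemma indep_dens (hA : ∀ n, MeasurableSet (A n)) (hi : iIndepSet A μ) (Q : Finset ℕ) (hQ : ∀ p ∈ Q, p.Prime)
    (hp : ∀ᶠ n : ℕ in atTop, (∀ p ∈ Q, ¬ p ∣ n) → μ (A n) = ENNReal.ofReal ((∏ p ∈ Q, (1 - 1 / (p : ℝ))⁻¹) / Real.log n)) :
    ∀ᵐ ω ∂μ, Tendsto (fun n : ℕ => (μ[(A (n + 1)).indicator (fun _ => (1 : ℝ)) | gen hA n]) ω * Real.log n)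
      (atTop ⊓ 𝓟 {n : ℕ | ∀ p ∈ Q, ¬ p ∣ n + 1}) (𝓝 (∏ p ∈ Q, (1 - 1 / (p : ℝ))⁻¹)) := by
  have h1 : ∀ᵐ ω ∂μ, ∀ n, (μ[(A (n + 1)).indicator (fun _ => (1 : ℝ)) | gen hA n]) ω =
      (μ (A (n + 1))).toReal := ae_all_iff.2 fun n => dens_gen hA hi n
  filter_upwards [h1] with ω hω
  set c : ℝ := ∏ p ∈ Q, (1 - 1 / (p : ℝ))⁻¹ with hc
  have hc0 : 0 < c := prod_pos' Q hQ
  have h2 : Tendsto (fun n : ℕ => c * (Real.log ((n + 1 : ℕ) : ℝ) / Real.log n)⁻¹) atTop (𝓝 (c * 1⁻¹)) :=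
    ((log_shift 1).inv₀ one_ne_zero).const_mul c
  rw [inv_one, mul_one] at h2
  refine (h2.mono_left (inf_le_left : atTop ⊓ 𝓟 {n : ℕ | ∀ p ∈ Q, ¬ p ∣ n + 1} ≤ atTop)).congr' ?_
  rw [EventuallyEq, eventually_inf_principal]
  filter_upwards [eventually_ge_atTop 2, (tendsto_add_atTop_nat 1).eventually hp] with n hn hpn hn2
  rw [hω, hpn hn2, ENNReal.toReal_ofReal]
  · rw [inv_div]
    ring
  · exact div_nonneg hc0.le (Real.log_natCast_nonneg _)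

lemma prod_inv (A : ℕ → Set Ω) (n : ℕ) (ω : Ω) [DecidablePred fun h => ω ∈ A h] :
    (∏ h ∈ Finset.Icc 2 n, if ω ∈ A h then 1 - 1 / (h : ℝ) else 1) = (Y A n ω)⁻¹ := by
  unfold Y
  rw [← Finset.prod_inv_distrib]
  refine Finset.prod_congr rfl fun h hh => ?_
  have h2 : (2 : ℝ) ≤ h := by exact_mod_cast (Finset.mem_Icc.1 hh).1
  by_cases hA : ω ∈ A h
  · rw [if_pos hA, if_pos hA, inv_div]
    field_simp
  · rw [if_neg hA, if_neg hA, inv_one]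

end Pool.Agent.N957.SQ.Fin
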