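import Mathlib
import Pool.Agent.N957.SQ.Lin2
import Pool.Agent.N957.SQ.Sys4

/-!
# Systems of linear forms in several variables: all systems at once, and the constant as a product
-/

set_option autoImplicit false
set_option linter.unusedSectionVars false

open MeasureTheory Filter Set
open scoped ENNReal Topology

namespace Pool.Agent.N957.SQ.Ln

open Pool.Agent.R528.RM Pool.Agent.N909.TF

/-- multiplicativity of the number of good residue vectors -/
lemma good_mul {r : ℕ} (P : Finset ((Fin r → ℕ) × ℕ)) {a b : ℕ} (ha : 0 < a) (hb : 0 < b) (hab : Nat.Coprime a b) :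
    (good P (a * b)).card = (good P a).card * (good P b).card := by
  classical
  rw [← Finset.card_product]
  have hab0 : 0 < a * b := Nat.mul_pos ha hb
  refine Finset.card_bij' (fun u _ => (fun i => u i % a, fun i => u i % b))
    (fun uv _ => fun i => (Nat.chineseRemainder hab (uv.1 i) (uv.2 i) : ℕ)) ?_ ?_ ?_ ?_
  · intro u hu
    unfold good at hu ⊢
    rw [Finset.mem_filter, Fintype.mem_piFinset] at hu
    rw [Finset.mem_product, Finset.mem_filter, Finset.mem_filter, Fintype.mem_piFinset, Fintype.mem_piFinset]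
    refine ⟨⟨fun i => Finset.mem_range.2 (Nat.mod_lt _ ha), fun f hf => (cop_mod f a u).1 ?_⟩,
      ⟨fun i => Finset.mem_range.2 (Nat.mod_lt _ hb), fun f hf => (cop_mod f b u).1 ?_⟩⟩
    · exact Nat.Coprime.coprime_mul_right_right (hu.2 f hf)
    · exact Nat.Coprime.coprime_mul_left_right (hu.2 f hf)
  · rintro ⟨u, v⟩ huv
    unfold good at huv ⊢
    rw [Finset.mem_product, Finset.mem_filter, Finset.mem_filter, Fintype.mem_piFinset, Fintype.mem_piFinset] at huv
    rw [Finset.mem_filter, Fintype.mem_piFinset]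
    refine ⟨fun i => Finset.mem_range.2 (Nat.chineseRemainder_lt_mul hab _ _ ha.ne' hb.ne'), fun f hf => ?_⟩
    apply Nat.Coprime.mul_right
    · rw [cop_mod]
      have h1 : (fun i => (Nat.chineseRemainder hab (u i) (v i) : ℕ) % a) = u := by
        funext i
        have h2 := (Nat.chineseRemainder hab (u i) (v i)).2.1
        unfold Nat.ModEq at h2
        rw [h2, Nat.mod_eq_of_lt (Finset.mem_range.1 (huv.1.1 i))]
      show Nat.Coprime (ev f (fun i => (Nat.chineseRemainder hab (u i) (v i) : ℕ) % a)) a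
      rw [h1]
      exact huv.1.2 f hf
    · rw [cop_mod]
      have h1 : (fun i => (Nat.chineseRemainder hab (u i) (v i) : ℕ) % b) = v := by
        funext i
        have h2 := (Nat.chineseRemainder hab (u i) (v i)).2.2
        unfold Nat.ModEq at h2
        rw [h2, Nat.mod_eq_of_lt (Finset.mem_range.1 (huv.2.1 i))]
      show Nat.Coprime (ev f (fun i => (Nat.chineseRemainder hab (u i) (v i) : ℕ) % b)) b
      rw [h1]
      exact huv.2.2 f hf
  · intro u hu
    unfold good at hu
    rw [Finset.mem_filter, Fintype.mem_piFinset] at hu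
    funext i
    have h1 : u i ≡ (Nat.chineseRemainder hab (u i % a) (u i % b) : ℕ) [MOD a * b] :=
      Nat.chineseRemainder_modEq_unique hab (Nat.mod_modEq _ _).symm (Nat.mod_modEq _ _).symm
    exact (Nat.ModEq.eq_of_lt_of_lt h1 (Finset.mem_range.1 (hu.1 i))
      (Nat.chineseRemainder_lt_mul hab _ _ ha.ne' hb.ne')).symm
  · rintro ⟨u, v⟩ huv
    unfold good at huv
    rw [Finset.mem_product, Finset.mem_filter, Finset.mem_filter, Fintype.mem_piFinset, Fintype.mem_piFinset] at huv
    refine Prod.ext ?_ ?_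
    · funext i
      have h2 := (Nat.chineseRemainder hab (u i) (v i)).2.1
      unfold Nat.ModEq at h2
      show (Nat.chineseRemainder hab (u i) (v i) : ℕ) % a = u i
      rw [h2, Nat.mod_eq_of_lt (Finset.mem_range.1 (huv.1.1 i))]
    · funext i
      have h2 := (Nat.chineseRemainder hab (u i) (v i)).2.2
      unfold Nat.ModEq at h2
      show (Nat.chineseRemainder hab (u i) (v i) : ℕ) % b = v i
      rw [h2, Nat.mod_eq_of_lt (Finset.mem_range.1 (huv.2.1 i))]

lemma good_prod {r : ℕ} (P : Finset ((Fin r → ℕ) × ℕ)) (Q : Finset ℕ) (hQ : ∀ p ∈ Q, p.Prime) :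
    (good P (∏ p ∈ Q, p)).card = ∏ p ∈ Q, (good P p).card := by
  classical
  induction Q using Finset.induction_on with
  | empty =>
    rw [Finset.prod_empty, Finset.prod_empty]
    have h1 : good P 1 = {fun _ => 0} := by
      unfold good
      ext u
      rw [Finset.mem_filter, Fintype.mem_piFinset, Finset.mem_singleton]
      constructor
      · rintro ⟨h, -⟩
        funext i
        have := Finset.mem_range.1 (h i)
        omega
      · rintro rfl
        exact ⟨fun i => Finset.mem_range.2 one_pos, fun f _ => Nat.coprime_one_right _⟩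
    rw [h1, Finset.card_singleton]
  | insert p Q hp ih =>
    have hQ' : ∀ q ∈ Q, q.Prime := fun q hq => hQ q (Finset.mem_insert_of_mem hq)
    have hpp := hQ p (Finset.mem_insert_self p Q)
    rw [Finset.prod_insert hp, Finset.prod_insert hp, ← ih hQ']
    refine good_mul P hpp.pos (Finset.prod_pos fun q hq => (hQ' q hq).pos) ?_
    refine Nat.Coprime.prod_right fun q hq => ?_
    refine (Nat.coprime_primes hpp (hQ' q hq)).2 ?_
    rintro rfl
    exact hp hq

/-- the constant of a system -/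
noncomputable def cst {r : ℕ} (Q : Finset ℕ) (P : Finset ((Fin r → ℕ) × ℕ)) : ℝ :=
  ∏ p ∈ Q, ((good P p).card : ℝ) / (p : ℝ) ^ r / (1 - 1 / (p : ℝ)) ^ P.card

lemma cst_eq {r : ℕ} (Q : Finset ℕ) (hQ : ∀ p ∈ Q, p.Prime) (P : Finset ((Fin r → ℕ) × ℕ)) :
    (((∏ p ∈ Q, p : ℕ) : ℝ) / Nat.totient (∏ p ∈ Q, p)) ^ P.card *
      (((good P (∏ p ∈ Q, p)).card : ℝ) / ((∏ p ∈ Q, p : ℕ) : ℝ) ^ r) = cst Q P := by
  rw [totient_prod Q hQ, good_prod P Q hQ]
  unfold cst
  push_cast
  rw [← Finset.prod_pow, ← Finset.prod_pow, ← Finset.prod_div_distrib, ← Finset.prod_mul_distrib]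
  refine Finset.prod_congr rfl fun p _ => ?_
  rw [inv_pow, div_eq_mul_inv _ ((1 - 1 / (p : ℝ)) ^ P.card), mul_comm]

lemma cst_pos {r : ℕ} (Q : Finset ℕ) (hQ : ∀ p ∈ Q, p.Prime) (P : Finset ((Fin r → ℕ) × ℕ)) :
    0 < cst Q P ↔ ∀ p ∈ Q, ∃ v : Fin r → ℕ, ∀ f ∈ P, ¬ p ∣ ev f v := by
  have hpos : ∀ p ∈ Q, 0 < 1 - 1 / (p : ℝ) := by
    intro p hp
    have h1 : (1 : ℝ) < p := by exact_mod_cast (hQ p hp).one_lt
    rw [sub_pos, div_lt_one (by linarith)]
    exact h1
  constructor
  · intro h p hp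
    by_contra hcon
    push Not at hcon
    have h1 : (good P p).card = 0 := by
      rw [Finset.card_eq_zero, Finset.eq_empty_iff_forall_notMem]
      intro v hv
      unfold good at hv
      rw [Finset.mem_filter] at hv
      obtain ⟨f, hf, h2⟩ := hcon v
      exact ((Nat.Prime.coprime_iff_not_dvd (hQ p hp)).1 ((Nat.coprime_comm).1 (hv.2 f hf))) h2
    have h2 : cst Q P = 0 := by
      unfold cst
      refine Finset.prod_eq_zero hp ?_
      rw [h1]
      simp
    linarith
  · intro h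
    unfold cst
    refine Finset.prod_pos fun p hp => ?_
    obtain ⟨v, hv⟩ := h p hp
    have hp0 := (hQ p hp).pos
    have h1 : 0 < (good P p).card := by
      rw [Finset.card_pos]
      refine ⟨fun i => v i % p, ?_⟩
      unfold good
      rw [Finset.mem_filter, Fintype.mem_piFinset]
      refine ⟨fun i => Finset.mem_range.2 (Nat.mod_lt _ hp0), fun f hf => (cop_mod f p v).1 ?_⟩
      exact (Nat.coprime_comm).1 ((Nat.Prime.coprime_iff_not_dvd (hQ p hp)).2 (hv f hf))
    have h2 := hpos p hp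
    have h3 : (0 : ℝ) < p := by exact_mod_cast hp0
    have h4 : (0 : ℝ) < (good P p).card := by exact_mod_cast h1
    positivity

variable {Ω : Type} {m0 : MeasurableSpace Ω} {μ : Measure Ω} [IsProbabilityMeasure μ]
  {ℱ : Filtration ℕ m0} {A : ℕ → Set Ω}

/-- **the law for all systems** -/
theorem law_all (hA : ∀ n, MeasurableSet[ℱ n] (A n)) (Q : Finset ℕ) (hQ : ∀ p ∈ Q, p.Prime)
    (hcop : ∀ n, (∃ p ∈ Q, p ∣ n) → A n = ∅)
    (hd : ∀ᵐ ω ∂μ, Tendsto (fun n : ℕ => dens μ ℱ A n ω * Real.log n)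
      (atTop ⊓ 𝓟 {n : ℕ | ∀ p ∈ Q, ¬ p ∣ n + 1}) (𝓝 (∏ p ∈ Q, (1 - 1 / (p : ℝ))⁻¹))) :
    ∀ᵐ ω ∂μ, ∀ (r : ℕ) (P : Finset ((Fin r → ℕ) × ℕ)), P.Nonempty → (∀ f ∈ P, f.1 ≠ 0) →
      Tendsto (fun n : ℕ => ((chs A P n ω).card : ℝ) * Real.log n ^ P.card / (n : ℝ) ^ r) atTop (𝓝 (cst Q P)) := by
  set W := ∏ p ∈ Q, p with hWdef
  have hW : 0 < W := Finset.prod_pos fun q hq => (hQ q hq).pos
  have hc : ∀ n, Nat.Coprime n W ↔ ∀ p ∈ Q, ¬ p ∣ n := by
    intro n
    rw [hWdef, Nat.coprime_prod_right_iff]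
    refine forall₂_congr fun p hp => ?_
    rw [Nat.coprime_comm]
    exact Nat.Prime.coprime_iff_not_dvd (hQ p hp)
  refine ae_all_iff.2 fun r => ae_all_iff.2 fun P => ?_
  by_cases h : P.Nonempty ∧ ∀ f ∈ P, f.1 ≠ 0
  · have h1 := law_one (μ := μ) (ℱ := ℱ) hA W hW (fun n hn => hcop n (by
      rw [hc] at hn
      push Not at hn
      exact hn)) (by
      rw [totient_prod Q hQ]
      simp_rw [hc]
      exact hd) P h.1 h.2
    filter_upwards [h1] with ω hω _ _
    rw [hWdef, cst_eq Q hQ P] at hω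
    exact hω
  · exact Eventually.of_forall fun ω h1 h2 => absurd ⟨h1, h2⟩ h

end Pool.Agent.N957.SQ.Ln
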