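import Mathlib
import Pool.Agent.N740.HK.Gap2
import Pool.Agent.N740.HK.Trials

/-!
# Lower bound for the number of large gaps
-/

set_option autoImplicit false
set_option linter.unusedSectionVars false

open MeasureTheory Filter Set
open scoped ENNReal Topology NNReal

namespace Pool.Agent.N957.SQ

open Pool.Agent.R528.RM Pool.Agent.N740.HK

variable {Ω : Type} {m0 : MeasurableSpace Ω} {μ : Measure Ω} [IsProbabilityMeasure μ]
  {ℱ : Filtration ℕ m0} {A : ℕ → Set Ω}

/-- **successes in all groups of blocks at every large scale** -/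
theorem ev_groups {D : ℕ → ℕ → ℕ → Set Ω} {s : ℕ → ℕ → ℕ} {H M N : ℕ → ℕ} {i₀ : ℕ}
    (hD : ∀ i, i₀ ≤ i → ∀ g < N i, ∀ m < M i, MeasurableSet[ℱ (s i g + H i * (m + 1))] (D i g m))
    (p : ℕ → ℝ)
    (hp : ∀ i, i₀ ≤ i → ∀ g < N i, ∀ m < M i, ∀ C, MeasurableSet[ℱ (s i g + H i * m)] C →
      p i * μ.real C ≤ μ.real (C ∩ D i g m))
    (hsum : Summable fun i : ℕ => (N i : ℝ) * Real.exp (-(M i * p i))) :
    ∀ᵐ ω ∂μ, ∀ᶠ i : ℕ in atTop, ∀ g < N i, ∃ m < M i, ω ∈ D i g m := by
  set E : ℕ → Set Ω := fun i => if i₀ ≤ i then ⋃ g ∈ Finset.range (N i), RB (D i g) univ (M i) else ∅ with hE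
  have hEb : ∀ i, μ.real (E i) ≤ (N i : ℝ) * Real.exp (-(M i * p i)) := by
    intro i
    by_cases hi : i₀ ≤ i
    · simp only [hE, if_pos hi]
      refine (measureReal_biUnion_finset_le _ _).trans ?_
      calc ∑ g ∈ Finset.range (N i), μ.real (RB (D i g) univ (M i))
          ≤ ∑ g ∈ Finset.range (N i), Real.exp (-(M i * p i)) := by
            refine Finset.sum_le_sum fun g hg => ?_
            have h1 := RB_le (μ := μ) (D := D i g) (B := univ) (s := s i g) (H := H i) (M := M i)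
              (@MeasurableSet.univ _ (ℱ (s i g))) (hD i hi g (Finset.mem_range.1 hg)) (hp i hi g (Finset.mem_range.1 hg)) (M i) le_rfl
            rw [probReal_univ, mul_one] at h1
            exact h1
        _ = _ := by rw [Finset.sum_const, Finset.card_range, nsmul_eq_mul]
    · simp only [hE, if_neg hi, measureReal_empty]
      positivity
  have hEs : ∑' i, μ (E i) ≠ ⊤ := by
    have h1 : ∀ i, μ (E i) = ENNReal.ofReal (μ.real (E i)) := fun i => (ofReal_measureReal (measure_ne_top _ _)).symm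
    have h2 : Summable fun i => μ.real (E i) := Summable.of_nonneg_of_le (fun i => measureReal_nonneg) hEb hsum
    simp_rw [h1]
    rw [← ENNReal.ofReal_tsum_of_nonneg (fun i => measureReal_nonneg) h2]
    exact ENNReal.ofReal_ne_top
  filter_upwards [ae_eventually_notMem hEs] with ω hω
  filter_upwards [hω, eventually_ge_atTop i₀] with i h1 hi g hg
  simp only [hE, if_pos hi, mem_iUnion, Finset.mem_range, not_exists] at h1
  exact not_mem_RB (mem_univ ω) (h1 g hg)

/-- a member and `k` absent integers -/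
def rp (k : ℕ) : List Bool := true :: List.replicate k false

lemma rp_length (k : ℕ) : (rp k).length = k + 1 := by simp [rp]

lemma mem_pat_rep (A : ℕ → Set Ω) (k : ℕ) : ∀ (t : ℕ) (ω : Ω), ω ∈ pat A t (List.replicate k false) →
    ∀ r, r < k → ω ∉ A (t + 1 + r) := by
  induction k with
  | zero => intro t ω _ r hr; exact absurd hr (Nat.not_lt_zero r)
  | succ k ih =>
    intro t ω h
    rw [List.replicate_succ] at h
    unfold pat at h
    simp only [Bool.false_eq_true, if_false] at h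
    obtain ⟨h1, h2⟩ := h
    intro r hr
    rcases Nat.eq_zero_or_pos r with rfl | hr0
    · exact h1
    · have := ih (t + 1) ω h2 (r - 1) (by omega)
      rwa [show t + 1 + 1 + (r - 1) = t + 1 + r by omega] at this

lemma mem_pat_rp (A : ℕ → Set Ω) (k t : ℕ) (ω : Ω) (h : ω ∈ pat A t (rp k)) :
    ω ∈ A (t + 1) ∧ ∀ r, 1 ≤ r → r ≤ k → ω ∉ A (t + 1 + r) := by
  unfold rp pat at h
  simp only [if_true] at h
  obtain ⟨h1, h2⟩ := h
  refine ⟨h1, fun r hr1 hr2 => ?_⟩
  have := mem_pat_rep A k (t + 1) ω h2 (r - 1) (by omega)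
  rwa [show t + 1 + 1 + (r - 1) = t + 1 + r by omega] at this

lemma wt_rp (l u : ℝ) (k : ℕ) : wt l u (rp k) = l * (1 - u) ^ k := by
  have h : ∀ k, wt l u (List.replicate k false) = (1 - u) ^ k := by
    intro k
    induction k with
    | zero => simp [wt]
    | succ k ih =>
      rw [List.replicate_succ]
      unfold wt
      rw [ih]
      simp only [Bool.false_eq_true, if_false]
      rw [pow_succ]
      ring
  unfold rp wt
  rw [h]
  simp

lemma ana2 {lam β δ : ℝ} (h0 : 0 < lam) (hlam1 : lam ≤ 1) (hβ : 0 < β) (hδ0 : 0 < δ) (hδ1 : δ ≤ 1 / 2)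
    (h1 : lam + β + 2 * δ < 1) : ∀ᶠ L : ℝ in atTop, 7 ≤ L ∧ ∀ G H K M : ℕ,
    (G : ℝ) ≤ lam * (L + 1) ^ 2 → (H : ℝ) ≤ (L + 1) ^ 2 + 1 → (K : ℝ) ≤ Real.exp (β * L) →
    Real.exp L ≤ (H * (K + 1)) * (M + 1) →
    3 * L ≤ M * ((1 - δ) / (L + 1) * (1 - (1 + δ) / L) ^ G) := by
  have hc : 0 < δ ^ 4 / (8 * 48 * Real.exp 12) := by positivity
  have t1 := Real.tendsto_pow_mul_exp_neg_atTop_nhds_zero 4
  have t2 : Tendsto (fun L : ℝ => δ * L) atTop atTop := tendsto_id.const_mul_atTop hδ0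
  have t3 := t1.comp t2
  filter_upwards [t3.eventually_lt_const hc, eventually_ge_atTop 7] with L k1 hL
  refine ⟨hL, fun G H K M hG hH hK hM => ?_⟩
  have hL0 : 0 < L := by linarith
  simp only [Function.comp_def] at k1
  -- the exponential beats the polynomial
  have hc1 : 48 * Real.exp 12 * (8 * L ^ 4) ≤ Real.exp (δ * L) := by
    rw [lt_div_iff₀ (by positivity)] at k1
    have e : (δ * L) ^ 4 * Real.exp (-(δ * L)) * (8 * 48 * Real.exp 12) =
        δ ^ 4 * (48 * Real.exp 12 * (8 * L ^ 4) * Real.exp (-(δ * L))) := by ring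
    rw [e] at k1
    have k3 : δ ^ 4 * (48 * Real.exp 12 * (8 * L ^ 4) * Real.exp (-(δ * L))) ≤ δ ^ 4 * 1 := by
      rw [mul_one]; exact k1.le
    have k4 := le_of_mul_le_mul_left k3 (by positivity)
    have k5 : 48 * Real.exp 12 * (8 * L ^ 4) =
        (48 * Real.exp 12 * (8 * L ^ 4) * Real.exp (-(δ * L))) * Real.exp (δ * L) := by
      rw [mul_assoc _ (Real.exp (-(δ * L))), ← Real.exp_add, neg_add_cancel, Real.exp_zero, mul_one]
    rw [k5]
    calc _ ≤ 1 * Real.exp (δ * L) := mul_le_mul_of_nonneg_right k4 (Real.exp_pos _).le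
      _ = _ := one_mul _
  -- the lower bound of the power
  have hu : (1 + δ) / L < 1 := by rw [div_lt_one hL0]; linarith
  have hpow : Real.exp (-((lam + δ) * (L + 6))) ≤ (1 - (1 + δ) / L) ^ G := by
    have p0 : 0 < 1 - (1 + δ) / L := by linarith
    have p1 : 1 - (1 - (1 + δ) / L)⁻¹ ≤ Real.log (1 - (1 + δ) / L) := Real.one_sub_inv_le_log_of_pos p0
    have p2 : 1 - (1 - (1 + δ) / L)⁻¹ = -((1 + δ) / (L - (1 + δ))) := by
      have q1 : L - (1 + δ) ≠ 0 := by
        have : 0 < L - (1 + δ) := by linarith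
        exact this.ne'
      obtain ⟨c, hcc⟩ : ∃ c, c = 1 + δ := ⟨_, rfl⟩
      rw [← hcc] at q1 ⊢
      have q2 : (1 - c / L)⁻¹ = L / (L - c) := by
        rw [one_sub_div hL0.ne', inv_div]
      have q3 : L / (L - c) = 1 + c / (L - c) := by
        rw [← div_self q1, ← add_div]
        congr 1
        ring
      rw [q2, q3]
      ring
    rw [p2] at p1
    have p3 : (1 + δ) / (L - (1 + δ)) * (lam * (L + 1) ^ 2) ≤ (lam + δ) * (L + 6) := by
      have q1 : 0 < L - (1 + δ) := by linarith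
      have q2 : (L + 1) ^ 2 ≤ (L + 6) * (L - (1 + δ)) := by nlinarith
      have q3 : (1 + δ) * lam ≤ lam + δ := by nlinarith
      rw [div_mul_eq_mul_div, div_le_iff₀ q1]
      calc (1 + δ) * (lam * (L + 1) ^ 2) = ((1 + δ) * lam) * (L + 1) ^ 2 := by ring
        _ ≤ (lam + δ) * (L + 1) ^ 2 := mul_le_mul_of_nonneg_right q3 (by positivity)
        _ ≤ (lam + δ) * ((L + 6) * (L - (1 + δ))) := mul_le_mul_of_nonneg_left q2 (by linarith)
        _ = _ := by ring
    have p4 : 0 ≤ (1 + δ) / (L - (1 + δ)) := div_nonneg (by linarith) (by linarith)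
    have p5 : (1 - (1 + δ) / L) ^ G = Real.exp (G * Real.log (1 - (1 + δ) / L)) := by
      rw [← Real.log_pow, Real.exp_log (pow_pos p0 _)]
    rw [p5]
    apply Real.exp_le_exp.2
    have p6 : (G : ℝ) * ((1 + δ) / (L - (1 + δ))) ≤ (lam + δ) * (L + 6) :=
      (mul_le_mul_of_nonneg_right hG p4).trans (by rw [mul_comm]; exact p3)
    have p7 : (G : ℝ) * (-((1 + δ) / (L - (1 + δ)))) ≤ G * Real.log (1 - (1 + δ) / L) :=
      mul_le_mul_of_nonneg_left p1 (Nat.cast_nonneg G)
    linarith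
  have hl : 1 / (4 * L) ≤ (1 - δ) / (L + 1) := by
    rw [div_le_div_iff₀ (by positivity) (by linarith)]
    nlinarith
  have hE1 : 1 ≤ Real.exp (β * L) := Real.one_le_exp (by positivity)
  have hE2 : 0 < Real.exp (β * L) := Real.exp_pos _
  -- the number of blocks
  have hHK : (H : ℝ) * (K + 1) ≤ 6 * L ^ 2 * Real.exp (β * L) := by
    have m1 : (H : ℝ) ≤ 3 * L ^ 2 := by nlinarith
    have m2 : (K : ℝ) + 1 ≤ 2 * Real.exp (β * L) := by linarith
    calc (H : ℝ) * (K + 1) ≤ (3 * L ^ 2) * (2 * Real.exp (β * L)) :=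
          mul_le_mul m1 m2 (by positivity) (by positivity)
      _ = _ := by ring
  have hM1 : Real.exp (L - β * L) ≤ 6 * L ^ 2 * (M + 1) := by
    have m3 : Real.exp L ≤ (6 * L ^ 2 * Real.exp (β * L)) * (M + 1) :=
      hM.trans (mul_le_mul_of_nonneg_right hHK (by positivity))
    rw [Real.exp_sub, div_le_iff₀ hE2]
    linarith
  have hbig : 12 * L ^ 2 ≤ Real.exp (L - β * L) := by
    have b1 : Real.exp (δ * L) ≤ Real.exp (L - β * L) := Real.exp_le_exp.2 (by nlinarith)
    have b2 : (1 : ℝ) ≤ Real.exp 12 := Real.one_le_exp (by norm_num)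
    have b3 : L ^ 2 ≤ L ^ 4 := pow_le_pow_right₀ (by linarith) (by norm_num)
    have b4 : 12 * L ^ 2 ≤ 48 * Real.exp 12 * (8 * L ^ 4) := by
      have b5 : 48 * 1 * (8 * L ^ 4) ≤ 48 * Real.exp 12 * (8 * L ^ 4) :=
        mul_le_mul_of_nonneg_right (mul_le_mul_of_nonneg_left b2 (by norm_num)) (by positivity)
      have b6 : 0 ≤ L ^ 2 := by positivity
      linarith
    linarith
  have hM2 : Real.exp (L - β * L) / (12 * L ^ 2) ≤ M := by
    rw [div_le_iff₀ (by positivity)]
    nlinarith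
  have hfin : 3 * L ≤ (Real.exp (L - β * L) / (12 * L ^ 2)) * (1 / (4 * L) * Real.exp (-((lam + δ) * (L + 6)))) := by
    have f1 : (Real.exp (L - β * L) / (12 * L ^ 2)) * (1 / (4 * L) * Real.exp (-((lam + δ) * (L + 6)))) =
      (Real.exp (L - β * L) * Real.exp (-((lam + δ) * (L + 6)))) / (48 * L ^ 3) := by
      field_simp
      ring
    rw [f1, ← Real.exp_add, le_div_iff₀ (by positivity)]
    have f2 : Real.exp (δ * L) * Real.exp (-12) ≤ Real.exp (L - β * L + -((lam + δ) * (L + 6))) := by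
      rw [← Real.exp_add]
      apply Real.exp_le_exp.2
      have : (lam + δ) * 6 ≤ 12 := by nlinarith
      nlinarith
    refine le_trans ?_ f2
    have f3 : Real.exp 12 * Real.exp (-12) = 1 := by rw [← Real.exp_add]; norm_num
    have f4 : 3 * L * (48 * L ^ 3) ≤ (48 * Real.exp 12 * (8 * L ^ 4)) * Real.exp (-12) := by
      calc 3 * L * (48 * L ^ 3) ≤ 48 * (8 * L ^ 4) * 1 := by
            have : 0 ≤ L ^ 4 := by positivity
            nlinarith
        _ = 48 * (8 * L ^ 4) * (Real.exp 12 * Real.exp (-12)) := by rw [f3]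
        _ = _ := by ring
    exact f4.trans (mul_le_mul_of_nonneg_right hc1 (Real.exp_pos _).le)
  refine hfin.trans ?_
  apply mul_le_mul hM2 _ (by positivity) (Nat.cast_nonneg M)
  exact mul_le_mul hl hpow (Real.exp_pos _).le (le_trans (by positivity) hl)

/-- **the lower bound** -/
theorem lower (hA : ∀ n, MeasurableSet[ℱ n] (A n))
    (hd : ∀ᵐ ω ∂μ, Tendsto (fun n : ℕ => dens μ ℱ A n ω * Real.log n) atTop (𝓝 1))
    {lam β : ℝ} (h0 : 0 < lam) (hβ : 0 < β) (h1 : lam + β < 1) :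
    ∀ᵐ ω ∂μ, ∀ᶠ i : ℕ in atTop, ∃ P : Finset ℕ, P.card = ⌊Real.exp (β * Real.log ((2 : ℝ) ^ i))⌋₊ ∧
      ∀ t ∈ P, 2 ^ i < t ∧ t ≤ 2 ^ (i + 1) ∧ ω ∈ A t ∧ cnt A t (wl lam t) ω = 0 := by
  have hlog : Tendsto (fun i : ℕ => Real.log ((2 : ℝ) ^ i)) atTop atTop := by
    have : (fun i : ℕ => Real.log ((2 : ℝ) ^ i)) = fun i : ℕ => (i : ℝ) * Real.log 2 := by
      funext i; rw [Real.log_pow]
    rw [this]
    exact tendsto_natCast_atTop_atTop.atTop_mul_const (Real.log_pos (by norm_num))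
  obtain ⟨δ, hδ0, hδ2, hδ3⟩ : ∃ δ : ℝ, 0 < δ ∧ δ ≤ 1 / 2 ∧ lam + β + 2 * δ < 1 := by
    refine ⟨min (1 / 2) ((1 - lam - β) / 4), lt_min (by norm_num) (by linarith), min_le_left _ _, ?_⟩
    have : min (1 / 2) ((1 - lam - β) / 4) ≤ (1 - lam - β) / 4 := min_le_right _ _
    linarith
  have hδ1 : δ ≤ 1 := by linarith
  obtain ⟨i₀, hi₀⟩ := eventually_atTop.1 (hlog.eventually (ana2 h0 (by linarith) hβ hδ0 hδ2 hδ3))
  set Li : ℕ → ℝ := fun i => Real.log ((2 : ℝ) ^ i) with hLi
  set G : ℕ → ℕ := fun i => ⌊lam * (Li i + 1) ^ 2⌋₊ with hG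
  set H : ℕ → ℕ := fun i => G i + 1 with hH
  set K : ℕ → ℕ := fun i => ⌊Real.exp (β * Li i)⌋₊ with hK
  set M : ℕ → ℕ := fun i => 2 ^ i / (H i * (K i + 1)) with hM
  set s : ℕ → ℕ → ℕ := fun i g => 2 ^ i + H i * M i * g with hs
  set D : ℕ → ℕ → ℕ → Set Ω := fun i g m => pat A (s i g + H i * m) (rp (G i)) ∪
    WV (VF μ ℱ A δ) (s i g + H i * m) (G i + 1) with hD
  set p : ℕ → ℝ := fun i => (1 - δ) / (Li i + 1) * (1 - (1 + δ) / Li i) ^ G i with hp
  have hHM : ∀ i, H i * (K i + 1) * M i ≤ 2 ^ i := fun i => Nat.mul_div_le _ _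
  have hHpos : ∀ i, 0 < H i := fun i => Nat.succ_pos _
  have hTM : ∀ i g m, g < K i → m < M i → s i g + H i * m + H i ≤ 2 ^ (i + 1) := by
    intro i g m hg hm
    have h3 : H i * (m + 1) ≤ H i * M i := Nat.mul_le_mul_left _ hm
    have h4 : H i * M i * (g + 1) ≤ H i * M i * (K i + 1) := Nat.mul_le_mul_left _ (by omega)
    have h5 : H i * M i * (K i + 1) = H i * (K i + 1) * M i := by ring
    have e : s i g + H i * m + H i = 2 ^ i + (H i * M i * g + H i * (m + 1)) := by simp only [hs]; ring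
    have e2 : H i * M i * (g + 1) = H i * M i * g + H i * M i := by ring
    have h6 := hHM i
    rw [e, pow_succ]
    omega
  have hge : ∀ i g m, 2 ^ i ≤ s i g + H i * m := fun i g m => by simp only [hs]; omega
  have hlogT : ∀ i g m, g < K i → m < M i → ∀ n, s i g + H i * m ≤ n → n ≤ s i g + H i * m + H i →
      Li i ≤ Real.log n ∧ Real.log n ≤ Li i + 1 := by
    intro i g m hg hm n hn1 hn2
    have h1 : (2 : ℝ) ^ i ≤ n := by
      have : 2 ^ i ≤ n := le_trans (hge i g m) hn1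
      exact_mod_cast this
    have h2 : (n : ℝ) ≤ 2 * 2 ^ i := by
      have : n ≤ 2 * 2 ^ i := by
        have h3 := hTM i g m hg hm
        rw [pow_succ] at h3
        omega
      exact_mod_cast this
    have h0 : (0 : ℝ) < 2 ^ i := by positivity
    refine ⟨Real.log_le_log h0 h1, ?_⟩
    have h3 : Real.log n ≤ Real.log (2 * 2 ^ i) := Real.log_le_log (by linarith) h2
    rw [Real.log_mul (by norm_num) h0.ne'] at h3
    have h4 := Real.log_two_lt_d9
    have h5 : Li i = Real.log ((2 : ℝ) ^ i) := rfl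
    linarith
  have hDm : ∀ i, i₀ ≤ i → ∀ g < K i, ∀ m < M i, MeasurableSet[ℱ (s i g + H i * (m + 1))] (D i g m) := by
    intro i _ g hg m _
    have h2 : s i g + H i * m + (G i + 1) ≤ s i g + H i * (m + 1) := by
      have e : s i g + H i * (m + 1) = s i g + H i * m + H i := by ring
      have : H i = G i + 1 := rfl
      omega
    have h3 := pat_meas hA (rp (G i)) (s i g + H i * m)
    rw [rp_length] at h3
    exact @MeasurableSet.union _ (ℱ (s i g + H i * (m + 1))) _ _ (ℱ.mono h2 _ h3)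
      (ℱ.mono h2 _ (WV_meas (fun n => VF_meas δ n) _ _))
  have hpr : ∀ i, i₀ ≤ i → ∀ g < K i, ∀ m < M i, ∀ C, MeasurableSet[ℱ (s i g + H i * m)] C →
      p i * μ.real C ≤ μ.real (C ∩ D i g m) := by
    intro i hi g hg m hm C hC
    obtain ⟨hL7, _⟩ := hi₀ i hi
    have hL7' : 7 ≤ Li i := hL7
    have hbd : ∀ n, s i g + H i * m ≤ n → n < s i g + H i * m + (rp (G i)).length → ∀ ω, ω ∉ VF μ ℱ A δ n →
        (1 - δ) / (Li i + 1) ≤ dens μ ℱ A n ω ∧ dens μ ℱ A n ω ≤ (1 + δ) / Li i := by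
      intro n hn1 hn2 ω hω
      rw [rp_length] at hn2
      obtain ⟨n1, n2⟩ := hlogT i g m hg hm n hn1 (by have : H i = G i + 1 := rfl; omega)
      exact VF_bounds hδ1 (by linarith) n1 n2 hω
    have hl0 : 0 ≤ (1 - δ) / (Li i + 1) := div_nonneg (by linarith) (by linarith)
    have hl1 : (1 - δ) / (Li i + 1) ≤ 1 := by rw [div_le_one (by linarith)]; linarith
    have hu0 : 0 ≤ (1 + δ) / Li i := div_nonneg (by linarith) (by linarith)
    have hu1 : (1 + δ) / Li i ≤ 1 := by rw [div_le_one (by linarith)]; linarith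
    have main := pat_ge (μ := μ) hA (V := VF μ ℱ A δ) (fun n => VF_meas δ n) hl0 hl1 hu0 hu1 (rp (G i))
      (s i g + H i * m) hbd C hC
    rw [rp_length, wt_rp] at main
    exact main
  have hsum : Summable fun i : ℕ => (K i : ℝ) * Real.exp (-(M i * p i)) := by
    refine Summable.of_norm_bounded_eventually_nat (g := fun i : ℕ => (1 / 2 : ℝ) ^ i) (summable_geometric_of_lt_one (by norm_num) (by norm_num)) ?_
    filter_upwards [eventually_ge_atTop i₀] with i hi
    obtain ⟨hL7, hana⟩ := hi₀ i hi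
    obtain ⟨L, hLd⟩ : ∃ L, L = Li i := ⟨_, rfl⟩
    have hL7' : 7 ≤ L := by rw [hLd]; exact hL7
    have hexp : Real.exp L = 2 ^ i := by
      rw [hLd]
      exact Real.exp_log (by positivity)
    have g1 : (G i : ℝ) ≤ lam * (L + 1) ^ 2 := by
      rw [hLd]
      exact Nat.floor_le (by positivity)
    have g2 : ((H i : ℕ) : ℝ) ≤ (L + 1) ^ 2 + 1 := by
      have : ((H i : ℕ) : ℝ) = (G i : ℝ) + 1 := Nat.cast_succ _
      rw [this]
      have : 0 ≤ (L + 1) ^ 2 := sq_nonneg _
      nlinarith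
    have gK : (K i : ℝ) ≤ Real.exp (β * L) := by
      rw [hLd]
      exact Nat.floor_le (Real.exp_pos _).le
    have g3 : Real.exp L ≤ ((H i : ℝ) * (K i + 1)) * (M i + 1) := by
      rw [hexp]
      have h3 : 2 ^ i ≤ H i * (K i + 1) * (M i + 1) :=
        (Nat.lt_mul_div_succ (2 ^ i) (Nat.mul_pos (hHpos i) (Nat.succ_pos _))).le
      exact_mod_cast h3
    have g4 := hana (G i) (H i) (K i) (M i) (by have := g1; rw [hLd] at this; exact this)
      (by have := g2; rw [hLd] at this; exact this) (by have := gK; rw [hLd] at this; exact this)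
      (by have := g3; rw [hLd] at this; exact this)
    have g5 : 3 * L ≤ M i * p i := by rw [hLd]; exact g4
    rw [Real.norm_eq_abs, abs_of_nonneg (by positivity)]
    have g6 : (1 / 2 : ℝ) ^ i = Real.exp (-L) := by
      rw [Real.exp_neg, hexp, one_div, inv_pow]
    rw [g6]
    calc (K i : ℝ) * Real.exp (-(M i * p i)) ≤ Real.exp (β * L) * Real.exp (-(3 * L)) :=
          mul_le_mul gK (Real.exp_le_exp.2 (by linarith)) (Real.exp_pos _).le (Real.exp_pos _).le
      _ ≤ Real.exp (-L) := by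
          rw [← Real.exp_add]
          apply Real.exp_le_exp.2
          nlinarith
  have main := ev_groups (μ := μ) (N := K) hDm p hpr hsum
  filter_upwards [main, hd] with ω hω h2
  obtain ⟨n₀, hn₀⟩ := no_VF h2 hδ0
  filter_upwards [hω, eventually_ge_atTop n₀] with i h3 hi
  choose! mm hmm1 hmm2 using h3
  have hin : ∀ g, g < K i → 2 ^ i < s i g + H i * mm g + 1 ∧ s i g + H i * mm g + 1 ≤ 2 ^ (i + 1) := by
    intro g hg
    have h4 := hTM i g (mm g) hg (hmm1 g hg)
    have h5 := hge i g (mm g)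
    have h6 := hHpos i
    omega
  refine ⟨(Finset.range (K i)).image fun g => s i g + H i * mm g + 1, ?_, ?_⟩
  · rw [Finset.card_image_of_injOn, Finset.card_range]
    have hlt : ∀ g g', g < K i → g' < K i → g < g' →
        s i g + H i * mm g + 1 < s i g' + H i * mm g' + 1 := by
      intro g g' hg hg' hlt
      have h4 : H i * (mm g + 1) ≤ H i * M i := Nat.mul_le_mul_left _ (hmm1 g hg)
      have h5 : H i * M i * (g + 1) ≤ H i * M i * g' := Nat.mul_le_mul_left _ (by omega)
      have h6 := hHpos i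
      have e1 : H i * (mm g + 1) = H i * mm g + H i := by ring
      have e2 : H i * M i * (g + 1) = H i * M i * g + H i * M i := by ring
      simp only [hs]
      omega
    intro g hg g' hg' he
    have hg := Finset.mem_range.1 (Finset.mem_coe.1 hg)
    have hg' := Finset.mem_range.1 (Finset.mem_coe.1 hg')
    by_contra hne
    rcases lt_or_gt_of_ne hne with h | h
    · exact absurd he (hlt g g' hg hg' h).ne
    · exact absurd he (hlt g' g hg' hg h).ne'
  · intro t ht
    obtain ⟨g, hg, rfl⟩ := Finset.mem_image.1 ht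
    have hg := Finset.mem_range.1 hg
    obtain ⟨b1, b2⟩ := hin g hg
    refine ⟨b1, b2, ?_⟩
    rcases hmm2 g hg with h4 | ⟨n, hn1, _, hn3⟩
    · obtain ⟨h5, h6⟩ := mem_pat_rp A (G i) (s i g + H i * mm g) ω h4
      refine ⟨h5, ?_⟩
      rw [cnt_zero]
      intro r hr1 hr2
      have h7 := h6 (r - (s i g + H i * mm g + 1)) (by omega) ?_
      · rwa [show s i g + H i * mm g + 1 + (r - (s i g + H i * mm g + 1)) = r by omega] at h7
      · have h8 : wl lam (s i g + H i * mm g + 1) ≤ G i := by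
          have h9 := hlogT i g (mm g) hg (hmm1 g hg) (s i g + H i * mm g + 1) (by omega)
            (by have := hHpos i; omega)
          obtain ⟨h10, h11⟩ := h9
          have h12 : 0 ≤ Real.log ((s i g + H i * mm g + 1 : ℕ) : ℝ) := Real.log_natCast_nonneg _
          apply Nat.floor_le_floor
          apply mul_le_mul_of_nonneg_left _ h0.le
          exact pow_le_pow_left₀ h12 h11 2
        omega
    · refine absurd hn3 (hn₀ n ?_)
      have := hge i g (mm g)
      have h9 : i < 2 ^ i := Nat.lt_two_pow_self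
      omega

end Pool.Agent.N957.SQ
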