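import Mathlib
import Pool.Agent.N740.HK.Trials

/-!
# Upper bound for the number of large gaps
-/

set_option autoImplicit false
set_option linter.unusedSectionVars false

open MeasureTheory Filter Set
open scoped ENNReal Topology NNReal

namespace Pool.Agent.N957.SQ

open Pool.Agent.R528.RM Pool.Agent.N740.HK

variable {Ω : Type} {m0 : MeasurableSpace Ω} {μ : Measure Ω} [IsProbabilityMeasure μ]
  {ℱ : Filtration ℕ m0} {A : ℕ → Set Ω}

/-- first moments: weighted sums of indicators are finite almost surely -/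
theorem ae_weighted (E : ℕ → Set Ω) (hE : ∀ t, MeasurableSet (E t)) (w : ℕ → ℝ) (hw : ∀ t, 0 ≤ w t)
    (hs : Summable fun t => w t * μ.real (E t)) :
    ∀ᵐ ω ∂μ, ∃ K : ℝ, 0 ≤ K ∧ ∀ s : Finset ℕ, (∀ t ∈ s, ω ∈ E t) → ∑ t ∈ s, w t ≤ K := by
  set f : ℕ → Ω → ℝ≥0∞ := fun t => (E t).indicator fun _ => ENNReal.ofReal (w t) with hf
  have hfm : ∀ t, Measurable (f t) := fun t => measurable_const.indicator (hE t)
  have h1 : ∫⁻ ω, ∑' t, f t ω ∂μ ≠ ⊤ := by
    rw [lintegral_tsum fun t => (hfm t).aemeasurable]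
    have h2 : ∀ t, ∫⁻ ω, f t ω ∂μ = ENNReal.ofReal (w t * μ.real (E t)) := by
      intro t
      rw [lintegral_indicator_const (hE t), ENNReal.ofReal_mul (hw t),
        ofReal_measureReal (measure_ne_top _ _)]
    simp_rw [h2]
    rw [← ENNReal.ofReal_tsum_of_nonneg (fun t => mul_nonneg (hw t) measureReal_nonneg) hs]
    exact ENNReal.ofReal_ne_top
  have h3 := ae_lt_top' (Measurable.ennreal_tsum hfm).aemeasurable h1
  filter_upwards [h3] with ω hω
  refine ⟨(∑' t, f t ω).toReal, ENNReal.toReal_nonneg, fun s hs => ?_⟩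
  have h4 : ENNReal.ofReal (∑ t ∈ s, w t) ≤ ∑' t, f t ω := by
    rw [ENNReal.ofReal_sum_of_nonneg fun t _ => hw t]
    refine le_trans (Finset.sum_le_sum fun t ht => ?_) (ENNReal.sum_le_tsum s)
    simp only [hf, indicator_of_mem (hs t ht), le_refl]
  exact (ENNReal.ofReal_le_iff_le_toReal hω.ne).1 h4

/-- the probability of a large gap after `t` -/
theorem prob_le (hA : ∀ n, MeasurableSet[ℱ n] (A n)) {lam δ : ℝ} (h0 : 0 < lam) (h1 : lam ≤ 1)
    (hδ0 : 0 ≤ δ) (hδ1 : δ ≤ 1) : ∀ᶠ t : ℕ in atTop,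
      μ.real ({ω | cnt A t (wl lam t) ω = 0} \ WV (VF μ ℱ A δ) t (wl lam t)) ≤
        Real.exp 2 * (t : ℝ) ^ (-((1 - δ) * lam)) := by
  have e1 : ∀ᶠ x : ℝ in atTop, Real.log x ^ 2 ≤ x := by
    have h3 := (Real.isLittleO_pow_log_id_atTop (n := 2)).def (show (0 : ℝ) < 1 by norm_num)
    filter_upwards [h3, eventually_ge_atTop 1] with x h3 h6
    rw [Real.norm_of_nonneg (by positivity), id, Real.norm_of_nonneg (by linarith)] at h3
    linarith
  filter_upwards [tendsto_natCast_atTop_atTop.eventually e1, tendsto_logN.eventually_ge_atTop 2,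
    eventually_ge_atTop 1] with t ht hL ht1
  have ht0 : (0 : ℝ) < t := by exact_mod_cast ht1
  obtain ⟨L, hLd⟩ : ∃ L, L = Real.log (t : ℝ) := ⟨_, rfl⟩
  obtain ⟨g, hg⟩ : ∃ g, g = wl lam t := ⟨_, rfl⟩
  have hg1 : (g : ℝ) ≤ lam * L ^ 2 := by
    rw [hg, hLd]
    exact Nat.floor_le (by positivity)
  have hg2 : lam * L ^ 2 < g + 1 := by
    rw [hg, hLd]
    exact Nat.lt_floor_add_one _
  rw [← hLd] at ht hL
  have hL0 : 0 ≤ L ^ 2 := sq_nonneg L
  have hgt : (g : ℝ) ≤ t := by nlinarith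
  have hlog2 : Real.log ((t + g : ℕ) : ℝ) ≤ L + 1 := by
    have h2 : ((t + g : ℕ) : ℝ) ≤ 2 * t := by push_cast; linarith
    have h3 : Real.log ((t + g : ℕ) : ℝ) ≤ Real.log (2 * t) :=
      Real.log_le_log (by push_cast; positivity) h2
    rw [Real.log_mul (by norm_num) ht0.ne', ← hLd] at h3
    have h4 := Real.log_two_lt_d9
    linarith
  have hw := win_upper (μ := μ) hA hδ0 hδ1 (L := L) (by linarith) (t := t) (g := g) hLd.le hlog2
  rw [← hg]
  refine hw.trans ?_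
  have hy0 : 0 ≤ (1 - δ) / (L + 1) := div_nonneg (by linarith) (by linarith)
  have hy1 : (1 - δ) / (L + 1) ≤ 1 := by rw [div_le_one (by linarith)]; linarith
  calc (1 - (1 - δ) / (L + 1)) ^ g ≤ Real.exp (-((1 - δ) / (L + 1))) ^ g := by
        apply pow_le_pow_left₀ (by linarith)
        have := Real.add_one_le_exp (-((1 - δ) / (L + 1)))
        linarith
    _ = Real.exp (-(g * ((1 - δ) / (L + 1)))) := by
        rw [← Real.exp_nat_mul]
        congr 1
        ring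
    _ ≤ Real.exp (2 + L * (-((1 - δ) * lam))) := by
        apply Real.exp_le_exp.2
        have h5 : (lam * L ^ 2 - 1) * ((1 - δ) / (L + 1)) ≤ g * ((1 - δ) / (L + 1)) :=
          mul_le_mul_of_nonneg_right (by linarith) hy0
        have h6 : (1 - δ) * lam * (L - 1) - 1 ≤ (lam * L ^ 2 - 1) * ((1 - δ) / (L + 1)) := by
          rw [mul_div_assoc', le_div_iff₀ (by linarith)]
          have h7 : 0 ≤ 1 - δ := by linarith
          have h8 : 0 ≤ (1 - δ) * lam := mul_nonneg h7 h0.le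
          nlinarith
        have h9 : (1 - δ) * lam ≤ 1 := by nlinarith
        nlinarith
    _ = Real.exp 2 * (t : ℝ) ^ (-((1 - δ) * lam)) := by
        rw [Real.exp_add, Real.rpow_def_of_pos ht0, ← hLd]

/-- **the upper bound** -/
theorem upper (hA : ∀ n, MeasurableSet[ℱ n] (A n))
    (hd : ∀ᵐ ω ∂μ, Tendsto (fun n : ℕ => dens μ ℱ A n ω * Real.log n) atTop (𝓝 1))
    {lam ε : ℝ} (h0 : 0 < lam) (h1 : lam ≤ 1) (hε : 0 < ε) :
    ∀ᵐ ω ∂μ, ∃ K : ℝ, ∀ x : ℕ, 1 ≤ x → ∀ P : Finset ℕ,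
      (∀ t ∈ P, t ≤ x ∧ cnt A t (wl lam t) ω = 0) → (P.card : ℝ) ≤ K * (x : ℝ) ^ (1 - lam + ε) := by
  classical
  obtain ⟨δ, hδ0, hδ1, hδε⟩ : ∃ δ : ℝ, 0 < δ ∧ δ ≤ 1 ∧ δ * lam ≤ ε / 2 := by
    refine ⟨min 1 (ε / 2), lt_min one_pos (by positivity), min_le_left _ _, ?_⟩
    have h2 : min 1 (ε / 2) ≤ ε / 2 := min_le_right _ _
    have h3 : 0 ≤ min 1 (ε / 2) := le_min zero_le_one (by positivity)
    nlinarith
  set a : ℝ := 1 - lam + ε with ha
  have ha0 : 0 < a := by linarith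
  set E : ℕ → Set Ω := fun t => {ω | cnt A t (wl lam t) ω = 0} \ WV (VF μ ℱ A δ) t (wl lam t) with hE
  have hEm : ∀ t, MeasurableSet (E t) := fun t =>
    (ℱ.le _ _ (cnt_meas hA t (wl lam t) 0)).diff (ℱ.le _ _ (WV_meas (fun n => VF_meas δ n) t (wl lam t)))
  have hs : Summable fun t : ℕ => (t : ℝ) ^ (-a) * μ.real (E t) := by
    have hs1 : Summable fun t : ℕ => Real.exp 2 * (t : ℝ) ^ (-(1 + ε / 2)) :=
      (Real.summable_nat_rpow.2 (by linarith)).mul_left _
    refine Summable.of_norm_bounded_eventually_nat hs1 ?_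
    filter_upwards [prob_le (μ := μ) (ℱ := ℱ) hA h0 h1 hδ0.le hδ1, eventually_ge_atTop 1] with t ht ht1
    have ht0 : (1 : ℝ) ≤ t := by exact_mod_cast ht1
    rw [Real.norm_of_nonneg (mul_nonneg (Real.rpow_nonneg (by linarith) _) measureReal_nonneg)]
    calc (t : ℝ) ^ (-a) * μ.real (E t) ≤ (t : ℝ) ^ (-a) * (Real.exp 2 * (t : ℝ) ^ (-((1 - δ) * lam))) :=
          mul_le_mul_of_nonneg_left ht (Real.rpow_nonneg (by linarith) _)
      _ = Real.exp 2 * ((t : ℝ) ^ (-a) * (t : ℝ) ^ (-((1 - δ) * lam))) := by ring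
      _ = Real.exp 2 * (t : ℝ) ^ (-a + -((1 - δ) * lam)) := by rw [Real.rpow_add (by linarith)]
      _ ≤ Real.exp 2 * (t : ℝ) ^ (-(1 + ε / 2)) := by
          apply mul_le_mul_of_nonneg_left _ (Real.exp_pos _).le
          apply Real.rpow_le_rpow_of_exponent_le ht0
          rw [ha]
          linarith
  have hmain := ae_weighted (μ := μ) E hEm (fun t => (t : ℝ) ^ (-a)) (fun t => Real.rpow_nonneg (Nat.cast_nonneg t) _) hs
  filter_upwards [hmain, hd] with ω hω h2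
  obtain ⟨K, hK0, hK⟩ := hω
  obtain ⟨n₀, hn₀⟩ := no_VF h2 hδ0
  refine ⟨K + (n₀ + 1), fun x hx P hP => ?_⟩
  have hx1 : (1 : ℝ) ≤ x := by exact_mod_cast hx
  have hxa : 1 ≤ (x : ℝ) ^ a := Real.one_le_rpow hx1 ha0.le
  set P1 := P.filter fun t => n₀ + 1 ≤ t with hP1
  set P2 := P.filter fun t => ¬ n₀ + 1 ≤ t with hP2
  have hc : P1.card + P2.card = P.card := Finset.card_filter_add_card_filter_not _
  have hc2 : P2.card ≤ n₀ + 1 := by
    calc P2.card ≤ (Finset.range (n₀ + 1)).card := Finset.card_le_card fun t ht => by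
          rw [hP2, Finset.mem_filter] at ht
          exact Finset.mem_range.2 (by omega)
      _ = n₀ + 1 := Finset.card_range _
  have hc1 : (P1.card : ℝ) * (x : ℝ) ^ (-a) ≤ K := by
    refine le_trans ?_ (hK P1 fun t ht => ?_)
    · rw [← nsmul_eq_mul, ← Finset.sum_const]
      refine Finset.sum_le_sum fun t ht => ?_
      rw [hP1, Finset.mem_filter] at ht
      have ht0 : (0 : ℝ) < t := by
        have : 0 < t := by omega
        exact_mod_cast this
      have htx : (t : ℝ) ≤ x := by exact_mod_cast (hP t ht.1).1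
      exact Real.rpow_le_rpow_of_nonpos ht0 htx (by linarith)
    · rw [hP1, Finset.mem_filter] at ht
      refine ⟨(hP t ht.1).2, ?_⟩
      rintro ⟨n, hn1, _, hn3⟩
      exact hn₀ n (by omega) hn3
  have hc3 : (P1.card : ℝ) ≤ K * (x : ℝ) ^ a := by
    have hxp : (0 : ℝ) < (x : ℝ) ^ a := by linarith
    rw [Real.rpow_neg (by linarith), ← div_eq_mul_inv, div_le_iff₀ hxp] at hc1
    exact hc1
  have hc4 : (P.card : ℝ) = P1.card + P2.card := by exact_mod_cast hc.symm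
  have hc5 : (P2.card : ℝ) ≤ n₀ + 1 := by exact_mod_cast hc2
  have hn : (0 : ℝ) ≤ (n₀ : ℝ) + 1 := by positivity
  rw [hc4]
  nlinarith

end Pool.Agent.N957.SQ
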